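import Pool.Agent.H80.Poly.More

/-!
# The algorithm and its polynomial running time
-/

set_option autoImplicit false

namespace Pool.Agent.H38.SC

open Pool.Agent.H80.Poly

/-- membership test -/
def memb {β : Type} [DecidableEq β] (a : β) (l : List β) : Bool := decide (a ∈ l)

theorem memb_iff {β : Type} [DecidableEq β] {a : β} {l : List β} : memb a l = true ↔ a ∈ l := by
  unfold memb; simp

theorem poly_memb {α β : Type} [BEnc α] [BEnc β] [DecidableEq β] {f : α → β} {l : α → List β}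
    (hf : PolyTime f) (hl : PolyTime l) : PolyTime (fun a => memb (f a) (l a)) :=
  PolyTime.mem hf hl

/-- is `{a, b, c}` a listed triangle? -/
def isT (ts : List (ℕ × ℕ × ℕ)) (a b c : ℕ) : Bool :=
  ((memb (a, b, c) ts || memb (a, c, b) ts) ||
    (memb (b, a, c) ts || memb (b, c, a) ts)) ||
    (memb (c, a, b) ts || memb (c, b, a) ts)

/-- lists of length `k` with entries in `vs` -/
def tup : ℕ → List ℕ → List (List ℕ)
  | 0, _ => [[]]
  | k + 1, vs => (tup k vs).flatMap (fun t => vs.map (fun a => a :: t))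

/-- pairs -/
def prs (vs : List ℕ) : List (ℕ × ℕ) := vs.flatMap (fun a => vs.map (fun b => (a, b)))

/-- the seeds -/
def seedB (pats : List (List (ℕ × ℕ × ℕ))) (K : ℕ) (vs : List ℕ) (ts : List (ℕ × ℕ × ℕ))
    (v b c : ℕ) : Bool :=
  (tup K vs).any (fun t => pats.any (fun π => π.all (fun f =>
    isT ts ((v :: b :: c :: t).getD f.1 v) ((v :: b :: c :: t).getD f.2.1 v)
      ((v :: b :: c :: t).getD f.2.2 v))))

/-- first list of certified pairs -/
def initL (pats : List (List (ℕ × ℕ × ℕ))) (K : ℕ) (vs : List ℕ) (ts : List (ℕ × ℕ × ℕ))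
    (v : ℕ) : List (ℕ × ℕ) :=
  (prs vs).filter (fun q => isT ts v q.1 q.2 || seedB pats K vs ts v q.1 q.2)

/-- one round of the closure -/
def stepL (vs : List ℕ) (ts : List (ℕ × ℕ × ℕ)) (L : List (ℕ × ℕ)) : List (ℕ × ℕ) :=
  (prs vs).filter (fun q => (memb q L || memb (q.2, q.1) L) ||
    vs.any (fun x => (memb (q.1, x) L && memb (x, q.2) L) && isT ts q.1 x q.2))

/-- the closure -/
def cloL (pats : List (List (ℕ × ℕ × ℕ))) (K : ℕ) (vs : List ℕ) (ts : List (ℕ × ℕ × ℕ))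
    (v : ℕ) : List (ℕ × ℕ) :=
  (prs vs).foldl (fun L _ => stepL vs ts L) (initL pats K vs ts v)

/-- are all pairs certified from `v`? -/
def okV (pats : List (List (ℕ × ℕ × ℕ))) (K : ℕ) (vs : List ℕ) (ts : List (ℕ × ℕ × ℕ))
    (v : ℕ) : Bool :=
  (prs vs).all (fun q => ((decide (q.1 = q.2) || decide (q.1 = v)) || decide (q.2 = v)) ||
    memb q (cloL pats K vs ts v))

/-- the algorithm -/
def alg (pats : List (List (ℕ × ℕ × ℕ))) (K : ℕ)
    (x : List ℕ × List (ℕ × ℕ) × List (ℕ × ℕ × ℕ)) : Bool :=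
  (prs x.1).all (fun q => (decide (q.1 = q.2) || memb q x.2.1) ||
    memb (q.2, q.1) x.2.1) && x.1.any (fun v => okV pats K x.1 x.2.2 v)

section

variable {α : Type} [BEnc α]

theorem poly_isT {ts : α → List (ℕ × ℕ × ℕ)} {a b c : α → ℕ} (hts : PolyTime ts)
    (ha : PolyTime a) (hb : PolyTime b) (hc : PolyTime c) :
    PolyTime (fun x => isT (ts x) (a x) (b x) (c x)) := by
  have h : ∀ {f g h : α → ℕ}, PolyTime f → PolyTime g → PolyTime h →
      PolyTime (fun x => memb (f x, g x, h x) (ts x)) :=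
    fun hf hg hh => poly_memb (hf.pair (hg.pair hh)) hts
  exact (((h ha hb hc).or (h ha hc hb)).or ((h hb ha hc).or (h hb hc ha))).or
    ((h hc ha hb).or (h hc hb ha))

theorem poly_tup (k : ℕ) {vs : α → List ℕ} (h : PolyTime vs) : PolyTime (fun x => tup k (vs x)) := by
  induction k with
  | zero => exact PolyTime.const _
  | succ k ih =>
    have hz : PolyTime (fun z : α × List ℕ => z) := PolyTime.id
    have hw : PolyTime (fun w : (α × List ℕ) × ℕ => w) := PolyTime.id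
    have h1 : PolyTime (fun z : α × List ℕ => (vs z.1).map (fun a => a :: z.2)) :=
      PolyTime.map (l := fun z : α × List ℕ => vs z.1) (g := fun w => w.2 :: w.1.2)
        (h.comp hz.fst) (hw.snd.cons hw.fst.snd)
    exact PolyTime.flatMap ih h1

theorem poly_prs {vs : α → List ℕ} (h : PolyTime vs) : PolyTime (fun x => prs (vs x)) := by
  have hz : PolyTime (fun z : α × ℕ => z) := PolyTime.id
  have hw : PolyTime (fun w : (α × ℕ) × ℕ => w) := PolyTime.id
  have h1 : PolyTime (fun z : α × ℕ => (vs z.1).map (fun b => (z.2, b))) :=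
    PolyTime.map (l := fun z : α × ℕ => vs z.1) (g := fun w => (w.1.2, w.2))
      (h.comp hz.fst) (hw.fst.snd.pair hw.snd)
  exact PolyTime.flatMap h h1

theorem poly_seedB (pats : List (List (ℕ × ℕ × ℕ))) (K : ℕ) {vs : α → List ℕ}
    {ts : α → List (ℕ × ℕ × ℕ)} {v b c : α → ℕ} (hvs : PolyTime vs) (hts : PolyTime ts)
    (hv : PolyTime v) (hb : PolyTime b) (hc : PolyTime c) :
    PolyTime (fun x => seedB pats K (vs x) (ts x) (v x) (b x) (c x)) := by
  have hw : PolyTime (fun w : ((α × List ℕ) × List (ℕ × ℕ × ℕ)) × (ℕ × ℕ × ℕ) => w) :=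
    PolyTime.id
  have hl : PolyTime (fun w : ((α × List ℕ) × List (ℕ × ℕ × ℕ)) × (ℕ × ℕ × ℕ) =>
      v w.1.1.1 :: b w.1.1.1 :: c w.1.1.1 :: w.1.1.2) :=
    (hv.comp hw.fst.fst.fst).cons ((hb.comp hw.fst.fst.fst).cons
      ((hc.comp hw.fst.fst.fst).cons hw.fst.fst.snd))
  have hd := hv.comp hw.fst.fst.fst
  have h0 : PolyTime (fun w : ((α × List ℕ) × List (ℕ × ℕ × ℕ)) × (ℕ × ℕ × ℕ) =>
      isT (ts w.1.1.1)
        ((v w.1.1.1 :: b w.1.1.1 :: c w.1.1.1 :: w.1.1.2).getD w.2.1 (v w.1.1.1))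
        ((v w.1.1.1 :: b w.1.1.1 :: c w.1.1.1 :: w.1.1.2).getD w.2.2.1 (v w.1.1.1))
        ((v w.1.1.1 :: b w.1.1.1 :: c w.1.1.1 :: w.1.1.2).getD w.2.2.2 (v w.1.1.1))) :=
    poly_isT (hts.comp hw.fst.fst.fst) (PolyTime.list_getD hl hw.snd.fst hd)
      (PolyTime.list_getD hl hw.snd.snd.fst hd) (PolyTime.list_getD hl hw.snd.snd.snd hd)
  have h1 := PolyTime.all (l := fun z : (α × List ℕ) × List (ℕ × ℕ × ℕ) => z.2)
    PolyTime.snd' h0
  have h2 := PolyTime.any (l := fun _ : α × List ℕ => pats) (PolyTime.const _) h1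
  exact PolyTime.any (poly_tup K hvs) h2

theorem poly_initL (pats : List (List (ℕ × ℕ × ℕ))) (K : ℕ) {vs : α → List ℕ}
    {ts : α → List (ℕ × ℕ × ℕ)} {v : α → ℕ} (hvs : PolyTime vs) (hts : PolyTime ts)
    (hv : PolyTime v) : PolyTime (fun x => initL pats K (vs x) (ts x) (v x)) := by
  have hz : PolyTime (fun z : α × (ℕ × ℕ) => z) := PolyTime.id
  exact PolyTime.filter (poly_prs hvs)
    ((poly_isT (hts.comp hz.fst) (hv.comp hz.fst) hz.snd.fst hz.snd.snd).or
      (poly_seedB pats K (hvs.comp hz.fst) (hts.comp hz.fst) (hv.comp hz.fst) hz.snd.fst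
        hz.snd.snd))

theorem poly_stepL {vs : α → List ℕ} {ts : α → List (ℕ × ℕ × ℕ)} {L : α → List (ℕ × ℕ)}
    (hvs : PolyTime vs) (hts : PolyTime ts) (hL : PolyTime L) :
    PolyTime (fun x => stepL (vs x) (ts x) (L x)) := by
  have hz : PolyTime (fun z : α × (ℕ × ℕ) => z) := PolyTime.id
  have hw : PolyTime (fun w : (α × (ℕ × ℕ)) × ℕ => w) := PolyTime.id
  have h1 : PolyTime (fun w : (α × (ℕ × ℕ)) × ℕ =>
      (memb (w.1.2.1, w.2) (L w.1.1) && memb (w.2, w.1.2.2) (L w.1.1)) &&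
        isT (ts w.1.1) w.1.2.1 w.2 w.1.2.2) :=
    ((poly_memb (hw.fst.snd.fst.pair hw.snd) (hL.comp hw.fst.fst)).and
      (poly_memb (hw.snd.pair hw.fst.snd.snd) (hL.comp hw.fst.fst))).and
      (poly_isT (hts.comp hw.fst.fst) hw.fst.snd.fst hw.snd hw.fst.snd.snd)
  exact PolyTime.filter (poly_prs hvs)
    (((poly_memb hz.snd (hL.comp hz.fst)).or
      (poly_memb (hz.snd.snd.pair hz.snd.fst) (hL.comp hz.fst))).or
      (PolyTime.any (l := fun z : α × (ℕ × ℕ) => vs z.1) (hvs.comp hz.fst) h1))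

theorem size_sublist {β : Type} [BEnc β] {l l' : List β} (h : l.Sublist l') :
    size l ≤ size l' := by
  induction h with
  | slnil => exact le_rfl
  | cons a _ ih => rw [size_cons]; omega
  | cons_cons a _ ih => rw [size_cons, size_cons]; omega

theorem stepL_sublist (vs : List ℕ) (ts : List (ℕ × ℕ × ℕ)) (L : List (ℕ × ℕ)) :
    (stepL vs ts L).Sublist (prs vs) := List.filter_sublist

theorem poly_cloL (pats : List (List (ℕ × ℕ × ℕ))) (K : ℕ) {vs : α → List ℕ}
    {ts : α → List (ℕ × ℕ × ℕ)} {v : α → ℕ} (hvs : PolyTime vs) (hts : PolyTime ts)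
    (hv : PolyTime v) : PolyTime (fun x => cloL pats K (vs x) (ts x) (v x)) := by
  have hw : PolyTime (fun w : α × List (ℕ × ℕ) × (ℕ × ℕ) => w) := PolyTime.id
  obtain ⟨b, hb, hbs⟩ := (poly_prs hvs).size_le
  exact PolyTime.foldl_inv (poly_prs hvs) (poly_initL pats K hvs hts hv)
    (h := fun w : α × List (ℕ × ℕ) × (ℕ × ℕ) => stepL (vs w.1) (ts w.1) w.2.1)
    (poly_stepL (hvs.comp hw.fst) (hts.comp hw.fst) hw.snd.fst)
    (fun a s => s.Sublist (prs (vs a))) (fun a => List.filter_sublist)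
    (fun a s x _ _ => stepL_sublist _ _ _)
    ⟨b, hb, fun a s hs => (size_sublist hs).trans (hbs a)⟩

theorem poly_okV (pats : List (List (ℕ × ℕ × ℕ))) (K : ℕ) {vs : α → List ℕ}
    {ts : α → List (ℕ × ℕ × ℕ)} {v : α → ℕ} (hvs : PolyTime vs) (hts : PolyTime ts)
    (hv : PolyTime v) : PolyTime (fun x => okV pats K (vs x) (ts x) (v x)) := by
  have hz : PolyTime (fun z : α × (ℕ × ℕ) => z) := PolyTime.id
  exact PolyTime.all (poly_prs hvs)
    ((((PolyTime.eq hz.snd.fst hz.snd.snd).or (PolyTime.eq hz.snd.fst (hv.comp hz.fst))).or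
      (PolyTime.eq hz.snd.snd (hv.comp hz.fst))).or
      (poly_memb hz.snd (poly_cloL pats K (hvs.comp hz.fst) (hts.comp hz.fst)
        (hv.comp hz.fst))))

end

theorem poly_alg (pats : List (List (ℕ × ℕ × ℕ))) (K : ℕ) : PolyTime (alg pats K) := by
  have hx : PolyTime (fun x : List ℕ × List (ℕ × ℕ) × List (ℕ × ℕ × ℕ) => x) := PolyTime.id
  have hz : PolyTime (fun z : (List ℕ × List (ℕ × ℕ) × List (ℕ × ℕ × ℕ)) × (ℕ × ℕ) => z) :=
    PolyTime.id
  have hy : PolyTime (fun z : (List ℕ × List (ℕ × ℕ) × List (ℕ × ℕ × ℕ)) × ℕ => z) :=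
    PolyTime.id
  have h1 := PolyTime.all (poly_prs hx.fst)
    (((PolyTime.eq hz.snd.fst hz.snd.snd).or (poly_memb hz.snd hz.fst.snd.fst)).or
      (poly_memb (hz.snd.snd.pair hz.snd.fst) hz.fst.snd.fst))
  have h2 := PolyTime.any hx.fst (poly_okV pats K hy.fst.fst hy.fst.snd.snd hy.snd)
  exact h1.and h2

end Pool.Agent.H38.SC
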