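import Pool.Agent.H38.SC.Stage

/-!
# The probabilistic theorem
-/

set_option autoImplicit false

namespace Pool.Agent.H38.SC

open Finset EF

section

variable {V : Type*} [DecidableEq V]

theorem pow_half {n K : ℕ} (hn : 2 * K * (K + 2) + K + 3 ≤ n) :
    (n : ℝ) ^ K / 2 ≤ ((n - 3 + 1 - K : ℕ) : ℝ) ^ K := by
  rcases Nat.eq_zero_or_pos K with hK | hK
  · subst hK; norm_num
  have hn0 : (0 : ℝ) < n := by
    have : 0 < n := by omega
    exact_mod_cast this
  have e1 : ((n - 3 + 1 - K : ℕ) : ℝ) = n - (K + 2) := by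
    have : n - 3 + 1 - K = n - (K + 2) := by omega
    rw [this, Nat.cast_sub (by omega)]
    push_cast; ring
  rw [e1]
  have h1 : (n : ℝ) - (K + 2) = n * (1 + -((K + 2) / n)) := by field_simp; ring
  rw [h1, mul_pow]
  have h2 : (1 : ℝ) + K * (-((K + 2) / n)) ≤ (1 + -((K + 2) / n)) ^ K := by
    apply one_add_mul_le_pow
    have : ((K : ℝ) + 2) / n ≤ 1 := by
      rw [div_le_one hn0]
      have : K + 2 ≤ n := by nlinarith
      exact_mod_cast this
    linarith
  have h3 : (K : ℝ) * ((K + 2) / n) ≤ 1 / 2 := by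
    rw [mul_div_assoc', div_le_div_iff₀ hn0 (by norm_num)]
    have : 2 * K * (K + 2) ≤ n := by omega
    have : (2 * K * (K + 2) : ℝ) ≤ n := by exact_mod_cast this
    linarith
  have h4 : (0 : ℝ) < (n : ℝ) ^ K := by positivity
  nlinarith

theorem P0_lower {U : Finset V} {v a : V} {R : Finset V} {K m : ℕ} (hv : v ∈ U) (ha : a ∈ U)
    (hva : v ≠ a) (hR : R ⊆ U) (hvR : v ∉ R) (haR : a ∉ R) (hm : R.card = m)
    {c y : ℝ} (hc0 : 0 < c) (hy : 0 < y) (hyn : y ^ 2 = (U.card : ℝ))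
    (hn : 2 * K * (K + 2) + K + 3 ≤ U.card) (hnm : U.card ≤ 4 * m) :
    (bb 1 0 K : ℝ) * c ^ (2 * K + 1) / 8 * y ≤
      ((JS U v a R K).card : ℝ) * (c / y) ^ (2 * K + 1) := by
  have h1 : (m : ℝ) * ((U.card : ℝ) ^ K / 2 * bb 1 0 K) ≤ (JS U v a R K).card := by
    have h2 : ∀ x ∈ R, ((U.card : ℝ) ^ K / 2 * bb 1 0 K) ≤ (JJ U v a K x).card := by
      intro x hx
      have h3 := JJ_card (K := K) hv ha (hR hx) hva (by rintro rfl; exact hvR hx)
        (by rintro rfl; exact haR hx)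
      have h4 : (U.card - 3 + 1 - K) ^ K ≤ (U.card - 3).choose K * K.factorial := by
        rw [mul_comm, ← Nat.descFactorial_eq_factorial_mul_choose]
        exact Nat.pow_sub_le_descFactorial _ _
      have h5 : ((U.card - 3 + 1 - K : ℕ) : ℝ) ^ K * bb 1 0 K ≤ (JJ U v a K x).card := by
        have h6 : (U.card - 3 + 1 - K) ^ K * bb 1 0 K ≤ (JJ U v a K x).card := by
          refine le_trans ?_ h3
          rw [← mul_assoc]
          exact Nat.mul_le_mul_right _ h4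
        exact_mod_cast h6
      refine le_trans ?_ h5
      exact mul_le_mul_of_nonneg_right (pow_half hn) (Nat.cast_nonneg _)
    have h3 := sum_le_sum h2
    rw [sum_const, hm, nsmul_eq_mul] at h3
    refine h3.trans (le_of_eq ?_)
    unfold JS
    rw [card_sigma]
    push_cast
    rfl
  have h2 : (U.card : ℝ) ≤ 4 * m := by exact_mod_cast hnm
  have h3 : 0 ≤ (c / y) ^ (2 * K + 1) := by positivity
  refine le_trans ?_ (mul_le_mul_of_nonneg_right h1 h3)
  have h4 : (U.card : ℝ) / 4 * ((U.card : ℝ) ^ K / 2 * bb 1 0 K) * (c / y) ^ (2 * K + 1) ≤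
      (m : ℝ) * ((U.card : ℝ) ^ K / 2 * bb 1 0 K) * (c / y) ^ (2 * K + 1) := by
    apply mul_le_mul_of_nonneg_right _ h3
    apply mul_le_mul_of_nonneg_right _ (by positivity)
    linarith
  refine le_trans (le_of_eq ?_) h4
  rw [← hyn, div_pow]
  have : y ≠ 0 := hy.ne'
  have e : y ^ (2 * K + 1) = (y ^ 2) ^ K * y := by rw [pow_succ, pow_mul]
  rw [e]
  field_simp
  ring

/-- the good event after the first stage -/
def Good1 (cls : Fin 3 → Finset V) (m K : ℕ) (v : V) (d : ℝ) (Z : Finset (Finset V)) : Prop :=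
  ∃ A : Fin 3 → Finset V, (∀ i, A i ⊆ cls i) ∧ (∀ i, (m : ℝ) * (7 / 8) ≤ (A i).card) ∧
    ∀ i k, i ≠ k → ∀ a ∈ A i, d ≤ ((nb (Sd' K v Z) (cls k) a).card : ℝ)

theorem stage_one {U : Finset V} {v : V} {m : ℕ} {cls : Fin 3 → Finset V} (hC : Cl U v m cls)
    (hm : 0 < m) {K : ℕ} {c y M : ℝ} (hc0 : 0 < c) (hc1 : c ≤ 1) (hy : 0 < y)
    (hyn : y ^ 2 = (U.card : ℝ)) (hn : 2 * K * (K + 2) + K + 3 ≤ U.card) (hnm : U.card ≤ 4 * m)
    (hM : M = (bb 1 0 K : ℝ) * c ^ (2 * K + 1)) (hMpos : 0 < M)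
    (hp0 : 0 ≤ c / y) (hp1 : c / y ≤ 1) :
    1 - 72 * (4 * CK K / (M / 8) ^ 2 + 4 * CK K / (M / 8)) / y ≤
      (bern (powersetCard 3 U) (c / y) hp0 hp1).P (Good1 cls m K v (M / 32 * y)) := by
  classical
  set μ := bern (powersetCard 3 U) (c / y) hp0 hp1 with hμ
  obtain ⟨C', hC'⟩ : ∃ C', C' = 4 * CK K / (M / 8) ^ 2 + 4 * CK K / (M / 8) := ⟨_, rfl⟩
  rw [← hC']
  have hC'0 : 0 ≤ C' := by rw [hC']; positivity
  have hm' : (0 : ℝ) < m := by exact_mod_cast hm
  -- single vertex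
  have hsingle : ∀ i k, i ≠ k → ∀ a ∈ cls i,
      μ.P (fun Z => ((nb (Sd' K v Z) (cls k) a).card : ℝ) < M / 32 * y) ≤ C' / y := by
    intro i k hik a ha
    have haU := hC.sub i ha
    have hva : v ≠ a := by rintro rfl; exact hC.nv i ha
    have hak : a ∉ cls k := fun h => disjoint_left.1 (hC.disj i k hik) ha h
    have hlow := P0_lower (K := K) hC.hv haU hva (hC.sub k) (hC.nv k) hak (hC.card k) hc0 hy hyn
      hn hnm
    rw [← hM] at hlow
    have hpos : 0 < ((JS U v a (cls k) K).card : ℝ) * (c / y) ^ (2 * K + 1) :=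
      lt_of_lt_of_le (by positivity) hlow
    obtain ⟨P0, hP0⟩ : ∃ P0, P0 = ((JS U v a (cls k) K).card : ℝ) * (c / y) ^ (2 * K + 1) :=
      ⟨_, rfl⟩
    rw [← hP0] at hpos hlow
    have h1 := seed_degree hC.hv haU hva (hC.sub k) hc0 hc1 hy hyn hp0 hp1 hP0 hpos
    have h2 : μ.P (fun Z => ((nb (Sd' K v Z) (cls k) a).card : ℝ) < M / 32 * y) ≤
        μ.P (fun Z => ((nb (Sd' K v Z) (cls k) a).card : ℝ) < P0 / 4) := by
      apply P_mono
      intro Z _ h
      linarith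
    refine h2.trans (h1.trans ?_)
    have h3 : 4 * (CK K * y) / P0 ^ 2 ≤ 4 * (CK K * y) / (M / 8 * y) ^ 2 := by
      apply div_le_div_of_nonneg_left (by positivity) (by positivity)
      exact pow_le_pow_left₀ (by positivity) hlow 2
    have h4 : 4 * (CK K : ℝ) / P0 ≤ 4 * CK K / (M / 8 * y) :=
      div_le_div_of_nonneg_left (by positivity) (by positivity) hlow
    refine (add_le_add h3 h4).trans (le_of_eq ?_)
    rw [hC']
    field_simp
  -- bad counts
  set B : Fin 3 → Finset (Finset V) → ℝ := fun i Z => ∑ a ∈ cls i,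
    ∑ k ∈ univ.filter (fun k => i ≠ k),
      ind (fun Z => ((nb (Sd' K v Z) (cls k) a).card : ℝ) < M / 32 * y) Z with hB
  have hB0 : ∀ i Z, 0 ≤ B i Z := fun i Z => sum_nonneg (fun _ _ => sum_nonneg
    (fun _ _ => ind_nonneg _ _))
  have hEB : ∀ i, μ.E (B i) ≤ m * (3 * (C' / y)) := by
    intro i
    rw [hB]
    simp only
    rw [E_sum]
    have h1 : ∀ a ∈ cls i, μ.E (fun Z => ∑ k ∈ univ.filter (fun k => i ≠ k),
      ind (fun Z => ((nb (Sd' K v Z) (cls k) a).card : ℝ) < M / 32 * y) Z) ≤ 3 * (C' / y) := by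
      intro a ha
      rw [E_sum]
      have h2 : ∀ k ∈ univ.filter (fun k => i ≠ k),
          μ.E (ind (fun Z => ((nb (Sd' K v Z) (cls k) a).card : ℝ) < M / 32 * y)) ≤ C' / y := by
        intro k hk
        exact hsingle i k (mem_filter.1 hk).2 a ha
      refine (sum_le_sum h2).trans ?_
      rw [sum_const, nsmul_eq_mul]
      have h3 : ((univ.filter (fun k => i ≠ k)).card : ℝ) ≤ 3 := by
        have : (univ.filter (fun k : Fin 3 => i ≠ k)).card ≤ (univ : Finset (Fin 3)).card :=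
          card_le_card (filter_subset _ _)
        rw [card_univ, Fintype.card_fin] at this
        exact_mod_cast this
      exact mul_le_mul_of_nonneg_right h3 (by positivity)
    refine (sum_le_sum h1).trans ?_
    rw [sum_const, hC.card i, nsmul_eq_mul]
  have hPB : ∀ i, μ.P (fun Z => (m : ℝ) / 8 ≤ B i Z) ≤ 24 * (C' / y) := by
    intro i
    refine (μ.markov (fun Z _ => hB0 i Z) (by positivity)).trans ?_
    rw [div_le_iff₀ (by positivity)]
    refine (hEB i).trans (le_of_eq ?_)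
    ring
  have hunion := μ.P_exists_le (univ : Finset (Fin 3)) (fun i Z => (m : ℝ) / 8 ≤ B i Z)
  have hsum := sum_le_sum (fun (i : Fin 3) (_ : i ∈ (univ : Finset (Fin 3))) => hPB i)
  rw [sum_const, card_univ, Fintype.card_fin, nsmul_eq_mul] at hsum
  have hgood : ∀ Z, ¬ (∃ i ∈ (univ : Finset (Fin 3)), (m : ℝ) / 8 ≤ B i Z) →
      Good1 cls m K v (M / 32 * y) Z := by
    intro Z hZ
    push Not at hZ
    refine ⟨fun i => (cls i).filter (fun a => ∀ k, i ≠ k →
      M / 32 * y ≤ ((nb (Sd' K v Z) (cls k) a).card : ℝ)), fun i => filter_subset _ _, ?_, ?_⟩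
    · intro i
      have h1 := hZ i (mem_univ _)
      have h2 := card_filter_add_card_filter_not (s := cls i) (fun a => ∀ k, i ≠ k →
        M / 32 * y ≤ ((nb (Sd' K v Z) (cls k) a).card : ℝ))
      rw [hC.card i] at h2
      have h3 : (((cls i).filter (fun a => ¬ ∀ k, i ≠ k →
        M / 32 * y ≤ ((nb (Sd' K v Z) (cls k) a).card : ℝ))).card : ℝ) ≤ B i Z := by
        rw [card_filter]
        push_cast
        rw [hB]
        simp only
        apply sum_le_sum
        intro a _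
        by_cases h : ∀ k, i ≠ k → M / 32 * y ≤ ((nb (Sd' K v Z) (cls k) a).card : ℝ)
        · rw [if_neg (not_not.2 h)]
          exact sum_nonneg (fun _ _ => ind_nonneg _ _)
        · rw [if_pos h]
          push Not at h
          obtain ⟨k, hik, hk⟩ := h
          have h5 : ind (fun Z => ((nb (Sd' K v Z) (cls k) a).card : ℝ) < M / 32 * y) Z ≤
              ∑ k ∈ univ.filter (fun k => i ≠ k),
              ind (fun Z => ((nb (Sd' K v Z) (cls k) a).card : ℝ) < M / 32 * y) Z :=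
            single_le_sum (f := fun k => ind (fun Z => ((nb (Sd' K v Z) (cls k) a).card : ℝ) <
              M / 32 * y) Z) (fun _ _ => ind_nonneg _ _) (mem_filter.2 ⟨mem_univ _, hik⟩)
          rw [ind_pos (A := fun Z => ((nb (Sd' K v Z) (cls k) a).card : ℝ) < M / 32 * y) hk] at h5
          exact h5
      have h4 : (((cls i).filter (fun a => ∀ k, i ≠ k →
        M / 32 * y ≤ ((nb (Sd' K v Z) (cls k) a).card : ℝ))).card : ℝ) +
        ((cls i).filter (fun a => ¬ ∀ k, i ≠ k →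
        M / 32 * y ≤ ((nb (Sd' K v Z) (cls k) a).card : ℝ))).card = m := by exact_mod_cast h2
      linarith
    · intro i k hik a ha
      rw [mem_filter] at ha
      exact ha.2 k hik
  have h1 := μ.P_not (fun Z => ∃ i ∈ (univ : Finset (Fin 3)), (m : ℝ) / 8 ≤ B i Z)
  have h2 := μ.P_mono (A := fun Z => ¬ (∃ i ∈ (univ : Finset (Fin 3)), (m : ℝ) / 8 ≤ B i Z))
    (B := Good1 cls m K v (M / 32 * y)) (fun Z _ h => hgood Z h)
  have h3 : 72 * C' / y = (3 : ℕ) * (24 * (C' / y)) := by push_cast; ring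
  rw [h3]
  linarith

end

theorem cardU (n : ℕ) : (Icc 1 n).card = n := by simp

/-- the three classes -/
def clsN (m : ℕ) (i : Fin 3) : Finset ℕ := Ico (2 + i * m) (2 + (i + 1) * m)

theorem clsN_Cl {n : ℕ} (hn : 1 ≤ n) : Cl (Icc 1 n) 1 ((n - 1) / 3) (clsN ((n - 1) / 3)) := by
  set m := (n - 1) / 3 with hm
  refine ⟨?_, ?_, ?_, ?_, ?_⟩
  · intro i z hz
    unfold clsN at hz
    rw [mem_Ico] at hz
    rw [mem_Icc]
    have : (i : ℕ) + 1 ≤ 3 := i.isLt
    have h2 : ((i : ℕ) + 1) * m ≤ 3 * m := Nat.mul_le_mul_right _ this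
    omega
  · intro i
    unfold clsN
    rw [Nat.card_Ico]
    have : ((i : ℕ) + 1) * m = i * m + m := by ring
    omega
  · intro i j hij
    rw [disjoint_left]
    intro z hz hz'
    unfold clsN at hz hz'
    rw [mem_Ico] at hz hz'
    have h3 : (i : ℕ) ≠ j := fun h => hij (Fin.ext h)
    rcases lt_or_gt_of_ne h3 with h | h
    · have : ((i : ℕ) + 1) * m ≤ j * m := Nat.mul_le_mul_right _ h
      omega
    · have : ((j : ℕ) + 1) * m ≤ i * m := Nat.mul_le_mul_right _ h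
      omega
  · intro i h
    unfold clsN at h
    rw [mem_Ico] at h
    omega
  · rw [mem_Icc]; omega

/-- **probabilistic theorem** -/
theorem main_prob {c : ℝ} (hc0 : 0 < c) (hc : 27 / 256 < c ^ 2) :
    ∃ K : ℕ, ∀ δ > 0, ∃ n0 : ℕ, ∀ n ≥ n0,
      1 - δ ≤ Ex (powersetCard 3 (Icc 1 n)) (c / Real.sqrt n)
        (ind (fun Z => Goal (Icc 1 n) 1 (Sd' K 1 Z) Z)) := by
  -- choose the first density
  obtain ⟨c1, hc1a, hc1b, hc1c, hc1d⟩ : ∃ c1 : ℝ, 0 < c1 ∧ c1 < c ∧ c1 ≤ 1 ∧ 27 / 256 < c1 ^ 2 := by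
    have h1 : Real.sqrt (27 / 256) < min c 1 := by
      rw [lt_min_iff]
      constructor
      · rw [Real.sqrt_lt' hc0]; exact hc
      · rw [Real.sqrt_lt' one_pos]; norm_num
    obtain ⟨c1, h2, h3⟩ := exists_between h1
    have h0 : 0 ≤ Real.sqrt (27 / 256) := Real.sqrt_nonneg _
    refine ⟨c1, by linarith, h3.trans_le (min_le_left _ _), (h3.trans_le (min_le_right _ _)).le, ?_⟩
    have := (Real.sqrt_lt' (by linarith : 0 < c1)).1 h2
    exact this
  obtain ⟨ε, hε0, hε1, hε2⟩ : ∃ ε : ℝ, 0 < ε ∧ ε ≤ 1 ∧ c1 + 21 * ε ≤ c := by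
    refine ⟨min 1 ((c - c1) / 21), lt_min one_pos (by linarith), min_le_left _ _, ?_⟩
    have := min_le_right 1 ((c - c1) / 21)
    linarith
  obtain ⟨K, hK⟩ := growth hc1d (32 * (2 ^ 15 / ε ^ 3) / c1)
  refine ⟨K, fun δ hδ => ?_⟩
  obtain ⟨M, hM⟩ : ∃ M, M = (bb 1 0 K : ℝ) * c1 ^ (2 * K + 1) := ⟨_, rfl⟩
  have hMbig : 2 ^ 15 / ε ^ 3 ≤ M / 32 := by
    have h1 : (c1 ^ 2) ^ K * c1 = c1 ^ (2 * K + 1) := by rw [← pow_mul, pow_succ]
    rw [div_le_iff₀ hc1a, mul_assoc, h1, ← hM] at hK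
    linarith
  have hMpos : 0 < M := by
    have : 0 < 2 ^ 15 / ε ^ 3 := by positivity
    linarith
  obtain ⟨n1, hn1⟩ := core_limit (V := ℕ) hε0 hε1 (δ := δ / 2) (by positivity)
  obtain ⟨C', hC'⟩ : ∃ C', C' = 72 * (4 * CK K / (M / 8) ^ 2 + 4 * CK K / (M / 8)) := ⟨_, rfl⟩
  have hC'0 : 0 ≤ C' := by rw [hC']; positivity
  have e1 : ∀ᶠ n : ℕ in Filter.atTop, max c (2 * C' / δ) + 1 ≤ Real.sqrt n :=
    (Real.tendsto_sqrt_atTop.comp tendsto_natCast_atTop_atTop).eventually_ge_atTop _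
  obtain ⟨n2, hn2⟩ := Filter.eventually_atTop.1 e1
  refine ⟨max (max n1 n2) (2 * K * (K + 2) + K + 12), fun n hn => ?_⟩
  have hn1' : n ≥ n1 := le_trans (le_trans (le_max_left _ _) (le_max_left _ _)) hn
  have hn2' : n ≥ n2 := le_trans (le_trans (le_max_right _ _) (le_max_left _ _)) hn
  have hn3 : 2 * K * (K + 2) + K + 12 ≤ n := le_trans (le_max_right _ _) hn
  have hyb := hn2 n hn2'
  obtain ⟨y, hy⟩ : ∃ y, y = Real.sqrt n := ⟨_, rfl⟩
  rw [← hy] at hyb ⊢
  have hyc : c ≤ y := by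
    have := le_max_left c (2 * C' / δ); linarith
  have hy0 : 0 < y := by linarith
  have hyC : 2 * C' / δ ≤ y := by
    have := le_max_right c (2 * C' / δ); linarith
  have hyn : y ^ 2 = ((Icc 1 n).card : ℝ) := by
    rw [hy, cardU, Real.sq_sqrt (Nat.cast_nonneg n)]
  set m := (n - 1) / 3 with hm
  have hCl := clsN_Cl (n := n) (by omega)
  rw [← hm] at hCl
  have hm0 : 0 < m := by omega
  have hnm : (Icc 1 n).card ≤ 4 * m := by rw [cardU]; omega
  have hp1 : c / y ≤ 1 := (div_le_one hy0).2 hyc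
  have hp1' : c1 / y ≤ 1 := (div_le_one hy0).2 (by linarith)
  have hp0' : 0 ≤ c1 / y := by positivity
  have hst := stage_one hCl hm0 (K := K) hc1a hc1c hy0 hyn (by rw [cardU]; omega) hnm hM hMpos
    hp0' hp1'
  rw [← hC'] at hst
  -- sprinkling
  have hr0 : 0 ≤ 21 * ε / y := by positivity
  have hr1 : 21 * ε / y ≤ 1 := (div_le_one hy0).2 (by linarith)
  have hsum : c1 / y + 21 * ε / y ≤ c / y := by
    rw [← add_div]
    exact div_le_div_of_nonneg_right hε2 hy0.le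
  have hsp := Ex_sprinkle (powersetCard 3 (Icc 1 n)) hp0' hr0 hp1' hr1 hp1 hsum
    (ind (fun Z => Goal (Icc 1 n) 1 (Sd' K 1 Z) Z)) (fun Z Z' hZ => by
      apply ind_mono
      intro h b hb c hc h1 h2 h3
      exact (h b hb c hc h1 h2 h3).mono (fun b c hbc => Clo.base (Sd'_mono hZ _ _ hbc)) hZ)
  refine le_trans ?_ hsp
  have hin : ∀ Z ⊆ powersetCard 3 (Icc 1 n),
      (1 - δ / 2) * ind (Good1 (clsN m) m K 1 (M / 32 * y)) Z ≤
      Ex (powersetCard 3 (Icc 1 n)) (21 * ε / y)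
        (fun Z' => ind (fun Z => Goal (Icc 1 n) 1 (Sd' K 1 Z) Z) (Z ∪ Z')) := by
    intro Z _
    by_cases hG : Good1 (clsN m) m K 1 (M / 32 * y) Z
    · rw [ind_pos hG, mul_one]
      obtain ⟨A, hA1, hA2, hA3⟩ := hG
      have h1 := hn1 n hn1' (Icc 1 n) 1 m (clsN m) hCl (cardU n)
        (by rw [cardU] at hnm; exact hnm) (Sd' K 1 Z) (fun a b h => Sd'_symm a b h) A hA1 hA2
        (by
          intro i k hik a ha
          refine le_trans ?_ (hA3 i k hik a ha)
          rw [← hy]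
          exact mul_le_mul_of_nonneg_right hMbig hy0.le)
      rw [← hy] at h1
      refine h1.trans ?_
      unfold Suc
      apply Ex_mono hr0 hr1
      intro Z' _
      apply ind_mono (A := fun Z' => Goal (Icc 1 n) 1 (Sd' K 1 Z) Z')
        (B := fun Z => Goal (Icc 1 n) 1 (Sd' K 1 Z) Z)
      intro h b hb c hc h1 h2 h3
      exact (h b hb c hc h1 h2 h3).mono
        (fun b c hbc => Clo.base (Sd'_mono subset_union_left _ _ hbc)) subset_union_right
    · rw [ind_neg hG, mul_zero]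
      exact Ex_nonneg hr0 hr1 (fun _ _ => ind_nonneg _ _)
  have hmono := Ex_mono hp0' hp1' hin
  refine le_trans ?_ hmono
  rw [Ex_mul_left]
  have hst2 : 1 - C' / y ≤ Ex (powersetCard 3 (Icc 1 n)) (c1 / y)
      (fun Z => ind (Good1 (clsN m) m K 1 (M / 32 * y)) Z) := hst
  have hCy : C' / y ≤ δ / 2 := by
    rw [div_le_div_iff₀ hy0 (by norm_num)]
    rw [div_le_iff₀ hδ] at hyC
    linarith
  have hG1 : Ex (powersetCard 3 (Icc 1 n)) (c1 / y)
      (fun Z => ind (Good1 (clsN m) m K 1 (M / 32 * y)) Z) ≤ 1 :=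
    (bern (powersetCard 3 (Icc 1 n)) (c1 / y) hp0' hp1').P_le_one _
  have hG0 : 0 ≤ Ex (powersetCard 3 (Icc 1 n)) (c1 / y)
      (fun Z => ind (Good1 (clsN m) m K 1 (M / 32 * y)) Z) :=
    Ex_nonneg hp0' hp1' (fun _ _ => ind_nonneg _ _)
  nlinarith

end Pool.Agent.H38.SC
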