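import Pool.Agent.H38.SC.Spec
import Pool.Agent.H38.SC.MainProb

/-!
# Completeness of the algorithm
-/

set_option autoImplicit false

namespace Pool.Agent.H38.SC

open Finset

theorem Fill.map {V V' : Type*} [DecidableEq V] [DecidableEq V'] {f : ℕ} {p : V} {M : List V}
    {q : V} {W : Finset V} {D : Finset (Finset V)} (h : Fill f p M q W D) (g : V → V')
    (hg : Set.InjOn g W) :
    Fill f (g p) (M.map g) (g q) (W.image g) (D.image (fun F => F.image g)) := by
  induction h with
  | edge p q h =>
    rw [image_insert, image_singleton, image_empty]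
    exact Fill.edge _ _ (fun hh => h (hg (by simp) (by simp) hh))
  | @new f p M q x W D hM h ih =>
    have h1 := ih hg
    rw [image_insert, image_insert, image_insert, image_singleton]
    exact Fill.new (by simpa using hM) h1
  | @split f p M1 y M2 q W1 W2 D1 D2 hf h1 h2 hW ih1 ih2 =>
    rw [coe_union] at hg
    have g1 := ih1 (hg.mono Set.subset_union_left)
    have g2 := ih2 (hg.mono Set.subset_union_right)
    rw [image_union, image_insert, image_union, image_insert, image_insert, image_singleton,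
      List.map_append, List.map_cons]
    refine Fill.split (by simpa using hf) g1 g2 ?_
    rw [← image_inter_of_injOn _ _ hg, hW, image_singleton]

open Classical in
/-- a listing of a face -/
noncomputable def trip (F : Finset ℕ) : ℕ × ℕ × ℕ :=
  if h : ∃ t : ℕ × ℕ × ℕ, F = {t.1, t.2.1, t.2.2} then h.choose else (0, 0, 0)

theorem trip_spec {F : Finset ℕ} (h : F.card = 3) :
    F = {(trip F).1, (trip F).2.1, (trip F).2.2} := by
  have h1 : ∃ t : ℕ × ℕ × ℕ, F = {t.1, t.2.1, t.2.2} := by
    obtain ⟨a, b, c, _, _, _, h⟩ := card_eq_three.1 h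
    exact ⟨(a, b, c), h⟩
  unfold trip
  rw [dif_pos h1]
  exact h1.choose_spec

open Classical in
/-- all triangulated disks with `K` inner vertices -/
noncomputable def pats (K : ℕ) : List (List (ℕ × ℕ × ℕ)) :=
  ((powersetCard 3 (range (K + 3))).powerset.filter
    (fun D => Fill 0 0 [1] 2 (range (K + 3)) D)).toList.map (fun D => D.toList.map trip)

theorem mem_pats {K : ℕ} {π : List (ℕ × ℕ × ℕ)} : π ∈ pats K ↔
    ∃ D ⊆ powersetCard 3 (range (K + 3)), Fill 0 0 [1] 2 (range (K + 3)) D ∧
      π = D.toList.map trip := by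
  classical
  unfold pats
  rw [List.mem_map]
  constructor
  · rintro ⟨D, hD, rfl⟩
    rw [mem_toList, mem_filter, mem_powerset] at hD
    exact ⟨D, hD.1, hD.2, rfl⟩
  · rintro ⟨D, h1, h2, rfl⟩
    exact ⟨D, by rw [mem_toList, mem_filter, mem_powerset]; exact ⟨h1, h2⟩, rfl⟩

theorem pats_ok (K : ℕ) : PatsOK (pats K) := by
  intro π hπ
  obtain ⟨D, hD, hf, rfl⟩ := mem_pats.1 hπ
  refine ⟨_, D, hf, fun F hF => ⟨trip F, ?_, trip_spec (mem_powersetCard.1 (hD hF)).2⟩⟩
  rw [List.mem_map]
  exact ⟨F, mem_toList.2 hF, rfl⟩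

theorem getD_idxOf {l : List ℕ} {w v : ℕ} (h : w ∈ l) : l.getD (l.idxOf w) v = w := by
  rw [List.getD_eq_getElem _ _ (List.idxOf_lt_length_iff.2 h)]
  exact List.getElem_idxOf _

theorem seedB_complete {K : ℕ} {vs : List ℕ} {ts : List (ℕ × ℕ × ℕ)} {v b c : ℕ}
    {Z : Finset (Finset ℕ)} (hZ : ∀ a b c : ℕ, ({a, b, c} : Finset ℕ) ∈ Z → isT ts a b c = true)
    (hvs : ∀ F ∈ Z, ∀ a ∈ F, a ∈ vs) (h : Sd K v Z b c) :
    seedB (pats K) K vs ts v b c = true := by
  obtain ⟨W, D, hDZ, hW, hf⟩ := h
  have hsub := hf.subset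
  have hnd := hf.nodup
  have hWs : ∀ w ∈ W, w ∈ vs := by
    intro w hw
    have h1 := hf.vs_eq (by simp)
    rw [← h1, mem_vs] at hw
    obtain ⟨F, hF, hwF⟩ := hw
    exact hvs F (hDZ hF) w hwF
  simp only [pg, List.cons_append, List.nil_append, List.mem_cons, List.not_mem_nil, or_false,
    forall_eq_or_imp, forall_eq, List.nodup_cons, List.nodup_nil, and_true, not_or,
    not_false_eq_true] at hsub hnd
  obtain ⟨hv, hb, hc⟩ := hsub
  obtain ⟨⟨hvb, hvc⟩, hbc⟩ := hnd
  set t := (W \ {v, b, c}).toList with ht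
  set l := v :: b :: c :: t with hl
  have htm : ∀ w, w ∈ t ↔ w ∈ W ∧ w ≠ v ∧ w ≠ b ∧ w ≠ c := by
    intro w
    rw [ht, mem_toList, mem_sdiff]
    simp
  have hlm : ∀ w, w ∈ l ↔ w ∈ W := by
    intro w
    rw [hl]
    simp only [List.mem_cons, htm]
    constructor
    · rintro (rfl | rfl | rfl | h)
      · exact hv
      · exact hb
      · exact hc
      · exact h.1
    · intro h
      by_cases h1 : w = v
      · exact Or.inl h1
      by_cases h2 : w = b
      · exact Or.inr (Or.inl h2)
      by_cases h3 : w = c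
      · exact Or.inr (Or.inr (Or.inl h3))
      exact Or.inr (Or.inr (Or.inr ⟨h, h1, h2, h3⟩))
  have htl : t.length = K := by
    rw [ht, length_toList, card_sdiff_of_subset, hW]
    · have : ({v, b, c} : Finset ℕ).card = 3 := card_eq_three.2 ⟨_, _, _, hvb, hvc, hbc, rfl⟩
      omega
    · intro w hw
      simp only [mem_insert, mem_singleton] at hw
      rcases hw with rfl | rfl | rfl
      · exact hv
      · exact hb
      · exact hc
  have hll : l.length = K + 3 := by rw [hl]; simp [htl]
  have hinj : Set.InjOn (fun w => l.idxOf w) (W : Set ℕ) := by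
    intro w hw w' hw' h
    have h1 := getD_idxOf (v := v) ((hlm w).2 hw)
    have h2 := getD_idxOf (v := v) ((hlm w').2 hw')
    simp only at h
    rw [← h1, ← h2, h]
  have himg : W.image (fun w => l.idxOf w) = range (K + 3) := by
    apply eq_of_subset_of_card_le
    · intro i hi
      obtain ⟨w, hw, rfl⟩ := mem_image.1 hi
      rw [mem_range, ← hll]
      exact List.idxOf_lt_length_iff.2 ((hlm w).2 hw)
    · rw [card_range, card_image_of_injOn hinj, hW]
  have hmap := hf.map (fun w => l.idxOf w) hinj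
  rw [himg] at hmap
  have i0 : l.idxOf v = 0 := by rw [hl]; simp
  have i1 : l.idxOf b = 1 := by
    rw [hl, List.idxOf_cons_ne _ hvb]
    simp
  have i2 : l.idxOf c = 2 := by
    rw [hl, List.idxOf_cons_ne _ hvc, List.idxOf_cons_ne _ hbc]
    simp
  simp only [List.map_cons, List.map_nil, i0, i1, i2] at hmap
  unfold seedB
  simp only [List.any_eq_true, List.all_eq_true]
  refine ⟨t, mem_tup.2 ⟨htl, fun w hw => hWs w ((htm w).1 hw).1⟩, _,
    mem_pats.2 ⟨_, ?_, hmap, rfl⟩, ?_⟩
  · intro F hF
    rw [mem_powersetCard]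
    exact hmap.face F hF
  · intro f hf'
    obtain ⟨F', hF', rfl⟩ := List.mem_map.1 hf'
    rw [mem_toList] at hF'
    have hc3 := (hmap.face F' hF').2
    have hts := trip_spec hc3
    obtain ⟨F, hF, hFF⟩ := mem_image.1 hF'
    have hback : F'.image (fun i => l.getD i v) = F := by
      rw [← hFF, image_image]
      have : ∀ w ∈ F, ((fun i => l.getD i v) ∘ fun w => l.idxOf w) w = id w := by
        intro w hw
        simp only [Function.comp, id]
        exact getD_idxOf ((hlm w).2 ((hf.face F hF).1 hw))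
      rw [image_congr this, image_id]
    apply hZ
    have : ({l.getD (trip F').1 v, l.getD (trip F').2.1 v, l.getD (trip F').2.2 v} : Finset ℕ) =
        F := by
      rw [← hback]
      conv_rhs => rw [hts]
      rw [image_insert, image_insert, image_singleton]
    rw [this]
    exact hDZ hF

/-! ### the fixed point -/

theorem fix_aux {β : Type} (P : List β) (s : List β → List β)
    (h1 : ∀ L : List β, L.Sublist P → L.Sublist (s L)) (h2 : ∀ L, (s L).Sublist P)
    {L0 : List β} (h0 : L0.Sublist P) : s (s^[P.length] L0) = s^[P.length] L0 := by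
  have hsub : ∀ i, (s^[i] L0).Sublist P := by
    intro i
    cases i with
    | zero => exact h0
    | succ i => rw [Function.iterate_succ_apply']; exact h2 _
  have key : ∀ i, s (s^[i] L0) = s^[i] L0 ∨ i + 1 ≤ (s^[i + 1] L0).length := by
    intro i
    induction i with
    | zero =>
      have h3 := h1 L0 h0
      rcases eq_or_lt_of_le h3.length_le with h | h
      · exact Or.inl (h3.eq_of_length h).symm
      · right
        simp only [Function.iterate_succ, Function.iterate_zero, Function.comp, id]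
        omega
    | succ i ih =>
      rcases ih with ih | ih
      · left
        rw [Function.iterate_succ_apply', ih, ih]
      · have h3 := h1 _ (hsub (i + 1))
        rcases eq_or_lt_of_le h3.length_le with h | h
        · exact Or.inl (h3.eq_of_length h).symm
        · right
          rw [Function.iterate_succ_apply' s (i + 1)]
          omega
  rcases key P.length with h | h
  · exact h
  · have := (hsub (P.length + 1)).length_le
    omega

theorem cloL_fix (pats : List (List (ℕ × ℕ × ℕ))) (K : ℕ) (vs : List ℕ)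
    (ts : List (ℕ × ℕ × ℕ)) (v : ℕ) :
    stepL vs ts (cloL pats K vs ts v) = cloL pats K vs ts v := by
  unfold cloL
  rw [List.foldl_const]
  apply fix_aux (prs vs) (stepL vs ts)
  · intro L hL
    unfold stepL
    have h1 : L.filter (fun q => (memb q L || memb (q.2, q.1) L) ||
        vs.any (fun x => (memb (q.1, x) L && memb (x, q.2) L) && isT ts q.1 x q.2)) = L := by
      rw [List.filter_eq_self]
      intro q hq
      simp only [Bool.or_eq_true, memb_iff]
      exact Or.inl (Or.inl hq)
    conv_lhs => rw [← h1]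
    exact hL.filter _
  · intro L
    exact List.filter_sublist
  · exact List.filter_sublist

theorem stepL_mono_self (pats : List (List (ℕ × ℕ × ℕ))) (K : ℕ) (vs : List ℕ)
    (ts : List (ℕ × ℕ × ℕ)) (v : ℕ) {q : ℕ × ℕ} (h : q ∈ initL pats K vs ts v) :
    q ∈ cloL pats K vs ts v := by
  unfold cloL
  have hsub : ∀ (P : List (ℕ × ℕ)) (L : List (ℕ × ℕ)), (∀ q ∈ L, q ∈ prs vs) → q ∈ L →
      q ∈ P.foldl (fun L _ => stepL vs ts L) L := by
    intro P
    induction P with
    | nil => intro L _ h; exact h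
    | cons p P ih =>
      intro L hL h
      apply ih
      · intro q hq
        exact (stepL_sublist vs ts L).subset hq
      · unfold stepL
        rw [List.mem_filter]
        refine ⟨hL q h, ?_⟩
        simp only [Bool.or_eq_true, memb_iff]
        exact Or.inl (Or.inl h)
  apply hsub
  · intro q hq
    exact List.mem_of_mem_filter hq
  · exact h

theorem clo_mem {K : ℕ} {vs : List ℕ} {ts : List (ℕ × ℕ × ℕ)} {v : ℕ}
    {Z : Finset (Finset ℕ)} (hZ : ∀ a b c : ℕ, ({a, b, c} : Finset ℕ) ∈ Z → isT ts a b c = true)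
    (hvs : ∀ F ∈ Z, ∀ a ∈ F, a ∈ vs) {b c : ℕ} (h : Clo v (Sd' K v Z) Z b c) :
    (b ∈ vs ∧ c ∈ vs) ∧ (b, c) ∈ cloL (pats K) K vs ts v := by
  have hfix := cloL_fix (pats K) K vs ts v
  have hclose : ∀ q : ℕ × ℕ, q ∈ prs vs → ((memb q (cloL (pats K) K vs ts v) ||
      memb (q.2, q.1) (cloL (pats K) K vs ts v)) || vs.any (fun x =>
        (memb (q.1, x) (cloL (pats K) K vs ts v) && memb (x, q.2) (cloL (pats K) K vs ts v)) &&
          isT ts q.1 x q.2)) = true → q ∈ cloL (pats K) K vs ts v := by
    intro q h1 h2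
    rw [← hfix]
    unfold stepL
    rw [List.mem_filter]
    exact ⟨h1, h2⟩
  have hsd : ∀ b c, Sd K v Z b c → (b ∈ vs ∧ c ∈ vs) ∧ (b, c) ∈ cloL (pats K) K vs ts v := by
    intro b c h
    have hm : b ∈ vs ∧ c ∈ vs := by
      obtain ⟨W, D, hDZ, hW, hf⟩ := h
      have hsub := hf.subset
      have hWs : ∀ w ∈ W, w ∈ vs := by
        intro w hw
        have h1 := hf.vs_eq (by simp)
        rw [← h1, mem_vs] at hw
        obtain ⟨F, hF, hwF⟩ := hw
        exact hvs F (hDZ hF) w hwF
      exact ⟨hWs _ (hsub b (by simp)), hWs _ (hsub c (by simp))⟩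
    refine ⟨hm, stepL_mono_self _ _ _ _ _ ?_⟩
    unfold initL
    rw [List.mem_filter, mem_prs]
    exact ⟨hm, by rw [seedB_complete hZ hvs h, Bool.or_true]⟩
  have hsym : ∀ b c, (b ∈ vs ∧ c ∈ vs) ∧ (b, c) ∈ cloL (pats K) K vs ts v →
      (c ∈ vs ∧ b ∈ vs) ∧ (c, b) ∈ cloL (pats K) K vs ts v := by
    rintro b c ⟨⟨hb, hc⟩, h⟩
    refine ⟨⟨hc, hb⟩, hclose _ (mem_prs.2 ⟨hc, hb⟩) ?_⟩
    simp only [Bool.or_eq_true, memb_iff]
    exact Or.inl (Or.inr h)
  induction h with
  | base h =>
    rcases h with h | h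
    · exact hsd _ _ h
    · exact hsym _ _ (hsd _ _ h)
  | @star b c h =>
    have hb := hvs _ h b (by simp)
    have hc := hvs _ h c (by simp)
    refine ⟨⟨hb, hc⟩, stepL_mono_self _ _ _ _ _ ?_⟩
    unfold initL
    rw [List.mem_filter, mem_prs]
    exact ⟨⟨hb, hc⟩, by rw [hZ _ _ _ h, Bool.true_or]⟩
  | symm _ ih => exact hsym _ _ ih
  | @tri b x c h1 h2 h ih1 ih2 =>
    refine ⟨⟨ih1.1.1, ih2.1.2⟩, hclose _ (mem_prs.2 ⟨ih1.1.1, ih2.1.2⟩) ?_⟩
    simp only [Bool.or_eq_true, memb_iff, List.any_eq_true, Bool.and_eq_true]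
    exact Or.inr ⟨x, ih1.1.2, ⟨ih1.2, ih2.2⟩, hZ _ _ _ h⟩

theorem isT_complete {ts : List (ℕ × ℕ × ℕ)} {a b c : ℕ} {t : ℕ × ℕ × ℕ} (ht : t ∈ ts)
    (h : ({a, b, c} : Finset ℕ) = {t.1, t.2.1, t.2.2}) (hab : a ≠ b) (hac : a ≠ c)
    (hbc : b ≠ c) : isT ts a b c = true := by
  obtain ⟨x, y, z⟩ := t
  have ha : a = x ∨ a = y ∨ a = z := by
    have : a ∈ ({a, b, c} : Finset ℕ) := by simp
    rw [h] at this; simpa using this
  have hb : b = x ∨ b = y ∨ b = z := by
    have : b ∈ ({a, b, c} : Finset ℕ) := by simp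
    rw [h] at this; simpa using this
  have hc : c = x ∨ c = y ∨ c = z := by
    have : c ∈ ({a, b, c} : Finset ℕ) := by simp
    rw [h] at this; simpa using this
  unfold isT
  simp only [Bool.or_eq_true, memb_iff]
  rcases ha with rfl | rfl | rfl <;> rcases hb with rfl | rfl | rfl <;>
    rcases hc with rfl | rfl | rfl <;> simp_all

theorem alg_complete {K n : ℕ} {F : Finset (Finset ℕ)} {x : Inp} (hn : 1 ≤ n)
    (hF : F ⊆ powersetCard 3 (Icc 1 n)) (hx : IsComplex x) (hS : simplices x = LM n F)
    (hG : Goal (Icc 1 n) 1 (Sd' K 1 F) F) : alg (pats K) K x = true := by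
  have hvs : ∀ a, a ∈ x.1 ↔ a ∈ Icc 1 n := by
    intro a
    rw [← vert_iff hx, hS]
    unfold LM
    simp
  have hZ : ∀ a b c : ℕ, ({a, b, c} : Finset ℕ) ∈ F → isT x.2.2 a b c = true := by
    intro a b c h
    have h1 := mem_powersetCard.1 (hF h)
    have h2 : ({a, b, c} : Finset ℕ) ∈ simplices x := by
      rw [hS]
      exact ⟨⟨a, by simp⟩, h1.1, Or.inr h⟩
    have hab : a ≠ b := by
      rintro rfl
      have := h1.2
      rw [insert_eq_of_mem (by simp)] at this
      have := card_le_two (a := a) (b := c)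
      omega
    have hac : a ≠ c := by
      rintro rfl
      have := h1.2
      rw [insert_eq_of_mem (by simp)] at this
      have := card_le_two (a := b) (b := a)
      omega
    have hbc : b ≠ c := by
      rintro rfl
      have := h1.2
      rw [pair_eq_singleton] at this
      have := card_le_two (a := a) (b := b)
      omega
    rcases h2 with ⟨d, hd, h3⟩ | ⟨e, he, h3⟩ | ⟨t, ht, h3⟩
    · exfalso
      have := h1.2
      rw [h3, card_singleton] at this
      omega
    · exfalso
      have := h1.2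
      rw [h3] at this
      have := card_le_two (a := e.1) (b := e.2)
      omega
    · exact isT_complete ht h3 hab hac hbc
  have hvF : ∀ G ∈ F, ∀ a ∈ G, a ∈ x.1 := by
    intro G hG a ha
    exact (hvs a).2 ((mem_powersetCard.1 (hF hG)).1 ha)
  unfold alg
  rw [Bool.and_eq_true, List.all_eq_true, List.any_eq_true]
  constructor
  · intro q hq
    rw [mem_prs, hvs, hvs] at hq
    simp only [Bool.or_eq_true, memb_iff, decide_eq_true_eq]
    by_cases h : q.1 = q.2
    · exact Or.inl (Or.inl h)
    · have h2 : ({q.1, q.2} : Finset ℕ) ∈ simplices x := by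
        rw [hS]
        refine ⟨⟨q.1, by simp⟩, ?_, Or.inl card_le_two⟩
        intro z hz
        simp only [mem_insert, mem_singleton] at hz
        rcases hz with rfl | rfl
        · exact hq.1
        · exact hq.2
      rcases h2 with ⟨d, hd, h3⟩ | ⟨e, he, h3⟩ | ⟨t, ht, h3⟩
      · exfalso
        have := congrArg Finset.card h3
        rw [card_singleton, card_pair h] at this
        omega
      · have h4 : q.1 ∈ ({e.1, e.2} : Finset ℕ) := by rw [← h3]; simp
        have h5 : q.2 ∈ ({e.1, e.2} : Finset ℕ) := by rw [← h3]; simp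
        simp only [mem_insert, mem_singleton] at h4 h5
        have he1 : (e.1, e.2) ∈ x.2.1 := he
        rcases h4 with h4 | h4 <;> rcases h5 with h5 | h5
        · exact absurd (h4.trans h5.symm) h
        · left; right
          have : q = (e.1, e.2) := Prod.ext h4 h5
          rw [this]; exact he1
        · right
          rw [h4, h5]; exact he1
        · exact absurd (h4.trans h5.symm) h
      · exfalso
        obtain ⟨g1, g2, g3⟩ := hx.2.1 t ht
        have := congrArg Finset.card h3
        rw [card_pair h, card_eq_three.2 ⟨_, _, _, g1, g2, g3, rfl⟩] at this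
        omega
  · refine ⟨1, (hvs 1).2 (by rw [mem_Icc]; omega), ?_⟩
    unfold okV
    rw [List.all_eq_true]
    intro q hq
    rw [mem_prs, hvs, hvs] at hq
    simp only [Bool.or_eq_true, memb_iff, decide_eq_true_eq]
    by_cases h1 : q.1 = q.2
    · exact Or.inl (Or.inl (Or.inl h1))
    by_cases h2 : q.1 = 1
    · exact Or.inl (Or.inl (Or.inr h2))
    by_cases h3 : q.2 = 1
    · exact Or.inl (Or.inr h3)
    right
    exact (clo_mem hZ hvF (hG q.1 hq.1 q.2 hq.2 h1 h2 h3)).2

end Pool.Agent.H38.SC
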