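import Pool.Agent.H38.SC.Sparse

/-!
# Counting triangulated disks (lower bound)
-/

set_option autoImplicit false

namespace Pool.Agent.H38.SC

open Finset

/-- the number of triangulated disks, up to the labelling of the interior vertices -/
def bb (k f i : ℕ) : ℕ :=
  if k = 0 then (if f = 0 ∧ i = 0 then 1 else 0)
  else (if i = 0 then 0 else bb (k + 1) (f + 1) (i - 1)) +
    ∑ j : Fin k, if f ≤ (j : ℕ) then ∑ i1 : Fin (i + 1), bb j 0 i1 * bb (k - 1 - j) 0 (i - i1)
      else 0
termination_by 2 * i + k
decreasing_by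
  · omega
  · have := j.isLt; have := i1.isLt; omega
  · have := j.isLt; have := i1.isLt; omega

theorem bb_zero (f i : ℕ) : bb 0 f i = if f = 0 ∧ i = 0 then 1 else 0 := by
  rw [bb]; simp

theorem bb_pos {k : ℕ} (hk : k ≠ 0) (f i : ℕ) :
    bb k f i = (if i = 0 then 0 else bb (k + 1) (f + 1) (i - 1)) +
    ∑ j : Fin k, if f ≤ (j : ℕ) then ∑ i1 : Fin (i + 1), bb j 0 i1 * bb (k - 1 - j) 0 (i - i1)
      else 0 := by
  rw [bb]; simp [hk]

variable {V : Type*} [DecidableEq V]

theorem finite_fill (f : ℕ) (p : V) (M : List V) (q : V) (W : Finset V) :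
    {D | Fill f p M q W D}.Finite := by
  apply (Finset.finite_toSet ((powersetCard 3 W).powerset)).subset
  intro D hD
  rw [Set.mem_ofPred_eq] at hD
  rw [mem_coe, mem_powerset]
  intro F hF
  rw [mem_powersetCard]
  exact hD.face F hF

/-- the set of triangulated disks with given polygon and interior vertices -/
noncomputable def FS (f : ℕ) (p : V) (M : List V) (q : V) (I : Finset V) :
    Finset (Finset (Finset V)) :=
  (finite_fill f p M q ((pg p M q).toFinset ∪ I)).toFinset

theorem mem_FS {f : ℕ} {p : V} {M : List V} {q : V} {I : Finset V} {D : Finset (Finset V)} :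
    D ∈ FS f p M q I ↔ Fill f p M q ((pg p M q).toFinset ∪ I) D := by
  unfold FS
  rw [Set.Finite.mem_toFinset, Set.mem_ofPred_eq]

/-- connectivity: the first half of a split disk is determined -/
theorem half_le {p : V} {M1 : List V} {y : V} {M2 : List V} {q : V}
    {W1 W1' W2' : Finset V} {D1 D2 D1' D2' : Finset (Finset V)}
    (h1 : Fill 0 p M1 y W1 D1)
    (h2' : Fill 0 y M2 q W2' D2') (hpW : p ∉ W2')
    (hW' : W1' ∩ W2' = {y}) (hf' : ∀ F ∈ D1', F ⊆ W1')
    (he : D1 ∪ D2 = D1' ∪ D2') : D1 ⊆ D1' := by
  by_cases hM1 : M1 = []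
  · rw [(h1.nil hM1).1]; exact empty_subset _
  have hvs := h1.vs_eq hM1
  have hcard := h1.card
  have hsp := h1.spars
  have hn := h1.nodup
  have hpD : p ∈ vs D1 := by rw [hvs]; exact h1.subset p (by simp)
  obtain ⟨F0, hF0, hpF0⟩ := mem_vs.1 hpD
  have hsub : D1 ⊆ D1' ∪ D2' := he ▸ subset_union_left
  by_contra hcon
  obtain ⟨F1, hF1, hF1'⟩ := not_subset.1 hcon
  have hF1D2 : F1 ∈ D2' := (mem_union.1 (hsub hF1)).resolve_left hF1'
  obtain ⟨S, hS⟩ : ∃ S, S = D1 ∩ D1' := ⟨_, rfl⟩
  obtain ⟨T, hT⟩ : ∃ T, T = D1 \ D1' := ⟨_, rfl⟩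
  have hSD : S ⊆ D1 := hS ▸ inter_subset_left
  have hTD : T ⊆ D1 := hT ▸ sdiff_subset
  have hTD2 : T ⊆ D2' := by
    intro F hF
    rw [hT, mem_sdiff] at hF
    exact (mem_union.1 (hsub hF.1)).resolve_left hF.2
  have hSne : S.Nonempty := by
    refine ⟨F0, ?_⟩
    rw [hS, mem_inter]
    refine ⟨hF0, ?_⟩
    rcases mem_union.1 (hsub hF0) with h | h
    · exact h
    · exact absurd ((h2'.face F0 h).1 hpF0) hpW
  have hTne : T.Nonempty := ⟨F1, by rw [hT, mem_sdiff]; exact ⟨hF1, hF1'⟩⟩
  have hST : S ∪ T = D1 := by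
    ext F; rw [hS, hT, mem_union, mem_inter, mem_sdiff]; tauto
  have hSTc : S.card + T.card = D1.card := by
    rw [← card_union_of_disjoint, hST]
    rw [disjoint_left]; intro F h1 h2
    rw [hS, mem_inter] at h1; rw [hT, mem_sdiff] at h2; exact h2.2 h1.2
  have hv : vs S ∪ vs T = W1 := by rw [← vs_union, hST, hvs]
  have hvi : vs S ∩ vs T ⊆ {y} := by
    intro z hz
    rw [← hW', mem_inter]
    rw [mem_inter] at hz
    refine ⟨?_, h2'.vs_sub (vs_mono hTD2 hz.2)⟩
    obtain ⟨F, hF, hzF⟩ := mem_vs.1 hz.1
    rw [hS, mem_inter] at hF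
    exact hf' F hF.2 hzF
  have a := hsp.h2 S hSD hSne
  have b := hsp.h2 T hTD hTne
  have c1 := card_union_add_card_inter (vs S) (vs T)
  rw [hv] at c1
  have c2 : (vs S ∩ vs T).card ≤ 1 := by
    have := card_le_card hvi; simpa using this
  set L := (pg p M1 y).toFinset with hL
  have hLc : L.card = M1.length + 2 := by
    rw [hL, List.toFinset_card_of_nodup hn, length_pg]
  have hLW : L ⊆ vs S ∪ vs T := by
    rw [hv]; intro z hz; rw [hL, List.mem_toFinset] at hz; exact h1.subset z hz
  have c3 : (vs S ∩ L) ∪ (vs T ∩ L) = L := by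
    rw [← union_inter_distrib_right]
    exact inter_eq_right.2 hLW
  have c4 := card_union_add_card_inter (vs S ∩ L) (vs T ∩ L)
  rw [c3] at c4
  by_cases hy : vs S ∩ vs T = ∅
  · rw [hy, card_empty] at c1
    omega
  · have hy2 : vs S ∩ vs T = {y} :=
      (subset_singleton_iff.1 hvi).resolve_left hy
    have hyL : y ∈ L := by rw [hL, List.mem_toFinset]; simp
    have hyST : y ∈ vs S ∩ vs T := by rw [hy2]; simp
    have c5 : 1 ≤ ((vs S ∩ L) ∩ (vs T ∩ L)).card := by
      apply card_pos.2
      refine ⟨y, ?_⟩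
      rw [mem_inter, mem_inter, mem_inter]
      exact ⟨⟨(mem_inter.1 hyST).1, hyL⟩, (mem_inter.1 hyST).2, hyL⟩
    omega

theorem split_unique {p : V} {M1 : List V} {y : V} {M2 : List V} {q : V}
    {W1 W2 W1' W2' : Finset V} {D1 D2 D1' D2' : Finset (Finset V)}
    (h1 : Fill 0 p M1 y W1 D1) (h2 : Fill 0 y M2 q W2 D2) (hW : W1 ∩ W2 = {y})
    (h1' : Fill 0 p M1 y W1' D1') (h2' : Fill 0 y M2 q W2' D2') (hW' : W1' ∩ W2' = {y})
    (he : D1 ∪ D2 = D1' ∪ D2') : D1 = D1' ∧ D2 = D2' ∧ W1 = W1' := by
  have n1 := h1.nodup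
  have hpy : p ≠ y := by rintro rfl; simp [pg] at n1
  have e1 : p ∉ W2' := fun h =>
    hpy ((mem_inter_iff_of hW').1 ⟨h1'.subset p (by simp), h⟩)
  have e2 : p ∉ W2 := fun h =>
    hpy ((mem_inter_iff_of hW).1 ⟨h1.subset p (by simp), h⟩)
  have a := half_le h1 h2' e1 hW' (fun F hF => (h1'.face F hF).1) he
  have b := half_le h1' h2 e2 hW (fun F hF => (h1.face F hF).1) he.symm
  have hD : D1 = D1' := Subset.antisymm a b
  have d1 : Disjoint D1 D2 := disj_of_inter hW h1.face h2.face
  have d2 : Disjoint D1' D2' := disj_of_inter hW' h1'.face h2'.face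
  refine ⟨hD, ?_, ?_⟩
  · have e3 : D2 = (D1 ∪ D2) \ D1 := by
      rw [union_sdiff_left, sdiff_eq_self_of_disjoint d1.symm]
    have e4 : D2' = (D1' ∪ D2') \ D1' := by
      rw [union_sdiff_left, sdiff_eq_self_of_disjoint d2.symm]
    rw [e3, e4, he, hD]
  · by_cases hM : M1 = []
    · rw [(h1.nil hM).2, (h1'.nil hM).2]
    · rw [← h1.vs_eq hM, ← h1'.vs_eq hM, hD]

theorem root_inj {F F' : Finset V} {D D' : Finset (Finset V)} {p q : V}
    (hD : ∀ G ∈ D, ¬ (p ∈ G ∧ q ∈ G)) (hD' : ∀ G ∈ D', ¬ (p ∈ G ∧ q ∈ G))
    (hF : p ∈ F ∧ q ∈ F) (hF' : p ∈ F' ∧ q ∈ F') (h : insert F D = insert F' D') :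
    F = F' ∧ D = D' := by
  have e1 : F = F' := by
    have : F ∈ insert F' D' := h ▸ mem_insert_self F D
    exact (mem_insert.1 this).resolve_right (fun h => hD' F h hF)
  subst e1
  refine ⟨rfl, ?_⟩
  have n1 : F ∉ D := fun h => hD F h hF
  have n2 : F ∉ D' := fun h => hD' F h hF
  rw [← erase_insert n1, h, erase_insert n2]

theorem mid_inj {p q z z' : V} (hz : z ≠ p) (hz' : z ≠ q)
    (h : ({p, z, q} : Finset V) = {p, z', q}) : z = z' := by
  have : z ∈ ({p, z', q} : Finset V) := by rw [← h]; simp
  simp only [mem_insert, mem_singleton] at this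
  tauto

/-- the image of one `new` step -/
noncomputable def newPart (f : ℕ) (p : V) (M : List V) (q : V) (I : Finset V) :
    Finset (Finset (Finset V)) :=
  I.biUnion (fun x => (FS (f + 1) x (p :: M) q (I.erase x)).image (insert {p, x, q}))

/-- the image of one `split` step -/
noncomputable def splitPart (f : ℕ) (p : V) (M : List V) (q : V) (I : Finset V) :
    Finset (Finset (Finset V)) :=
  ((range M.length).filter (fun j => f ≤ j)).biUnion (fun j => I.powerset.biUnion (fun I1 =>
    ((FS 0 p (M.take j) (M.getD j p) I1) ×ˢ (FS 0 (M.getD j p) (M.drop (j + 1)) q (I \ I1))).image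
      (fun D => insert {p, M.getD j p, q} (D.1 ∪ D.2))))

theorem newPart_mem {f : ℕ} {p : V} {M : List V} {q : V} {I : Finset V} {D : Finset (Finset V)}
    (hn : (pg p M q).Nodup) (hI : Disjoint (pg p M q).toFinset I) (h : D ∈ newPart f p M q I) :
    ∃ x ∈ I, ∃ D' ∈ FS (f + 1) x (p :: M) q (I.erase x), D = insert {p, x, q} D' ∧
      (∀ G ∈ D', ¬ (p ∈ G ∧ q ∈ G)) ∧ x ≠ p ∧ x ≠ q ∧ x ∉ M := by
  simp only [newPart, mem_biUnion, mem_image] at h
  obtain ⟨x, hx, D', hD', rfl⟩ := h
  refine ⟨x, hx, D', hD', rfl, (mem_FS.1 hD').root_new, ?_, ?_, ?_⟩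
  · rintro rfl; exact (disjoint_left.1 hI) (a := x) (by simp) hx
  · rintro rfl; exact (disjoint_left.1 hI) (a := x) (by simp) hx
  · intro h; exact (disjoint_left.1 hI) (a := x) (by simp [h]) hx

omit [DecidableEq V] in
theorem list_split_at {M : List V} {j : ℕ} (hj : j < M.length) (d : V) :
    M = M.take j ++ M.getD j d :: M.drop (j + 1) := by
  rw [List.getD_eq_getElem _ _ hj, List.getElem_cons_drop hj, List.take_append_drop]

theorem splitPart_mem {f : ℕ} {p : V} {M : List V} {q : V} {I : Finset V}
    {D : Finset (Finset V)} (hn : (pg p M q).Nodup) (hI : Disjoint (pg p M q).toFinset I)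
    (h : D ∈ splitPart f p M q I) :
    ∃ j < M.length, f ≤ j ∧ ∃ I1 ⊆ I, ∃ D1 ∈ FS 0 p (M.take j) (M.getD j p) I1,
      ∃ D2 ∈ FS 0 (M.getD j p) (M.drop (j + 1)) q (I \ I1),
      D = insert {p, M.getD j p, q} (D1 ∪ D2) ∧
      (∀ G ∈ D1 ∪ D2, ¬ (p ∈ G ∧ q ∈ G)) ∧ M.getD j p ≠ p ∧ M.getD j p ≠ q ∧ M.getD j p ∈ M ∧
      ((pg p (M.take j) (M.getD j p)).toFinset ∪ I1) ∩
        ((pg (M.getD j p) (M.drop (j + 1)) q).toFinset ∪ (I \ I1)) = {M.getD j p} := by
  simp only [splitPart, mem_biUnion, mem_image, mem_filter, mem_range, mem_powerset,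
    mem_product, Prod.exists] at h
  obtain ⟨j, ⟨hj, hfj⟩, I1, hI1, D1, D2, ⟨hD1, hD2⟩, rfl⟩ := h
  have hsplit := list_split_at hj p
  obtain ⟨y, hy⟩ : ∃ y, y = M.getD j p := ⟨_, rfl⟩
  obtain ⟨M1, hM1⟩ : ∃ M1, M1 = M.take j := ⟨_, rfl⟩
  obtain ⟨M2, hM2⟩ : ∃ M2, M2 = M.drop (j + 1) := ⟨_, rfl⟩
  rw [← hy, ← hM1, ← hM2] at hsplit
  rw [← hy, ← hM1] at hD1
  rw [← hy, ← hM2] at hD2
  refine ⟨j, hj, hfj, I1, hI1, D1, by rw [← hy, ← hM1]; exact hD1, D2,
    by rw [← hy, ← hM2]; exact hD2, rfl, ?_⟩
  rw [← hy, ← hM1, ← hM2]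
  rw [hsplit] at hn hI
  have hWW : ((pg p M1 y).toFinset ∪ I1) ∩ ((pg y M2 q).toFinset ∪ (I \ I1)) = {y} := by
    ext z
    have hIz : z ∈ (pg p (M1 ++ y :: M2) q).toFinset → z ∉ I := fun h => disjoint_left.1 hI h
    simp only [mem_inter, mem_union, List.mem_toFinset, mem_pg, mem_sdiff, mem_singleton,
      List.mem_append, List.mem_cons] at hIz ⊢
    constructor
    · rintro ⟨h1 | h1, h2 | h2⟩
      · rw [pg_split, List.nodup_append] at hn
        by_contra hzy
        have a1 : z ∈ p :: M1 := by
          rcases h1 with h | h | h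
          · simp [h]
          · simp [h]
          · exact absurd h hzy
        have a2 : z ∈ y :: (M2 ++ [q]) := by
          rcases h2 with h | h | h
          · exact absurd h hzy
          · simp [h]
          · simp [h]
        exact hn.2.2 z a1 z a2 rfl
      · exfalso
        exact hIz (by tauto) h2.1
      · exfalso
        exact hIz (by tauto) (hI1 h1)
      · exact absurd h1 h2.2
    · rintro rfl
      exact ⟨Or.inl (by tauto), Or.inl (by tauto)⟩
  refine ⟨Fill.root_split (mem_FS.1 hD1) (mem_FS.1 hD2) hWW, ?_, ?_, ?_, hWW⟩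
  · rintro rfl; simp [pg] at hn
  · rintro rfl
    have := (List.nodup_append.1 (show ((p :: M1) ++ (y :: (M2 ++ [y]))).Nodup by
      rw [← pg_split]; exact hn)).2.1
    simp at this
  · rw [hsplit]; simp

theorem newPart_sub {f : ℕ} {p : V} {M : List V} {q : V} {I : Finset V} (hM : M ≠ [])
    (hn : (pg p M q).Nodup) (hI : Disjoint (pg p M q).toFinset I) :
    newPart f p M q I ⊆ FS f p M q I := by
  intro D hD
  obtain ⟨x, hx, D', hD', rfl, -⟩ := newPart_mem hn hI hD
  rw [mem_FS] at hD' ⊢
  have e : (pg x (p :: M) q).toFinset ∪ I.erase x = (pg p M q).toFinset ∪ I := by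
    ext z
    simp only [mem_union, List.mem_toFinset, mem_pg, List.mem_cons, mem_erase]
    by_cases hz : z = x
    · subst hz; tauto
    · tauto
  rw [e] at hD'
  exact Fill.new hM hD'

theorem splitPart_sub {f : ℕ} {p : V} {M : List V} {q : V} {I : Finset V}
    (hn : (pg p M q).Nodup) (hI : Disjoint (pg p M q).toFinset I) :
    splitPart f p M q I ⊆ FS f p M q I := by
  intro D hD
  obtain ⟨j, hj, hfj, I1, hI1, D1, hD1, D2, hD2, rfl, -, -, -, -, hWW⟩ := splitPart_mem hn hI hD
  rw [mem_FS] at hD1 hD2 ⊢
  have hsplit := list_split_at hj p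
  have hlen : f ≤ (M.take j).length := by
    rw [List.length_take]; omega
  have := Fill.split hlen hD1 hD2 hWW
  rw [← hsplit] at this
  convert this using 1
  conv_lhs => rw [hsplit]
  ext z
  simp only [mem_union, List.mem_toFinset, mem_pg, List.mem_append, List.mem_cons, mem_sdiff]
  by_cases hz : z ∈ I1
  · have := hI1 hz; tauto
  · tauto

theorem parts_disjoint {f : ℕ} {p : V} {M : List V} {q : V} {I : Finset V}
    (hn : (pg p M q).Nodup) (hI : Disjoint (pg p M q).toFinset I) :
    Disjoint (newPart f p M q I) (splitPart f p M q I) := by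
  rw [disjoint_left]
  intro D h1 h2
  obtain ⟨x, hx, D', hD', rfl, r1, hxp, hxq, hxM⟩ := newPart_mem hn hI h1
  obtain ⟨j, hj, hfj, I1, hI1, D1, hD1, D2, hD2, he, r2, hyp, hyq, hyM, hWW⟩ :=
    splitPart_mem hn hI h2
  obtain ⟨e1, -⟩ := root_inj r1 r2 (by simp) (by simp) he
  have := mid_inj hxp hxq e1
  rw [this] at hxM
  exact hxM hyM

theorem card_newPart {f : ℕ} {p : V} {M : List V} {q : V} {I : Finset V}
    (hn : (pg p M q).Nodup) (hI : Disjoint (pg p M q).toFinset I) :
    (newPart f p M q I).card = ∑ x ∈ I, (FS (f + 1) x (p :: M) q (I.erase x)).card := by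
  unfold newPart
  have hne : ∀ x ∈ I, x ≠ p ∧ x ≠ q := by
    intro x hx
    constructor
    · rintro rfl; exact (disjoint_left.1 hI) (a := x) (by simp) hx
    · rintro rfl; exact (disjoint_left.1 hI) (a := x) (by simp) hx
  rw [card_biUnion]
  · apply sum_congr rfl
    intro x hx
    rw [card_image_of_injOn]
    intro D hD D' hD' he
    rw [mem_coe, mem_FS] at hD hD'
    exact (root_inj hD.root_new hD'.root_new (by simp) (by simp) he).2
  · intro x hx x' hx' hne'
    rw [Function.onFun, disjoint_left]
    intro D hD hD'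
    rw [mem_image] at hD hD'
    obtain ⟨D1, h1, rfl⟩ := hD
    obtain ⟨D2, h2, he⟩ := hD'
    rw [mem_FS] at h1 h2
    have := (root_inj h2.root_new h1.root_new (by simp) (by simp) he).1
    exact hne' (mid_inj (hne x' hx').1 (hne x' hx').2 this).symm

theorem card_splitPart {f : ℕ} {p : V} {M : List V} {q : V} {I : Finset V}
    (hn : (pg p M q).Nodup) (hI : Disjoint (pg p M q).toFinset I) :
    (splitPart f p M q I).card = ∑ j ∈ (range M.length).filter (fun j => f ≤ j),
      ∑ I1 ∈ I.powerset, (FS 0 p (M.take j) (M.getD j p) I1).card *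
        (FS 0 (M.getD j p) (M.drop (j + 1)) q (I \ I1)).card := by
  -- a piece of the union is contained in `splitPart`
  have hsub : ∀ j < M.length, f ≤ j → ∀ I1 ⊆ I, ∀ D1 ∈ FS 0 p (M.take j) (M.getD j p) I1,
      ∀ D2 ∈ FS 0 (M.getD j p) (M.drop (j + 1)) q (I \ I1),
      (∀ G ∈ D1 ∪ D2, ¬ (p ∈ G ∧ q ∈ G)) ∧ M.getD j p ≠ p ∧ M.getD j p ≠ q ∧
      ((pg p (M.take j) (M.getD j p)).toFinset ∪ I1) ∩
        ((pg (M.getD j p) (M.drop (j + 1)) q).toFinset ∪ (I \ I1)) = {M.getD j p} := by
    intro j hj hfj I1 hI1 D1 hD1 D2 hD2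
    -- reuse `splitPart_mem` on the singleton datum
    have hWW : ((pg p (M.take j) (M.getD j p)).toFinset ∪ I1) ∩
        ((pg (M.getD j p) (M.drop (j + 1)) q).toFinset ∪ (I \ I1)) = {M.getD j p} := by
      have hsplit := list_split_at hj p
      have hn' := hn
      have hI' := hI
      rw [hsplit] at hn' hI'
      generalize M.take j = M1 at *
      generalize M.drop (j + 1) = M2 at *
      generalize M.getD j p = y at *
      ext z
      have hIz : z ∈ (pg p (M1 ++ y :: M2) q).toFinset → z ∉ I := fun h => disjoint_left.1 hI' h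
      simp only [mem_inter, mem_union, List.mem_toFinset, mem_pg, mem_sdiff, mem_singleton,
        List.mem_append, List.mem_cons] at hIz ⊢
      constructor
      · rintro ⟨h1 | h1, h2 | h2⟩
        · rw [pg_split, List.nodup_append] at hn'
          by_contra hzy
          have a1 : z ∈ p :: M1 := by
            rcases h1 with h | h | h
            · simp [h]
            · simp [h]
            · exact absurd h hzy
          have a2 : z ∈ y :: (M2 ++ [q]) := by
            rcases h2 with h | h | h
            · exact absurd h hzy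
            · simp [h]
            · simp [h]
          exact hn'.2.2 z a1 z a2 rfl
        · exfalso
          exact hIz (by tauto) h2.1
        · exfalso
          exact hIz (by tauto) (hI1 h1)
        · exact absurd h1 h2.2
      · rintro rfl
        exact ⟨Or.inl (by tauto), Or.inl (by tauto)⟩
    refine ⟨Fill.root_split (mem_FS.1 hD1) (mem_FS.1 hD2) hWW, ?_, ?_, hWW⟩
    · have := (mem_FS.1 hD1).nodup
      intro e; rw [e] at this; simp [pg] at this
    · have := (mem_FS.1 hD2).nodup
      intro e; rw [e] at this; simp [pg] at this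
  unfold splitPart
  rw [card_biUnion]
  · apply sum_congr rfl
    intro j hj
    rw [mem_filter, mem_range] at hj
    rw [card_biUnion]
    · apply sum_congr rfl
      intro I1 hI1
      rw [mem_powerset] at hI1
      rw [card_image_of_injOn, card_product]
      rintro ⟨D1, D2⟩ hD ⟨D1', D2'⟩ hD' he
      rw [mem_coe, mem_product] at hD hD'
      obtain ⟨r1, -, -, hWW⟩ := hsub j hj.1 hj.2 I1 hI1 D1 hD.1 D2 hD.2
      obtain ⟨r2, -, -, hWW'⟩ := hsub j hj.1 hj.2 I1 hI1 D1' hD'.1 D2' hD'.2
      have he2 := (root_inj r1 r2 (by simp) (by simp) he).2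
      obtain ⟨e1, e2, -⟩ := split_unique (mem_FS.1 hD.1) (mem_FS.1 hD.2) hWW
        (mem_FS.1 hD'.1) (mem_FS.1 hD'.2) hWW' he2
      simp only at e1 e2
      rw [e1, e2]
    · intro I1 hI1 I1' hI1' hne
      rw [Function.onFun, disjoint_left]
      intro D hD hD'
      rw [mem_image] at hD hD'
      rw [mem_coe, mem_powerset] at hI1 hI1'
      obtain ⟨⟨D1, D2⟩, hD, rfl⟩ := hD
      obtain ⟨⟨D1', D2'⟩, hD', he⟩ := hD'
      rw [mem_product] at hD hD'
      obtain ⟨r1, -, -, hWW⟩ := hsub j hj.1 hj.2 I1 hI1 D1 hD.1 D2 hD.2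
      obtain ⟨r2, -, -, hWW'⟩ := hsub j hj.1 hj.2 I1' hI1' D1' hD'.1 D2' hD'.2
      have he2 := (root_inj r2 r1 (by simp) (by simp) he).2
      obtain ⟨-, -, e3⟩ := split_unique (mem_FS.1 hD.1) (mem_FS.1 hD.2) hWW
        (mem_FS.1 hD'.1) (mem_FS.1 hD'.2) hWW' he2.symm
      apply hne
      -- recover the interior vertices
      have hdis : ∀ z ∈ I, z ∉ (pg p (M.take j) (M.getD j p)).toFinset := by
        intro z hz hz2
        apply (disjoint_left.1 hI) (a := z) _ hz
        rw [List.mem_toFinset] at hz2 ⊢
        rw [list_split_at hj.1 p]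
        simp only [mem_pg, List.mem_append, List.mem_cons] at hz2 ⊢
        tauto
      ext z
      constructor
      · intro hz
        have : z ∈ (pg p (M.take j) (M.getD j p)).toFinset ∪ I1' := by
          rw [← e3]; exact mem_union_right _ hz
        exact (mem_union.1 this).resolve_left (hdis z (hI1 hz))
      · intro hz
        have : z ∈ (pg p (M.take j) (M.getD j p)).toFinset ∪ I1 := by
          rw [e3]; exact mem_union_right _ hz
        exact (mem_union.1 this).resolve_left (hdis z (hI1' hz))
  · intro j hj j' hj' hne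
    rw [Function.onFun, disjoint_left]
    intro D hD hD'
    rw [mem_coe, mem_filter, mem_range] at hj hj'
    simp only [mem_biUnion, mem_image, mem_powerset, mem_product, Prod.exists] at hD hD'
    obtain ⟨I1, hI1, D1, D2, ⟨hD1, hD2⟩, rfl⟩ := hD
    obtain ⟨I1', hI1', D1', D2', ⟨hD1', hD2'⟩, he⟩ := hD'
    obtain ⟨r1, a1, a2, hWW⟩ := hsub j hj.1 hj.2 I1 hI1 D1 hD1 D2 hD2
    obtain ⟨r2, b1, b2, hWW'⟩ := hsub j' hj'.1 hj'.2 I1' hI1' D1' hD1' D2' hD2'
    have he1 := (root_inj r2 r1 (by simp) (by simp) he).1
    have he2 := mid_inj b1 b2 he1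
    rw [List.getD_eq_getElem _ _ hj.1, List.getD_eq_getElem _ _ hj'.1] at he2
    have hMn : M.Nodup := by
      rw [pg, List.nodup_cons, List.nodup_append] at hn
      exact hn.2.1
    exact hne ((hMn.getElem_inj_iff).1 he2).symm

/-- lower bound for the number of triangulated disks -/
theorem count_le : ∀ (n k f i : ℕ), 2 * i + k ≤ n → ∀ (p : V) (M : List V) (q : V)
    (I : Finset V), (pg p M q).Nodup → M.length = k → Disjoint (pg p M q).toFinset I →
    I.card = i → i.factorial * bb k f i ≤ (FS f p M q I).card := by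
  intro n
  induction n with
  | zero =>
    intro k f i hn p M q I hnd hM hdis hI
    have hk : k = 0 := by omega
    have hi : i = 0 := by omega
    subst hk hi
    rw [bb_zero]
    by_cases hf : f = 0
    · subst hf
      simp only [and_self, if_true, Nat.factorial_zero, mul_one]
      apply card_pos.2
      refine ⟨∅, ?_⟩
      rw [mem_FS]
      have hM' : M = [] := List.length_eq_zero_iff.1 hM
      subst hM'
      rw [card_eq_zero] at hI
      subst hI
      have hpq : p ≠ q := by rintro rfl; simp [pg] at hnd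
      have := Fill.edge p q hpq
      simpa [pg] using this
    · simp [hf]
  | succ n ih =>
    intro k f i hn p M q I hnd hM hdis hI
    by_cases hk : k = 0
    · subst hk
      rw [bb_zero]
      by_cases hf : f = 0 ∧ i = 0
      · rw [if_pos hf]
        obtain ⟨rfl, rfl⟩ := hf
        simp only [Nat.factorial_zero, mul_one]
        apply card_pos.2
        refine ⟨∅, ?_⟩
        rw [mem_FS]
        have hM' : M = [] := List.length_eq_zero_iff.1 hM
        subst hM'
        rw [card_eq_zero] at hI
        subst hI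
        have hpq : p ≠ q := by rintro rfl; simp [pg] at hnd
        have := Fill.edge p q hpq
        simpa [pg] using this
      · rw [if_neg hf]; simp
    · have hMne : M ≠ [] := by
        rintro rfl; exact hk hM.symm
      have hcard : (newPart f p M q I).card + (splitPart f p M q I).card
          ≤ (FS f p M q I).card := by
        rw [← card_union_of_disjoint (parts_disjoint hnd hdis)]
        exact card_le_card (union_subset (newPart_sub hMne hnd hdis) (splitPart_sub hnd hdis))
      refine le_trans ?_ hcard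
      rw [bb_pos hk, mul_add]
      apply Nat.add_le_add
      · -- new part
        rw [card_newPart hnd hdis]
        by_cases hi : i = 0
        · simp [hi]
        · rw [if_neg hi]
          have hx : ∀ x ∈ I, (i - 1).factorial * bb (k + 1) (f + 1) (i - 1)
              ≤ (FS (f + 1) x (p :: M) q (I.erase x)).card := by
            intro x hx
            have hxpg : x ∉ pg p M q := fun h =>
              (disjoint_left.1 hdis) (List.mem_toFinset.2 h) hx
            apply ih (k + 1) (f + 1) (i - 1) (by omega)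
            · exact List.nodup_cons.2 ⟨hxpg, hnd⟩
            · simp [hM]
            · rw [disjoint_left]
              intro z hz hz2
              rw [mem_erase] at hz2
              rw [List.mem_toFinset] at hz
              rcases List.mem_cons.1 hz with h | h
              · exact hz2.1 h
              · exact (disjoint_left.1 hdis) (List.mem_toFinset.2 h) hz2.2
            · rw [card_erase_of_mem hx, hI]
          have := sum_le_sum hx
          rw [sum_const, hI, smul_eq_mul, ← mul_assoc, Nat.mul_factorial_pred hi] at this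
          exact this
      · -- split part
        rw [card_splitPart hnd hdis, hM, Finset.mul_sum]
        rw [Finset.sum_filter, ← Fin.sum_univ_eq_sum_range (fun j => if f ≤ j then
          ∑ I1 ∈ I.powerset, (FS 0 p (M.take j) (M.getD j p) I1).card *
          (FS 0 (M.getD j p) (M.drop (j + 1)) q (I \ I1)).card else 0)]
        apply sum_le_sum
        intro j _
        by_cases hfj : f ≤ (j : ℕ)
        · rw [if_pos hfj, if_pos hfj]
          have hjM : (j : ℕ) < M.length := hM ▸ j.isLt
          have hterm : ∀ I1 ∈ I.powerset, I1.card.factorial * (i - I1.card).factorial *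
              (bb j 0 I1.card * bb (k - 1 - j) 0 (i - I1.card)) ≤
              (FS 0 p (M.take j) (M.getD j p) I1).card *
              (FS 0 (M.getD j p) (M.drop (j + 1)) q (I \ I1)).card := by
            intro I1 hI1
            rw [mem_powerset] at hI1
            have hc1 : I1.card ≤ i := hI ▸ card_le_card hI1
            have hsplit := list_split_at hjM p
            have hnd' := hnd
            rw [hsplit] at hnd'
            have hsubM : ∀ z, z ∈ pg p (M.take j) (M.getD j p) → z ∈ pg p M q := by
              intro z hz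
              rw [hsplit]
              simp only [mem_pg, List.mem_append, List.mem_cons] at hz ⊢
              tauto
            have hsubM2 : ∀ z, z ∈ pg (M.getD j p) (M.drop (j + 1)) q → z ∈ pg p M q := by
              intro z hz
              rw [hsplit]
              simp only [mem_pg, List.mem_append, List.mem_cons] at hz ⊢
              tauto
            rw [pg_split] at hnd'
            have a := ih j 0 I1.card (by have := j.isLt; omega) p (M.take j) (M.getD j p) I1
              (by
                have : (p :: M.take j ++ [M.getD j p]).Nodup := by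
                  refine List.Sublist.nodup ?_ hnd'
                  rw [List.append_sublist_append_left]
                  simp
                simpa [pg] using this)
              (by rw [List.length_take]; omega)
              (by
                rw [disjoint_left]
                intro z hz hz2
                rw [List.mem_toFinset] at hz
                exact (disjoint_left.1 hdis) (List.mem_toFinset.2 (hsubM z hz)) (hI1 hz2))
              rfl
            have b := ih (k - 1 - j) 0 (i - I1.card) (by have := j.isLt; omega) (M.getD j p)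
              (M.drop (j + 1)) q (I \ I1)
              ((List.nodup_append.1 hnd').2.1)
              (by rw [List.length_drop]; omega)
              (by
                rw [disjoint_left]
                intro z hz hz2
                rw [List.mem_toFinset] at hz
                exact (disjoint_left.1 hdis) (List.mem_toFinset.2 (hsubM2 z hz))
                  (mem_sdiff.1 hz2).1)
              (by rw [card_sdiff_of_subset hI1, hI])
            calc _ = (I1.card.factorial * bb j 0 I1.card) *
                  ((i - I1.card).factorial * bb (k - 1 - j) 0 (i - I1.card)) := by ring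
              _ ≤ _ := Nat.mul_le_mul a b
          refine le_trans ?_ (sum_le_sum hterm)
          rw [sum_powerset_apply_card (fun c => c.factorial * (i - c).factorial *
              (bb j 0 c * bb (k - 1 - j) 0 (i - c))), hI]
          rw [Fin.sum_univ_eq_sum_range (fun i1 => bb j 0 i1 * bb (k - 1 - j) 0 (i - i1)),
            Finset.mul_sum]
          apply le_of_eq
          apply sum_congr rfl
          intro c hc
          rw [mem_range] at hc
          have hch := Nat.choose_mul_factorial_mul_factorial (show c ≤ i by omega)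
          rw [smul_eq_mul, ← mul_assoc (i.choose c), ← mul_assoc (i.choose c), hch]
        · rw [if_neg hfj, if_neg hfj]; simp

end Pool.Agent.H38.SC
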