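import Mathlib

/-!
# Simplicial complexes given by lists, their realisation, random 2-complexes
-/

set_option autoImplicit false

namespace Pool.Agent.H38.SC

/-- A 2-dimensional complex given by its lists of vertices, edges and triangles. -/
abbrev Inp : Type := List ℕ × List (ℕ × ℕ) × List (ℕ × ℕ × ℕ)

/-- The simplices listed by the input (as vertex sets). -/
def simplices (x : Inp) : Set (Finset ℕ) :=
  {s | (∃ a ∈ x.1, s = {a}) ∨ (∃ e ∈ x.2.1, s = {e.1, e.2}) ∨
    ∃ t ∈ x.2.2, s = {t.1, t.2.1, t.2.2}}

/-- The three lists describe a simplicial complex: listed edges have two different vertices,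
listed triangles three, and all faces of listed simplices are listed. -/
def IsComplex (x : Inp) : Prop :=
  (∀ e ∈ x.2.1, e.1 ≠ e.2) ∧
  (∀ t ∈ x.2.2, t.1 ≠ t.2.1 ∧ t.1 ≠ t.2.2 ∧ t.2.1 ≠ t.2.2) ∧
  ∀ s ∈ simplices x, ∀ r ⊆ s, r.Nonempty → r ∈ simplices x

/-- The closed geometric simplex with vertex set `s`, in barycentric coordinates. -/
def simplex (s : Finset ℕ) : Set (ℕ → ℝ) :=
  {z | (∀ i, 0 ≤ z i) ∧ (∀ i, i ∉ s → z i = 0) ∧ ∑ i ∈ s, z i = 1}

/-- The geometric realisation of a finite complex with set of simplices `S`, a subspace of the
space `ℕ → ℝ`. -/
def realization (S : Set (Finset ℕ)) : Set (ℕ → ℝ) := {z | ∃ s ∈ S, z ∈ simplex s}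

/-- The complex with vertices `1, …, n`, all edges, and the triangles in `F`. -/
def LM (n : ℕ) (F : Finset (Finset ℕ)) : Set (Finset ℕ) :=
  {s | s.Nonempty ∧ s ⊆ Finset.Icc 1 n ∧ (s.card ≤ 2 ∨ s ∈ F)}

open Classical in
/-- The probability that the answer of `A` on the random complex with vertices `1, …, n`, all
edges, and every triangle independently with probability `p`, is `true`, however this complex is
written down as an input. -/
noncomputable def acceptProb (A : Inp → Bool) (n : ℕ) (p : ℝ) : ℝ :=
  ∑ F ∈ (Finset.powersetCard 3 (Finset.Icc 1 n)).powerset,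
    p ^ F.card * (1 - p) ^ (n.choose 3 - F.card) *
      if ∀ x : Inp, IsComplex x → simplices x = LM n F → A x = true then 1 else 0

/-- Self-delimiting pairing of bit strings: every bit of `u` preceded by `true`, then `false`,
then `w`. -/
def pairBits (u w : List Bool) : List Bool := u.flatMap (fun b => [true, b]) ++ false :: w

/-- Code of a list of bit strings. -/
def listBits : List (List Bool) → List Bool
  | [] => []
  | u :: l => pairBits u (listBits l)

/-- The input as a bit string, numbers being written in binary. -/
def encodeInp (x : Inp) : List Bool :=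
  pairBits (listBits (x.1.map Computability.encodeNat))
    (pairBits
      (listBits (x.2.1.map fun e =>
        pairBits (Computability.encodeNat e.1) (Computability.encodeNat e.2)))
      (listBits (x.2.2.map fun t =>
        pairBits (Computability.encodeNat t.1)
          (pairBits (Computability.encodeNat t.2.1) (Computability.encodeNat t.2.2)))))

/-- `A` is a polynomial-time certifier for simple connectivity: it is computed by a Turing machine
in time polynomial in the length of the input, and it answers `true` only on complexes whose
realisation is simply connected. -/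
def IsPolyTimeCertifier (A : Inp → Bool) : Prop :=
  Nonempty (Turing.TM2ComputableInPolyTime encodeInp (fun b : Bool => [b]) A) ∧
  ∀ x : Inp, IsComplex x → A x = true → SimplyConnectedSpace (realization (simplices x))

end Pool.Agent.H38.SC
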