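import Mathlib

/-!
# Triangulated disks (fills) with prescribed boundary polygon

`Fill f p M q W D`: the set of triangles `D` on vertex set `W` is a triangulated disk whose
boundary is the polygon `p, M, q` (the root edge is `{p, q}`), and no triangle of `D` contains
`q` together with one of the first `f` vertices of `M`.
-/

set_option autoImplicit false

namespace Pool.Agent.H38.SC

variable {V : Type*} [DecidableEq V]

/-- vertices of a set of faces -/
def vs (S : Finset (Finset V)) : Finset V := S.biUnion id

@[simp] theorem mem_vs {S : Finset (Finset V)} {x : V} : x ∈ vs S ↔ ∃ F ∈ S, x ∈ F := by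
  simp [vs]

@[simp] theorem vs_empty : vs (∅ : Finset (Finset V)) = ∅ := rfl

theorem vs_mono {S T : Finset (Finset V)} (h : S ⊆ T) : vs S ⊆ vs T :=
  Finset.biUnion_subset_biUnion_of_subset_left _ h

theorem vs_insert (F : Finset V) (S : Finset (Finset V)) : vs (insert F S) = F ∪ vs S := by
  simp [vs, Finset.biUnion_insert]

theorem vs_union (S T : Finset (Finset V)) : vs (S ∪ T) = vs S ∪ vs T := by
  ext x
  simp only [mem_vs, Finset.mem_union]
  constructor
  · rintro ⟨F, hF | hF, hx⟩
    · exact Or.inl ⟨F, hF, hx⟩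
    · exact Or.inr ⟨F, hF, hx⟩
  · rintro (⟨F, hF, hx⟩ | ⟨F, hF, hx⟩)
    · exact ⟨F, Or.inl hF, hx⟩
    · exact ⟨F, Or.inr hF, hx⟩

/-- triangulated disks; see the module header -/
inductive Fill : ℕ → V → List V → V → Finset V → Finset (Finset V) → Prop
  | edge (p q : V) (h : p ≠ q) : Fill 0 p [] q {p, q} ∅
  | new {f : ℕ} {p : V} {M : List V} {q x : V} {W : Finset V} {D : Finset (Finset V)}
      (hM : M ≠ []) (h : Fill (f + 1) x (p :: M) q W D) : Fill f p M q W (insert {p, x, q} D)
  | split {f : ℕ} {p : V} {M1 : List V} {y : V} {M2 : List V} {q : V} {W1 W2 : Finset V}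
      {D1 D2 : Finset (Finset V)} (hf : f ≤ M1.length) (h1 : Fill 0 p M1 y W1 D1)
      (h2 : Fill 0 y M2 q W2 D2) (hW : W1 ∩ W2 = {y}) :
      Fill f p (M1 ++ y :: M2) q (W1 ∪ W2) (insert {p, y, q} (D1 ∪ D2))

/-- polygon -/
def pg (p : V) (M : List V) (q : V) : List V := p :: (M ++ [q])

omit [DecidableEq V] in
@[simp] theorem mem_pg {p q x : V} {M : List V} : x ∈ pg p M q ↔ x = p ∨ x ∈ M ∨ x = q := by
  simp [pg]

omit [DecidableEq V] in
theorem length_pg (p : V) (M : List V) (q : V) : (pg p M q).length = M.length + 2 := by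
  simp [pg]

omit [DecidableEq V] in
theorem pg_split (p : V) (M1 : List V) (y : V) (M2 : List V) (q : V) :
    pg p (M1 ++ y :: M2) q = (p :: M1) ++ y :: (M2 ++ [q]) := by
  simp [pg]

theorem Fill.subset {f : ℕ} {p : V} {M : List V} {q : V} {W : Finset V} {D : Finset (Finset V)}
    (h : Fill f p M q W D) : ∀ x ∈ pg p M q, x ∈ W := by
  induction h with
  | edge p q h => intro x hx; simpa [pg] using hx
  | new hM h ih => intro x hx; apply ih; simp only [mem_pg, List.mem_cons] at hx ⊢; tauto
  | split hf h1 h2 hW ih1 ih2 =>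
    intro x hx
    simp only [mem_pg, List.mem_cons, List.mem_append] at hx ih1 ih2
    rw [Finset.mem_union]
    rcases hx with h | (h | h | h) | h
    · exact Or.inl (ih1 x (Or.inl h))
    · exact Or.inl (ih1 x (Or.inr (Or.inl h)))
    · exact Or.inl (ih1 x (Or.inr (Or.inr h)))
    · exact Or.inr (ih2 x (Or.inr (Or.inl h)))
    · exact Or.inr (ih2 x (Or.inr (Or.inr h)))

theorem mem_inter_iff_of {W1 W2 : Finset V} {y x : V} (h : W1 ∩ W2 = {y}) :
    (x ∈ W1 ∧ x ∈ W2) ↔ x = y := by
  rw [← Finset.mem_inter, h, Finset.mem_singleton]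

theorem Fill.nodup {f : ℕ} {p : V} {M : List V} {q : V} {W : Finset V} {D : Finset (Finset V)}
    (h : Fill f p M q W D) : (pg p M q).Nodup := by
  induction h with
  | edge p q h => simpa [pg] using h
  | new hM h ih => exact (List.nodup_cons.1 ih).2
  | @split f p M1 y M2 q W1 W2 D1 D2 hf h1 h2 hW ih1 ih2 =>
    have s1 := h1.subset
    have s2 := h2.subset
    rw [pg_split, List.nodup_append]
    have e1 : pg p M1 y = (p :: M1) ++ [y] := by simp [pg]
    rw [e1, List.nodup_append] at ih1
    refine ⟨ih1.1, ih2, ?_⟩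
    intro a ha b hb hab
    subst hab
    have ha1 : a ∈ W1 := s1 a (by rw [e1]; simp only [List.mem_append]; exact Or.inl ha)
    have hb2 : a ∈ W2 := s2 a hb
    have : a = y := (mem_inter_iff_of hW).1 ⟨ha1, hb2⟩
    exact ih1.2.2 a ha y (by simp) this

theorem Fill.face {f : ℕ} {p : V} {M : List V} {q : V} {W : Finset V} {D : Finset (Finset V)}
    (h : Fill f p M q W D) : ∀ F ∈ D, F ⊆ W ∧ F.card = 3 := by
  induction h with
  | edge p q h => simp
  | @new f p M q x W D hM h ih =>
    intro F hF
    rw [Finset.mem_insert] at hF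
    rcases hF with rfl | hF
    · have hn := h.nodup
      have hs := h.subset
      constructor
      · intro z hz
        simp only [Finset.mem_insert, Finset.mem_singleton] at hz
        apply hs
        simp only [mem_pg, List.mem_cons]
        tauto
      · have h1 : p ≠ x := by
          rintro rfl; simp [pg] at hn
        have h2 : p ≠ q := by
          rintro rfl; simp [pg] at hn
        have h3 : x ≠ q := by
          rintro rfl; simp [pg] at hn
        exact Finset.card_eq_three.2 ⟨p, x, q, h1, h2, h3, rfl⟩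
    · exact ih F hF
  | @split f p M1 y M2 q W1 W2 D1 D2 hf h1 h2 hW ih1 ih2 =>
    intro F hF
    rw [Finset.mem_insert, Finset.mem_union] at hF
    rcases hF with rfl | hF | hF
    · have hn := (Fill.split hf h1 h2 hW).nodup
      constructor
      · intro z hz
        simp only [Finset.mem_insert, Finset.mem_singleton] at hz
        rw [Finset.mem_union]
        rcases hz with rfl | rfl | rfl
        · exact Or.inl (h1.subset _ (by simp))
        · exact Or.inl (h1.subset _ (by simp))
        · exact Or.inr (h2.subset _ (by simp))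
      · have h1 : p ≠ y := by
          rintro rfl; simp [pg] at hn
        have h2 : p ≠ q := by
          rintro rfl; simp [pg] at hn
        have h3 : y ≠ q := by
          have n2 := Fill.nodup ‹Fill 0 y M2 q W2 D2›
          rintro rfl; simp [pg] at n2
        exact Finset.card_eq_three.2 ⟨p, y, q, h1, h2, h3, rfl⟩
    · exact ⟨(ih1 F hF).1.trans Finset.subset_union_left, (ih1 F hF).2⟩
    · exact ⟨(ih2 F hF).1.trans Finset.subset_union_right, (ih2 F hF).2⟩

theorem Fill.vs_sub {f : ℕ} {p : V} {M : List V} {q : V} {W : Finset V} {D : Finset (Finset V)}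
    (h : Fill f p M q W D) : vs D ⊆ W := by
  intro x hx
  obtain ⟨F, hF, hx⟩ := mem_vs.1 hx
  exact (h.face F hF).1 hx

theorem Fill.nil {f : ℕ} {p : V} {M : List V} {q : V} {W : Finset V} {D : Finset (Finset V)}
    (h : Fill f p M q W D) (hM : M = []) : D = ∅ ∧ W = {p, q} := by
  cases h with
  | edge p q h => exact ⟨rfl, rfl⟩
  | new hM' h => exact absurd hM hM'
  | split hf h1 h2 hW => simp at hM

theorem Fill.vs_eq {f : ℕ} {p : V} {M : List V} {q : V} {W : Finset V} {D : Finset (Finset V)}
    (h : Fill f p M q W D) (hM : M ≠ []) : vs D = W := by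
  induction h with
  | edge p q h => exact absurd rfl hM
  | @new f p M q x W D hM' h ih =>
    have e := ih (by simp)
    rw [vs_insert, e]
    apply Finset.union_eq_right.2
    intro z hz
    simp only [Finset.mem_insert, Finset.mem_singleton] at hz
    apply h.subset
    simp only [mem_pg, List.mem_cons]
    tauto
  | @split f p M1 y M2 q W1 W2 D1 D2 hf h1 h2 hW ih1 ih2 =>
    have s1 : vs D1 ∪ {p, y} = W1 := by
      by_cases hM1 : M1 = []
      · obtain ⟨e1, e2⟩ := h1.nil hM1
        rw [e1, e2]; simp
      · rw [ih1 hM1]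
        apply Finset.union_eq_left.2
        intro z hz
        simp only [Finset.mem_insert, Finset.mem_singleton] at hz
        apply h1.subset
        simp only [mem_pg]
        tauto
    have s2 : vs D2 ∪ {y, q} = W2 := by
      by_cases hM1 : M2 = []
      · obtain ⟨e1, e2⟩ := h2.nil hM1
        rw [e1, e2]; simp
      · rw [ih2 hM1]
        apply Finset.union_eq_left.2
        intro z hz
        simp only [Finset.mem_insert, Finset.mem_singleton] at hz
        apply h2.subset
        simp only [mem_pg]
        tauto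
    rw [vs_insert, vs_union, ← s1, ← s2]
    ext z
    simp only [Finset.mem_union, Finset.mem_insert, Finset.mem_singleton]
    tauto

/-- no face contains `q` and one of the first `f` vertices of `M` -/
theorem Fill.forbid {f : ℕ} {p : V} {M : List V} {q : V} {W : Finset V} {D : Finset (Finset V)}
    (h : Fill f p M q W D) : ∀ y ∈ M.take f, ∀ F ∈ D, ¬ (y ∈ F ∧ q ∈ F) := by
  induction h with
  | edge p q h => simp
  | @new f p M q x W D hM' h ih =>
    intro y hy F hF
    rw [Finset.mem_insert] at hF
    rcases hF with rfl | hF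
    · rintro ⟨h1, -⟩
      simp only [Finset.mem_insert, Finset.mem_singleton] at h1
      have hn := h.nodup
      have hyM := List.mem_of_mem_take hy
      rcases h1 with rfl | rfl | rfl
      · simp [pg, hyM] at hn
      · simp [pg, hyM] at hn
      · rw [pg, List.nodup_cons] at hn
        have := hn.2
        rw [List.nodup_append] at this
        exact this.2.2 y (List.mem_cons_of_mem _ hyM) y (by simp) rfl
    · apply ih y _ F hF
      rw [List.take_succ_cons]
      exact List.mem_cons_of_mem _ hy
  | @split f p M1 y M2 q W1 W2 D1 D2 hf h1 h2 hW ih1 ih2 =>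
    intro z hz F hF
    rw [List.take_append_of_le_length hf] at hz
    have hzM := List.mem_of_mem_take hz
    have hn := (Fill.split hf h1 h2 hW).nodup
    have n1 := h1.nodup
    have n2 := h2.nodup
    have hzy : z ≠ y := by
      rintro rfl
      rw [pg, List.nodup_cons, List.nodup_append] at n1
      exact n1.2.2.2 z hzM z (by simp) rfl
    have hqy : q ≠ y := by
      rintro rfl; simp [pg] at n2
    have hzp : z ≠ p := by
      rintro rfl
      simp [pg, hzM] at n1
    have hzW1 : z ∈ W1 := h1.subset z (by simp [hzM])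
    have hqW2 : q ∈ W2 := h2.subset q (by simp)
    have hzq : z ≠ q := by
      rintro rfl
      exact hzy ((mem_inter_iff_of hW).1 ⟨hzW1, hqW2⟩)
    rw [Finset.mem_insert, Finset.mem_union] at hF
    rcases hF with rfl | hF | hF
    · rintro ⟨h1, -⟩
      simp only [Finset.mem_insert, Finset.mem_singleton] at h1
      tauto
    · rintro ⟨-, h⟩
      exact hqy ((mem_inter_iff_of hW).1 ⟨(h1.face F hF).1 h, hqW2⟩)
    · rintro ⟨h, -⟩
      exact hzy ((mem_inter_iff_of hW).1 ⟨hzW1, (h2.face F hF).1 h⟩)

/-- in the `new` case the root edge lies in no other face -/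
theorem Fill.root_new {f : ℕ} {x p : V} {M : List V} {q : V} {W : Finset V}
    {D : Finset (Finset V)} (h : Fill (f + 1) x (p :: M) q W D) :
    ∀ F ∈ D, ¬ (p ∈ F ∧ q ∈ F) :=
  fun F hF => h.forbid p (by simp) F hF

theorem Fill.root_split {p : V} {M1 : List V} {y : V} {M2 : List V} {q : V} {W1 W2 : Finset V}
    {D1 D2 : Finset (Finset V)} (h1 : Fill 0 p M1 y W1 D1)
    (h2 : Fill 0 y M2 q W2 D2) (hW : W1 ∩ W2 = {y}) :
    ∀ F ∈ D1 ∪ D2, ¬ (p ∈ F ∧ q ∈ F) := by
  have n1 := h1.nodup
  have n2 := h2.nodup
  have hpy : p ≠ y := by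
    rintro rfl; simp [pg] at n1
  have hqy : q ≠ y := by
    rintro rfl; simp [pg] at n2
  have hpW1 : p ∈ W1 := h1.subset p (by simp)
  have hqW2 : q ∈ W2 := h2.subset q (by simp)
  intro F hF
  rw [Finset.mem_union] at hF
  rcases hF with hF | hF
  · rintro ⟨-, h⟩
    exact hqy ((mem_inter_iff_of hW).1 ⟨(h1.face F hF).1 h, hqW2⟩)
  · rintro ⟨h, -⟩
    exact hpy ((mem_inter_iff_of hW).1 ⟨hpW1, (h2.face F hF).1 h⟩)

theorem disj_of_inter {W1 W2 : Finset V} {y : V} {D1 D2 : Finset (Finset V)}
    (hW : W1 ∩ W2 = {y}) (h1 : ∀ F ∈ D1, F ⊆ W1 ∧ F.card = 3)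
    (h2 : ∀ F ∈ D2, F ⊆ W2 ∧ F.card = 3) : Disjoint D1 D2 := by
  rw [Finset.disjoint_left]
  intro F hF1 hF2
  have : F ⊆ W1 ∩ W2 := Finset.subset_inter (h1 F hF1).1 (h2 F hF2).1
  have := Finset.card_le_card this
  rw [hW, Finset.card_singleton, (h1 F hF1).2] at this
  omega

theorem Fill.card {f : ℕ} {p : V} {M : List V} {q : V} {W : Finset V} {D : Finset (Finset V)}
    (h : Fill f p M q W D) : D.card + M.length + 4 = 2 * W.card := by
  induction h with
  | edge p q h => simp [Finset.card_pair h]
  | @new f p M q x W D hM' h ih =>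
    rw [Finset.card_insert_of_notMem]
    · simp only [List.length_cons] at ih; omega
    · intro hF
      exact h.root_new _ hF (by simp)
  | @split f p M1 y M2 q W1 W2 D1 D2 hf h1 h2 hW ih1 ih2 =>
    rw [Finset.card_insert_of_notMem, Finset.card_union_of_disjoint
      (disj_of_inter hW h1.face h2.face)]
    · have := Finset.card_union_add_card_inter W1 W2
      rw [hW, Finset.card_singleton] at this
      simp only [List.length_append, List.length_cons]
      omega
    · intro hF
      exact Fill.root_split h1 h2 hW _ hF (by simp)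

end Pool.Agent.H38.SC
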