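import Pool.Agent.H38.SC.Rounds

/-!
# From a dense core to everything
-/

set_option autoImplicit false

namespace Pool.Agent.H38.SC

open Finset EF

section Tail

variable {α τ : Type*} [DecidableEq α] [DecidableEq τ]

open Classical in
/-- number of events which occur -/
noncomputable def cntE (X : Finset τ) (E : τ → Finset α → Prop) (Z : Finset α) : ℕ :=
  (X.filter (fun x => E x Z)).card

omit [DecidableEq α] [DecidableEq τ] in
theorem cntE_eq (X : Finset τ) (E : τ → Finset α → Prop) (Z : Finset α) :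
    (cntE X E Z : ℝ) = ∑ x ∈ X, ind (E x) Z := by
  unfold cntE
  rw [card_filter]
  push_cast
  apply sum_congr rfl
  intro x _
  by_cases h : E x Z
  · rw [ind_pos h, if_pos h]
  · rw [ind_neg h, if_neg h]

theorem tail_prod {Ω : Finset α} {q κ : ℝ} (h0 : 0 ≤ q) (h1 : q ≤ 1) (S : τ → Finset α)
    (E : τ → Finset α → Prop) : ∀ X : Finset τ,
    (∀ x ∈ X, ∀ x' ∈ X, x ≠ x' → Disjoint (S x) (S x')) →
    (∀ x ∈ X, ∀ Z, E x Z ↔ E x (Z ∩ S x)) →
    (∀ x ∈ X, κ ≤ Ex Ω q (ind (E x))) →
    Ex Ω q (fun Z => Real.exp (-(∑ x ∈ X, ind (E x) Z))) ≤ Real.exp (-(κ / 2) * X.card) := by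
  intro X
  induction X using Finset.induction_on with
  | empty =>
    intro _ _ _
    simp only [sum_empty, neg_zero, Real.exp_zero, card_empty, Nat.cast_zero, mul_zero]
    rw [Ex_one]
  | insert a X ha ih =>
    intro hd hE hκ
    have ih' := ih (fun x hx x' hx' => hd x (mem_insert_of_mem hx) x' (mem_insert_of_mem hx'))
      (fun x hx => hE x (mem_insert_of_mem hx)) (fun x hx => hκ x (mem_insert_of_mem hx))
    have e1 : ∀ Z, Real.exp (-(∑ x ∈ insert a X, ind (E x) Z)) =
        Real.exp (-(ind (E a) Z)) * Real.exp (-(∑ x ∈ X, ind (E x) Z)) := by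
      intro Z
      rw [sum_insert ha, ← Real.exp_add]
      congr 1
      ring
    have e2 : Ex Ω q (fun Z => Real.exp (-(∑ x ∈ insert a X, ind (E x) Z))) =
        Ex Ω q (fun Z => Real.exp (-(ind (E a) Z))) *
        Ex Ω q (fun Z => Real.exp (-(∑ x ∈ X, ind (E x) Z))) := by
      rw [Ex_congr q (fun Z _ => e1 Z)]
      apply Ex_indep Ω (S a) (X.biUnion S) q
      · rw [disjoint_biUnion_right]
        intro x hx
        exact hd a (mem_insert_self _ _) x (mem_insert_of_mem hx) (by rintro rfl; exact ha hx)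
      · intro Z
        rw [ind_congr (hE a (mem_insert_self _ _) Z)]
      · intro Z
        have : ∀ x ∈ X, ind (E x) Z = ind (E x) (Z ∩ X.biUnion S) := by
          intro x hx
          apply ind_congr
          rw [hE x (mem_insert_of_mem hx) Z, hE x (mem_insert_of_mem hx) (Z ∩ X.biUnion S),
            inter_assoc, inter_eq_right.2 (subset_biUnion_of_mem S hx)]
        rw [sum_congr rfl this]
    rw [e2, card_insert_of_notMem ha]
    have e3 : Ex Ω q (fun Z => Real.exp (-(ind (E a) Z))) ≤ Real.exp (-(κ / 2)) := by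
      have hpt : ∀ Z ⊆ Ω, Real.exp (-(ind (E a) Z)) ≤ 1 + (-(1 / 2)) * ind (E a) Z := by
        intro Z _
        by_cases h : E a Z
        · rw [ind_pos h]
          have h2 : (2 : ℝ) ≤ Real.exp 1 := by
            have := Real.add_one_le_exp (1 : ℝ); linarith
          rw [Real.exp_neg]
          have : (Real.exp 1)⁻¹ ≤ 2⁻¹ := inv_anti₀ (by norm_num) h2
          linarith
        · rw [ind_neg h]; simp
      refine (Ex_mono h0 h1 hpt).trans ?_
      rw [Ex_add, Ex_mul_left, Ex_one]
      have h3 := hκ a (mem_insert_self _ _)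
      have h4 := Real.add_one_le_exp (-(κ / 2))
      have h5 : Ex Ω q (fun Z => ind (E a) Z) = Ex Ω q (ind (E a)) := rfl
      rw [h5]
      linarith
    push_cast
    have e4 : Real.exp (-(κ / 2) * (X.card + 1)) =
        Real.exp (-(κ / 2)) * Real.exp (-(κ / 2) * X.card) := by
      rw [← Real.exp_add]; congr 1; ring
    rw [e4]
    apply mul_le_mul e3 ih'
    · exact Ex_nonneg h0 h1 (fun _ _ => (Real.exp_pos _).le)
    · exact (Real.exp_pos _).le

theorem tail {Ω : Finset α} {q κ d : ℝ} (h0 : 0 ≤ q) (h1 : q ≤ 1) (S : τ → Finset α)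
    (E : τ → Finset α → Prop) (X : Finset τ)
    (hd : ∀ x ∈ X, ∀ x' ∈ X, x ≠ x' → Disjoint (S x) (S x'))
    (hE : ∀ x ∈ X, ∀ Z, E x Z ↔ E x (Z ∩ S x))
    (hκ : ∀ x ∈ X, κ ≤ Ex Ω q (ind (E x))) :
    (bern Ω q h0 h1).P (fun Z => (cntE X E Z : ℝ) < d) ≤
      Real.exp (d - κ / 2 * X.card) := by
  have h2 := tail_prod (Ω := Ω) (κ := κ) h0 h1 S E X hd hE hκ
  have h3 := (bern Ω q h0 h1).markov (X := fun Z => Real.exp (-(∑ x ∈ X, ind (E x) Z)))
    (fun _ _ => (Real.exp_pos _).le) (c := Real.exp (-d)) (Real.exp_pos _)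
  refine le_trans ?_ (h3.trans ?_)
  · apply P_mono
    intro Z _ h
    rw [cntE_eq] at h
    exact Real.exp_le_exp.2 (by linarith)
  · rw [bern_E, div_le_iff₀ (Real.exp_pos _), ← Real.exp_add]
    refine h2.trans (le_of_eq ?_)
    congr 1
    ring

end Tail

variable {V : Type*} [DecidableEq V]

theorem exp_le_inv_pow {q s : ℝ} {k : ℕ} (h0 : 0 ≤ q) (h1 : q < 1) (h : s ≤ k) :
    Real.exp (q * s) ≤ ((1 - q) ^ k)⁻¹ := by
  have h2 : 1 - q ≤ Real.exp (-q) := by
    have := Real.add_one_le_exp (-q); linarith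
  have h3 : (1 - q) ^ k ≤ Real.exp (-(q * k)) := by
    calc (1 - q) ^ k ≤ (Real.exp (-q)) ^ k := pow_le_pow_left₀ (by linarith) h2 k
      _ = Real.exp (-(q * k)) := by rw [← Real.exp_nat_mul]; congr 1; ring
  have h4 : 0 < (1 - q) ^ k := pow_pos (by linarith) k
  calc Real.exp (q * s) ≤ Real.exp (q * k) := Real.exp_le_exp.2 (mul_le_mul_of_nonneg_left h h0)
    _ = (Real.exp (-(q * k)))⁻¹ := by rw [Real.exp_neg, inv_inv]
    _ ≤ ((1 - q) ^ k)⁻¹ := inv_anti₀ h4 h3

/-- once all pairs are certified the success probability is one -/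
theorem suc_one {U : Finset V} {v : V} {N : V → V → Prop} {p : ℝ}
    (h : ∀ b ∈ U, ∀ c ∈ U, b ≠ c → b ≠ v → c ≠ v → N b c) : Suc U v N p = 1 := by
  unfold Suc
  rw [← Ex_one (powersetCard 3 U) p]
  apply Ex_congr
  intro Z _
  exact ind_pos (A := fun Z => Goal U v N Z) (fun b hb c hc h1 h2 h3 => Clo.base (h b hb c hc h1 h2 h3))

theorem final_phase {U : Finset V} {v : V} {m : ℕ} {cls : Fin 3 → Finset V} (hC : Cl U v m cls)
    (hm : 0 < m) (N : V → V → Prop) (hsym : ∀ a b, N a b → N b a)
    {p q s η θ d d' κ : ℝ} {A : Fin 3 → Finset V} (hSt : St cls m N s η θ A) (hη : 0 < η)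
    (hθ : θ + 2 * Real.sqrt η ≤ 1 / 2)
    (hq0 : 0 < q) (hqp : 6 * q ≤ p) (hp1 : p ≤ 1) (hs : 0 < s)
    (hκ : κ = min (q * (d - 1)) 1 / 2) (hd : 1 ≤ d) :
    1 - 2 * ((m : ℝ) ^ 2 / Real.exp (q * s)) - (m : ℝ) ^ 2 / Real.exp (q * (m / 2))
      - U.card * Real.exp (d - q / 2 * (m / 2 - 1))
      - (U.card : ℝ) ^ 2 * Real.exp (d' - κ ^ 2 / 2 * (m / 2 - 2))
      - (U.card : ℝ) ^ 2 / Real.exp (q * d') ≤ Suc U v N p := by
  have hq1 : q < 1 := by linarith
  have hm' : (0 : ℝ) < m := by exact_mod_cast hm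
  obtain ⟨A', hA', hbig, hrow⟩ := prune hSt hη hm
  have hA'c : ∀ i, A' i ⊆ cls i := fun i => (hA' i).trans (hSt.sub i)
  have hA'm : ∀ i, (m : ℝ) / 2 ≤ (A' i).card := by
    intro i
    refine le_trans ?_ (hbig i)
    have := mul_le_mul_of_nonneg_left hθ hm'.le
    linarith
  have hA'le : ∀ i, ((A' i).card : ℝ) ≤ m := by
    intro i
    exact_mod_cast (card_le_card (hA'c i)).trans (le_of_eq (hC.card i))
  have hκ0 : 0 ≤ κ := by
    rw [hκ]
    have : 0 ≤ min (q * (d - 1)) 1 := le_min (mul_nonneg hq0.le (by linarith)) zero_le_one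
    linarith
  have hE : ∀ x : ℝ, 0 < Real.exp x := Real.exp_pos
  -- positivity of the error terms
  have p1 : 0 ≤ (m : ℝ) ^ 2 / Real.exp (q * s) := by positivity
  have p2 : 0 ≤ (m : ℝ) ^ 2 / Real.exp (q * (m / 2)) := by positivity
  have p3 : 0 ≤ U.card * Real.exp (d - q / 2 * (m / 2 - 1)) := by positivity
  have p4 : 0 ≤ (U.card : ℝ) ^ 2 * Real.exp (d' - κ ^ 2 / 2 * (m / 2 - 2)) := by positivity
  have p5 : 0 ≤ (U.card : ℝ) ^ 2 / Real.exp (q * d') := by positivity
  classical
  -- F1a
  set Pi1 : Finset (V × V) := (A' 0 ×ˢ cls 2).filter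
    (fun ab => s ≤ ((cod N (cls 1) ab.1 ab.2).card : ℝ)) with hPi1
  have c1 : (Pi1.card : ℝ) ≤ (m : ℝ) ^ 2 := by
    have : Pi1.card ≤ (A' 0 ×ˢ cls 2).card := card_le_card (filter_subset _ _)
    rw [card_product, hC.card 2] at this
    have h2 : (Pi1.card : ℝ) ≤ (A' 0).card * m := by exact_mod_cast this
    refine h2.trans ?_
    rw [sq]
    exact mul_le_mul_of_nonneg_right (hA'le 0) hm'.le
  have F1a := suc_all N hsym (t := Real.exp (q * s)) (p := p) (q := q) (r := 5 * q)
    (β := 1 - (m : ℝ) ^ 2 / Real.exp (q * s) - (m : ℝ) ^ 2 / Real.exp (q * (m / 2))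
      - U.card * Real.exp (d - q / 2 * (m / 2 - 1))
      - (U.card : ℝ) ^ 2 * Real.exp (d' - κ ^ 2 / 2 * (m / 2 - 2))
      - (U.card : ℝ) ^ 2 / Real.exp (q * d')) (U := U) (v := v) hq0.le (by linarith)
      (by linarith) hp1 (by linarith) (fun _ _ => cls 1) Pi1 (by
        intro ab hab
        rw [hPi1, mem_filter, mem_product] at hab
        refine ⟨hC.sub 0 (hA'c 0 hab.1.1), hC.sub 2 hab.1.2, ?_, hC.sub 1, ?_, ?_, ?_⟩
        · intro e
          exact disjoint_left.1 (hC.disj 0 2 (by decide)) (hA'c 0 hab.1.1) (e ▸ hab.1.2)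
        · exact fun h => disjoint_left.1 (hC.disj 0 1 (by decide)) (hA'c 0 hab.1.1) h
        · exact fun h => disjoint_left.1 (hC.disj 2 1 (by decide)) hab.1.2 h
        · exact exp_le_inv_pow hq0.le hq1 hab.2) (hE _)
  refine le_trans ?_ (F1a ?_)
  · have : (Pi1.card : ℝ) / Real.exp (q * s) ≤ (m : ℝ) ^ 2 / Real.exp (q * s) :=
      div_le_div_of_nonneg_right c1 (hE _).le
    linarith
  intro N1 hN1 hs1 hP1
  -- F1b
  set Pi2 : Finset (V × V) := (A' 1 ×ˢ cls 2).filter
    (fun ab => s ≤ ((cod N (cls 0) ab.1 ab.2).card : ℝ)) with hPi2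
  have c2 : (Pi2.card : ℝ) ≤ (m : ℝ) ^ 2 := by
    have : Pi2.card ≤ (A' 1 ×ˢ cls 2).card := card_le_card (filter_subset _ _)
    rw [card_product, hC.card 2] at this
    have h2 : (Pi2.card : ℝ) ≤ (A' 1).card * m := by exact_mod_cast this
    refine h2.trans ?_
    rw [sq]
    exact mul_le_mul_of_nonneg_right (hA'le 1) hm'.le
  have F1b := suc_all N1 hs1 (t := Real.exp (q * s)) (p := 5 * q) (q := q) (r := 4 * q)
    (β := 1 - (m : ℝ) ^ 2 / Real.exp (q * (m / 2))
      - U.card * Real.exp (d - q / 2 * (m / 2 - 1))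
      - (U.card : ℝ) ^ 2 * Real.exp (d' - κ ^ 2 / 2 * (m / 2 - 2))
      - (U.card : ℝ) ^ 2 / Real.exp (q * d')) (U := U) (v := v) hq0.le (by linarith)
      (by linarith) (by linarith) (by linarith) (fun _ _ => cls 0) Pi2 (by
        intro ab hab
        rw [hPi2, mem_filter, mem_product] at hab
        refine ⟨hC.sub 1 (hA'c 1 hab.1.1), hC.sub 2 hab.1.2, ?_, hC.sub 0, ?_, ?_, ?_⟩
        · intro e
          exact disjoint_left.1 (hC.disj 1 2 (by decide)) (hA'c 1 hab.1.1) (e ▸ hab.1.2)
        · exact fun h => disjoint_left.1 (hC.disj 1 0 (by decide)) (hA'c 1 hab.1.1) h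
        · exact fun h => disjoint_left.1 (hC.disj 2 0 (by decide)) hab.1.2 h
        · apply exp_le_inv_pow hq0.le hq1
          refine hab.2.trans ?_
          exact_mod_cast card_le_card (cod_mono hN1 _ _ _)) (hE _)
  refine le_trans ?_ (F1b ?_)
  · have : (Pi2.card : ℝ) / Real.exp (q * s) ≤ (m : ℝ) ^ 2 / Real.exp (q * s) :=
      div_le_div_of_nonneg_right c2 (hE _).le
    linarith
  intro N2 hN2 hs2 hP2
  -- F2
  have hcod : ∀ a ∈ A' 0, ∀ b ∈ A' 1, (m : ℝ) / 2 ≤ ((cod N2 (cls 2) a b).card : ℝ) := by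
    intro a ha b hb
    obtain ⟨X, hX, hXc, hXs⟩ := strong_third hSt hθ hrow (i := 0) (j := 1) (k := 2)
      (by decide) (by decide) (by decide) ha hb
    refine hXc.trans ?_
    have : X ⊆ cod N2 (cls 2) a b := by
      intro x hx
      rw [mem_cod]
      obtain ⟨u1, u2⟩ := hXs x hx
      refine ⟨hX hx, hN2 _ _ (hP1 (a, x) ?_), hP2 (b, x) ?_⟩
      · rw [hPi1, mem_filter, mem_product]
        exact ⟨⟨ha, hX hx⟩, u1⟩
      · rw [hPi2, mem_filter, mem_product]
        exact ⟨⟨hb, hX hx⟩, u2⟩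
    exact_mod_cast card_le_card this
  have c3 : ((A' 0 ×ˢ A' 1).card : ℝ) ≤ (m : ℝ) ^ 2 := by
    rw [card_product, sq]
    push_cast
    exact mul_le_mul (hA'le 0) (hA'le 1) (Nat.cast_nonneg _) hm'.le
  have F2 := suc_all N2 hs2 (t := Real.exp (q * (m / 2))) (p := 4 * q) (q := q) (r := 3 * q)
    (β := 1 - U.card * Real.exp (d - q / 2 * (m / 2 - 1))
      - (U.card : ℝ) ^ 2 * Real.exp (d' - κ ^ 2 / 2 * (m / 2 - 2))
      - (U.card : ℝ) ^ 2 / Real.exp (q * d')) (U := U) (v := v) hq0.le (by linarith)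
      (by linarith) (by linarith) (by linarith) (fun _ _ => cls 2) (A' 0 ×ˢ A' 1) (by
        intro ab hab
        rw [mem_product] at hab
        refine ⟨hC.sub 0 (hA'c 0 hab.1), hC.sub 1 (hA'c 1 hab.2), ?_, hC.sub 2, ?_, ?_, ?_⟩
        · intro e
          exact disjoint_left.1 (hC.disj 0 1 (by decide)) (hA'c 0 hab.1) (e ▸ hA'c 1 hab.2)
        · exact fun h => disjoint_left.1 (hC.disj 0 2 (by decide)) (hA'c 0 hab.1) h
        · exact fun h => disjoint_left.1 (hC.disj 1 2 (by decide)) (hA'c 1 hab.2) h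
        · exact exp_le_inv_pow hq0.le hq1 (hcod _ hab.1 _ hab.2)) (hE _)
  refine le_trans ?_ (F2 ?_)
  · have : ((A' 0 ×ˢ A' 1).card : ℝ) / Real.exp (q * (m / 2)) ≤
        (m : ℝ) ^ 2 / Real.exp (q * (m / 2)) :=
      div_le_div_of_nonneg_right c3 (hE _).le
    linarith
  intro N3 hN3 hs3 hP3
  -- F3 : star faces into `A' 0`
  set E3 : V → V → Finset (Finset V) → Prop := fun z a Z => ({v, z, a} : Finset V) ∈ Z with hE3
  have hUv : ((U.erase v).card : ℝ) ≤ U.card := by
    exact_mod_cast card_le_card (erase_subset _ _)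
  have F3 := suc_step (U := U) (v := v) N3 (p := 3 * q) (q := q) (r := 2 * q)
    (δ := U.card * Real.exp (d - q / 2 * (m / 2 - 1)))
    (β := 1 - (U.card : ℝ) ^ 2 * Real.exp (d' - κ ^ 2 / 2 * (m / 2 - 2))
      - (U.card : ℝ) ^ 2 / Real.exp (q * d')) hq0.le (by linarith) (by linarith) (by linarith)
    (by linarith) (fun Z => ¬ ∃ z ∈ U.erase v, (cntE ((A' 0).erase z) (E3 z) Z : ℝ) < d)
    (by linarith)
  refine le_trans (le_of_eq ?_) (F3 ?_ ?_)
  · ring
  · rw [P_not]
    have h2 := (bern (powersetCard 3 U) q hq0.le (by linarith)).P_exists_le (U.erase v)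
      (fun z Z => (cntE ((A' 0).erase z) (E3 z) Z : ℝ) < d)
    have h3 : ∀ z ∈ U.erase v, (bern (powersetCard 3 U) q hq0.le (by linarith)).P
        (fun Z => (cntE ((A' 0).erase z) (E3 z) Z : ℝ) < d) ≤
        Real.exp (d - q / 2 * (m / 2 - 1)) := by
      intro z hz
      rw [mem_erase] at hz
      have h4 := tail (Ω := powersetCard 3 U) (κ := q) (d := d) hq0.le (by linarith)
        (fun a => ({({v, z, a} : Finset V)} : Finset (Finset V))) (E3 z) ((A' 0).erase z)
        (by
          intro x hx x' hx' hne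
          rw [disjoint_singleton]
          intro e
          rw [mem_erase] at hx hx'
          have : x ∈ ({v, z, x'} : Finset V) := by rw [← e]; simp
          simp only [mem_insert, mem_singleton] at this
          rcases this with h | h | h
          · exact hC.nv 0 (h ▸ hA'c 0 hx.2)
          · exact hx.1 h
          · exact hne h)
        (by
          intro x _ Z
          rw [hE3]
          simp only [mem_inter, mem_singleton, and_true])
        (by
          intro x hx
          rw [mem_erase] at hx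
          have h5 := Ex_subset (Ω := powersetCard 3 U) q
            ({({v, z, x} : Finset V)} : Finset (Finset V)) (by
              rw [singleton_subset_iff, mem_powersetCard]
              constructor
              · intro w hw
                simp only [mem_insert, mem_singleton] at hw
                rcases hw with rfl | rfl | rfl
                · exact hC.hv
                · exact hz.2
                · exact hC.sub 0 (hA'c 0 hx.2)
              · apply card_eq_three.2
                refine ⟨_, _, _, hz.1.symm, ?_, ?_, rfl⟩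
                · rintro rfl; exact hC.nv 0 (hA'c 0 hx.2)
                · exact hx.1.symm)
          rw [card_singleton, pow_one] at h5
          have h6 : Ex (powersetCard 3 U) q (ind (E3 z x)) = Ex (powersetCard 3 U) q
              (ind (fun Z => ({({v, z, x} : Finset V)} : Finset (Finset V)) ⊆ Z)) := by
            apply Ex_congr
            intro Z _
            apply ind_congr
            rw [singleton_subset_iff]
          rw [h6]
          exact h5.ge)
      refine h4.trans (Real.exp_le_exp.2 ?_)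
      have h6 : (m : ℝ) / 2 - 1 ≤ ((A' 0).erase z).card := by
        have h7 := pred_card_le_card_erase (s := A' 0) (a := z)
        have h8 : ((A' 0).card : ℝ) ≤ ((A' 0).erase z).card + 1 := by
          have : (A' 0).card ≤ ((A' 0).erase z).card + 1 := by omega
          exact_mod_cast this
        have := hA'm 0
        linarith
      have := mul_le_mul_of_nonneg_left h6 (show 0 ≤ q / 2 by linarith)
      linarith
    have h4 := sum_le_sum h3
    rw [sum_const, nsmul_eq_mul] at h4
    have h5 := mul_le_mul_of_nonneg_right hUv (hE (d - q / 2 * (m / 2 - 1))).le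
    linarith
  intro Z3 _ hG3
  refine ⟨fun a b => N3 a b ∨ ({v, a, b} : Finset V) ∈ Z3, ?_, ?_⟩
  · rintro b c (h | h)
    · exact Clo.base h
    · exact Clo.star h
  -- F4
  obtain ⟨N4, hN4⟩ : ∃ N4 : V → V → Prop, N4 = fun a b => N3 a b ∨ ({v, a, b} : Finset V) ∈ Z3 :=
    ⟨_, rfl⟩
  rw [← hN4]
  have hs4 : ∀ a b, N4 a b → N4 b a := by
    intro a b h
    rw [hN4] at h ⊢
    rcases h with h | h
    · exact Or.inl (hs3 _ _ h)
    · refine Or.inr ?_
      convert h using 1
      ext z; simp only [mem_insert, mem_singleton]; tauto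
  have hdeg : ∀ z ∈ U, z ≠ v → ∃ S ⊆ (A' 0).erase z, d ≤ (S.card : ℝ) ∧ ∀ a ∈ S, N4 z a := by
    intro z hz hzv
    have h1 : ¬ ((cntE ((A' 0).erase z) (E3 z) Z3 : ℝ) < d) := by
      intro h; exact hG3 ⟨z, mem_erase.2 ⟨hzv, hz⟩, h⟩
    rw [not_lt] at h1
    refine ⟨((A' 0).erase z).filter (fun a => E3 z a Z3), filter_subset _ _, ?_, ?_⟩
    · refine h1.trans (le_of_eq ?_)
      unfold cntE
      congr!
    · intro a ha
      rw [mem_filter] at ha
      rw [hN4]
      exact Or.inr ha.2
  choose! S hSsub hScard hSN using hdeg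
  have hN4c : ∀ a ∈ A' 0, ∀ b ∈ A' 1, N4 a b := by
    intro a ha b hb
    rw [hN4]
    exact Or.inl (hP3 (a, b) (mem_product.2 ⟨ha, hb⟩))
  -- blocks
  set L4 : V → V → V → Finset (Finset V) := fun z z' b => ((S z).erase z').image
    (fun a => ({z, a, b} : Finset V)) with hL4
  set E4 : V × V → V → Finset (Finset V) → Prop := fun zz b Z =>
    (Z ∩ L4 zz.1 zz.2 b).Nonempty ∧ (Z ∩ L4 zz.2 zz.1 b).Nonempty with hE4
  set Pi4 : Finset (V × V) := ((U.erase v) ×ˢ (U.erase v)).filter (fun zz => zz.1 ≠ zz.2) with hPi4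
  have c4 : (Pi4.card : ℝ) ≤ (U.card : ℝ) ^ 2 := by
    have : Pi4.card ≤ ((U.erase v) ×ˢ (U.erase v)).card := card_le_card (filter_subset _ _)
    rw [card_product] at this
    have h2 : (Pi4.card : ℝ) ≤ (U.erase v).card * (U.erase v).card := by exact_mod_cast this
    refine h2.trans ?_
    rw [sq]
    exact mul_le_mul hUv hUv (Nat.cast_nonneg _) (Nat.cast_nonneg _)
  have hmemPi : ∀ zz ∈ Pi4, zz.1 ∈ U ∧ zz.2 ∈ U ∧ zz.1 ≠ v ∧ zz.2 ≠ v ∧ zz.1 ≠ zz.2 := by
    intro zz hzz
    rw [hPi4, mem_filter, mem_product, mem_erase, mem_erase] at hzz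
    tauto
  -- facts on blocks
  have hL4mem : ∀ z z' b F, F ∈ L4 z z' b ↔ ∃ a ∈ S z, a ≠ z' ∧ F = {z, a, b} := by
    intro z z' b F
    rw [hL4]
    simp only [mem_image, mem_erase]
    constructor
    · rintro ⟨a, ⟨h1, h2⟩, rfl⟩; exact ⟨a, h2, h1, rfl⟩
    · rintro ⟨a, h1, h2, rfl⟩; exact ⟨a, ⟨h2, h1⟩, rfl⟩
  have hSA : ∀ z ∈ U, z ≠ v → ∀ a ∈ S z, a ∈ A' 0 ∧ a ≠ z := by
    intro z hz hzv a ha
    have := hSsub z hz hzv ha
    rw [mem_erase] at this
    exact ⟨this.2, this.1⟩
  have h01 : ∀ a ∈ A' 0, ∀ b ∈ A' 1, a ≠ b := by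
    rintro a ha b hb rfl
    exact disjoint_left.1 (hC.disj 0 1 (by decide)) (hA'c 0 ha) (hA'c 1 hb)
  have hκE : ∀ z ∈ U, z ≠ v → ∀ z' : V, ∀ b ∈ A' 1, b ≠ z →
      κ ≤ Ex (powersetCard 3 U) q (ind (fun Z => (Z ∩ L4 z z' b).Nonempty)) := by
    intro z hz hzv z' b hb hbz
    have hsub : L4 z z' b ⊆ powersetCard 3 U := by
      intro F hF
      rw [hL4mem] at hF
      obtain ⟨a, ha, -, rfl⟩ := hF
      obtain ⟨i1, i2⟩ := hSA z hz hzv a ha
      rw [mem_powersetCard]
      constructor
      · intro w hw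
        simp only [mem_insert, mem_singleton] at hw
        rcases hw with rfl | rfl | rfl
        · exact hz
        · exact hC.sub 0 (hA'c 0 i1)
        · exact hC.sub 1 (hA'c 1 hb)
      · apply card_eq_three.2
        exact ⟨_, _, _, i2.symm, hbz.symm, h01 a i1 b hb, rfl⟩
    have hcard : d - 1 ≤ ((L4 z z' b).card : ℝ) := by
      have e1 : (L4 z z' b).card = ((S z).erase z').card := by
        rw [hL4]
        apply card_image_of_injOn
        intro a ha a' ha' he
        rw [mem_coe, mem_erase] at ha ha'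
        obtain ⟨i1, i2⟩ := hSA z hz hzv a ha.2
        have : a ∈ ({z, a', b} : Finset V) := by
          simp only at he
          rw [← he]; simp
        simp only [mem_insert, mem_singleton] at this
        rcases this with h | h | h
        · exact absurd h i2
        · exact h
        · exact absurd h (h01 a i1 b hb)
      rw [e1]
      have h7 := pred_card_le_card_erase (s := S z) (a := z')
      have h8 : ((S z).card : ℝ) ≤ ((S z).erase z').card + 1 := by
        have : (S z).card ≤ ((S z).erase z').card + 1 := by omega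
        exact_mod_cast this
      have := hScard z hz hzv
      linarith
    have e2 : Ex (powersetCard 3 U) q (ind (fun Z => (Z ∩ L4 z z' b).Nonempty)) =
        1 - (1 - q) ^ (L4 z z' b).card := by
      have h3 : (bern (powersetCard 3 U) q hq0.le hq1.le).P (fun Z => (Z ∩ L4 z z' b).Nonempty)
          = (bern (powersetCard 3 U) q hq0.le hq1.le).P (fun Z => ¬ (Z ∩ L4 z z' b = ∅)) := by
        apply E_congr
        intro Z _
        apply ind_congr
        rw [nonempty_iff_ne_empty]
      have h4 := P_not (bern (powersetCard 3 U) q hq0.le hq1.le)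
        (fun Z => Z ∩ L4 z z' b = ∅)
      have h5 := Ex_avoid q _ hsub
      have h6 : (bern (powersetCard 3 U) q hq0.le hq1.le).P (fun Z => Z ∩ L4 z z' b = ∅)
        = (1 - q) ^ (L4 z z' b).card := h5
      rw [h6] at h4
      rw [h4] at h3
      exact h3
    rw [e2, hκ]
    refine le_trans ?_ (one_sub_pow_ge hq0.le hq1.le _)
    have : min (q * (d - 1)) 1 ≤ min (q * ((L4 z z' b).card : ℝ)) 1 :=
      min_le_min_right _ (mul_le_mul_of_nonneg_left hcard hq0.le)
    linarith
  have F4 := suc_step (U := U) (v := v) N4 (p := 2 * q) (q := q) (r := q)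
    (δ := (U.card : ℝ) ^ 2 * Real.exp (d' - κ ^ 2 / 2 * (m / 2 - 2)))
    (β := 1 - (U.card : ℝ) ^ 2 / Real.exp (q * d')) hq0.le hq0.le (by linarith) (by linarith)
    (by linarith) (fun Z => ¬ ∃ zz ∈ Pi4,
      (cntE (((A' 1).erase zz.1).erase zz.2) (E4 zz) Z : ℝ) < d')
    (by linarith)
  refine le_trans (le_of_eq ?_) (F4 ?_ ?_)
  · ring
  · rw [P_not]
    have h2 := (bern (powersetCard 3 U) q hq0.le hq1.le).P_exists_le Pi4
      (fun zz Z => (cntE (((A' 1).erase zz.1).erase zz.2) (E4 zz) Z : ℝ) < d')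
    have h3 : ∀ zz ∈ Pi4, (bern (powersetCard 3 U) q hq0.le hq1.le).P
        (fun Z => (cntE (((A' 1).erase zz.1).erase zz.2) (E4 zz) Z : ℝ) < d') ≤
        Real.exp (d' - κ ^ 2 / 2 * (m / 2 - 2)) := by
      intro zz hzz
      obtain ⟨z1, z2, z3, z4, z5⟩ := hmemPi zz hzz
      have hXmem : ∀ b ∈ ((A' 1).erase zz.1).erase zz.2, b ∈ A' 1 ∧ b ≠ zz.1 ∧ b ≠ zz.2 := by
        intro b hb
        rw [mem_erase, mem_erase] at hb
        tauto
      -- membership in the blocks determines `b`
      have hdet : ∀ z z' b F, z ∈ U → z ≠ v → b ∈ A' 1 → b ≠ z → F ∈ L4 z z' b → z' ≠ z → b ≠ z' →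
          (z ∈ F ∧ z' ∉ F ∧ ∀ b' ∈ A' 1, b' ≠ z → b' ∈ F → b' = b) := by
        intro z z' b F hz hzv hb hbz hF hzz' hbz'
        rw [hL4mem] at hF
        obtain ⟨a, ha, haz', rfl⟩ := hF
        obtain ⟨i1, i2⟩ := hSA z hz hzv a ha
        refine ⟨by simp, ?_, ?_⟩
        · simp only [mem_insert, mem_singleton, not_or]
          exact ⟨hzz', haz'.symm, hbz'.symm⟩
        · intro b' hb' hb'z h
          simp only [mem_insert, mem_singleton] at h
          rcases h with h | h | h
          · exact absurd h hb'z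
          · exact absurd h.symm (h01 a i1 b' hb')
          · exact h
      have h4 := tail (Ω := powersetCard 3 U) (κ := κ ^ 2) (d := d') hq0.le hq1.le
        (fun b => L4 zz.1 zz.2 b ∪ L4 zz.2 zz.1 b) (E4 zz) (((A' 1).erase zz.1).erase zz.2)
        (by
          intro b hb b' hb' hne
          obtain ⟨b1, b2, b3⟩ := hXmem b hb
          obtain ⟨b1', b2', b3'⟩ := hXmem b' hb'
          rw [disjoint_left]
          intro F hF hF'
          apply hne
          rw [mem_union] at hF hF'
          have hbF' : b' ∈ F := by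
            rcases hF' with h | h
            · rw [hL4mem] at h
              obtain ⟨a, -, -, rfl⟩ := h; simp
            · rw [hL4mem] at h
              obtain ⟨a, -, -, rfl⟩ := h; simp
          rcases hF with h | h
          · exact ((hdet zz.1 zz.2 b F z1 z3 b1 b2 h z5.symm b3).2.2 b' b1' b2' hbF').symm
          · exact ((hdet zz.2 zz.1 b F z2 z4 b1 b3 h z5 b2).2.2 b' b1' b3' hbF').symm)
        (by
          intro b hb Z
          rw [hE4]
          simp only
          have e1 : Z ∩ (L4 zz.1 zz.2 b ∪ L4 zz.2 zz.1 b) ∩ L4 zz.1 zz.2 b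
              = Z ∩ L4 zz.1 zz.2 b := by
            rw [inter_assoc, inter_eq_right.2 subset_union_left]
          have e2 : Z ∩ (L4 zz.1 zz.2 b ∪ L4 zz.2 zz.1 b) ∩ L4 zz.2 zz.1 b
              = Z ∩ L4 zz.2 zz.1 b := by
            rw [inter_assoc, inter_eq_right.2 subset_union_right]
          rw [e1, e2])
        (by
          intro b hb
          obtain ⟨b1, b2, b3⟩ := hXmem b hb
          have e1 : Ex (powersetCard 3 U) q (ind (E4 zz b)) =
              Ex (powersetCard 3 U) q (ind (fun Z => (Z ∩ L4 zz.1 zz.2 b).Nonempty)) *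
              Ex (powersetCard 3 U) q (ind (fun Z => (Z ∩ L4 zz.2 zz.1 b).Nonempty)) := by
            rw [← Ex_indep (powersetCard 3 U) (L4 zz.1 zz.2 b) (L4 zz.2 zz.1 b) q]
            · apply Ex_congr
              intro Z _
              by_cases q1 : (Z ∩ L4 zz.1 zz.2 b).Nonempty
              · by_cases q2 : (Z ∩ L4 zz.2 zz.1 b).Nonempty
                · rw [ind_pos (A := E4 zz b) ⟨q1, q2⟩,
                    ind_pos (A := fun Z => (Z ∩ L4 zz.1 zz.2 b).Nonempty) q1,
                    ind_pos (A := fun Z => (Z ∩ L4 zz.2 zz.1 b).Nonempty) q2]; norm_num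
                · rw [ind_neg (A := E4 zz b) (fun h => q2 h.2),
                    ind_neg (A := fun Z => (Z ∩ L4 zz.2 zz.1 b).Nonempty) q2, mul_zero]
              · rw [ind_neg (A := E4 zz b) (fun h => q1 h.1),
                  ind_neg (A := fun Z => (Z ∩ L4 zz.1 zz.2 b).Nonempty) q1, zero_mul]
            · rw [disjoint_left]
              intro F hF hF'
              have d1 := hdet zz.1 zz.2 b F z1 z3 b1 b2 hF z5.symm b3
              have d2 := hdet zz.2 zz.1 b F z2 z4 b1 b3 hF' z5 b2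
              exact d1.2.1 d2.1
            · intro Z
              apply ind_congr
              rw [inter_assoc, inter_self]
            · intro Z
              apply ind_congr
              rw [inter_assoc, inter_self]
          rw [e1, sq]
          exact mul_le_mul (hκE zz.1 z1 z3 zz.2 b b1 b2) (hκE zz.2 z2 z4 zz.1 b b1 b3) hκ0
            (le_trans hκ0 (hκE zz.1 z1 z3 zz.2 b b1 b2)))
      refine h4.trans (Real.exp_le_exp.2 ?_)
      have h6 : (m : ℝ) / 2 - 2 ≤ (((A' 1).erase zz.1).erase zz.2).card := by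
        have h7 := pred_card_le_card_erase (s := A' 1) (a := zz.1)
        have h8 := pred_card_le_card_erase (s := (A' 1).erase zz.1) (a := zz.2)
        have h9 : ((A' 1).card : ℝ) ≤ (((A' 1).erase zz.1).erase zz.2).card + 2 := by
          have : (A' 1).card ≤ (((A' 1).erase zz.1).erase zz.2).card + 2 := by omega
          exact_mod_cast this
        have := hA'm 1
        linarith
      have := mul_le_mul_of_nonneg_left h6 (show 0 ≤ κ ^ 2 / 2 by positivity)
      linarith
    have h4 := sum_le_sum h3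
    rw [sum_const, nsmul_eq_mul] at h4
    have h5 := mul_le_mul_of_nonneg_right c4 (hE (d' - κ ^ 2 / 2 * (m / 2 - 2))).le
    linarith
  intro Z4 _ hG4
  refine ⟨fun a b => Clo v N4 Z4 a b, fun _ _ h => h, ?_⟩
  -- F5
  have F5 := suc_all (U := U) (v := v) (fun a b => Clo v N4 Z4 a b) (fun _ _ h => Clo.symm h)
    (t := Real.exp (q * d')) (p := q) (q := q) (r := 0) (β := 1) hq0.le le_rfl
      (by linarith) (by linarith) le_rfl (fun a b => ((A' 1).erase a).erase b) Pi4 (by
        intro zz hzz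
        obtain ⟨z1, z2, z3, z4, z5⟩ := hmemPi zz hzz
        refine ⟨z1, z2, z5, ?_, ?_, ?_, ?_⟩
        · intro b hb
          rw [mem_erase, mem_erase] at hb
          exact hC.sub 1 (hA'c 1 hb.2.2)
        · intro h
          rw [mem_erase, mem_erase] at h
          exact h.2.1 rfl
        · intro h
          rw [mem_erase] at h
          exact h.1 rfl
        · apply exp_le_inv_pow hq0.le hq1
          have h1 : ¬ ((cntE (((A' 1).erase zz.1).erase zz.2) (E4 zz) Z4 : ℝ) < d') := by
            intro h; exact hG4 ⟨zz, hzz, h⟩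
          rw [not_lt] at h1
          refine h1.trans ?_
          unfold cntE
          have : (((A' 1).erase zz.1).erase zz.2).filter (fun b => E4 zz b Z4) ⊆
              cod (fun a b => Clo v N4 Z4 a b) (((A' 1).erase zz.1).erase zz.2) zz.1 zz.2 := by
            intro b hb
            rw [mem_filter] at hb
            rw [mem_cod]
            obtain ⟨hbX, hb1, hb2⟩ := hb
            rw [mem_erase, mem_erase] at hbX
            refine ⟨by rw [mem_erase, mem_erase]; exact hbX, ?_, ?_⟩
            · obtain ⟨F, hF⟩ := hb1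
              rw [mem_inter, hL4mem] at hF
              obtain ⟨hFZ, a, ha, -, rfl⟩ := hF
              exact Clo.tri (Clo.base (hSN zz.1 z1 z3 a ha))
                (Clo.base (hN4c a (hSA zz.1 z1 z3 a ha).1 b hbX.2.2)) hFZ
            · obtain ⟨F, hF⟩ := hb2
              rw [mem_inter, hL4mem] at hF
              obtain ⟨hFZ, a, ha, -, rfl⟩ := hF
              exact Clo.tri (Clo.base (hSN zz.2 z2 z4 a ha))
                (Clo.base (hN4c a (hSA zz.2 z2 z4 a ha).1 b hbX.2.2)) hFZ
          have h2 := card_le_card this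
          refine le_trans (le_of_eq ?_) (show ((((((A' 1).erase zz.1).erase zz.2).filter
            (fun b => E4 zz b Z4)).card : ℕ) : ℝ) ≤ _ by exact_mod_cast h2)
          congr!) (hE _)
  refine le_trans ?_ (F5 ?_)
  · have : (Pi4.card : ℝ) / Real.exp (q * d') ≤ (U.card : ℝ) ^ 2 / Real.exp (q * d') :=
      div_le_div_of_nonneg_right c4 (hE _).le
    linarith
  intro N6 _ _ hP6
  apply le_of_eq
  rw [suc_one]
  intro b hb c hc h1 h2 h3
  apply hP6 (b, c)
  rw [hPi4, mem_filter, mem_product, mem_erase, mem_erase]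
  exact ⟨⟨⟨h2, hb⟩, h3, hc⟩, h1⟩

end Pool.Agent.H38.SC
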