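import Pool.Agent.H38.SC.Topo

/-!
# Straight paths in realisations; the criterion for simple connectivity
-/

set_option autoImplicit false

namespace Pool.Agent.H38.SC

open unitInterval

theorem simplex_convex (s : Finset ℕ) : Convex ℝ (simplex s) := by
  intro x hx y hy a b ha hb hab
  refine ⟨fun i => ?_, fun i hi => ?_, ?_⟩
  · have h1 := hx.1 i
    have h2 := hy.1 i
    simp only [Pi.add_apply, Pi.smul_apply, smul_eq_mul]
    positivity
  · simp [hx.2.1 i hi, hy.2.1 i hi]
  · simp only [Pi.add_apply, Pi.smul_apply, smul_eq_mul]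
    rw [Finset.sum_add_distrib, ← Finset.mul_sum, ← Finset.mul_sum, hx.2.2, hy.2.2]
    linarith

theorem single_mem {s : Finset ℕ} {w : ℕ} (hw : w ∈ s) : (Pi.single w 1 : ℕ → ℝ) ∈ simplex s := by
  refine ⟨fun i => ?_, fun i hi => ?_, ?_⟩
  · by_cases h : i = w
    · subst h; simp
    · simp [h]
  · have : i ≠ w := by rintro rfl; exact hi hw
    simp [this]
  · rw [Finset.sum_eq_single w]
    · simp
    · intro b _ hb; simp [hb]
    · intro h; exact absurd hw h

theorem mem_of_pos {s : Finset ℕ} {z : ℕ → ℝ} (hz : z ∈ simplex s) {w : ℕ} (hw : 0 < z w) :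
    w ∈ s := by
  by_contra h
  have := hz.2.1 w h
  linarith

theorem exists_pos {s : Finset ℕ} {z : ℕ → ℝ} (hz : z ∈ simplex s) : ∃ w ∈ s, 0 < z w := by
  by_contra h
  push Not at h
  have : ∑ i ∈ s, z i ≤ 0 := Finset.sum_nonpos h
  have := hz.2.2
  linarith

variable {S : Set (Finset ℕ)}

/-- two points in a common simplex -/
def Com (a b : realization S) : Prop := ∃ s ∈ S, a.1 ∈ simplex s ∧ b.1 ∈ simplex s

/-- straight path -/
noncomputable def segP (a b : realization S) (h : Com a b) : Path a b where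
  toFun u := ⟨(1 - (u : ℝ)) • a.1 + (u : ℝ) • b.1, by
    obtain ⟨s, hs, ha, hb⟩ := h
    exact ⟨s, hs, simplex_convex s ha hb (by linarith [u.2.2]) u.2.1 (by ring)⟩⟩
  continuous_toFun := by fun_prop
  source' := by ext i; simp
  target' := by ext i; simp

theorem segP_apply (a b : realization S) (h : Com a b) (u : I) :
    (segP a b h u).1 = (1 - (u : ℝ)) • a.1 + (u : ℝ) • b.1 := rfl

/-- class of the straight path -/
noncomputable def sg (a b : realization S) (h : Com a b) : Path.Homotopic.Quotient a b :=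
  Path.Homotopic.Quotient.mk (segP a b h)

theorem homotopic_simplex {s : Finset ℕ} (hs : s ∈ S) {a b : realization S} (p q : Path a b)
    (hp : ∀ t, (p t).1 ∈ simplex s) (hq : ∀ t, (q t).1 ∈ simplex s) : p.Homotopic q := by
  have hmem : ∀ x : I × I, (1 - (x.1 : ℝ)) • (p x.2).1 + (x.1 : ℝ) • (q x.2).1 ∈
      realization S := fun x => ⟨s, hs,
    simplex_convex s (hp x.2) (hq x.2) (by linarith [x.1.2.2]) x.1.2.1 (by ring)⟩
  refine ⟨{ toFun := fun x => ⟨_, hmem x⟩, continuous_toFun := by fun_prop,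
            map_zero_left := ?_, map_one_left := ?_, prop' := ?_ }⟩
  · intro x; ext i; simp
  · intro x; ext i; simp
  · intro t x hx
    rcases hx with hx | hx
    · subst hx
      ext i
      simp
      ring
    · rw [Set.mem_singleton_iff] at hx
      subst hx
      ext i
      simp
      ring

theorem segP_mem {s : Finset ℕ} {a b : realization S} (h : Com a b) (ha : a.1 ∈ simplex s)
    (hb : b.1 ∈ simplex s) (u : I) : (segP a b h u).1 ∈ simplex s := by
  rw [segP_apply]
  exact simplex_convex s ha hb (by linarith [u.2.2]) u.2.1 (by ring)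

theorem sg_trans {a b c : realization S} {s : Finset ℕ} (hs : s ∈ S) (ha : a.1 ∈ simplex s)
    (hb : b.1 ∈ simplex s) (hc : c.1 ∈ simplex s) (h1 : Com a b) (h2 : Com b c) (h3 : Com a c) :
    (sg a b h1).trans (sg b c h2) = sg a c h3 := by
  unfold sg
  rw [← Path.Homotopic.Quotient.mk_trans]
  apply Path.Homotopic.Quotient.eq.2
  apply homotopic_simplex hs
  · intro t
    rw [Path.trans_apply]
    split_ifs
    · exact segP_mem _ ha hb _
    · exact segP_mem _ hb hc _
  · intro t
    exact segP_mem _ ha hc _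

theorem sg_self {a : realization S} (h : Com a a) : sg a a h = Path.Homotopic.Quotient.refl a := by
  unfold sg
  rw [← Path.Homotopic.Quotient.mk_refl]
  congr 1
  ext u i
  simp [segP]
  ring

/-- vertices of the complex -/
abbrev Vt (S : Set (Finset ℕ)) : Type := {w : ℕ // {w} ∈ S}

/-- the point of a vertex -/
noncomputable def vp (w : Vt S) : realization S :=
  ⟨Pi.single w.1 1, {w.1}, w.2, single_mem (Finset.mem_singleton_self _)⟩

theorem star_path {w : Vt S} {a b : realization S} (γ : Path a b) (hγ : ∀ t, 0 < (γ t).1 w.1)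
    (h1 : Com (vp w) a) (h2 : Com (vp w) b) :
    (sg (vp w) a h1).trans (Path.Homotopic.Quotient.mk γ) = sg (vp w) b h2 := by
  have hmem : ∀ x : I × I, (1 - (x.2 : ℝ)) • (γ x.1).1 + (x.2 : ℝ) • (Pi.single w.1 1 : ℕ → ℝ) ∈
      realization S := by
    intro x
    obtain ⟨s, hs, hz⟩ := (γ x.1).2
    exact ⟨s, hs, simplex_convex s hz (single_mem (mem_of_pos hz (hγ x.1)))
      (by linarith [x.2.2.2]) x.2.2.1 (by ring)⟩
  have hcont : Continuous (fun x : I × I =>
      (⟨(1 - (x.2 : ℝ)) • (γ x.1).1 + (x.2 : ℝ) • (Pi.single w.1 1 : ℕ → ℝ), hmem x⟩ :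
        realization S)) := by fun_prop
  have h := square ⟨_, hcont⟩ (segP (vp w) a h1) γ (Path.refl (vp w)) (segP (vp w) b h2)
    (fun u => by
      apply Subtype.ext
      rw [segP_apply]
      funext i
      simp [vp]
      ring)
    (fun u => by apply Subtype.ext; funext i; simp)
    (fun u => by
      apply Subtype.ext
      rw [Path.refl_apply]
      funext i
      simp [vp])
    (fun u => by
      apply Subtype.ext
      rw [segP_apply]
      funext i
      simp [vp]
      ring)
  rw [Path.Homotopic.Quotient.mk_refl, Path.Homotopic.Quotient.refl_trans] at h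
  exact h

theorem com_vp (hK : ∀ a b : Vt S, ({a.1, b.1} : Finset ℕ) ∈ S) (a b : Vt S) :
    Com (vp a) (vp b) :=
  ⟨_, hK a b, single_mem (by simp), single_mem (by simp)⟩

/-- the class of an edge -/
noncomputable def ed (hK : ∀ a b : Vt S, ({a.1, b.1} : Finset ℕ) ∈ S) (a b : Vt S) :
    Path.Homotopic.Quotient (vp a) (vp b) := sg (vp a) (vp b) (com_vp hK a b)

variable (hK : ∀ a b : Vt S, ({a.1, b.1} : Finset ℕ) ∈ S)

theorem ed_tri {a b c : Vt S} (h : ({a.1, b.1, c.1} : Finset ℕ) ∈ S) :
    (ed hK a b).trans (ed hK b c) = ed hK a c :=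
  sg_trans h (single_mem (by simp)) (single_mem (by simp)) (single_mem (by simp)) _ _ _

theorem ed_self (a : Vt S) : ed hK a a = Path.Homotopic.Quotient.refl (vp a) := sg_self _

theorem ed_back (a b : Vt S) : (ed hK a b).trans (ed hK b a) =
    Path.Homotopic.Quotient.refl (vp a) := by
  rw [ed_tri hK, ed_self]
  have := hK a b
  have h : ({a.1, b.1, a.1} : Finset ℕ) = {a.1, b.1} := by
    ext x; simp only [Finset.mem_insert, Finset.mem_singleton]; tauto
  rw [h]; exact this

/-- **criterion**: if the loops `v, b, c, v` are null-homotopic, the space is simply connected -/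
theorem simplyConnected_of_loops (hd : ∀ s ∈ S, ∀ r ⊆ s, r.Nonempty → r ∈ S) (v : Vt S)
    (hR : ∀ b c : Vt S, (ed hK v b).trans (ed hK b c) = ed hK v c) :
    SimplyConnectedSpace (realization S) := by
  have hw : ∀ z : realization S, ∃ w : Vt S, 0 < z.1 w.1 := by
    intro z
    obtain ⟨s, hs, hz⟩ := z.2
    obtain ⟨w, hw, hw0⟩ := exists_pos hz
    exact ⟨⟨w, hd s hs {w} (by simpa using hw) ⟨w, by simp⟩⟩, hw0⟩
  have hcom : ∀ (z : realization S) (w : Vt S), 0 < z.1 w.1 → Com (vp w) z := by
    intro z w h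
    obtain ⟨s, hs, hz⟩ := z.2
    exact ⟨s, hs, single_mem (mem_of_pos hz h), hz⟩
  choose w hw0 using hw
  have hind : ∀ (z : realization S) (u u' : Vt S) (hu : 0 < z.1 u.1) (hu' : 0 < z.1 u'.1),
      (ed hK v u).trans (sg (vp u) z (hcom z u hu)) =
      (ed hK v u').trans (sg (vp u') z (hcom z u' hu')) := by
    intro z u u' hu hu'
    obtain ⟨s, hs, hz⟩ := z.2
    have h1 : (ed hK u u').trans (sg (vp u') z (hcom z u' hu')) = sg (vp u) z (hcom z u hu) :=
      sg_trans hs (single_mem (mem_of_pos hz hu)) (single_mem (mem_of_pos hz hu')) hz _ _ _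
    rw [← h1, ← Path.Homotopic.Quotient.trans_assoc, hR]
  refine simplyConnected_of_transport (v := vp v)
    (fun z => (ed hK v (w z)).trans (sg (vp (w z)) z (hcom z (w z) (hw0 z)))) ?_
  intro z0
  refine ⟨{z | 0 < z.1 (w z0).1}, ?_, hw0 z0, ?_⟩
  · apply isOpen_lt continuous_const
    exact (continuous_apply _).comp continuous_subtype_val
  · intro a b γ hγ
    have ha : 0 < a.1 (w z0).1 := by have := hγ 0; rwa [γ.source] at this
    have hb : 0 < b.1 (w z0).1 := by have := hγ 1; rwa [γ.target] at this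
    rw [hind a (w a) (w z0) (hw0 a) ha, hind b (w b) (w z0) (hw0 b) hb,
      Path.Homotopic.Quotient.trans_assoc, star_path γ hγ _ (hcom b (w z0) hb)]

end Pool.Agent.H38.SC
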