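import Pool.Agent.H38.SC.Count

/-!
# Exponential growth of the number of triangulated disks
-/

set_option autoImplicit false

namespace Pool.Agent.H38.SC

open Finset PowerSeries

/-- generating function in the number of interior vertices -/
noncomputable def BB (k f : ℕ) : ℝ⟦X⟧ := PowerSeries.mk (fun i => (bb k f i : ℝ))

/-- generating function in the number of interior vertices, no forbidden chords -/
noncomputable def hh (k : ℕ) : ℝ⟦X⟧ := BB k 0

/-- diagonal generating function -/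
noncomputable def GG (m : ℕ) : ℝ⟦X⟧ := BB (m + 1) m

theorem hh_zero : hh 0 = 1 := by
  ext i
  unfold hh BB
  rw [coeff_mk, bb_zero, coeff_one]
  by_cases hi : i = 0 <;> simp [hi]

theorem BB_rec {k : ℕ} (hk : k ≠ 0) (f : ℕ) :
    BB k f = X * BB (k + 1) (f + 1) +
      ∑ j ∈ range k, if f ≤ j then hh j * hh (k - 1 - j) else 0 := by
  ext i
  rw [map_add, map_sum]
  have e1 : coeff i (BB k f) = (bb k f i : ℝ) := by unfold BB; rw [coeff_mk]
  rw [e1, bb_pos hk]
  push_cast
  congr 1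
  · cases i with
    | zero => simp
    | succ i =>
      rw [coeff_succ_X_mul]
      unfold BB
      rw [coeff_mk]
      simp
  · rw [← Fin.sum_univ_eq_sum_range (fun j => coeff i (if f ≤ j then hh j * hh (k - 1 - j) else 0))]
    apply sum_congr rfl
    intro j _
    by_cases hfj : f ≤ (j : ℕ)
    · rw [if_pos hfj, if_pos hfj, coeff_mul, Finset.Nat.sum_antidiagonal_eq_sum_range_succ_mk,
        ← Fin.sum_univ_eq_sum_range (fun a => coeff a (hh j) * coeff (i - a) (hh (k - 1 - j)))]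
      apply sum_congr rfl
      intro a _
      unfold hh BB
      rw [coeff_mk, coeff_mk]
    · rw [if_neg hfj, if_neg hfj]; simp

theorem GG_rec (m : ℕ) : GG m = hh m + X * GG (m + 1) := by
  unfold GG
  rw [BB_rec (Nat.succ_ne_zero m), add_comm]
  congr 1
  rw [sum_range_succ, if_pos le_rfl, sum_eq_zero, zero_add]
  · rw [show m + 1 - 1 - m = 0 by omega, hh_zero, mul_one]
  · intro j hj
    rw [mem_range] at hj
    rw [if_neg (by omega)]

theorem GG_zero : GG 0 = hh 1 := rfl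

theorem BB_diag {d : ℕ} (hd : d ≠ 0) (f : ℕ) :
    BB (d + f) f = ∑ r ∈ range d, hh r * GG (d - 1 - r + f) := by
  have step : ∀ f, BB (d + f) f - ∑ r ∈ range d, hh r * GG (d - 1 - r + f) =
      X * (BB (d + (f + 1)) (f + 1) - ∑ r ∈ range d, hh r * GG (d - 1 - r + (f + 1))) := by
    intro f
    rw [BB_rec (by omega : d + f ≠ 0)]
    have e1 : (∑ j ∈ range (d + f), if f ≤ j then hh j * hh (d + f - 1 - j) else 0)
        = ∑ r ∈ range d, hh r * hh (d - 1 - r + f) := by
      rw [← sum_filter]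
      symm
      apply sum_nbij' (fun r => d + f - 1 - r) (fun j => d + f - 1 - j)
      · intro r hr
        rw [mem_range] at hr
        rw [mem_filter, mem_range]
        omega
      · intro j hj
        rw [mem_filter, mem_range] at hj
        rw [mem_range]
        omega
      · intro r hr
        rw [mem_range] at hr
        omega
      · intro j hj
        rw [mem_filter, mem_range] at hj
        omega
      · intro r hr
        rw [mem_range] at hr
        rw [show d + f - 1 - (d + f - 1 - r) = r by omega, show d - 1 - r + f = d + f - 1 - r by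
          omega, mul_comm]
    have e2 : ∑ r ∈ range d, hh r * GG (d - 1 - r + f) = ∑ r ∈ range d, hh r * hh (d - 1 - r + f)
        + X * ∑ r ∈ range d, hh r * GG (d - 1 - r + (f + 1)) := by
      rw [mul_sum, ← sum_add_distrib]
      apply sum_congr rfl
      intro r _
      rw [GG_rec (d - 1 - r + f)]
      ring_nf
    rw [e1, e2, show d + f + 1 = d + (f + 1) by ring]
    ring
  have pow : ∀ n f, BB (d + f) f - ∑ r ∈ range d, hh r * GG (d - 1 - r + f) =
      X ^ n * (BB (d + (f + n)) (f + n) - ∑ r ∈ range d, hh r * GG (d - 1 - r + (f + n))) := by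
    intro n
    induction n with
    | zero => intro f; simp
    | succ n ih =>
      intro f
      rw [ih f, step (f + n), pow_succ]
      ring_nf
  rw [← sub_eq_zero]
  ext i
  rw [pow (i + 1) f, coeff_X_pow_mul']
  simp

theorem hh_rec {k : ℕ} (hk : k ≠ 0) : hh k = ∑ r ∈ range k, hh r * GG (k - 1 - r) := by
  have := BB_diag hk 0
  simpa [hh] using this

theorem coeff_hh_nonneg (k i : ℕ) : 0 ≤ coeff i (hh k) := by
  unfold hh BB; rw [coeff_mk]; exact Nat.cast_nonneg _

theorem coeff_GG_nonneg (k i : ℕ) : 0 ≤ coeff i (GG k) := by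
  unfold GG BB; rw [coeff_mk]; exact Nat.cast_nonneg _

theorem coeff_GG_le (m i : ℕ) : coeff i (GG m) ≤ coeff (i + m) (GG 0) := by
  induction m generalizing i with
  | zero => simp
  | succ m ih =>
    have h1 := ih (i + 1)
    rw [GG_rec m, map_add, coeff_succ_X_mul] at h1
    have h2 := coeff_hh_nonneg m (i + 1)
    rw [show i + (m + 1) = i + 1 + m by ring]
    linarith

theorem coeff_hh_le (m i : ℕ) : coeff i (hh m) ≤ coeff i (GG m) := by
  rw [GG_rec m, map_add]
  have : 0 ≤ coeff i (X * GG (m + 1)) := by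
    cases i with
    | zero => simp
    | succ i => rw [coeff_succ_X_mul]; exact coeff_GG_nonneg _ _
  linarith

/-! ### evaluation of power series -/

/-- absolute summability -/
def Sm (x : ℝ) (P : ℝ⟦X⟧) : Prop := Summable (fun i => ‖coeff i P * x ^ i‖)

/-- value -/
noncomputable def ev (x : ℝ) (P : ℝ⟦X⟧) : ℝ := ∑' i, coeff i P * x ^ i

theorem Sm.summable {x : ℝ} {P : ℝ⟦X⟧} (h : Sm x P) : Summable (fun i => coeff i P * x ^ i) :=
  h.of_norm

theorem Sm.add {x : ℝ} {P Q : ℝ⟦X⟧} (hP : Sm x P) (hQ : Sm x Q) : Sm x (P + Q) := by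
  unfold Sm at *
  refine Summable.of_nonneg_of_le (fun i => norm_nonneg _) (fun i => ?_) (Summable.add hP hQ)
  rw [map_add, add_mul]
  exact norm_add_le _ _

theorem ev_add {x : ℝ} {P Q : ℝ⟦X⟧} (hP : Sm x P) (hQ : Sm x Q) :
    ev x (P + Q) = ev x P + ev x Q := by
  unfold ev
  rw [← Summable.tsum_add hP.summable hQ.summable]
  apply tsum_congr
  intro i
  rw [map_add, add_mul]

theorem Sm.neg {x : ℝ} {P : ℝ⟦X⟧} (hP : Sm x P) : Sm x (-P) := by
  unfold Sm at *
  refine hP.congr (fun i => ?_)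
  rw [map_neg, neg_mul, norm_neg]

theorem ev_neg {x : ℝ} {P : ℝ⟦X⟧} : ev x (-P) = -ev x P := by
  unfold ev
  rw [← tsum_neg]
  apply tsum_congr
  intro i
  rw [map_neg, neg_mul]

theorem Sm.sub {x : ℝ} {P Q : ℝ⟦X⟧} (hP : Sm x P) (hQ : Sm x Q) : Sm x (P - Q) := by
  rw [sub_eq_add_neg]; exact hP.add hQ.neg

theorem ev_sub {x : ℝ} {P Q : ℝ⟦X⟧} (hP : Sm x P) (hQ : Sm x Q) :
    ev x (P - Q) = ev x P - ev x Q := by
  rw [sub_eq_add_neg, ev_add hP hQ.neg, ev_neg, sub_eq_add_neg]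

theorem mul_aux (x : ℝ) (P Q : ℝ⟦X⟧) (n : ℕ) : coeff n (P * Q) * x ^ n =
    ∑ kl ∈ antidiagonal n, (coeff kl.1 P * x ^ kl.1) * (coeff kl.2 Q * x ^ kl.2) := by
  rw [coeff_mul, sum_mul]
  apply sum_congr rfl
  intro kl hkl
  rw [Finset.HasAntidiagonal.mem_antidiagonal] at hkl
  rw [← hkl, pow_add]
  ring

theorem Sm.mul {x : ℝ} {P Q : ℝ⟦X⟧} (hP : Sm x P) (hQ : Sm x Q) : Sm x (P * Q) := by
  have := summable_norm_sum_mul_antidiagonal_of_summable_norm hP hQ
  unfold Sm
  refine this.congr (fun n => ?_)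
  rw [mul_aux]

theorem ev_mul {x : ℝ} {P Q : ℝ⟦X⟧} (hP : Sm x P) (hQ : Sm x Q) :
    ev x (P * Q) = ev x P * ev x Q := by
  unfold ev
  rw [tsum_mul_tsum_eq_tsum_sum_antidiagonal_of_summable_norm hP hQ]
  apply tsum_congr
  intro n
  rw [mul_aux]

theorem Sm.of_fin {x : ℝ} {P : ℝ⟦X⟧} (N : ℕ) (h : ∀ i, N < i → coeff i P = 0) : Sm x P := by
  apply summable_of_ne_finset_zero (s := range (N + 1))
  intro i hi
  rw [mem_range] at hi
  rw [h i (by omega)]
  simp

theorem Sm_C (x c : ℝ) : Sm x (C c) := by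
  apply Sm.of_fin 0
  intro i hi
  rw [coeff_C, if_neg (by omega)]

theorem Sm_X (x : ℝ) : Sm x (X : ℝ⟦X⟧) := by
  apply Sm.of_fin 1
  intro i hi
  rw [coeff_X, if_neg (by omega)]

theorem ev_C (x c : ℝ) : ev x (C c) = c := by
  unfold ev
  rw [tsum_eq_single 0]
  · simp
  · intro i hi; rw [coeff_C, if_neg hi, zero_mul]

theorem ev_X (x : ℝ) : ev x (X : ℝ⟦X⟧) = x := by
  unfold ev
  rw [tsum_eq_single 1]
  · simp
  · intro i hi; rw [coeff_X, if_neg hi, zero_mul]

theorem Sm.sum {ι : Type*} {x : ℝ} {s : Finset ι} {P : ι → ℝ⟦X⟧} (h : ∀ i ∈ s, Sm x (P i)) :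
    Sm x (∑ i ∈ s, P i) := by
  classical
  induction s using Finset.induction_on with
  | empty =>
    rw [sum_empty]
    apply Sm.of_fin 0
    intro i _; simp
  | insert a s ha ih =>
    rw [sum_insert ha]
    exact (h a (mem_insert_self _ _)).add (ih (fun i hi => h i (mem_insert_of_mem hi)))

theorem ev_sum {ι : Type*} {x : ℝ} {s : Finset ι} {P : ι → ℝ⟦X⟧} (h : ∀ i ∈ s, Sm x (P i)) :
    ev x (∑ i ∈ s, P i) = ∑ i ∈ s, ev x (P i) := by
  classical
  induction s using Finset.induction_on with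
  | empty =>
    unfold ev
    simp
  | insert a s ha ih =>
    rw [sum_insert ha, sum_insert ha, ev_add (h a (mem_insert_self _ _))
      (Sm.sum (fun i hi => h i (mem_insert_of_mem hi))),
      ih (fun i hi => h i (mem_insert_of_mem hi))]

/-- power series with geometrically bounded coefficients -/
theorem Sm.of_bound {x R C : ℝ} {P : ℝ⟦X⟧} (hR : 0 < R) (hx : |x| < R)
    (h : ∀ i, |coeff i P| ≤ C / R ^ i) : Sm x P := by
  unfold Sm
  have hq : |x| / R < 1 := (div_lt_one hR).2 hx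
  have hq0 : 0 ≤ |x| / R := by positivity
  refine Summable.of_nonneg_of_le (fun i => norm_nonneg _) (fun i => ?_)
    ((summable_geometric_of_lt_one hq0 hq).mul_left C)
  rw [norm_mul, norm_pow, Real.norm_eq_abs, Real.norm_eq_abs]
  calc |coeff i P| * |x| ^ i ≤ C / R ^ i * |x| ^ i := by
        apply mul_le_mul_of_nonneg_right (h i) (by positivity)
    _ = C * (|x| / R) ^ i := by rw [div_pow]; ring

theorem analytic_ev {R C : ℝ} {P : ℝ⟦X⟧} (hR : 0 < R) (h : ∀ i, |coeff i P| ≤ C / R ^ i) :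
    AnalyticOnNhd ℝ (fun x => ev x P) (Metric.ball 0 R) := by
  set p := FormalMultilinearSeries.ofScalars ℝ (fun i => coeff i P) with hp
  have hrad : ENNReal.ofReal R ≤ p.radius := by
    rw [ENNReal.ofReal]
    apply p.le_radius_of_bound C
    intro n
    rw [Real.coe_toNNReal R hR.le]
    rw [hp, FormalMultilinearSeries.ofScalars_norm]
    rw [Real.norm_eq_abs]
    have h1 := h n
    have h2 : 0 < R ^ n := by positivity
    rw [le_div_iff₀ h2] at h1
    exact h1
  have hpos : 0 < p.radius := lt_of_lt_of_le (by simpa using hR) hrad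
  have hf := p.hasFPowerSeriesOnBall hpos
  have ha := hf.analyticOnNhd
  have heq : p.sum = fun x => ev x P := by
    funext x
    unfold ev
    rw [FormalMultilinearSeries.sum]
    apply tsum_congr
    intro n
    rw [hp, FormalMultilinearSeries.ofScalars_apply_eq, smul_eq_mul]
  rw [heq] at ha
  apply ha.mono
  intro x hx
  rw [Metric.mem_ball, dist_zero_right] at hx
  rw [Metric.mem_eball]
  refine lt_of_lt_of_le ?_ hrad
  rw [edist_zero_right, ← ofReal_norm]
  exact (ENNReal.ofReal_lt_ofReal_iff hR).2 hx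

/-! ### the functional equation -/

section FE

variable {R M : ℝ}

theorem coeff_hh_one_le (hR : 0 < R) (hM : ∀ K, (bb 1 0 K : ℝ) * R ^ K < M) (i : ℕ) :
    coeff i (hh 1) ≤ M / R ^ i := by
  unfold hh BB
  rw [coeff_mk, le_div_iff₀ (by positivity)]
  exact (hM i).le

theorem coeff_GG_bd (hR : 0 < R) (hM : ∀ K, (bb 1 0 K : ℝ) * R ^ K < M) (m i : ℕ) :
    |coeff i (GG m)| ≤ (M / R ^ m) / R ^ i := by
  rw [abs_of_nonneg (coeff_GG_nonneg _ _)]
  refine (coeff_GG_le m i).trans ?_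
  rw [GG_zero]
  refine (coeff_hh_one_le hR hM _).trans ?_
  rw [div_div, pow_add, mul_comm]

theorem coeff_hh_bd (hR : 0 < R) (hM : ∀ K, (bb 1 0 K : ℝ) * R ^ K < M) (m i : ℕ) :
    |coeff i (hh m)| ≤ (M / R ^ m) / R ^ i := by
  rw [abs_of_nonneg (coeff_hh_nonneg _ _)]
  refine (coeff_hh_le m i).trans ?_
  rw [← abs_of_nonneg (coeff_GG_nonneg m i)]
  exact coeff_GG_bd hR hM m i

theorem ev_nonneg {x : ℝ} (hx : 0 ≤ x) {P : ℝ⟦X⟧} (h : ∀ i, 0 ≤ coeff i P) : 0 ≤ ev x P := by
  unfold ev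
  apply tsum_nonneg
  intro i
  have := h i
  positivity

theorem ev_le_of_bound {x C : ℝ} {P : ℝ⟦X⟧} (hR : 0 < R) (hx0 : 0 ≤ x) (hx : x < R)
    (h : ∀ i, |coeff i P| ≤ C / R ^ i) : ev x P ≤ C / (1 - x / R) := by
  have hq : x / R < 1 := (div_lt_one hR).2 hx
  have hq0 : 0 ≤ x / R := by positivity
  have hs : Sm x P := Sm.of_bound hR (by rwa [abs_of_nonneg hx0]) h
  unfold ev
  have h2 : ∑' i, C * (x / R) ^ i = C / (1 - x / R) := by
    rw [tsum_mul_left, tsum_geometric_of_lt_one hq0 hq, ← div_eq_mul_inv]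
  rw [← h2]
  apply Summable.tsum_le_tsum _ hs.summable ((summable_geometric_of_lt_one hq0 hq).mul_left C)
  intro i
  calc coeff i P * x ^ i ≤ C / R ^ i * x ^ i := by
        apply mul_le_mul_of_nonneg_right ((le_abs_self _).trans (h i)) (by positivity)
    _ = C * (x / R) ^ i := by rw [div_pow]; ring

/-- the bivariate generating function at `x`, as a power series in the second variable -/
noncomputable def Hy (x : ℝ) : ℝ⟦X⟧ := PowerSeries.mk (fun k => ev x (hh k))

/-- auxiliary bivariate generating function at `x` -/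
noncomputable def Gy (x : ℝ) : ℝ⟦X⟧ := PowerSeries.mk (fun k => ev x (GG k))

theorem Hy_bd (hR : 0 < R) (hM : ∀ K, (bb 1 0 K : ℝ) * R ^ K < M) {x : ℝ} (hx0 : 0 ≤ x)
    (hx : x < R) (k : ℕ) : |coeff k (Hy x)| ≤ (M / (1 - x / R)) / R ^ k := by
  unfold Hy
  rw [coeff_mk, abs_of_nonneg (ev_nonneg hx0 (coeff_hh_nonneg k))]
  refine (ev_le_of_bound hR hx0 hx (coeff_hh_bd hR hM k)).trans (le_of_eq ?_)
  rw [div_div, div_div, mul_comm]

theorem Gy_bd (hR : 0 < R) (hM : ∀ K, (bb 1 0 K : ℝ) * R ^ K < M) {x : ℝ} (hx0 : 0 ≤ x)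
    (hx : x < R) (k : ℕ) : |coeff k (Gy x)| ≤ (M / (1 - x / R)) / R ^ k := by
  unfold Gy
  rw [coeff_mk, abs_of_nonneg (ev_nonneg hx0 (coeff_GG_nonneg k))]
  refine (ev_le_of_bound hR hx0 hx (coeff_GG_bd hR hM k)).trans (le_of_eq ?_)
  rw [div_div, div_div, mul_comm]

theorem eqA (hR : 0 < R) (hM : ∀ K, (bb 1 0 K : ℝ) * R ^ K < M) {x : ℝ} (hx0 : 0 ≤ x)
    (hx : x < R) : Hy x = 1 + X * (Hy x * Gy x) := by
  have hxa : |x| < R := by rwa [abs_of_nonneg hx0]
  ext k
  cases k with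
  | zero =>
    unfold Hy
    rw [coeff_mk, hh_zero]
    have : ev x (1 : ℝ⟦X⟧) = 1 := by
      have := ev_C x 1
      simpa using this
    rw [this]
    simp
  | succ k =>
    rw [map_add, coeff_succ_X_mul, coeff_mul, coeff_one, if_neg (Nat.succ_ne_zero k), zero_add]
    unfold Hy Gy
    rw [coeff_mk, hh_rec (Nat.succ_ne_zero k), ev_sum]
    · rw [Finset.Nat.sum_antidiagonal_eq_sum_range_succ_mk]
      apply sum_congr rfl
      intro r _
      rw [ev_mul (Sm.of_bound hR hxa (coeff_hh_bd hR hM _))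
        (Sm.of_bound hR hxa (coeff_GG_bd hR hM _)), coeff_mk, coeff_mk]
      rfl
    · intro r _
      exact (Sm.of_bound hR hxa (coeff_hh_bd hR hM _)).mul
        (Sm.of_bound hR hxa (coeff_GG_bd hR hM _))

theorem eqB (hR : 0 < R) (hM : ∀ K, (bb 1 0 K : ℝ) * R ^ K < M) {x : ℝ} (hx0 : 0 ≤ x)
    (hx : x < R) : X * Gy x = X * Hy x + C x * (Gy x - C (ev x (hh 1))) := by
  have hxa : |x| < R := by rwa [abs_of_nonneg hx0]
  ext k
  cases k with
  | zero =>
    simp only [map_add, coeff_zero_eq_constantCoeff, map_mul, constantCoeff_X, zero_mul, zero_add,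
      map_sub, constantCoeff_C]
    unfold Gy
    rw [← coeff_zero_eq_constantCoeff_apply, coeff_mk, GG_zero]
    ring
  | succ k =>
    rw [map_add, coeff_succ_X_mul, coeff_succ_X_mul, coeff_C_mul, map_sub, coeff_C,
      if_neg (Nat.succ_ne_zero k), sub_zero]
    unfold Gy Hy
    rw [coeff_mk, coeff_mk, coeff_mk]
    conv_lhs => rw [GG_rec k]
    rw [ev_add (Sm.of_bound hR hxa (coeff_hh_bd hR hM _))
      ((Sm_X x).mul (Sm.of_bound hR hxa (coeff_GG_bd hR hM _))),
      ev_mul (Sm_X x) (Sm.of_bound hR hxa (coeff_GG_bd hR hM _)), ev_X]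

theorem feq (hR : 0 < R) (hM : ∀ K, (bb 1 0 K : ℝ) * R ^ K < M) {x y : ℝ} (hx0 : 0 ≤ x)
    (hx : x < R) (hy : |y| < R) :
    (y - x) * (ev y (Hy x) - 1) =
      y * ev y (Hy x) * (y * ev y (Hy x) - x * ev x (hh 1)) := by
  have sH : Sm y (Hy x) := Sm.of_bound hR hy (Hy_bd hR hM hx0 hx)
  have sG : Sm y (Gy x) := Sm.of_bound hR hy (Gy_bd hR hM hx0 hx)
  have e1 : ev y (Hy x) = 1 + y * (ev y (Hy x) * ev y (Gy x)) := by
    have s1 : Sm y (1 : ℝ⟦X⟧) := by
      have := Sm_C y 1; simpa using this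
    have v1 : ev y (1 : ℝ⟦X⟧) = 1 := by
      have := ev_C y 1; simpa using this
    conv_lhs => rw [eqA hR hM hx0 hx]
    rw [ev_add s1 ((Sm_X y).mul (sH.mul sG)), ev_mul (Sm_X y) (sH.mul sG), ev_mul sH sG, ev_X, v1]
  have e2 : y * ev y (Gy x) = y * ev y (Hy x) + x * (ev y (Gy x) - ev x (hh 1)) := by
    have h := congrArg (ev y) (eqB hR hM hx0 hx)
    rw [ev_mul (Sm_X y) sG, ev_add ((Sm_X y).mul sH) ((Sm_C y x).mul (sG.sub (Sm_C y _))),
      ev_mul (Sm_X y) sH, ev_mul (Sm_C y x) (sG.sub (Sm_C y _)), ev_sub sG (Sm_C y _),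
      ev_X, ev_C, ev_C] at h
    exact h
  have e3 : (y - x) * ev y (Gy x) = y * ev y (Hy x) - x * ev x (hh 1) := by linarith
  calc (y - x) * (ev y (Hy x) - 1) = (y - x) * (y * (ev y (Hy x) * ev y (Gy x))) := by
        rw [show ev y (Hy x) - 1 = y * (ev y (Hy x) * ev y (Gy x)) by linarith]
    _ = y * ev y (Hy x) * ((y - x) * ev y (Gy x)) := by ring
    _ = _ := by rw [e3]

end FE

/-! ### the kernel argument -/

/-- the polynomial relation -/
def Pp (x w : ℝ) : ℝ :=
  2 * (8 * x - 7 * w + 2 * w ^ 2) ^ 2 - (8 * x - 7 * w + 2 * w ^ 2) * (1 - 8 * w)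
    + w * (1 - 8 * w) ^ 2

theorem Pp_le {x w : ℝ} (h : Pp x w = 0) : x ≤ 27 / 256 := by
  unfold Pp at h
  by_cases hw : 1 - 8 * w = 0
  · have hw' : w = 1 / 8 := by linarith
    subst hw'
    have h2 : (8 * x - 7 * (1 / 8) + 2 * (1 / 8) ^ 2) ^ 2 = 0 := by
      rw [hw] at h; linarith
    have h3 := pow_eq_zero_iff (two_ne_zero) |>.1 h2
    linarith
  · obtain ⟨t, ht⟩ : ∃ t, t = (8 * x - 7 * w + 2 * w ^ 2) / (1 - 8 * w) := ⟨_, rfl⟩
    have hg : 8 * x - 7 * w + 2 * w ^ 2 = t * (1 - 8 * w) := by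
      rw [ht, div_mul_cancel₀ _ hw]
    rw [hg] at h
    have h2 : (1 - 8 * w) ^ 2 * (2 * t ^ 2 - t + w) = 0 := by linear_combination h
    have h3 : 2 * t ^ 2 - t + w = 0 := by
      rcases mul_eq_zero.1 h2 with h | h
      · exact absurd (pow_eq_zero_iff (two_ne_zero) |>.1 h) hw
      · exact h
    have hw2 : w = t - 2 * t ^ 2 := by linarith
    have hx : x = t * (1 - t) ^ 3 := by
      have : 8 * x = 8 * (t * (1 - t) ^ 3) := by
        rw [hw2] at hg
        linear_combination hg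
      linarith
    rw [hx]
    nlinarith [sq_nonneg (t - 1 / 4), sq_nonneg ((t - 1 / 4) * (t - 5 / 4)),
      sq_nonneg ((t - 1 / 4) * (t - 1)), sq_nonneg ((t-1/4)*t)]

theorem Pp_of_double {x w Y : ℝ} (hY : 0 < Y)
    (h1 : (Y * (1 + w) - x) ^ 2 = 4 * Y ^ 2 * (Y - x))
    (h2 : 2 * (1 + w) * (Y * (1 + w) - x) = 8 * Y * (Y - x) + 4 * Y ^ 2) : Pp x w = 0 := by
  obtain ⟨r, hr⟩ : ∃ r, r = (Y * (1 + w) - x) / (2 * Y) := ⟨_, rfl⟩
  have hr1 : Y * (1 + w) - x = 2 * Y * r := by
    rw [hr]; field_simp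
  have hr2 : r ^ 2 = Y - x := by
    rw [hr1] at h1
    have : 4 * Y ^ 2 * (r ^ 2 - (Y - x)) = 0 := by linear_combination h1
    rcases mul_eq_zero.1 this with h | h
    · have : Y = 0 := by
        have : Y ^ 2 = 0 := by linarith
        exact pow_eq_zero_iff (two_ne_zero) |>.1 this
      exact absurd this hY.ne'
    · linarith
  have hr3 : (1 + w) * r = 3 * Y - 2 * x := by
    rw [hr1] at h2
    have : 4 * Y * ((1 + w) * r - (3 * Y - 2 * x)) = 0 := by linear_combination h2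
    rcases mul_eq_zero.1 this with h | h
    · exact absurd (by linarith : Y = 0) hY.ne'
    · linarith
  have hr4 : Y ^ 2 = x * r := by
    have : Y * ((1 + w) * r) - x * r = 2 * Y * r ^ 2 := by linear_combination r * hr1
    rw [hr3, hr2] at this
    linear_combination this
  have hr0 : r ≠ 0 := by
    intro h
    rw [h] at hr4
    have : Y = 0 := by
      have : Y ^ 2 = 0 := by linarith
      exact pow_eq_zero_iff (two_ne_zero) |>.1 this
    exact hY.ne' this
  obtain ⟨t, ht⟩ : ∃ t, t = Y / r := ⟨_, rfl⟩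
  have hYt : Y = t * r := by rw [ht, div_mul_cancel₀ _ hr0]
  have hxt : x = t ^ 2 * r := by
    have : r * (x - t ^ 2 * r) = 0 := by
      rw [hYt] at hr4; linear_combination -hr4
    rcases mul_eq_zero.1 this with h | h
    · exact absurd h hr0
    · linarith
  have hrt : r = t - t ^ 2 := by
    have : r * (r - (t - t ^ 2)) = 0 := by
      rw [hYt, hxt] at hr2; linear_combination hr2
    rcases mul_eq_zero.1 this with h | h
    · exact absurd h hr0
    · linarith
  have hwt : w = 3 * t - 2 * t ^ 2 - 1 := by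
    have : r * ((1 + w) - (3 * t - 2 * t ^ 2)) = 0 := by
      rw [hYt, hxt] at hr3; linear_combination hr3
    rcases mul_eq_zero.1 this with h | h
    · exact absurd h hr0
    · linarith
  have hx : x = t ^ 2 * (t - t ^ 2) := by rw [hxt, ← hrt]
  unfold Pp
  rw [hx, hwt]
  ring

theorem kernel {R M : ℝ} (hR : 0 < R) (hM : ∀ K, (bb 1 0 K : ℝ) * R ^ K < M) {x : ℝ}
    (hx0 : 0 < x) (hx : x < R / 4) (hx2 : x * (64 * (M + 1)) < 1) :
    Pp x (x * ev x (hh 1)) = 0 := by
  have hM0 : 0 < M := by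
    have := hM 0
    have h2 : (0 : ℝ) ≤ (bb 1 0 0 : ℝ) * R ^ 0 := by positivity
    linarith
  have hxR : x < R := by linarith
  have hu : 0 ≤ ev x (hh 1) := ev_nonneg hx0.le (coeff_hh_nonneg 1)
  obtain ⟨u, hudef⟩ : ∃ u, u = ev x (hh 1) := ⟨_, rfl⟩
  have hfe : ∀ y : ℝ, |y| < R → (y - x) * (ev y (Hy x) - 1) =
      y * ev y (Hy x) * (y * ev y (Hy x) - x * u) := fun y hy => by
    rw [hudef]; exact feq hR hM hx0.le hxR hy
  rw [← hudef] at hu ⊢
  have han := analytic_ev hR (Hy_bd hR hM hx0.le hxR)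
  set K : ℝ → ℝ := fun y => 2 * y ^ 2 * ev y (Hy x) - (y * (1 + x * u) - x) with hK
  have hKan : AnalyticOnNhd ℝ K (Metric.ball 0 R) := by
    apply AnalyticOnNhd.sub
    · apply AnalyticOnNhd.mul
      · intro y _; fun_prop
      · exact han
    · intro y _; fun_prop
  have hKsq : ∀ y : ℝ, |y| < R → K y ^ 2 = (y * (1 + x * u) - x) ^ 2 - 4 * y ^ 2 * (y - x) := by
    intro y hy
    have := hfe y hy
    rw [hK]
    simp only
    linear_combination (-4 * y ^ 2) * this
  have hball : ∀ y ∈ Set.Icc 0 (2 * x), y ∈ Metric.ball (0 : ℝ) R := by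
    intro y hy
    rw [Metric.mem_ball, dist_zero_right, Real.norm_eq_abs, abs_of_nonneg hy.1]
    linarith [hy.2]
  have hcont : ContinuousOn K (Set.Icc 0 (2 * x)) :=
    hKan.continuousOn.mono hball
  have hK0 : K 0 = x := by rw [hK]; simp
  have hK2 : K (2 * x) < 0 := by
    have hb : ev (2 * x) (Hy x) ≤ (M / (1 - x / R)) / (1 - 2 * x / R) :=
      ev_le_of_bound hR (by linarith) (by linarith) (Hy_bd hR hM hx0.le hxR)
    have q1 : x / R ≤ 1 / 4 := by
      rw [div_le_iff₀ hR]; linarith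
    have q2 : 2 * x / R ≤ 1 / 2 := by
      rw [div_le_iff₀ hR]; linarith
    have hb2 : (M / (1 - x / R)) / (1 - 2 * x / R) ≤ 8 * M / 3 := by
      rw [div_div, div_le_iff₀ (by nlinarith)]
      have : (3 : ℝ) / 8 ≤ (1 - x / R) * (1 - 2 * x / R) := by nlinarith
      nlinarith
    have hHb : ev (2 * x) (Hy x) ≤ 8 * M / 3 := hb.trans hb2
    have : K (2 * x) = x * (8 * x * ev (2 * x) (Hy x) - 1 - 2 * (x * u)) := by
      rw [hK]; ring
    rw [this]
    apply mul_neg_of_pos_of_neg hx0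
    have hxu : 0 ≤ x * u := mul_nonneg hx0.le hu
    have : 8 * x * ev (2 * x) (Hy x) ≤ 8 * x * (8 * M / 3) :=
      mul_le_mul_of_nonneg_left hHb (by linarith)
    nlinarith
  have hiv := intermediate_value_Ioo' (by linarith : (0 : ℝ) ≤ 2 * x) hcont
  obtain ⟨Y, hY, hKY⟩ := hiv (show (0 : ℝ) ∈ Set.Ioo (K (2 * x)) (K 0) by
    rw [hK0]; exact ⟨hK2, hx0⟩)
  have hYR : Y ∈ Metric.ball (0 : ℝ) R := hball Y ⟨hY.1.le, hY.2.le⟩
  have hYabs : |Y| < R := by
    rw [Metric.mem_ball, dist_zero_right, Real.norm_eq_abs] at hYR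
    exact hYR
  have hd : HasDerivAt K (deriv K Y) Y := (hKan Y hYR).differentiableAt.hasDerivAt
  have hd2 : HasDerivAt (fun y => K y ^ 2) 0 Y := by
    have := hd.fun_pow 2
    simpa [hKY] using this
  have hd3 : HasDerivAt (fun y => (y * (1 + x * u) - x) ^ 2 - 4 * y ^ 2 * (y - x))
      (2 * (1 + x * u) * (Y * (1 + x * u) - x) - (8 * Y * (Y - x) + 4 * Y ^ 2)) Y := by
    have h1 : HasDerivAt (fun y : ℝ => (y * (1 + x * u) - x) ^ 2)
        (2 * (Y * (1 + x * u) - x) * (1 + x * u)) Y := by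
      have := (((hasDerivAt_id Y).mul_const (1 + x * u)).sub_const x).fun_pow 2
      simpa using this
    have h2 : HasDerivAt (fun y : ℝ => 4 * y ^ 2 * (y - x))
        (4 * (2 * Y) * (Y - x) + 4 * Y ^ 2 * 1) Y := by
      have a := ((hasDerivAt_pow 2 Y).const_mul 4)
      have b := (hasDerivAt_id Y).sub_const x
      have := a.fun_mul b
      simpa using this
    have h3 := h1.fun_sub h2
    have e : 2 * (Y * (1 + x * u) - x) * (1 + x * u) - (4 * (2 * Y) * (Y - x) + 4 * Y ^ 2 * 1)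
        = 2 * (1 + x * u) * (Y * (1 + x * u) - x) - (8 * Y * (Y - x) + 4 * Y ^ 2) := by ring
    rw [e] at h3
    exact h3
  have heq : (fun y => K y ^ 2) =ᶠ[nhds Y]
      (fun y => (y * (1 + x * u) - x) ^ 2 - 4 * y ^ 2 * (y - x)) := by
    filter_upwards [Metric.isOpen_ball.mem_nhds hYR] with y hy
    apply hKsq
    rw [Metric.mem_ball, dist_zero_right, Real.norm_eq_abs] at hy
    exact hy
  have h0 := (hd3.congr_of_eventuallyEq heq).unique hd2
  have h00 := hKsq Y hYabs
  rw [hKY] at h00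
  apply Pp_of_double hY.1
  · linarith
  · linarith

/-- **growth**: above `27/256` the counting sequence is unbounded -/
theorem growth {R : ℝ} (hR : 27 / 256 < R) (M : ℝ) : ∃ K, M ≤ (bb 1 0 K : ℝ) * R ^ K := by
  by_contra hcon
  simp only [not_exists, not_le] at hcon
  have hR0 : 0 < R := by linarith
  have hM0 : 0 < M := by
    have := hcon 0
    have h2 : (0 : ℝ) ≤ (bb 1 0 0 : ℝ) * R ^ 0 := by positivity
    linarith
  have han : AnalyticOnNhd ℝ (fun x => ev x (hh 1)) (Metric.ball 0 R) :=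
    analytic_ev hR0 (C := M) (fun i => by
      have := coeff_hh_bd hR0 hcon 1 i
      rw [abs_of_nonneg (coeff_hh_nonneg 1 i)]
      exact coeff_hh_one_le hR0 hcon i)
  have hF : AnalyticOnNhd ℝ (fun x => Pp x (x * ev x (hh 1))) (Metric.ball 0 R) := by
    intro x hx
    have h1 : AnalyticAt ℝ (fun x => ev x (hh 1)) x := han x hx
    unfold Pp
    fun_prop
  obtain ⟨x0, hx0def⟩ : ∃ x0, x0 = min (R / 4) (1 / (64 * (M + 1))) := ⟨_, rfl⟩
  have hx0 : 0 < x0 := by rw [hx0def]; positivity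
  have hsm : ∀ x, 0 < x → x < x0 → Pp x (x * ev x (hh 1)) = 0 := by
    intro x h1 h2
    apply kernel hR0 hcon h1
    · exact h2.trans_le (hx0def ▸ min_le_left _ _)
    · have h3 : x < 1 / (64 * (M + 1)) := h2.trans_le (hx0def ▸ min_le_right _ _)
      rwa [lt_div_iff₀ (by positivity)] at h3
  have hz : x0 / 2 ∈ Metric.ball (0 : ℝ) R := by
    rw [Metric.mem_ball, dist_zero_right, Real.norm_eq_abs, abs_of_pos (by positivity)]
    have : x0 ≤ R / 4 := hx0def ▸ min_le_left _ _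
    linarith
  have hev : (fun x => Pp x (x * ev x (hh 1))) =ᶠ[nhds (x0 / 2)] 0 := by
    filter_upwards [Ioo_mem_nhds (show (0 : ℝ) < x0 / 2 by positivity)
      (show x0 / 2 < x0 by linarith)] with x hx
    exact hsm x hx.1 hx.2
  have hall := hF.eqOn_zero_of_preconnected_of_eventuallyEq_zero
    (convex_ball (0 : ℝ) R).isPreconnected hz hev
  obtain ⟨x1, hx1⟩ := exists_between hR
  have h1 : x1 ∈ Metric.ball (0 : ℝ) R := by
    rw [Metric.mem_ball, dist_zero_right, Real.norm_eq_abs, abs_of_pos (by linarith [hx1.1])]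
    exact hx1.2
  have h2 := hall h1
  simp only [Pi.zero_apply] at h2
  have := Pp_le h2
  linarith [hx1.1]

end Pool.Agent.H38.SC
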