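import Pool.Agent.H38.SC.Final

/-!
# The initial star layer and the iteration of rounds
-/

set_option autoImplicit false

namespace Pool.Agent.H38.SC

open Finset EF

variable {V : Type*} [DecidableEq V]

/-- the trivial distribution -/
def triv : EF Unit where
  supp := {()}
  w := fun _ => 1
  nn := fun _ _ => zero_le_one
  tot := by simp

theorem triv_E (F : Unit → ℝ) : triv.E F = F () := by
  unfold triv EF.E; simp

theorem triv_P (A : Unit → Prop) : triv.P A = ind A () := triv_E _

open Classical in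
/-- neighbours in `R` -/
noncomputable def nb (N : V → V → Prop) (R : Finset V) (a : V) : Finset V :=
  R.filter (fun x => N a x)

omit [DecidableEq V] in
theorem mem_nb {N : V → V → Prop} {R : Finset V} {a x : V} : x ∈ nb N R a ↔ x ∈ R ∧ N a x := by
  unfold nb; simp only [mem_filter]

omit [DecidableEq V] in
theorem nb_mono {N N' : V → V → Prop} (h : ∀ a b, N a b → N' a b) (R : Finset V) (a : V) :
    nb N R a ⊆ nb N' R a := by
  intro x; rw [mem_nb, mem_nb]; exact fun hx => ⟨hx.1, h _ _ hx.2⟩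

omit [DecidableEq V] in
theorem rows_triv (N : V → V → Prop) (P R : Finset V) :
    Rows triv P R (fun a _ => nb N R a) := by
  refine ⟨fun a _ _ x hx => (mem_nb.1 hx).1, ?_, ?_⟩
  · intro a _ x _ x' _ _
    rw [triv_E, triv_P, triv_P]
  · intro a _ a' _ _ f g
    rw [triv_E, triv_E, triv_E]

theorem half_init {U : Finset V} {v : V} {m : ℕ} {cls : Fin 3 → Finset V} (hC : Cl U v m cls)
    (N : V → V → Prop) (hsym : ∀ a b, N a b → N b a)
    {i j k : Fin 3} (hjk : j ≠ k) {A B : Finset V}
    (hA : A ⊆ cls i) (hB : B ⊆ cls j) {p q r β s t : ℝ}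
    (hq0 : 0 < q) (hr0 : 0 ≤ r) (hqr : q + r ≤ p) (hp1 : p ≤ 1) (hβ : β ≤ 1) (hs : 0 < s)
    (ht : 0 < t) (hdeg : ∀ a ∈ A, 2 * s ≤ (nb N (cls k) a).card * q)
    (h : ∀ N' : V → V → Prop, (∀ a b, N a b → N' a b) → (∀ a b, N' a b → N' b a) →
      wkN N' A B (cls k) s < 2 / s * (m : ℝ) ^ 2 + t → β ≤ Suc U v N' r) :
    β - 2 * (m : ℝ) ^ 3 / t ^ 2 ≤ Suc U v N p := by
  have hq1 : q ≤ 1 := by linarith
  set μ := bern (powersetCard 3 U) q hq0.le hq1 with hμ
  set L : V → V → Finset (Finset V) := fun b x => {({v, b, x} : Finset V)} with hL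
  have hσ : Rows μ B (cls k) (hit (cls k) L) := by
    apply rows_hit hq0.le hq1
    intro b hb b' hb' x hx x' hx' hne
    rw [hL, disjoint_singleton]
    intro e
    have m1 : b ∈ ({v, b', x'} : Finset V) := by rw [← e]; simp
    have m2 : x ∈ ({v, b', x'} : Finset V) := by rw [← e]; simp
    simp only [mem_insert, mem_singleton] at m1 m2
    have hbv : b ≠ v := fun h => hC.nv j (h ▸ hB hb)
    have hxv : x ≠ v := fun h => hC.nv k (h ▸ hx)
    have q1 : b = b' := by
      rcases m1 with h | h | h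
      · exact absurd h hbv
      · exact h
      · exact absurd (h ▸ hB hb) (fun h => disjoint_left.1 (hC.disj j k hjk) h hx')
    have q2 : x = x' := by
      rcases m2 with h | h | h
      · exact absurd h hxv
      · exact absurd (h ▸ hx) (fun h => disjoint_left.1 (hC.disj k j hjk.symm) h (hB hb'))
      · exact h
    rcases hne with h | h
    · exact h q1
    · exact h q2
  have hlow : ∀ a ∈ A, ∀ b ∈ B, 2 * s ≤ ∑ x ∈ cls k,
      triv.P (fun _ => x ∈ nb N (cls k) a) * μ.P (fun Z => x ∈ hit (cls k) L b Z) := by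
    intro a ha b hb
    refine (hdeg a ha).trans (le_of_eq ?_)
    have h1 : ∀ x ∈ cls k, triv.P (fun _ => x ∈ nb N (cls k) a) *
        μ.P (fun Z => x ∈ hit (cls k) L b Z) = if x ∈ nb N (cls k) a then q else 0 := by
      intro x hx
      have h2 : μ.P (fun Z => x ∈ hit (cls k) L b Z) = q := by
        rw [hμ, hit_P hq0.le hq1 hx]
        · rw [hL]; simp
        · rw [hL, singleton_subset_iff, mem_powersetCard]
          constructor
          · intro w hw
            simp only [mem_insert, mem_singleton] at hw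
            rcases hw with rfl | rfl | rfl
            · exact hC.hv
            · exact hC.sub j (hB hb)
            · exact hC.sub k hx
          · apply card_eq_three.2
            refine ⟨_, _, _, ?_, ?_, ?_, rfl⟩
            · rintro rfl; exact hC.nv j (hB hb)
            · rintro rfl; exact hC.nv k hx
            · rintro rfl; exact disjoint_left.1 (hC.disj j k hjk) (hB hb) hx
      rw [h2, triv_P]
      by_cases h : x ∈ nb N (cls k) a
      · rw [if_pos h, ind_pos (A := fun _ : Unit => x ∈ nb N (cls k) a) h, one_mul]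
      · rw [if_neg h, ind_neg (A := fun _ : Unit => x ∈ nb N (cls k) a) h, zero_mul]
    rw [sum_congr rfl h1, ← sum_filter, sum_const, nsmul_eq_mul]
    congr 3
    ext x
    rw [mem_filter]
    exact ⟨fun h => ⟨(mem_nb.1 h).1, h⟩, fun h => h.2⟩
  have hcA : (A.card : ℝ) ≤ m := by
    exact_mod_cast (card_le_card hA).trans (le_of_eq (hC.card i))
  have hcB : (B.card : ℝ) ≤ m := by
    exact_mod_cast (card_le_card hB).trans (le_of_eq (hC.card j))
  have hw := weak_count triv μ (rows_triv N A (cls k)) hσ hs hlow hcA hcB ht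
  have hw2 : (triv.prod μ).P (fun ω => 2 / s * (m : ℝ) ^ 2 + t ≤
      wk A B (fun a _ => nb N (cls k) a) (hit (cls k) L) s ω) =
      μ.P (fun Z => 2 / s * (m : ℝ) ^ 2 + t ≤
      wk A B (fun a _ => nb N (cls k) a) (hit (cls k) L) s ((), Z)) := by
    unfold EF.P
    rw [E_prod, triv_E]
    apply E_congr
    intro Z _
    exact ind_congr Iff.rfl
  rw [hw2] at hw
  apply suc_step N hq0.le hr0 hqr hp1 hβ
    (fun Z => ¬ (2 / s * (m : ℝ) ^ 2 + t ≤
      wk A B (fun a _ => nb N (cls k) a) (hit (cls k) L) s ((), Z))) hq1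
  · rw [P_not]
    linarith
  · intro Z _ hG
    rw [not_le] at hG
    refine ⟨fun a b => N a b ∨ ({v, a, b} : Finset V) ∈ Z, ?_, ?_⟩
    · rintro b c (h | h)
      · exact Clo.base h
      · exact Clo.star h
    · apply h
      · intro a b h; exact Or.inl h
      · rintro a b (h | h)
        · exact Or.inl (hsym _ _ h)
        · refine Or.inr ?_
          convert h using 1
          ext z; simp only [mem_insert, mem_singleton]; tauto
      · refine lt_of_le_of_lt ?_ hG
        unfold wkN wk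
        apply sum_le_sum
        intro ab hab
        rw [mem_product] at hab
        apply ind_mono
        intro h1
        refine lt_of_le_of_lt ?_ h1
        have : nb N (cls k) ab.1 ∩ hit (cls k) L ab.2 Z ⊆
          cod (fun a b => N a b ∨ ({v, a, b} : Finset V) ∈ Z) (cls k) ab.1 ab.2 := by
          intro x hx
          rw [mem_inter, mem_nb] at hx
          unfold hit at hx
          rw [mem_filter] at hx
          rw [mem_cod]
          refine ⟨hx.1.1, Or.inl hx.1.2, Or.inr ?_⟩
          obtain ⟨F, hF⟩ := hx.2.2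
          rw [mem_inter, hL, mem_singleton] at hF
          rw [← hF.2]; exact hF.1
        exact_mod_cast card_le_card this

theorem init {U : Finset V} {v : V} {m : ℕ} {cls : Fin 3 → Finset V} (hC : Cl U v m cls)
    (hm : 0 < m) (N : V → V → Prop) (hsym : ∀ a b, N a b → N b a)
    {p q r β s θ τ : ℝ} {A : Fin 3 → Finset V} (hA : ∀ i, A i ⊆ cls i)
    (hbig : ∀ i, (m : ℝ) * (1 - θ) ≤ (A i).card)
    (hdeg : ∀ i k, i ≠ k → ∀ a ∈ A i, 2 * s ≤ (nb N (cls k) a).card * q)
    (hq0 : 0 < q) (hr0 : 0 ≤ r) (hqr : 3 * q + r ≤ p) (hp1 : p ≤ 1) (hβ : β ≤ 1) (hs : 0 < s)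
    (hτ : 0 < τ)
    (h : ∀ (N' : V → V → Prop) (A' : Fin 3 → Finset V), (∀ a b, N' a b → N' b a) →
      St cls m N' s (2 / s + τ) θ A' → β ≤ Suc U v N' r) :
    β - 6 / (τ ^ 2 * m) ≤ Suc U v N p := by
  have hm' : (0 : ℝ) < m := by exact_mod_cast hm
  have hδ : 2 * (m : ℝ) ^ 3 / (τ * (m : ℝ) ^ 2) ^ 2 = 2 / (τ ^ 2 * m) := by
    field_simp
  have h6 : 6 / (τ ^ 2 * (m : ℝ)) = 2 / (τ ^ 2 * m) + (2 / (τ ^ 2 * m) + 2 / (τ ^ 2 * m)) := by
    ring
  have hd0 : 0 ≤ 2 / (τ ^ 2 * (m : ℝ)) := by positivity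
  have hdeg' : ∀ (N' : V → V → Prop), (∀ a b, N a b → N' a b) → ∀ i k, i ≠ k → ∀ a ∈ A i,
      2 * s ≤ (nb N' (cls k) a).card * q := by
    intro N' hN' i k hik a ha
    refine (hdeg i k hik a ha).trans (mul_le_mul_of_nonneg_right ?_ hq0.le)
    exact_mod_cast card_le_card (nb_mono hN' _ _)
  have key : β - 2 / (τ ^ 2 * m) - 2 / (τ ^ 2 * m) - 2 / (τ ^ 2 * m) ≤ Suc U v N p := by
    rw [← hδ]
    apply half_init hC N hsym (i := 0) (j := 1) (k := 2) (by decide)
      (hA 0) (hA 1) hq0
      (show (0 : ℝ) ≤ 2 * q + r by linarith)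
      (by linarith) hp1 (by linarith) hs (show 0 < τ * (m : ℝ) ^ 2 by positivity)
      (hdeg' N (fun _ _ h => h) 0 2 (by decide))
    intro N1 hN1 hs1 w1
    apply half_init hC N1 hs1 (i := 0) (j := 2) (k := 1) (by decide)
      (hA 0) (hA 2) hq0
      (show (0 : ℝ) ≤ q + r by linarith)
      (by linarith) (by linarith) (by linarith) hs (show 0 < τ * (m : ℝ) ^ 2 by positivity)
      (hdeg' N1 hN1 0 1 (by decide))
    intro N2 hN2 hs2 w2
    apply half_init hC N2 hs2 (i := 1) (j := 2) (k := 0) (by decide)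
      (hA 1) (hA 2) hq0 hr0
      (by linarith) (by linarith) hβ hs (show 0 < τ * (m : ℝ) ^ 2 by positivity)
      (hdeg' N2 (fun a b h => hN2 _ _ (hN1 _ _ h)) 1 0 (by decide))
    intro N3 hN3 hs3 w3
    apply h N3 A hs3
    have W1 : wkN N3 (A 0) (A 1) (cls 2) s ≤ (2 / s + τ) * (m : ℝ) ^ 2 := by
      refine (wkN_mono (fun a b h => hN3 _ _ (hN2 _ _ h))).trans (w1.le.trans (le_of_eq ?_))
      ring
    have W2 : wkN N3 (A 0) (A 2) (cls 1) s ≤ (2 / s + τ) * (m : ℝ) ^ 2 := by
      refine (wkN_mono hN3).trans (w2.le.trans (le_of_eq ?_))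
      ring
    have W3 : wkN N3 (A 1) (A 2) (cls 0) s ≤ (2 / s + τ) * (m : ℝ) ^ 2 := by
      refine w3.le.trans (le_of_eq ?_)
      ring
    refine ⟨hA, hbig, ?_⟩
    intro i j k hij hjk hik
    fin_cases i <;> fin_cases j <;> fin_cases k <;>
      first
      | exact absurd rfl hij
      | exact absurd rfl hjk
      | exact absurd rfl hik
      | exact W1
      | exact W2
      | exact W3
      | (rw [wkN_swap]; exact W1)
      | (rw [wkN_swap]; exact W2)
      | (rw [wkN_swap]; exact W3)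
  linarith

/-- iteration of the rounds -/
theorem iter {U : Finset V} {v : V} {m : ℕ} {cls : Fin 3 → Finset V} (hC : Cl U v m cls)
    (hm : 0 < m) (s η θ q : ℕ → ℝ) {τ : ℝ} (hτ : 0 < τ)
    (hs1 : ∀ j, s (j + 1) = m * (min (q j * s j) 1) ^ 2 / 16)
    (hη1 : ∀ j, η (j + 1) = 2 / s (j + 1) + τ)
    (hθ1 : ∀ j, θ (j + 1) = θ j + 2 * Real.sqrt (η j)) :
    ∀ (L : ℕ), (∀ j < L, 0 < s j ∧ 0 < η j ∧ 0 < q j ∧ θ j + 2 * Real.sqrt (η j) ≤ 1 / 2) →
    ∀ (β r p : ℝ), β ≤ 1 → 0 ≤ r → (∑ j ∈ range L, 6 * q j) + r ≤ p → p ≤ 1 →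
    (∀ (N' : V → V → Prop) (A' : Fin 3 → Finset V), (∀ a b, N' a b → N' b a) →
      St cls m N' (s L) (η L) (θ L) A' → β ≤ Suc U v N' r) →
    ∀ (N : V → V → Prop) (A : Fin 3 → Finset V), (∀ a b, N a b → N b a) →
      St cls m N (s 0) (η 0) (θ 0) A → β - L * (6 / (τ ^ 2 * m)) ≤ Suc U v N p := by
  intro L
  induction L with
  | zero =>
    intro _ β r p hβ hr hp hp1 h N A hN hSt
    have h1 := h N A hN hSt
    simp only [range_zero, sum_empty, zero_add] at hp
    have h2 : Suc U v N r ≤ Suc U v N p := by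
      -- monotonicity in the density
      have h3 := Ex_sprinkle (powersetCard 3 U) (q := r) (r := 0) (p := p) hr le_rfl
        (by linarith) (by norm_num) hp1 (by linarith) (ind (fun Z => Goal U v N Z))
        (fun Z Z' hZ => ind_mono (fun h => Goal.mono hZ h))
      refine le_trans ?_ h3
      unfold Suc
      apply Ex_mono hr (by linarith)
      intro Z _
      have h4 := Ex_mono (Ω := powersetCard 3 U) (p := 0) le_rfl (by norm_num)
        (F := fun _ => ind (fun Z => Goal U v N Z) Z)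
        (G := fun Z' => ind (fun Z => Goal U v N Z) (Z ∪ Z'))
        (fun Z' _ => ind_mono (A := fun Z => Goal U v N Z) (B := fun Z => Goal U v N Z)
          (fun h => Goal.mono subset_union_left h))
      refine le_trans (le_of_eq ?_) h4
      have h5 := Ex_mul_left (powersetCard 3 U) 0 (ind (fun Z => Goal U v N Z) Z) (fun _ => 1)
      rw [Ex_one, mul_one] at h5
      exact h5.symm
    simp only [Nat.cast_zero, zero_mul, sub_zero]
    exact h1.trans h2
  | succ L ih =>
    intro hgood β r p hβ hr hp hp1 h N A hN hSt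
    have hm' : (0 : ℝ) < m := by exact_mod_cast hm
    have hd0 : 0 ≤ 6 / (τ ^ 2 * (m : ℝ)) := by positivity
    obtain ⟨g1, g2, g3, g4⟩ := hgood L (Nat.lt_succ_self L)
    rw [sum_range_succ] at hp
    have := ih (fun j hj => hgood j (Nat.lt_succ_of_lt hj)) (β - 6 / (τ ^ 2 * m)) (6 * q L + r) p
      (by linarith) (by linarith) (by linarith) hp1 (by
        intro N' A' hN' hSt'
        have hqsum : 0 ≤ ∑ j ∈ range L, 6 * q j :=
          sum_nonneg (fun j hj => by
            have := (hgood j (Nat.lt_succ_of_lt (mem_range.1 hj))).2.2.1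
            linarith)
        apply round hC hm N' hN' hSt' g2 g4 g3 hr le_rfl (by linarith) hβ g1 hτ
        intro N'' A'' hN'' hSt''
        apply h N'' A'' hN''
        rw [hη1 L, hθ1 L, hs1 L]
        exact hSt'') N A hN hSt
    push_cast
    linarith

end Pool.Agent.H38.SC
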