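import Pool.Agent.H38.SC.Iter

/-!
# The parameters of the process
-/

set_option autoImplicit false

namespace Pool.Agent.H38.SC

open Finset EF

/-- sequence of codegree thresholds -/
noncomputable def sq (m : ℕ) (ε y : ℝ) : ℕ → ℝ
  | 0 => 2 ^ 14 / ε ^ 2
  | j + 1 => m * (min (ε / (2 ^ j * y) * sq m ε y j) 1) ^ 2 / 16

/-- sequence of densities -/
noncomputable def qq (ε y : ℝ) (j : ℕ) : ℝ := ε / (2 ^ j * y)

/-- weak fraction -/
noncomputable def eq' (m : ℕ) (ε y τ : ℝ) (j : ℕ) : ℝ := 2 / sq m ε y j + τ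

/-- loss fraction -/
noncomputable def tq (m : ℕ) (ε y τ : ℝ) : ℕ → ℝ
  | 0 => 1 / 8
  | j + 1 => tq m ε y τ j + 2 * Real.sqrt (eq' m ε y τ j)

theorem sq_pos {m : ℕ} {ε y : ℝ} (hm : 0 < m) (hε : 0 < ε) (hy : 0 < y) (j : ℕ) :
    0 < sq m ε y j := by
  induction j with
  | zero => unfold sq; positivity
  | succ j ih =>
    unfold sq
    have : 0 < min (ε / (2 ^ j * y) * sq m ε y j) 1 := lt_min (by positivity) one_pos
    positivity

/-- growth of the thresholds before saturation -/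
theorem sq_growth {m n : ℕ} {ε y : ℝ} (hm : 0 < m) (hε : 0 < ε) (hy : 0 < y)
    (hyn : y ^ 2 = n) (hnm : n ≤ 4 * m) : ∀ j : ℕ, (∀ i < j, qq ε y i * sq m ε y i < 1) →
    (64 : ℝ) ^ (2 ^ j) ≤ sq m ε y j * ε ^ 2 / (256 * 4 ^ j) := by
  intro j
  induction j with
  | zero =>
    intro _
    unfold sq
    have : ε ^ 2 ≠ 0 := by positivity
    field_simp
    norm_num
  | succ j ih =>
    intro h
    have h1 := ih (fun i hi => h i (Nat.lt_succ_of_lt hi))
    have h2 := h j (Nat.lt_succ_self j)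
    have hs := sq_pos hm hε hy j
    obtain ⟨x, hx⟩ : ∃ x, x = sq m ε y j * ε ^ 2 / (256 * 4 ^ j) := ⟨_, rfl⟩
    rw [← hx] at h1
    have hsx : sq m ε y j = x * (256 * 4 ^ j) / ε ^ 2 := by
      rw [hx]; field_simp
    have e1 : sq m ε y (j + 1) = m * (qq ε y j * sq m ε y j) ^ 2 / 16 := by
      unfold qq at h2 ⊢
      conv_lhs => unfold sq
      rw [min_eq_left h2.le]
    have hx0 : 0 < x := lt_of_lt_of_le (by positivity) h1
    have hnm' : y ^ 2 ≤ 4 * m := by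
      rw [hyn]; exact_mod_cast hnm
    calc (64 : ℝ) ^ (2 ^ (j + 1)) = ((64 : ℝ) ^ (2 ^ j)) ^ 2 := by
          rw [← pow_mul, pow_succ]
      _ ≤ x ^ 2 := pow_le_pow_left₀ (by positivity) h1 2
      _ = x ^ 2 * (y ^ 2 / y ^ 2) := by rw [div_self (by positivity), mul_one]
      _ ≤ x ^ 2 * (4 * m / y ^ 2) := by
          apply mul_le_mul_of_nonneg_left _ (by positivity)
          exact div_le_div_of_nonneg_right hnm' (by positivity)
      _ = sq m ε y (j + 1) * ε ^ 2 / (256 * 4 ^ (j + 1)) := by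
          rw [e1, hsx]
          unfold qq
          have h4 : (4 : ℝ) ^ j = 2 ^ j * 2 ^ j := by
            rw [← mul_pow]; norm_num
          have h5 : (4 : ℝ) ^ (j + 1) = 4 * (2 ^ j * 2 ^ j) := by rw [pow_succ, h4]; ring
          rw [h5, h4]
          obtain ⟨t, ht⟩ : ∃ t, t = (2 : ℝ) ^ j := ⟨_, rfl⟩
          have ht0 : 0 < t := by rw [ht]; positivity
          rw [← ht]
          field_simp
          ring

theorem sat_exists {m n : ℕ} {ε y : ℝ} (hm : 0 < m) (hε : 0 < ε) (hε1 : ε ≤ 1) (hy : 0 < y)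
    (hyn : y ^ 2 = n) (hnm : n ≤ 4 * m) :
    ∀ j, (∀ i < j, qq ε y i * sq m ε y i < 1) → qq ε y j * sq m ε y j < 1 →
      j ≤ Nat.log 2 n := by
  intro j hj hj1
  have h1 := sq_growth hm hε hy hyn hnm j hj
  have hs := sq_pos hm hε hy j
  have hy1 : 1 ≤ y := by
    have hn1 : 1 ≤ n := by
      rcases Nat.eq_zero_or_pos n with h | h
      · rw [h] at hyn; simp at hyn; linarith
      · exact h
    have : (1 : ℝ) ≤ y ^ 2 := by rw [hyn]; exact_mod_cast hn1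
    nlinarith
  -- `64^(2^j) ≤ x_j < y`
  have h2 : sq m ε y j * ε ^ 2 / (256 * 4 ^ j) < y := by
    rw [div_lt_iff₀ (by positivity)]
    unfold qq at hj1
    have h3 : ε * sq m ε y j < 2 ^ j * y := by
      rw [div_mul_eq_mul_div, div_lt_one (by positivity)] at hj1
      exact hj1
    have h4 : (4 : ℝ) ^ j = 2 ^ j * 2 ^ j := by
      rw [← mul_pow]; norm_num
    have h5 : (1 : ℝ) ≤ 2 ^ j := one_le_pow₀ (by norm_num)
    rw [h4]
    calc sq m ε y j * ε ^ 2 = ε * (ε * sq m ε y j) := by ring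
      _ ≤ 1 * (ε * sq m ε y j) := mul_le_mul_of_nonneg_right hε1 (by positivity)
      _ < 2 ^ j * y := by rw [one_mul]; exact h3
      _ ≤ (2 ^ j * y) * (256 * 2 ^ j) := by
          have h6 : (0 : ℝ) < 2 ^ j * y := by positivity
          have h7 : (1 : ℝ) ≤ 256 * 2 ^ j := by linarith
          nlinarith
      _ = y * (256 * (2 ^ j * 2 ^ j)) := by ring
  have h3 : (64 : ℝ) ^ (2 ^ j) < y := lt_of_le_of_lt h1 h2
  have h4 : (2 : ℝ) ^ j ≤ 64 ^ (2 ^ j) := by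
    have : j < 2 ^ j := Nat.lt_two_pow_self
    calc (2 : ℝ) ^ j ≤ 64 ^ j := pow_le_pow_left₀ (by norm_num) (by norm_num) j
      _ ≤ 64 ^ (2 ^ j) := pow_le_pow_right₀ (by norm_num) this.le
  have h5 : y ≤ y ^ 2 := by nlinarith
  rw [hyn] at h5
  have h6 : (2 : ℝ) ^ j ≤ n := by linarith
  have h7 : 2 ^ j ≤ n := by exact_mod_cast h6
  have hn0 : n ≠ 0 := by
    rintro rfl
    have := Nat.two_pow_pos j
    omega
  exact (Nat.le_log_iff_pow_le (by norm_num) hn0).2 h7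

theorem sqrt_add_le' (a b : ℝ) (ha : 0 ≤ a) (hb : 0 ≤ b) :
    Real.sqrt (a + b) ≤ Real.sqrt a + Real.sqrt b := by
  rw [Real.sqrt_le_left (by positivity)]
  have h1 := Real.mul_self_sqrt ha
  have h2 := Real.mul_self_sqrt hb
  have h3 := Real.sqrt_nonneg a
  have h4 := Real.sqrt_nonneg b
  nlinarith [mul_nonneg h3 h4]

/-- bound for `√η_j` before saturation -/
theorem sqrt_eq_le {m n : ℕ} {ε y τ w : ℝ} (hm : 0 < m) (hε : 0 < ε) (hε1 : ε ≤ 1) (hy : 0 < y)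
    (hyn : y ^ 2 = n) (hnm : n ≤ 4 * m) (hw : 0 < w) (hτ : τ = w ^ 2)
    (j : ℕ) (hj : ∀ i < j, qq ε y i * sq m ε y i < 1) :
    Real.sqrt (eq' m ε y τ j) ≤ 1 / 64 * (1 / 2) ^ j + w := by
  have h1 := sq_growth hm hε hy hyn hnm j hj
  have hs := sq_pos hm hε hy j
  have h2 : (8192 * 4 ^ j : ℝ) ≤ sq m ε y j / 2 := by
    have h64 : (64 : ℝ) ≤ 64 ^ (2 ^ j) := by
      calc (64 : ℝ) = 64 ^ 1 := by norm_num
        _ ≤ 64 ^ (2 ^ j) := pow_le_pow_right₀ (by norm_num) Nat.one_le_two_pow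
    have h3 : 64 ≤ sq m ε y j * ε ^ 2 / (256 * 4 ^ j) := h64.trans h1
    rw [le_div_iff₀ (by positivity)] at h3
    have h4 : sq m ε y j * ε ^ 2 ≤ sq m ε y j := by
      have : ε ^ 2 ≤ 1 := pow_le_one₀ hε.le hε1
      nlinarith
    linarith
  have h3 : 2 / sq m ε y j ≤ (1 / 64 * (1 / 2) ^ j) ^ 2 := by
    rw [div_le_iff₀ hs]
    have h4 : ((1 / 64 * (1 / 2) ^ j : ℝ)) ^ 2 = 1 / (4096 * 4 ^ j) := by
      rw [mul_pow, ← pow_mul, mul_comm j 2, pow_mul]
      have : ((1 : ℝ) / 2) ^ 2 = 1 / 4 := by norm_num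
      have h44 : ((1 : ℝ) / 4) ^ j = 1 / 4 ^ j := one_div_pow 4 j
      rw [this, h44]
      obtain ⟨t, ht⟩ : ∃ t, t = (4 : ℝ) ^ j := ⟨_, rfl⟩
      have ht0 : 0 < t := by rw [ht]; positivity
      rw [← ht]
      field_simp
      norm_num
    rw [h4, div_mul_eq_mul_div, le_div_iff₀ (by positivity)]
    linarith
  unfold eq'
  refine (sqrt_add_le' _ _ (by positivity) (by rw [hτ]; positivity)).trans ?_
  apply add_le_add
  · rw [Real.sqrt_le_left (by positivity)]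
    exact h3
  · rw [hτ, Real.sqrt_sq hw.le]

theorem tq_le {m n : ℕ} {ε y τ w : ℝ} (hm : 0 < m) (hε : 0 < ε) (hε1 : ε ≤ 1) (hy : 0 < y)
    (hyn : y ^ 2 = n) (hnm : n ≤ 4 * m) (hw : 0 < w) (hτ : τ = w ^ 2) :
    ∀ (j : ℕ), (∀ i, i + 1 < j → qq ε y i * sq m ε y i < 1) →
    tq m ε y τ j ≤ 1 / 8 + 1 / 16 * (1 - (1 / 2) ^ j) + 2 * j * w := by
  intro j
  induction j with
  | zero => intro _; unfold tq; norm_num
  | succ j ih =>
    intro h
    have h1 := ih (fun i hi => h i (by omega))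
    have h2 := sqrt_eq_le hm hε hε1 hy hyn hnm hw hτ j (fun i hi => h i (by omega))
    unfold tq
    push_cast
    rw [pow_succ]
    linarith

variable {V : Type*} [DecidableEq V]

theorem core_bound {U : Finset V} {v : V} {m n : ℕ} {cls : Fin 3 → Finset V} (hC : Cl U v m cls)
    (hn : U.card = n) (hnm : n ≤ 4 * m) (hm : 8192 ≤ m) {ε y : ℝ} (hε : 0 < ε) (hε1 : ε ≤ 1)
    (hy : 0 < y) (hyn : y ^ 2 = n) (hp1 : 21 * ε / y ≤ 1)
    (hd : 1 ≤ ε / y * m / 8) (hκd : ε ^ 2 / 64 ≤ ε / y * (ε / y * m / 8 - 1))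
    (N : V → V → Prop) (hsym : ∀ a b, N a b → N b a) {A : Fin 3 → Finset V}
    (hA : ∀ i, A i ⊆ cls i)
    (hbig : ∀ i, (m : ℝ) * (7 / 8) ≤ (A i).card)
    (hdeg : ∀ i k, i ≠ k → ∀ a ∈ A i, 2 ^ 15 / ε ^ 3 * y ≤ (nb N (cls k) a).card) :
    1 - 10 * ((n : ℝ) ^ 2 * Real.exp (-(ε ^ 5 / 2 ^ 20 * y)))
      - (Nat.log 2 n + 5) * (6 * (64 * (Nat.log 2 n + 4)) ^ 4 * 4 / n) ≤
      Suc U v N (21 * ε / y) := by
  have hm0 : 0 < m := by omega
  have hm' : (0 : ℝ) < m := by exact_mod_cast hm0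
  have hmn : (m : ℝ) ≤ n := by
    have : m ≤ n := by
      rw [← hC.card 0, ← hn]
      exact card_le_card (hC.sub 0)
    exact_mod_cast this
  have hnm' : (n : ℝ) ≤ 4 * m := by exact_mod_cast hnm
  have hn0 : (0 : ℝ) < n := by linarith
  have hq0 : 0 < ε / y := by positivity
  set lg := Nat.log 2 n with hlg
  obtain ⟨w, hw⟩ : ∃ w : ℝ, w = 1 / (64 * (lg + 4)) := ⟨_, rfl⟩
  have hwpos : 0 < w := by rw [hw]; positivity
  obtain ⟨τ, hτ⟩ : ∃ τ, τ = w ^ 2 := ⟨_, rfl⟩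
  have hτpos : 0 < τ := by rw [hτ]; positivity
  -- the saturation index
  have hex : ∃ j, 1 ≤ qq ε y j * sq m ε y j := by
    by_contra hcon
    simp only [not_exists, not_le] at hcon
    have := sat_exists hm0 hε hε1 hy hyn hnm (lg + 1) (fun i _ => hcon i) (hcon _)
    omega
  classical
  obtain ⟨J, hJ⟩ : ∃ J, J = Nat.find hex := ⟨_, rfl⟩
  have hJ1 : 1 ≤ qq ε y J * sq m ε y J := hJ ▸ Nat.find_spec hex
  have hJ2 : ∀ i < J, qq ε y i * sq m ε y i < 1 := by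
    intro i hi
    rw [hJ] at hi
    exact not_le.1 (Nat.find_min hex hi)
  have hJlg : J ≤ lg + 1 := by
    rcases Nat.eq_zero_or_pos J with h | h
    · omega
    · have := sat_exists hm0 hε hε1 hy hyn hnm (J - 1) (fun i hi => hJ2 i (by omega))
        (hJ2 _ (by omega))
      omega
  have hJw : ∀ j : ℕ, j ≤ J + 2 → 2 * (j : ℝ) * w ≤ 1 / 32 := by
    intro j hj
    have h1 : (j : ℝ) ≤ lg + 4 := by
      have : j ≤ lg + 4 := by omega
      exact_mod_cast this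
    rw [hw]
    rw [mul_one_div, div_le_iff₀ (by positivity)]
    linarith
  have hθ : ∀ j ≤ J + 1, tq m ε y τ j ≤ 1 / 8 + 1 / 16 + 1 / 32 := by
    intro j hj
    have h1 := tq_le hm0 hε hε1 hy hyn hnm hwpos hτ j (fun i hi => hJ2 i (by omega))
    have h2 := hJw j (by omega)
    have h3 : (0 : ℝ) ≤ (1 / 2) ^ j := by positivity
    linarith
  have hθ' : ∀ j ≤ J, tq m ε y τ j + 2 * Real.sqrt (eq' m ε y τ j) ≤ 1 / 2 := by
    intro j hj
    have h1 := hθ (j + 1) (by omega)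
    have h2 : tq m ε y τ (j + 1) = tq m ε y τ j + 2 * Real.sqrt (eq' m ε y τ j) := by
      conv_lhs => unfold tq
    rw [← h2]; linarith
  have hsJ : sq m ε y (J + 1) = m / 16 := by
    conv_lhs => unfold sq
    have : min (ε / (2 ^ J * y) * sq m ε y J) 1 = 1 := min_eq_right hJ1
    rw [this]; ring
  have hθJ : tq m ε y τ (J + 1) + 2 * Real.sqrt (eq' m ε y τ (J + 1)) ≤ 1 / 2 := by
    have h1 := hθ (J + 1) le_rfl
    have h2 : Real.sqrt (eq' m ε y τ (J + 1)) ≤ 1 / 16 + w := by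
      unfold eq'
      rw [hsJ]
      refine (sqrt_add_le' _ _ (by positivity) hτpos.le).trans ?_
      apply add_le_add
      · rw [Real.sqrt_le_left (by norm_num), div_div_eq_mul_div, div_le_iff₀ hm']
        have : (8192 : ℝ) ≤ m := by exact_mod_cast hm
        norm_num
        linarith
      · rw [hτ, Real.sqrt_sq hwpos.le]
    have h3 := hJw 1 (by omega)
    push_cast at h3
    linarith
  -- error of the rounds
  have hρ : 6 / (τ ^ 2 * m) ≤ 6 * (64 * (lg + 4)) ^ 4 * 4 / n := by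
    rw [hτ, hw]
    rw [div_le_div_iff₀ (by positivity) hn0]
    have e1 : (((1 / (64 * ((lg : ℝ) + 4))) ^ 2) ^ 2 * m) = m / (64 * (lg + 4)) ^ 4 := by
      rw [← pow_mul, one_div_pow]; ring
    rw [e1]
    have e2 : 6 * (64 * ((lg : ℝ) + 4)) ^ 4 * 4 * (m / (64 * (lg + 4)) ^ 4) = 24 * m := by
      field_simp
      ring
    rw [e2]; linarith
  have hρ0 : 0 ≤ 6 / (τ ^ 2 * (m : ℝ)) := by positivity
  -- error of the final phase
  obtain ⟨X, hX⟩ : ∃ X, X = (n : ℝ) ^ 2 * Real.exp (-(ε ^ 5 / 2 ^ 20 * y)) := ⟨_, rfl⟩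
  rw [← hX]
  have hX0 : 0 ≤ X := by rw [hX]; positivity
  obtain ⟨κ, hκ⟩ : ∃ κ, κ = min (ε / y * (ε / y * m / 8 - 1)) 1 / 2 := ⟨_, rfl⟩
  have hκ1 : ε ^ 2 / 128 ≤ κ := by
    rw [hκ]
    have : ε ^ 2 / 64 ≤ min (ε / y * (ε / y * m / 8 - 1)) 1 := by
      apply le_min hκd
      have : ε ^ 2 ≤ 1 := pow_le_one₀ hε.le hε1
      linarith
    linarith
  have hκ2 : κ ≤ 1 / 2 := by
    rw [hκ]
    have := min_le_right (ε / y * (ε / y * m / 8 - 1)) 1
    linarith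
  obtain ⟨d', hd'⟩ : ∃ d', d' = (ε ^ 2 / 128) ^ 2 * m / 16 := ⟨_, rfl⟩
  -- basic comparison facts
  have hyy : y * y = n := by rw [← hyn]; ring
  have hqm : ε * y / 4 ≤ ε / y * m := by
    have : y ^ 2 ≤ 4 * m := by rw [hyn]; exact hnm'
    rw [div_mul_eq_mul_div, div_le_div_iff₀ (by norm_num) hy]
    nlinarith
  have hε2 : ε ^ 2 ≤ 1 := pow_le_one₀ hε.le hε1
  have hε5 : ε ^ 5 ≤ ε := by
    have : ε ^ 4 ≤ 1 := pow_le_one₀ hε.le hε1
    calc ε ^ 5 = ε ^ 4 * ε := by ring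
      _ ≤ 1 * ε := mul_le_mul_of_nonneg_right this hε.le
      _ = ε := one_mul ε
  have hε45 : ε ^ 5 ≤ ε ^ 4 := by
    calc ε ^ 5 = ε ^ 4 * ε := by ring
      _ ≤ ε ^ 4 * 1 := mul_le_mul_of_nonneg_left hε1 (by positivity)
      _ = ε ^ 4 := mul_one _
  have hy1 : 1 ≤ y := by
    have : (1 : ℝ) ≤ y ^ 2 := by
      rw [hyn]
      have : (8192 : ℝ) ≤ m := by exact_mod_cast hm
      linarith
    nlinarith
  have hyn' : y ≤ n := by rw [← hyy]; nlinarith
  have hn1 : (1 : ℝ) ≤ n := hy1.trans hyn'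
  have hnn2 : (n : ℝ) ≤ (n : ℝ) ^ 2 := by nlinarith
  have hmm2 : (m : ℝ) ^ 2 ≤ (n : ℝ) ^ 2 := pow_le_pow_left₀ hm'.le hmn 2
  have hεy : 0 < ε * y := by positivity
  have E1 : (m : ℝ) ^ 2 / Real.exp (ε / y * (m / 16)) ≤ X := by
    rw [hX, div_eq_mul_inv, ← Real.exp_neg]
    apply mul_le_mul hmm2 _ (Real.exp_pos _).le (by positivity)
    apply Real.exp_le_exp.2
    have : ε ^ 5 * y ≤ ε * y := mul_le_mul_of_nonneg_right hε5 hy.le
    linarith
  have E2 : (m : ℝ) ^ 2 / Real.exp (ε / y * (m / 2)) ≤ X := by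
    rw [hX, div_eq_mul_inv, ← Real.exp_neg]
    apply mul_le_mul hmm2 _ (Real.exp_pos _).le (by positivity)
    apply Real.exp_le_exp.2
    have : ε ^ 5 * y ≤ ε * y := mul_le_mul_of_nonneg_right hε5 hy.le
    linarith
  have hexp1 : Real.exp 1 ≤ 3 := by
    have := Real.exp_one_lt_d9; linarith
  have E3 : (n : ℝ) * Real.exp (ε / y * m / 8 - ε / y / 2 * (m / 2 - 1)) ≤ 3 * X := by
    have h1 : ε / y * m / 8 - ε / y / 2 * (m / 2 - 1) ≤ 1 + -(ε ^ 5 / 2 ^ 20 * y) := by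
      have h2 : ε / y ≤ 1 := by
        rw [div_le_one hy]; linarith
      have : ε ^ 5 * y ≤ ε * y := mul_le_mul_of_nonneg_right hε5 hy.le
      have h3 : ε / y * m / 8 - ε / y / 2 * (m / 2 - 1) = -(ε / y * m / 8) + ε / y / 2 := by ring
      rw [h3]
      linarith
    calc (n : ℝ) * Real.exp (ε / y * m / 8 - ε / y / 2 * (m / 2 - 1))
        ≤ (n : ℝ) ^ 2 * (Real.exp 1 * Real.exp (-(ε ^ 5 / 2 ^ 20 * y))) := by
          apply mul_le_mul hnn2 _ (Real.exp_pos _).le (by positivity)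
          rw [← Real.exp_add]
          exact Real.exp_le_exp.2 h1
      _ = Real.exp 1 * X := by rw [hX]; ring
      _ ≤ 3 * X := mul_le_mul_of_nonneg_right hexp1 hX0
  have hy_m : y ≤ 4 * m := hyn'.trans hnm'
  have E4 : (n : ℝ) ^ 2 * Real.exp (d' - κ ^ 2 / 2 * (m / 2 - 2)) ≤ 3 * X := by
    have h1 : d' - κ ^ 2 / 2 * (m / 2 - 2) ≤ 1 + -(ε ^ 5 / 2 ^ 20 * y) := by
      have h2 : (ε ^ 2 / 128) ^ 2 ≤ κ ^ 2 := pow_le_pow_left₀ (by positivity) hκ1 2
      have h3 : (0 : ℝ) ≤ m / 2 - 2 := by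
        have : (8192 : ℝ) ≤ m := by exact_mod_cast hm
        linarith
      have h4 : (ε ^ 2 / 128) ^ 2 / 2 * (m / 2 - 2) ≤ κ ^ 2 / 2 * (m / 2 - 2) :=
        mul_le_mul_of_nonneg_right (by linarith) h3
      have h5 : (ε ^ 2 / 128) ^ 2 ≤ 1 := by
        apply pow_le_one₀ (by positivity)
        linarith
      have h6 : ε ^ 5 * y ≤ ε ^ 4 * (4 * m) := by
        calc ε ^ 5 * y ≤ ε ^ 4 * y := mul_le_mul_of_nonneg_right hε45 hy.le
          _ ≤ ε ^ 4 * (4 * m) := mul_le_mul_of_nonneg_left hy_m (by positivity)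
      rw [hd']
      have h7 : (ε ^ 2 / 128) ^ 2 = ε ^ 4 / 16384 := by ring
      rw [h7] at h4 h5 ⊢
      have h8 : 0 ≤ ε ^ 4 * m := by positivity
      nlinarith
    calc (n : ℝ) ^ 2 * Real.exp (d' - κ ^ 2 / 2 * (m / 2 - 2))
        ≤ (n : ℝ) ^ 2 * (Real.exp 1 * Real.exp (-(ε ^ 5 / 2 ^ 20 * y))) := by
          apply mul_le_mul_of_nonneg_left _ (by positivity)
          rw [← Real.exp_add]
          exact Real.exp_le_exp.2 h1
      _ = Real.exp 1 * X := by rw [hX]; ring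
      _ ≤ 3 * X := mul_le_mul_of_nonneg_right hexp1 hX0
  have E5 : (n : ℝ) ^ 2 / Real.exp (ε / y * d') ≤ X := by
    rw [hX, div_eq_mul_inv, ← Real.exp_neg]
    apply mul_le_mul_of_nonneg_left _ (by positivity)
    apply Real.exp_le_exp.2
    rw [hd']
    have h1 : ε / y * ((ε ^ 2 / 128) ^ 2 * m / 16) = (ε / y * m) * (ε ^ 4 / 2 ^ 18) := by ring
    rw [h1]
    have h2 : (ε * y / 4) * (ε ^ 4 / 2 ^ 18) ≤ (ε / y * m) * (ε ^ 4 / 2 ^ 18) :=
      mul_le_mul_of_nonneg_right hqm (by positivity)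
    have h3 : (ε * y / 4) * (ε ^ 4 / 2 ^ 18) = ε ^ 5 / 2 ^ 20 * y := by ring
    linarith
  -- the final phase applied at index `J + 1`
  have hfin : ∀ (N' : V → V → Prop) (A' : Fin 3 → Finset V), (∀ a b, N' a b → N' b a) →
      St cls m N' (sq m ε y (J + 1)) (eq' m ε y τ (J + 1)) (tq m ε y τ (J + 1)) A' →
      1 - 10 * X ≤ Suc U v N' (6 * (ε / y)) := by
    intro N' A' hN' hSt
    have hs0 := sq_pos hm0 hε hy (J + 1)
    have hη0 : 0 < eq' m ε y τ (J + 1) := by unfold eq'; positivity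
    have h6 : 6 * (ε / y) ≤ 1 := by
      have : 21 * ε / y = 21 * (ε / y) := by ring
      rw [this] at hp1; linarith
    have := final_phase hC hm0 N' hN' (q := ε / y) (p := 6 * (ε / y)) (d := ε / y * m / 8)
      (d' := d') (κ := κ) hSt hη0 hθJ hq0 le_rfl h6 hs0 hκ hd
    rw [hn, hsJ] at this
    refine le_trans ?_ this
    linarith
  -- budget
  have hbud : (∑ j ∈ range (J + 1), 6 * qq ε y j) ≤ 12 * (ε / y) := by
    have h1 : ∀ j ∈ range (J + 1), 6 * qq ε y j = 6 * (ε / y) * (1 / 2) ^ j := by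
      intro j _
      unfold qq
      rw [one_div_pow]
      field_simp
    rw [sum_congr rfl h1, ← mul_sum]
    have h2 : ∑ i ∈ range (J + 1), ((1 : ℝ) / 2) ^ i ≤ 2 := sum_geometric_two_le _
    nlinarith
  have hsplit : 21 * ε / y = 3 * (ε / y) + 18 * (ε / y) := by ring
  have hiter : ∀ (N' : V → V → Prop) (A' : Fin 3 → Finset V), (∀ a b, N' a b → N' b a) →
      St cls m N' (sq m ε y 0) (eq' m ε y τ 0) (tq m ε y τ 0) A' →
      (1 - 10 * X) - (J + 1 : ℕ) * (6 / (τ ^ 2 * m)) ≤ Suc U v N' (18 * (ε / y)) := by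
    intro N' A' hN' hSt
    apply iter hC hm0 (sq m ε y) (eq' m ε y τ) (tq m ε y τ) (qq ε y) hτpos
      (fun j => rfl)
      (fun j => rfl) (fun j => rfl) (J + 1)
      (by
        intro j hj
        refine ⟨sq_pos hm0 hε hy j, ?_, ?_, hθ' j (by omega)⟩
        · have := sq_pos hm0 hε hy j
          unfold eq'; positivity
        · unfold qq; positivity)
      (1 - 10 * X) (6 * (ε / y)) (18 * (ε / y)) (by linarith) (by positivity)
      (by linarith) (by rw [hsplit] at hp1; linarith) hfin N' A' hN' hSt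
  have hinit := init hC hm0 N hsym (p := 21 * ε / y) (q := ε / y) (r := 18 * (ε / y))
    (β := (1 - 10 * X) - (J + 1 : ℕ) * (6 / (τ ^ 2 * m))) (s := sq m ε y 0) (θ := 1 / 8) (τ := τ)
    hA (fun i => by
      refine le_trans (le_of_eq ?_) (hbig i)
      norm_num) (by
      intro i k hik a ha
      have h1 := hdeg i k hik a ha
      have h2 : 2 ^ 15 / ε ^ 3 * y * (ε / y) ≤ (nb N (cls k) a).card * (ε / y) :=
        mul_le_mul_of_nonneg_right h1 hq0.le
      refine le_trans (le_of_eq ?_) h2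
      unfold sq
      field_simp) hq0 (by positivity) (by linarith) hp1 (by
        have : 0 ≤ ((J + 1 : ℕ) : ℝ) * (6 / (τ ^ 2 * m)) := by positivity
        linarith) (sq_pos hm0 hε hy 0) hτpos hiter
  refine le_trans ?_ hinit
  have hJr : ((J + 1 : ℕ) : ℝ) ≤ lg + 4 := by
    have : J + 1 ≤ lg + 4 := by omega
    exact_mod_cast this
  have h1 : (((J + 1 : ℕ) : ℝ) + 1) * (6 / (τ ^ 2 * m)) ≤
      (lg + 5) * (6 * (64 * (lg + 4)) ^ 4 * 4 / n) := by
    apply mul_le_mul (by linarith) hρ hρ0 (by positivity)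
  linarith

theorem lim_one {a : ℝ} (ha : 0 < a) :
    Filter.Tendsto (fun n : ℕ => (n : ℝ) ^ 2 * Real.exp (-(a * Real.sqrt n))) Filter.atTop
      (nhds 0) := by
  have h1 := Real.tendsto_pow_mul_exp_neg_atTop_nhds_zero 4
  have h2 : Filter.Tendsto (fun n : ℕ => a * Real.sqrt n) Filter.atTop Filter.atTop :=
    (Real.tendsto_sqrt_atTop.comp tendsto_natCast_atTop_atTop).const_mul_atTop ha
  have h3 := (h1.comp h2).const_mul (1 / a ^ 4)
  rw [mul_zero] at h3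
  refine h3.congr (fun n => ?_)
  simp only [Function.comp]
  have h4 : Real.sqrt n ^ 4 = (n : ℝ) ^ 2 := by
    have := Real.sq_sqrt (Nat.cast_nonneg (α := ℝ) n)
    calc Real.sqrt n ^ 4 = (Real.sqrt n ^ 2) ^ 2 := by ring
      _ = (n : ℝ) ^ 2 := by rw [this]
  rw [mul_pow, h4]
  field_simp

theorem lim_two : Filter.Tendsto (fun n : ℕ => ((Nat.log 2 n : ℝ) + 5) *
    (6 * (64 * ((Nat.log 2 n : ℝ) + 4)) ^ 4 * 4 / n)) Filter.atTop (nhds 0) := by
  have h1 : Filter.Tendsto (fun l : ℕ => (l : ℝ) ^ 5 * (1 / 2) ^ l) Filter.atTop (nhds 0) :=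
    tendsto_pow_const_mul_const_pow_of_abs_lt_one 5 (by rw [abs_of_pos] <;> norm_num)
  have h2 : Filter.Tendsto (fun n : ℕ => Nat.log 2 n + 5) Filter.atTop Filter.atTop := by
    rw [Filter.tendsto_atTop]
    intro b
    filter_upwards [Filter.eventually_ge_atTop (2 ^ b)] with n hn
    have := Nat.le_log_of_pow_le (by norm_num) hn
    omega
  have h3 := (h1.comp h2).const_mul (24 * 64 ^ 4 * 32)
  rw [mul_zero] at h3
  refine tendsto_of_tendsto_of_tendsto_of_le_of_le' tendsto_const_nhds h3 ?_ ?_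
  · exact Filter.Eventually.of_forall (fun n => by positivity)
  · filter_upwards [Filter.eventually_ge_atTop 1] with n hn
    simp only [Function.comp]
    have h4 : (2 : ℝ) ^ (Nat.log 2 n) ≤ n := by
      exact_mod_cast Nat.pow_log_le_self 2 (by omega)
    obtain ⟨l, hl⟩ : ∃ l, l = Nat.log 2 n := ⟨_, rfl⟩
    rw [← hl] at h4 ⊢
    have hn' : (0 : ℝ) < n := by exact_mod_cast hn
    have h5 : ((1 : ℝ) / 2) ^ (l + 5) = 1 / (32 * 2 ^ l) := by
      rw [one_div_pow, pow_add]; norm_num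
      ring
    rw [h5]
    push_cast
    have h6 : ((l : ℝ) + 5) * (6 * (64 * ((l : ℝ) + 4)) ^ 4 * 4 / n) ≤
        ((l : ℝ) + 5) * (6 * (64 * ((l : ℝ) + 5)) ^ 4 * 4 / 2 ^ l) := by
      apply mul_le_mul_of_nonneg_left _ (by positivity)
      apply div_le_div₀ (by positivity) _ (by positivity) h4
      have : (64 * ((l : ℝ) + 4)) ^ 4 ≤ (64 * ((l : ℝ) + 5)) ^ 4 :=
        pow_le_pow_left₀ (by positivity) (by linarith) 4
      linarith
    refine h6.trans (le_of_eq ?_)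
    have : (2 : ℝ) ^ l ≠ 0 := by positivity
    field_simp
    ring

theorem core_limit {ε : ℝ} (hε : 0 < ε) (hε1 : ε ≤ 1) {δ : ℝ} (hδ : 0 < δ) :
    ∃ n0 : ℕ, ∀ n ≥ n0, ∀ (U : Finset V) (v : V) (m : ℕ) (cls : Fin 3 → Finset V),
      Cl U v m cls → U.card = n → n ≤ 4 * m → ∀ N : V → V → Prop, (∀ a b, N a b → N b a) →
      ∀ A : Fin 3 → Finset V, (∀ i, A i ⊆ cls i) → (∀ i, (m : ℝ) * (7 / 8) ≤ (A i).card) →
      (∀ i k, i ≠ k → ∀ a ∈ A i, 2 ^ 15 / ε ^ 3 * Real.sqrt n ≤ (nb N (cls k) a).card) →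
      1 - δ ≤ Suc U v N (21 * ε / Real.sqrt n) := by
  have h1 := ((lim_one (a := ε ^ 5 / 2 ^ 20) (by positivity)).const_mul 10).add lim_two
  rw [mul_zero, add_zero] at h1
  have h2 := h1.eventually (gt_mem_nhds hδ)
  have h3 : ∀ᶠ n : ℕ in Filter.atTop, 64 / ε ≤ Real.sqrt n :=
    (Real.tendsto_sqrt_atTop.comp tendsto_natCast_atTop_atTop).eventually_ge_atTop (64 / ε)
  obtain ⟨n0, hn0⟩ := Filter.eventually_atTop.1 (h2.and (h3.and
    (Filter.eventually_ge_atTop 32768)))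
  refine ⟨n0, fun n hn U v m cls hC hU hnm N hN A hA hbig hdeg => ?_⟩
  obtain ⟨e1, e2, e3⟩ := hn0 n hn
  have hm : 8192 ≤ m := by omega
  have hn' : (0 : ℝ) < n := by
    have : 0 < n := by omega
    exact_mod_cast this
  have hy : 0 < Real.sqrt n := Real.sqrt_pos.2 hn'
  have hyn : Real.sqrt n ^ 2 = n := Real.sq_sqrt hn'.le
  have hy64 : 64 ≤ ε * Real.sqrt n := by
    rw [div_le_iff₀ hε] at e2; linarith
  have hmr : (n : ℝ) ≤ 4 * m := by exact_mod_cast hnm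
  have hy2 : 64 ≤ Real.sqrt n := by nlinarith
  have hqm : ε * Real.sqrt n / 4 ≤ ε / Real.sqrt n * m := by
    have : Real.sqrt n ^ 2 ≤ 4 * m := by rw [hyn]; exact hmr
    rw [div_mul_eq_mul_div, div_le_div_iff₀ (by norm_num) hy]
    nlinarith
  have := core_bound hC hU hnm hm hε hε1 hy hyn (by
    rw [div_le_one hy]; linarith) (by linarith) (by
      have h4 : ε / Real.sqrt n ≤ ε ^ 2 / 64 := by
        rw [div_le_div_iff₀ hy (by norm_num)]
        nlinarith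
      have h5 : ε / Real.sqrt n * (ε * Real.sqrt n / 4 / 8 - 1) ≤
          ε / Real.sqrt n * (ε / Real.sqrt n * m / 8 - 1) := by
        apply mul_le_mul_of_nonneg_left _ (by positivity)
        linarith
      refine le_trans ?_ h5
      have h6 : ε / Real.sqrt n * (ε * Real.sqrt n / 4 / 8 - 1) = ε ^ 2 / 32 - ε / Real.sqrt n := by
        field_simp
        ring
      rw [h6]; linarith) N hN hA hbig hdeg
  refine le_trans ?_ this
  linarith

end Pool.Agent.H38.SC
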