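import Mathlib

/-!
# Finite probability: expectations, Bernoulli subsets, Chebyshev, sprinkling
-/

set_option autoImplicit false

namespace Pool.Agent.H38.SC

open Finset

/-- a finitely supported probability distribution -/
structure EF (ι : Type*) where
  /-- support -/
  supp : Finset ι
  /-- weights -/
  w : ι → ℝ
  nn : ∀ i ∈ supp, 0 ≤ w i
  tot : ∑ i ∈ supp, w i = 1

namespace EF

variable {ι κ : Type*} (μ : EF ι) (ν : EF κ)

/-- expectation -/
def E (F : ι → ℝ) : ℝ := ∑ i ∈ μ.supp, μ.w i * F i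

theorem E_const (c : ℝ) : μ.E (fun _ => c) = c := by
  unfold E; rw [← sum_mul, μ.tot, one_mul]

theorem E_add (F G : ι → ℝ) : μ.E (fun i => F i + G i) = μ.E F + μ.E G := by
  unfold E; rw [← sum_add_distrib]; exact sum_congr rfl (fun i _ => by ring)

theorem E_sub (F G : ι → ℝ) : μ.E (fun i => F i - G i) = μ.E F - μ.E G := by
  unfold E; rw [← sum_sub_distrib]; exact sum_congr rfl (fun i _ => by ring)

theorem E_mul_left (c : ℝ) (F : ι → ℝ) : μ.E (fun i => c * F i) = c * μ.E F := by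
  unfold E; rw [mul_sum]; exact sum_congr rfl (fun i _ => by ring)

theorem E_mul_right (c : ℝ) (F : ι → ℝ) : μ.E (fun i => F i * c) = μ.E F * c := by
  unfold E; rw [sum_mul]; exact sum_congr rfl (fun i _ => by ring)

theorem E_sum {τ : Type*} (s : Finset τ) (F : τ → ι → ℝ) :
    μ.E (fun i => ∑ t ∈ s, F t i) = ∑ t ∈ s, μ.E (F t) := by
  unfold E
  rw [sum_comm]
  exact sum_congr rfl (fun i _ => by rw [mul_sum])

theorem E_mono {F G : ι → ℝ} (h : ∀ i ∈ μ.supp, F i ≤ G i) : μ.E F ≤ μ.E G :=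
  sum_le_sum (fun i hi => mul_le_mul_of_nonneg_left (h i hi) (μ.nn i hi))

theorem E_nonneg {F : ι → ℝ} (h : ∀ i ∈ μ.supp, 0 ≤ F i) : 0 ≤ μ.E F :=
  sum_nonneg (fun i hi => mul_nonneg (μ.nn i hi) (h i hi))

theorem E_congr {F G : ι → ℝ} (h : ∀ i ∈ μ.supp, F i = G i) : μ.E F = μ.E G :=
  sum_congr rfl (fun i hi => by rw [h i hi])

open Classical in
/-- indicator -/
noncomputable def ind (A : ι → Prop) (i : ι) : ℝ := if A i then 1 else 0

theorem ind_nonneg (A : ι → Prop) (i : ι) : 0 ≤ ind A i := by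
  unfold ind; split_ifs <;> norm_num

theorem ind_le_one (A : ι → Prop) (i : ι) : ind A i ≤ 1 := by
  unfold ind; split_ifs <;> norm_num

theorem ind_pos {A : ι → Prop} {i : ι} (h : A i) : ind A i = 1 := by
  unfold ind; rw [if_pos h]

theorem ind_neg {A : ι → Prop} {i : ι} (h : ¬ A i) : ind A i = 0 := by
  unfold ind; rw [if_neg h]

theorem ind_congr {τ : Type*} {A : ι → Prop} {B : τ → Prop} {i : ι} {j : τ} (h : A i ↔ B j) :
    ind A i = ind B j := by
  by_cases hA : A i
  · rw [ind_pos hA, ind_pos (h.1 hA)]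
  · rw [ind_neg hA, ind_neg (fun hB => hA (h.2 hB))]

/-- probability -/
noncomputable def P (A : ι → Prop) : ℝ := μ.E (ind A)

theorem P_nonneg (A : ι → Prop) : 0 ≤ μ.P A := μ.E_nonneg (fun i _ => ind_nonneg A i)

theorem P_le_one (A : ι → Prop) : μ.P A ≤ 1 := by
  have := μ.E_mono (F := ind A) (G := fun _ => 1) (fun i _ => ind_le_one A i)
  rwa [μ.E_const] at this

theorem P_mono {A B : ι → Prop} (h : ∀ i ∈ μ.supp, A i → B i) : μ.P A ≤ μ.P B := by
  apply μ.E_mono
  intro i hi
  by_cases hA : A i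
  · rw [ind_pos hA, ind_pos (h i hi hA)]
  · rw [ind_neg hA]; exact ind_nonneg B i

theorem P_not (A : ι → Prop) : μ.P (fun i => ¬ A i) = 1 - μ.P A := by
  have h : ∀ i, ind (fun i => ¬ A i) i = 1 - ind A i := by
    intro i
    by_cases hA : A i
    · rw [ind_pos hA, ind_neg (A := fun i => ¬ A i) (not_not.2 hA)]; norm_num
    · rw [ind_neg hA, ind_pos (A := fun i => ¬ A i) hA]; norm_num
  unfold P
  rw [μ.E_congr (fun i _ => h i), μ.E_sub, μ.E_const]

theorem P_or_le (A B : ι → Prop) : μ.P (fun i => A i ∨ B i) ≤ μ.P A + μ.P B := by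
  unfold P
  rw [← μ.E_add]
  apply μ.E_mono
  intro i _
  by_cases hA : A i
  · rw [ind_pos (A := fun i => A i ∨ B i) (Or.inl hA), ind_pos hA]
    have := ind_nonneg B i; linarith
  · by_cases hB : B i
    · rw [ind_pos (A := fun i => A i ∨ B i) (Or.inr hB), ind_pos hB]
      have := ind_nonneg A i; linarith
    · rw [ind_neg (A := fun i => A i ∨ B i) (by tauto)]
      have := ind_nonneg A i; have := ind_nonneg B i; linarith

theorem P_exists_le {τ : Type*} (s : Finset τ) (A : τ → ι → Prop) :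
    μ.P (fun i => ∃ t ∈ s, A t i) ≤ ∑ t ∈ s, μ.P (A t) := by
  unfold P
  rw [← μ.E_sum]
  apply μ.E_mono
  intro i _
  by_cases h : ∃ t ∈ s, A t i
  · obtain ⟨t, ht, hA⟩ := h
    rw [ind_pos (A := fun i => ∃ t ∈ s, A t i) ⟨t, ht, hA⟩]
    have : ind (A t) i ≤ ∑ t ∈ s, ind (A t) i :=
      single_le_sum (f := fun t => ind (A t) i) (fun t _ => ind_nonneg _ _) ht
    rw [ind_pos hA] at this
    exact this
  · rw [ind_neg (A := fun i => ∃ t ∈ s, A t i) h]
    exact sum_nonneg (fun t _ => ind_nonneg _ _)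

theorem markov {X : ι → ℝ} (hX : ∀ i ∈ μ.supp, 0 ≤ X i) {c : ℝ} (hc : 0 < c) :
    μ.P (fun i => c ≤ X i) ≤ μ.E X / c := by
  rw [le_div_iff₀ hc]
  unfold P
  rw [← μ.E_mul_right]
  apply μ.E_mono
  intro i hi
  by_cases h : c ≤ X i
  · rw [ind_pos (A := fun i => c ≤ X i) h, one_mul]; exact h
  · rw [ind_neg (A := fun i => c ≤ X i) h, zero_mul]; exact hX i hi

/-- Chebyshev, lower tail -/
theorem cheb_lower (X : ι → ℝ) {V t : ℝ} (ht : 0 < t)
    (hV : μ.E (fun i => X i ^ 2) ≤ (μ.E X) ^ 2 + V) :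
    μ.P (fun i => X i ≤ μ.E X - t) ≤ V / t ^ 2 := by
  have h1 : μ.E (fun i => (X i - μ.E X) ^ 2) ≤ V := by
    have : ∀ i, (X i - μ.E X) ^ 2 = X i ^ 2 - 2 * μ.E X * X i + (μ.E X) ^ 2 := fun i => by ring
    rw [μ.E_congr (fun i _ => this i), μ.E_add, μ.E_sub, μ.E_mul_left, μ.E_const]
    nlinarith
  have h2 := μ.markov (X := fun i => (X i - μ.E X) ^ 2) (fun i _ => sq_nonneg _)
    (c := t ^ 2) (by positivity)
  refine le_trans ?_ (h2.trans (div_le_div_of_nonneg_right h1 (by positivity)))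
  apply μ.P_mono
  intro i _ h
  have : t ≤ μ.E X - X i := by linarith
  nlinarith

/-- Chebyshev, upper tail -/
theorem cheb_upper (X : ι → ℝ) {V t : ℝ} (ht : 0 < t)
    (hV : μ.E (fun i => X i ^ 2) ≤ (μ.E X) ^ 2 + V) :
    μ.P (fun i => μ.E X + t ≤ X i) ≤ V / t ^ 2 := by
  have h1 : μ.E (fun i => (X i - μ.E X) ^ 2) ≤ V := by
    have : ∀ i, (X i - μ.E X) ^ 2 = X i ^ 2 - 2 * μ.E X * X i + (μ.E X) ^ 2 := fun i => by ring
    rw [μ.E_congr (fun i _ => this i), μ.E_add, μ.E_sub, μ.E_mul_left, μ.E_const]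
    nlinarith
  have h2 := μ.markov (X := fun i => (X i - μ.E X) ^ 2) (fun i _ => sq_nonneg _)
    (c := t ^ 2) (by positivity)
  refine le_trans ?_ (h2.trans (div_le_div_of_nonneg_right h1 (by positivity)))
  apply μ.P_mono
  intro i _ h
  nlinarith

/-- product distribution -/
def prod : EF (ι × κ) where
  supp := μ.supp ×ˢ ν.supp
  w := fun x => μ.w x.1 * ν.w x.2
  nn := fun x hx => by
    rw [mem_product] at hx
    exact mul_nonneg (μ.nn _ hx.1) (ν.nn _ hx.2)
  tot := by
    rw [sum_product]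
    simp only
    have : ∀ x ∈ μ.supp, ∑ y ∈ ν.supp, μ.w x * ν.w y = μ.w x := by
      intro x _; rw [← mul_sum, ν.tot, mul_one]
    rw [sum_congr rfl this, μ.tot]

theorem E_prod (F : ι × κ → ℝ) : (μ.prod ν).E F = μ.E (fun i => ν.E (fun j => F (i, j))) := by
  unfold E prod
  simp only
  rw [sum_product]
  apply sum_congr rfl
  intro i _
  rw [mul_sum]
  apply sum_congr rfl
  intro j _
  ring

theorem E_prod' (F : ι × κ → ℝ) : (μ.prod ν).E F = ν.E (fun j => μ.E (fun i => F (i, j))) := by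
  rw [E_prod]
  unfold E
  simp only [mul_sum]
  rw [sum_comm]
  apply sum_congr rfl
  intro i _
  apply sum_congr rfl
  intro j _
  ring

theorem E_prod_fst (F : ι → ℝ) : (μ.prod ν).E (fun x => F x.1) = μ.E F := by
  rw [E_prod]
  apply μ.E_congr
  intro i _
  exact ν.E_const (F i)

theorem E_prod_snd (F : κ → ℝ) : (μ.prod ν).E (fun x => F x.2) = ν.E F := by
  rw [E_prod']
  apply ν.E_congr
  intro i _
  exact μ.E_const (F i)

end EF

/-! ### Bernoulli subsets -/

section Bern

variable {α : Type*} [DecidableEq α]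

/-- weight of a subset -/
def bw (Ω : Finset α) (p : ℝ) (Z : Finset α) : ℝ := p ^ Z.card * (1 - p) ^ (Ω.card - Z.card)

theorem bw_insert_mem {Ω : Finset α} {p : ℝ} {a : α} (ha : a ∉ Ω) {Z : Finset α} (hZ : Z ⊆ Ω) :
    bw (insert a Ω) p (insert a Z) = p * bw Ω p Z := by
  unfold bw
  rw [card_insert_of_notMem ha, card_insert_of_notMem (fun h => ha (hZ h))]
  have := card_le_card hZ
  rw [show Ω.card + 1 - (Z.card + 1) = Ω.card - Z.card by omega, pow_succ]
  ring

theorem bw_insert_notMem {Ω : Finset α} {p : ℝ} {a : α} (ha : a ∉ Ω) {Z : Finset α}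
    (hZ : Z ⊆ Ω) : bw (insert a Ω) p Z = (1 - p) * bw Ω p Z := by
  unfold bw
  rw [card_insert_of_notMem ha]
  have := card_le_card hZ
  rw [show Ω.card + 1 - Z.card = (Ω.card - Z.card) + 1 by omega, pow_succ]
  ring

/-- sum with respect to the Bernoulli weights -/
def Ex (Ω : Finset α) (p : ℝ) (F : Finset α → ℝ) : ℝ := ∑ Z ∈ Ω.powerset, bw Ω p Z * F Z

omit [DecidableEq α] in
theorem Ex_empty (p : ℝ) (F : Finset α → ℝ) : Ex ∅ p F = F ∅ := by
  unfold Ex bw; simp

theorem Ex_insert {Ω : Finset α} {a : α} (ha : a ∉ Ω) (p : ℝ) (F : Finset α → ℝ) :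
    Ex (insert a Ω) p F = p * Ex Ω p (fun Z => F (insert a Z)) + (1 - p) * Ex Ω p F := by
  unfold Ex
  rw [sum_powerset_insert ha, add_comm, mul_sum, mul_sum]
  congr 1
  · apply sum_congr rfl
    intro Z hZ
    rw [mem_powerset] at hZ
    rw [bw_insert_mem ha hZ]; ring
  · apply sum_congr rfl
    intro Z hZ
    rw [mem_powerset] at hZ
    rw [bw_insert_notMem ha hZ]; ring

theorem Ex_one (Ω : Finset α) (p : ℝ) : Ex Ω p (fun _ => 1) = 1 := by
  induction Ω using Finset.induction_on with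
  | empty => rw [Ex_empty]
  | insert a s ha ih => rw [Ex_insert ha, ih]; ring

/-- Bernoulli random subset -/
def bern (Ω : Finset α) (p : ℝ) (h0 : 0 ≤ p) (h1 : p ≤ 1) : EF (Finset α) where
  supp := Ω.powerset
  w := bw Ω p
  nn := fun Z _ => mul_nonneg (pow_nonneg h0 _) (pow_nonneg (by linarith) _)
  tot := by
    have := Ex_one Ω p
    unfold Ex at this
    simpa using this

theorem bern_E (Ω : Finset α) (p : ℝ) (h0 : 0 ≤ p) (h1 : p ≤ 1) (F : Finset α → ℝ) :
    (bern Ω p h0 h1).E F = Ex Ω p F := rfl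

theorem Ex_nonneg {Ω : Finset α} {p : ℝ} (h0 : 0 ≤ p) (h1 : p ≤ 1) {F : Finset α → ℝ}
    (h : ∀ Z ⊆ Ω, 0 ≤ F Z) : 0 ≤ Ex Ω p F :=
  (bern Ω p h0 h1).E_nonneg (fun Z hZ => h Z (mem_powerset.1 hZ))

theorem Ex_mono {Ω : Finset α} {p : ℝ} (h0 : 0 ≤ p) (h1 : p ≤ 1) {F G : Finset α → ℝ}
    (h : ∀ Z ⊆ Ω, F Z ≤ G Z) : Ex Ω p F ≤ Ex Ω p G :=
  (bern Ω p h0 h1).E_mono (fun Z hZ => h Z (mem_powerset.1 hZ))

omit [DecidableEq α] in
theorem Ex_add (Ω : Finset α) (p : ℝ) (F G : Finset α → ℝ) :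
    Ex Ω p (fun Z => F Z + G Z) = Ex Ω p F + Ex Ω p G := by
  unfold Ex; rw [← sum_add_distrib]; exact sum_congr rfl (fun i _ => by ring)

omit [DecidableEq α] in
theorem Ex_mul_left (Ω : Finset α) (p c : ℝ) (F : Finset α → ℝ) :
    Ex Ω p (fun Z => c * F Z) = c * Ex Ω p F := by
  unfold Ex; rw [mul_sum]; exact sum_congr rfl (fun i _ => by ring)

/-- independence over disjoint sets of coordinates -/
theorem Ex_indep (Ω S T : Finset α) (p : ℝ) (hST : Disjoint S T) :
    ∀ F G : Finset α → ℝ, (∀ Z, F Z = F (Z ∩ S)) → (∀ Z, G Z = G (Z ∩ T)) →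
    Ex Ω p (fun Z => F Z * G Z) = Ex Ω p F * Ex Ω p G := by
  induction Ω using Finset.induction_on with
  | empty => intro F G _ _; rw [Ex_empty, Ex_empty, Ex_empty]
  | insert a s ha ih =>
    intro F G hF hG
    rw [Ex_insert ha, Ex_insert ha, Ex_insert ha]
    have hF' : ∀ Z, F (insert a Z) = F (insert a (Z ∩ S)) := by
      intro Z
      rw [hF (insert a Z), hF (insert a (Z ∩ S))]
      congr 1
      ext z; simp only [mem_inter, mem_insert]; tauto
    have hG' : ∀ Z, G (insert a Z) = G (insert a (Z ∩ T)) := by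
      intro Z
      rw [hG (insert a Z), hG (insert a (Z ∩ T))]
      congr 1
      ext z; simp only [mem_inter, mem_insert]; tauto
    by_cases haS : a ∈ S
    · have haT : a ∉ T := fun h => disjoint_left.1 hST haS h
      have hGa : ∀ Z, G (insert a Z) = G Z := by
        intro Z
        rw [hG (insert a Z), hG Z, insert_inter_of_notMem haT]
      have e1 : Ex s p (fun Z => F (insert a Z) * G (insert a Z))
          = Ex s p (fun Z => F (insert a Z)) * Ex s p G := by
        rw [← ih (fun Z => F (insert a Z)) G hF' hG]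
        simp only [hGa]
      have e2 : Ex s p (fun Z => G (insert a Z)) = Ex s p G := by simp only [hGa]
      rw [e1, e2, ih F G hF hG]
      ring
    · have hFa : ∀ Z, F (insert a Z) = F Z := by
        intro Z
        rw [hF (insert a Z), hF Z, insert_inter_of_notMem haS]
      have e1 : Ex s p (fun Z => F (insert a Z) * G (insert a Z))
          = Ex s p F * Ex s p (fun Z => G (insert a Z)) := by
        rw [← ih F (fun Z => G (insert a Z)) hF hG']
        simp only [hFa]
      have e2 : Ex s p (fun Z => F (insert a Z)) = Ex s p F := by simp only [hFa]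
      rw [e1, e2, ih F G hF hG]
      ring

omit [DecidableEq α] in
theorem Ex_congr {Ω : Finset α} (p : ℝ) {F G : Finset α → ℝ} (h : ∀ Z ⊆ Ω, F Z = G Z) :
    Ex Ω p F = Ex Ω p G :=
  sum_congr rfl (fun Z hZ => by rw [h Z (mem_powerset.1 hZ)])

omit [DecidableEq α] in
theorem Ex_zero (Ω : Finset α) (p : ℝ) : Ex Ω p (fun _ => 0) = 0 := by
  unfold Ex; simp

/-- probability that a given set is contained -/
theorem Ex_subset {Ω : Finset α} (p : ℝ) : ∀ A ⊆ Ω,
    Ex Ω p (EF.ind (fun Z => A ⊆ Z)) = p ^ A.card := by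
  induction Ω using Finset.induction_on with
  | empty =>
    intro A hA
    rw [subset_empty.1 hA, Ex_empty,
      EF.ind_pos (A := fun Z : Finset α => (∅ : Finset α) ⊆ Z) (empty_subset _)]; simp
  | insert a s ha ih =>
    intro A hA
    rw [Ex_insert ha]
    by_cases haA : a ∈ A
    · have e1 : Ex s p (fun Z => EF.ind (fun Z => A ⊆ Z) (insert a Z))
          = Ex s p (EF.ind (fun Z => A.erase a ⊆ Z)) := by
        apply Ex_congr
        intro Z _
        exact EF.ind_congr (by rw [subset_insert_iff])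
      have e2 : Ex s p (EF.ind (fun Z => A ⊆ Z)) = 0 := by
        rw [← Ex_zero s p]
        apply Ex_congr
        intro Z hZ
        exact EF.ind_neg (A := fun Z => A ⊆ Z) (fun h => ha (hZ (h haA)))
      rw [e1, e2, ih (A.erase a) (by
        intro z hz
        rw [mem_erase] at hz
        exact (mem_insert.1 (hA hz.2)).resolve_left hz.1)]
      rw [card_erase_of_mem haA]
      have : 0 < A.card := card_pos.2 ⟨a, haA⟩
      rw [mul_zero, add_zero, ← pow_succ', Nat.sub_add_cancel this]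
    · have hAs : A ⊆ s := fun z hz => (mem_insert.1 (hA hz)).resolve_left (by
        rintro rfl; exact haA hz)
      have e1 : Ex s p (fun Z => EF.ind (fun Z => A ⊆ Z) (insert a Z))
          = Ex s p (EF.ind (fun Z => A ⊆ Z)) := by
        apply Ex_congr
        intro Z _
        exact EF.ind_congr (by rw [subset_insert_iff_of_notMem haA])
      rw [e1, ih A hAs]
      ring

/-- probability that a given set is avoided -/
theorem Ex_avoid {Ω : Finset α} (p : ℝ) : ∀ A ⊆ Ω,
    Ex Ω p (EF.ind (fun Z => Z ∩ A = ∅)) = (1 - p) ^ A.card := by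
  induction Ω using Finset.induction_on with
  | empty =>
    intro A hA
    rw [subset_empty.1 hA, Ex_empty, EF.ind_pos (A := fun Z => Z ∩ ∅ = ∅) (inter_empty _)]; simp
  | insert a s ha ih =>
    intro A hA
    rw [Ex_insert ha]
    by_cases haA : a ∈ A
    · have e1 : Ex s p (fun Z => EF.ind (fun Z => Z ∩ A = ∅) (insert a Z))
          = 0 := by
        rw [← Ex_zero s p]
        apply Ex_congr
        intro Z _
        apply EF.ind_neg (A := fun Z => Z ∩ A = ∅)
        intro h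
        have : a ∈ insert a Z ∩ A := by simp [haA]
        rw [h] at this; simp at this
      have e2 : Ex s p (EF.ind (fun Z => Z ∩ A = ∅))
          = Ex s p (EF.ind (fun Z => Z ∩ A.erase a = ∅)) := by
        apply Ex_congr
        intro Z hZ
        have : Z ∩ A = Z ∩ A.erase a := by
          ext z; simp only [mem_inter, mem_erase]
          constructor
          · rintro ⟨h1, h2⟩
            exact ⟨h1, fun h => ha (hZ (h ▸ h1)), h2⟩
          · rintro ⟨h1, h2, h3⟩; exact ⟨h1, h3⟩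
        exact EF.ind_congr (by rw [this])
      rw [e1, e2, ih (A.erase a) (by
        intro z hz
        rw [mem_erase] at hz
        exact (mem_insert.1 (hA hz.2)).resolve_left hz.1)]
      rw [card_erase_of_mem haA]
      have : 0 < A.card := card_pos.2 ⟨a, haA⟩
      rw [mul_zero, zero_add, ← pow_succ', Nat.sub_add_cancel this]
    · have hAs : A ⊆ s := fun z hz => (mem_insert.1 (hA hz)).resolve_left (by
        rintro rfl; exact haA hz)
      have e1 : Ex s p (fun Z => EF.ind (fun Z => Z ∩ A = ∅) (insert a Z))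
          = Ex s p (EF.ind (fun Z => Z ∩ A = ∅)) := by
        apply Ex_congr
        intro Z _
        exact EF.ind_congr (by rw [insert_inter_of_notMem haA])
      rw [e1, ih A hAs]
      ring

/-- sprinkling -/
theorem Ex_sprinkle (Ω : Finset α) {p q r : ℝ} (hq : 0 ≤ q) (hr : 0 ≤ r) (hq1 : q ≤ 1)
    (hr1 : r ≤ 1) (hp1 : p ≤ 1) (h : q + r ≤ p) : ∀ F : Finset α → ℝ,
    (∀ Z Z', Z ⊆ Z' → F Z ≤ F Z') →
    Ex Ω q (fun Z => Ex Ω r (fun Z' => F (Z ∪ Z'))) ≤ Ex Ω p F := by
  have hp0 : 0 ≤ p := by linarith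
  induction Ω using Finset.induction_on with
  | empty => intro F _; rw [Ex_empty, Ex_empty, Ex_empty]; simp
  | insert a s ha ih =>
    intro F hF
    have hF' : ∀ Z Z', Z ⊆ Z' → F (insert a Z) ≤ F (insert a Z') :=
      fun Z Z' h => hF _ _ (insert_subset_insert a h)
    have i1 := ih F hF
    have i2 := ih (fun Z => F (insert a Z)) hF'
    rw [Ex_insert ha, Ex_insert ha]
    have e1 : Ex s q (fun Z => Ex (insert a s) r (fun Z' => F (insert a Z ∪ Z')))
        = Ex s q (fun Z => Ex s r (fun Z' => F (insert a (Z ∪ Z')))) := by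
      congr 1
      funext Z
      rw [Ex_insert ha]
      have : ∀ Z', insert a Z ∪ insert a Z' = insert a (Z ∪ Z') := by
        intro Z'; ext z; simp only [mem_union, mem_insert]; tauto
      simp only [this, insert_union]
      ring
    have e2 : Ex s q (fun Z => Ex (insert a s) r (fun Z' => F (Z ∪ Z')))
        = r * Ex s q (fun Z => Ex s r (fun Z' => F (insert a (Z ∪ Z')))) +
          (1 - r) * Ex s q (fun Z => Ex s r (fun Z' => F (Z ∪ Z'))) := by
      rw [← Ex_mul_left, ← Ex_mul_left, ← Ex_add]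
      congr 1
      funext Z
      rw [Ex_insert ha]
      simp only [union_insert]
    rw [e1, e2]
    have m : Ex s p F ≤ Ex s p (fun Z => F (insert a Z)) :=
      Ex_mono hp0 hp1 (fun Z _ => hF _ _ (subset_insert a Z))
    obtain ⟨x, hx⟩ : ∃ x, x = Ex s q (fun Z => Ex s r (fun Z' => F (insert a (Z ∪ Z')))) :=
      ⟨_, rfl⟩
    obtain ⟨y, hy⟩ : ∃ y, y = Ex s q (fun Z => Ex s r (fun Z' => F (Z ∪ Z'))) := ⟨_, rfl⟩
    rw [← hx, ← hy]
    rw [← hx] at i2
    rw [← hy] at i1
    obtain ⟨X, hX⟩ : ∃ X, X = Ex s p (fun Z => F (insert a Z)) := ⟨_, rfl⟩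
    obtain ⟨Y, hY⟩ : ∃ Y, Y = Ex s p F := ⟨_, rfl⟩
    rw [← hX, ← hY]
    rw [← hX] at i2 m
    rw [← hY] at i1 m
    -- total weight of the first term is `q + (1 - q) r ≤ q + r ≤ p`
    have hw : q + (1 - q) * r ≤ p := by nlinarith
    have hw0 : 0 ≤ q + (1 - q) * r := by
      have : 0 ≤ (1 - q) * r := mul_nonneg (by linarith) hr
      linarith
    calc q * x + (1 - q) * (r * x + (1 - r) * y)
        = (q + (1 - q) * r) * x + ((1 - q) * (1 - r)) * y := by ring
      _ ≤ (q + (1 - q) * r) * X + ((1 - q) * (1 - r)) * Y := by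
          apply add_le_add
          · exact mul_le_mul_of_nonneg_left i2 hw0
          · exact mul_le_mul_of_nonneg_left i1 (mul_nonneg (by linarith) (by linarith))
      _ = Y + (q + (1 - q) * r) * (X - Y) := by ring
      _ ≤ Y + p * (X - Y) := by
          have : 0 ≤ X - Y := by linarith
          have := mul_le_mul_of_nonneg_right hw this
          linarith
      _ = p * X + (1 - p) * Y := by ring

/-- `1 - (1-q)^k ≥ min(qk, 1)/2` -/
theorem one_sub_pow_ge {q : ℝ} (hq : 0 ≤ q) (hq1 : q ≤ 1) (k : ℕ) :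
    min (q * k) 1 / 2 ≤ 1 - (1 - q) ^ k := by
  have h1 : (1 + k * q) * (1 - q) ^ k ≤ 1 := by
    have hb : 1 + k * q ≤ (1 + q) ^ k := one_add_mul_le_pow (by linarith) k
    calc (1 + k * q) * (1 - q) ^ k ≤ (1 + q) ^ k * (1 - q) ^ k :=
          mul_le_mul_of_nonneg_right hb (pow_nonneg (by linarith) _)
      _ = (1 - q ^ 2) ^ k := by rw [← mul_pow]; congr 1; ring
      _ ≤ 1 := pow_le_one₀ (by nlinarith) (by nlinarith)
  have h2 : (0 : ℝ) ≤ (1 - q) ^ k := pow_nonneg (by linarith) _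
  obtain ⟨y, hy⟩ : ∃ y, y = (1 - q) ^ k := ⟨_, rfl⟩
  rw [← hy] at h1 h2 ⊢
  have h3 : (0 : ℝ) ≤ k * q := by positivity
  rcases le_total (q * k) 1 with h | h
  · rw [min_eq_left h]
    nlinarith
  · rw [min_eq_right h]
    nlinarith

end Bern

end Pool.Agent.H38.SC
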