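import Pool.Agent.H38.SC.Weak

/-!
# The closure process and sprinkling steps
-/

set_option autoImplicit false

namespace Pool.Agent.H38.SC

open Finset EF

variable {V : Type*} [DecidableEq V]

/-- the certified pairs: closure of `N` and the star faces at `v` under the triadic rule -/
inductive Clo (v : V) (N : V → V → Prop) (Z : Finset (Finset V)) : V → V → Prop
  | base {b c : V} (h : N b c) : Clo v N Z b c
  | star {b c : V} (h : ({v, b, c} : Finset V) ∈ Z) : Clo v N Z b c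
  | symm {b c : V} (h : Clo v N Z b c) : Clo v N Z c b
  | tri {b x c : V} (h1 : Clo v N Z b x) (h2 : Clo v N Z x c)
      (h : ({b, x, c} : Finset V) ∈ Z) : Clo v N Z b c

theorem Clo.mono {v : V} {N N' : V → V → Prop} {Z Z' : Finset (Finset V)}
    (hN : ∀ b c, N b c → Clo v N' Z' b c) (hZ : Z ⊆ Z') {b c : V} (h : Clo v N Z b c) :
    Clo v N' Z' b c := by
  induction h with
  | base h => exact hN _ _ h
  | star h => exact Clo.star (hZ h)
  | symm _ ih => exact Clo.symm ih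
  | tri _ _ h ih1 ih2 => exact Clo.tri ih1 ih2 (hZ h)

/-- all pairs are certified -/
def Goal (U : Finset V) (v : V) (N : V → V → Prop) (Z : Finset (Finset V)) : Prop :=
  ∀ b ∈ U, ∀ c ∈ U, b ≠ c → b ≠ v → c ≠ v → Clo v N Z b c

/-- success probability -/
noncomputable def Suc (U : Finset V) (v : V) (N : V → V → Prop) (p : ℝ) : ℝ :=
  Ex (powersetCard 3 U) p (ind (fun Z => Goal U v N Z))

theorem Suc_nonneg (U : Finset V) (v : V) (N : V → V → Prop) {p : ℝ} (h0 : 0 ≤ p)
    (h1 : p ≤ 1) : 0 ≤ Suc U v N p := Ex_nonneg h0 h1 (fun _ _ => ind_nonneg _ _)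

theorem Goal.trans {U : Finset V} {v : V} {N N' : V → V → Prop} {Z Z' : Finset (Finset V)}
    (hN : ∀ b c, N' b c → Clo v N Z b c) (h : Goal U v N' Z') : Goal U v N (Z ∪ Z') := by
  intro b hb c hc h1 h2 h3
  exact (h b hb c hc h1 h2 h3).mono
    (fun b c hbc => (hN b c hbc).mono (fun _ _ h => Clo.base h) subset_union_left)
    subset_union_right

theorem Goal.mono {U : Finset V} {v : V} {N : V → V → Prop} {Z Z' : Finset (Finset V)}
    (hZ : Z ⊆ Z') (h : Goal U v N Z) : Goal U v N Z' := by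
  intro b hb c hc h1 h2 h3
  exact (h b hb c hc h1 h2 h3).mono (fun _ _ h => Clo.base h) hZ

theorem ind_mono {ι τ : Type*} {A : ι → Prop} {B : τ → Prop} {i : ι} {j : τ}
    (h : A i → B j) : ind A i ≤ ind B j := by
  by_cases hA : A i
  · rw [ind_pos hA, ind_pos (h hA)]
  · rw [ind_neg hA]; exact ind_nonneg _ _

theorem suc_step {U : Finset V} {v : V} (N : V → V → Prop) {p q r δ β : ℝ}
    (hq0 : 0 ≤ q) (hr0 : 0 ≤ r) (hqr : q + r ≤ p) (hp1 : p ≤ 1) (hβ : β ≤ 1)
    (G : Finset (Finset V) → Prop) (hq1 : q ≤ 1)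
    (hG : 1 - δ ≤ (bern (powersetCard 3 U) q hq0 hq1).P G)
    (h : ∀ Z ⊆ powersetCard 3 U, G Z → ∃ N' : V → V → Prop,
      (∀ b c, N' b c → Clo v N Z b c) ∧ β ≤ Suc U v N' r) :
    β - δ ≤ Suc U v N p := by
  have hr1 : r ≤ 1 := by linarith
  have hδ : 0 ≤ δ := by
    have := (bern (powersetCard 3 U) q hq0 hq1).P_le_one G
    linarith
  by_cases hb : β ≤ 0
  · have := Suc_nonneg U v N (p := p) (by linarith) hp1
    linarith
  have hb : 0 < β := lt_of_not_ge hb
  have h1 := Ex_sprinkle (powersetCard 3 U) hq0 hr0 hq1 hr1 hp1 hqr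
    (ind (fun Z => Goal U v N Z)) (fun Z Z' hZ => ind_mono (fun h => Goal.mono hZ h))
  unfold Suc
  refine le_trans ?_ h1
  have h2 : ∀ Z ⊆ powersetCard 3 U, β * ind G Z ≤
      Ex (powersetCard 3 U) r (fun Z' => ind (fun Z => Goal U v N Z) (Z ∪ Z')) := by
    intro Z hZ
    by_cases hGZ : G Z
    · rw [ind_pos hGZ, mul_one]
      obtain ⟨N', hN', hs⟩ := h Z hZ hGZ
      refine hs.trans ?_
      unfold Suc
      apply Ex_mono hr0 hr1
      intro Z' _
      exact ind_mono (fun h => Goal.trans hN' h)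
    · rw [ind_neg hGZ, mul_zero]
      exact Ex_nonneg hr0 hr1 (fun _ _ => ind_nonneg _ _)
  refine le_trans ?_ (Ex_mono hq0 hq1 h2)
  rw [Ex_mul_left]
  have h3 : 1 - δ ≤ Ex (powersetCard 3 U) q (ind G) := hG
  nlinarith

theorem suc_step2 {U : Finset V} {v : V} (N : V → V → Prop) {p q r δ β : ℝ}
    (hq0 : 0 ≤ q) (hr0 : 0 ≤ r) (hqr : 2 * q + r ≤ p) (hp1 : p ≤ 1) (hβ : β ≤ 1)
    (G : Finset (Finset V) × Finset (Finset V) → Prop) (hq1 : q ≤ 1)
    (hG : 1 - δ ≤ ((bern (powersetCard 3 U) q hq0 hq1).prod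
      (bern (powersetCard 3 U) q hq0 hq1)).P G)
    (h : ∀ Z ⊆ powersetCard 3 U, ∀ Z' ⊆ powersetCard 3 U, G (Z, Z') → ∃ N' : V → V → Prop,
      (∀ b c, N' b c → Clo v N (Z ∪ Z') b c) ∧ β ≤ Suc U v N' r) :
    β - δ ≤ Suc U v N p := by
  have hr1 : r ≤ 1 := by linarith
  have hδ : 0 ≤ δ := by
    have := ((bern (powersetCard 3 U) q hq0 hq1).prod
      (bern (powersetCard 3 U) q hq0 hq1)).P_le_one G
    linarith
  by_cases hb : β ≤ 0
  · have := Suc_nonneg U v N (p := p) (by linarith) hp1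
    linarith
  have hb : 0 < β := lt_of_not_ge hb
  have hqr1 : q + r ≤ 1 := by linarith
  have h1 := Ex_sprinkle (powersetCard 3 U) hq0 (show 0 ≤ q + r by linarith) hq1 hqr1 hp1
    (by linarith)
    (ind (fun Z => Goal U v N Z)) (fun Z Z' hZ => ind_mono (fun h => Goal.mono hZ h))
  unfold Suc
  refine le_trans ?_ h1
  have h2 : ∀ Z ⊆ powersetCard 3 U,
      Ex (powersetCard 3 U) q (fun Z' => β * ind G (Z, Z')) ≤
      Ex (powersetCard 3 U) (q + r) (fun Z' => ind (fun Z => Goal U v N Z) (Z ∪ Z')) := by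
    intro Z hZ
    have h3 := Ex_sprinkle (powersetCard 3 U) hq0 hr0 hq1 hr1 hqr1 le_rfl
      (fun Z' => ind (fun Z => Goal U v N Z) (Z ∪ Z')) (fun Z1 Z2 hZ12 =>
        ind_mono (A := fun Z => Goal U v N Z) (B := fun Z => Goal U v N Z)
          (fun h => Goal.mono (union_subset_union_right hZ12) h))
    refine le_trans ?_ h3
    apply Ex_mono hq0 hq1
    intro Z' hZ'
    by_cases hGZ : G (Z, Z')
    · rw [ind_pos hGZ, mul_one]
      obtain ⟨N', hN', hs⟩ := h Z hZ Z' hZ' hGZ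
      refine hs.trans ?_
      unfold Suc
      apply Ex_mono hr0 hr1
      intro Z'' _
      apply ind_mono (A := fun Z => Goal U v N' Z) (B := fun Z => Goal U v N Z)
      intro h
      rw [← union_assoc]
      exact Goal.trans hN' h
    · rw [ind_neg hGZ, mul_zero]
      exact Ex_nonneg hr0 hr1 (fun _ _ => ind_nonneg _ _)
  refine le_trans ?_ (Ex_mono hq0 hq1 h2)
  have h3 : 1 - δ ≤ Ex (powersetCard 3 U) q (fun Z => Ex (powersetCard 3 U) q
      (fun Z' => ind G (Z, Z'))) := by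
    have := hG
    unfold EF.P at this
    rw [E_prod] at this
    exact this
  have h4 : Ex (powersetCard 3 U) q (fun Z => Ex (powersetCard 3 U) q
      (fun Z' => β * ind G (Z, Z'))) = β * Ex (powersetCard 3 U) q (fun Z =>
        Ex (powersetCard 3 U) q (fun Z' => ind G (Z, Z'))) := by
    rw [← Ex_mul_left]
    congr 1
    funext Z
    rw [Ex_mul_left]
  rw [h4]
  nlinarith

open Classical in
/-- common neighbours -/
noncomputable def cod (N : V → V → Prop) (R : Finset V) (a b : V) : Finset V :=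
  R.filter (fun x => N a x ∧ N b x)

omit [DecidableEq V] in
theorem mem_cod {N : V → V → Prop} {R : Finset V} {a b x : V} :
    x ∈ cod N R a b ↔ x ∈ R ∧ N a x ∧ N b x := by
  unfold cod; simp only [mem_filter]

omit [DecidableEq V] in
theorem cod_comm (N : V → V → Prop) (R : Finset V) (a b : V) : cod N R a b = cod N R b a := by
  ext x; rw [mem_cod, mem_cod]; tauto

omit [DecidableEq V] in
theorem cod_mono {N N' : V → V → Prop} (h : ∀ a b, N a b → N' a b) (R : Finset V) (a b : V) :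
    cod N R a b ⊆ cod N' R a b := by
  intro x; rw [mem_cod, mem_cod]; exact fun hx => ⟨hx.1, h _ _ hx.2.1, h _ _ hx.2.2⟩

/-- the faces which certify the pair `a b` through `Y` -/
noncomputable def Lb (N : V → V → Prop) (Y : Finset V) (a b : V) : Finset (Finset V) :=
  (cod N Y a b).image (fun y => {a, b, y})

theorem mem_Lb {N : V → V → Prop} {Y : Finset V} {a b : V} {F : Finset V} :
    F ∈ Lb N Y a b ↔ ∃ y ∈ Y, N a y ∧ N b y ∧ F = {a, b, y} := by
  unfold Lb
  rw [mem_image]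
  constructor
  · rintro ⟨y, hy, rfl⟩
    rw [mem_cod] at hy
    exact ⟨y, hy.1, hy.2.1, hy.2.2, rfl⟩
  · rintro ⟨y, hy, h1, h2, rfl⟩
    exact ⟨y, mem_cod.2 ⟨hy, h1, h2⟩, rfl⟩

theorem Lb_comm (N : V → V → Prop) (Y : Finset V) (a b : V) : Lb N Y a b = Lb N Y b a := by
  ext F
  rw [mem_Lb, mem_Lb]
  constructor
  · rintro ⟨y, hy, h1, h2, rfl⟩
    exact ⟨y, hy, h2, h1, by ext z; simp only [mem_insert, mem_singleton]; tauto⟩
  · rintro ⟨y, hy, h1, h2, rfl⟩
    exact ⟨y, hy, h2, h1, by ext z; simp only [mem_insert, mem_singleton]; tauto⟩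

theorem card_Lb {N : V → V → Prop} {Y : Finset V} {a b : V} (ha : a ∉ Y) (hb : b ∉ Y) :
    (Lb N Y a b).card = (cod N Y a b).card := by
  unfold Lb
  apply card_image_of_injOn
  intro y hy y' hy' he
  rw [mem_coe, mem_cod] at hy hy'
  simp only at he
  have : y ∈ ({a, b, y'} : Finset V) := by rw [← he]; simp
  simp only [mem_insert, mem_singleton] at this
  rcases this with h | h | h
  · exact absurd (h ▸ hy.1) ha
  · exact absurd (h ▸ hy.1) hb
  · exact h

/-- a face of `Lb` in `Z` certifies the pair -/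
theorem Lb_clo {v : V} {N : V → V → Prop} {Y : Finset V} {Z : Finset (Finset V)} {a b : V}
    (h : (Z ∩ Lb N Y a b).Nonempty) : Clo v N Z a b := by
  obtain ⟨F, hF⟩ := h
  rw [mem_inter, mem_Lb] at hF
  obtain ⟨hFZ, y, hy, h1, h2, rfl⟩ := hF
  apply Clo.tri (Clo.base h1) (Clo.symm (Clo.base h2))
  convert hFZ using 1
  ext z; simp only [mem_insert, mem_singleton]; tauto

/-- all pairs of a family with large common neighbourhoods get certified -/
theorem suc_all {U : Finset V} {v : V} (N : V → V → Prop) (hsym : ∀ a b, N a b → N b a)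
    {p q r β t : ℝ} (hq0 : 0 ≤ q) (hr0 : 0 ≤ r) (hqr : q + r ≤ p) (hp1 : p ≤ 1) (hβ : β ≤ 1)
    (Y : V → V → Finset V) (Pi : Finset (V × V))
    (hPi : ∀ ab ∈ Pi, ab.1 ∈ U ∧ ab.2 ∈ U ∧ ab.1 ≠ ab.2 ∧ Y ab.1 ab.2 ⊆ U ∧
      ab.1 ∉ Y ab.1 ab.2 ∧ ab.2 ∉ Y ab.1 ab.2 ∧
      t ≤ ((1 - q) ^ (cod N (Y ab.1 ab.2) ab.1 ab.2).card)⁻¹) (ht : 0 < t)
    (h : ∀ N' : V → V → Prop, (∀ a b, N a b → N' a b) → (∀ a b, N' a b → N' b a) →
      (∀ ab ∈ Pi, N' ab.1 ab.2) → β ≤ Suc U v N' r) :
    β - Pi.card / t ≤ Suc U v N p := by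
  have hq1 : q ≤ 1 := by linarith
  apply suc_step N hq0 hr0 hqr hp1 hβ
    (fun Z => ∀ ab ∈ Pi, (Z ∩ Lb N (Y ab.1 ab.2) ab.1 ab.2).Nonempty) hq1
  · have h1 : (bern (powersetCard 3 U) q hq0 hq1).P
        (fun Z => ∀ ab ∈ Pi, (Z ∩ Lb N (Y ab.1 ab.2) ab.1 ab.2).Nonempty) =
        (bern (powersetCard 3 U) q hq0 hq1).P
        (fun Z => ¬ ∃ ab ∈ Pi, Z ∩ Lb N (Y ab.1 ab.2) ab.1 ab.2 = ∅) := by
      apply E_congr
      intro Z _
      apply ind_congr
      push Not
      rfl
    rw [h1, P_not]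
    have h2 := (bern (powersetCard 3 U) q hq0 hq1).P_exists_le Pi
      (fun ab Z => Z ∩ Lb N (Y ab.1 ab.2) ab.1 ab.2 = ∅)
    have h3 : ∀ ab ∈ Pi, (bern (powersetCard 3 U) q hq0 hq1).P
        (fun Z => Z ∩ Lb N (Y ab.1 ab.2) ab.1 ab.2 = ∅) ≤ 1 / t := by
      intro ab hab
      obtain ⟨i1, i2, i3, i4, i5, i6, i7⟩ := hPi ab hab
      have h4 : Lb N (Y ab.1 ab.2) ab.1 ab.2 ⊆ powersetCard 3 U := by
        intro F hF
        rw [mem_Lb] at hF
        obtain ⟨y, hy, h1, h2, rfl⟩ := hF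
        rw [mem_powersetCard]
        constructor
        · intro z hz
          simp only [mem_insert, mem_singleton] at hz
          rcases hz with rfl | rfl | rfl
          · exact i1
          · exact i2
          · exact i4 hy
        · apply card_eq_three.2
          refine ⟨_, _, _, i3, ?_, ?_, rfl⟩
          · intro e
            have := hy
            rw [← e] at this
            exact i5 this
          · intro e
            have := hy
            rw [← e] at this
            exact i6 this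
      have h5 := Ex_avoid q _ h4
      rw [card_Lb i5 i6] at h5
      have h6 : (bern (powersetCard 3 U) q hq0 hq1).P
        (fun Z => Z ∩ Lb N (Y ab.1 ab.2) ab.1 ab.2 = ∅)
        = (1 - q) ^ (cod N (Y ab.1 ab.2) ab.1 ab.2).card := h5
      rw [h6]
      rw [one_div]
      have h7 : 0 ≤ (1 - q) ^ (cod N (Y ab.1 ab.2) ab.1 ab.2).card :=
        pow_nonneg (by linarith) _
      rcases h7.eq_or_lt with h8 | h8
      · rw [← h8]; positivity
      · rw [← inv_inv ((1 - q) ^ (cod N (Y ab.1 ab.2) ab.1 ab.2).card)]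
        exact inv_anti₀ ht i7
    have h4 := sum_le_sum h3
    rw [sum_const, nsmul_eq_mul] at h4
    have : (Pi.card : ℝ) * (1 / t) = Pi.card / t := by ring
    linarith
  · intro Z hZ hG
    refine ⟨fun a b => N a b ∨ ((a, b) ∈ Pi ∨ (b, a) ∈ Pi), ?_, ?_⟩
    · rintro b c (h | h | h)
      · exact Clo.base h
      · have h2 := hG (b, c) h
        exact Lb_clo (Y := Y b c) h2
      · have h2 := hG (c, b) h
        exact Clo.symm (Lb_clo (Y := Y c b) h2)
    · apply h
      · intro a b h; exact Or.inl h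
      · rintro a b (h | h | h)
        · exact Or.inl (hsym _ _ h)
        · exact Or.inr (Or.inr h)
        · exact Or.inr (Or.inl h)
      · intro ab hab; exact Or.inr (Or.inl hab)

end Pool.Agent.H38.SC
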