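import Pool.Agent.H38.SC.Process

/-!
# One round of the process on a tripartite structure
-/

set_option autoImplicit false

namespace Pool.Agent.H38.SC

open Finset EF

variable {V : Type*} [DecidableEq V]

/-- three disjoint classes of equal size -/
structure Cl (U : Finset V) (v : V) (m : ℕ) (cls : Fin 3 → Finset V) : Prop where
  sub : ∀ i, cls i ⊆ U
  card : ∀ i, (cls i).card = m
  disj : ∀ i j, i ≠ j → Disjoint (cls i) (cls j)
  nv : ∀ i, v ∉ cls i
  hv : v ∈ U

/-- number of weak pairs -/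
noncomputable def wkN (N : V → V → Prop) (A B R : Finset V) (s : ℝ) : ℝ :=
  ∑ ab ∈ A ×ˢ B, ind (fun ab : V × V => ((cod N R ab.1 ab.2).card : ℝ) < s) ab

omit [DecidableEq V] in
theorem wkN_swap (N : V → V → Prop) (A B R : Finset V) (s : ℝ) :
    wkN N A B R s = wkN N B A R s := by
  unfold wkN
  rw [sum_product, sum_product_right]
  apply sum_congr rfl
  intro a _
  apply sum_congr rfl
  intro b _
  apply ind_congr
  simp only
  rw [cod_comm]

omit [DecidableEq V] in
theorem wkN_mono {N N' : V → V → Prop} (h : ∀ a b, N a b → N' a b) {A B R : Finset V} {s : ℝ} :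
    wkN N' A B R s ≤ wkN N A B R s := by
  unfold wkN
  apply sum_le_sum
  intro ab _
  apply ind_mono (A := fun ab : V × V => ((cod N' R ab.1 ab.2).card : ℝ) < s)
    (B := fun ab : V × V => ((cod N R ab.1 ab.2).card : ℝ) < s)
  intro h1
  refine lt_of_le_of_lt ?_ h1
  exact_mod_cast card_le_card (cod_mono h R ab.1 ab.2)

theorem tri_disj {cls : Fin 3 → Finset V} (hd : ∀ i j, i ≠ j → Disjoint (cls i) (cls j))
    {i j k : Fin 3} (hij : i ≠ j) (hjk : j ≠ k) (hik : i ≠ k) (N : V → V → Prop) {a a' x x' : V}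
    (ha : a ∈ cls i) (ha' : a' ∈ cls i) (hx : x ∈ cls k) (hx' : x' ∈ cls k)
    (h : a ≠ a' ∨ x ≠ x') : Disjoint (Lb N (cls j) a x) (Lb N (cls j) a' x') := by
  rw [disjoint_left]
  intro F h1 h2
  rw [mem_Lb] at h1 h2
  obtain ⟨y, hy, -, -, rfl⟩ := h1
  obtain ⟨y', hy', -, -, he⟩ := h2
  have m1 : a ∈ ({a', x', y'} : Finset V) := by rw [← he]; simp
  have m2 : x ∈ ({a', x', y'} : Finset V) := by rw [← he]; simp
  simp only [mem_insert, mem_singleton] at m1 m2
  have q1 : a = a' := by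
    rcases m1 with h | h | h
    · exact h
    · exact absurd (h ▸ ha) (fun h => disjoint_left.1 (hd i k hik) h hx')
    · exact absurd (h ▸ ha) (fun h => disjoint_left.1 (hd i j hij) h hy')
  have q2 : x = x' := by
    rcases m2 with h | h | h
    · exact absurd (h ▸ hx) (fun h => disjoint_left.1 (hd k i hik.symm) h ha')
    · exact h
    · exact absurd (h ▸ hx) (fun h => disjoint_left.1 (hd k j hjk.symm) h hy')
  rcases h with h | h
  · exact h q1
  · exact h q2

theorem Lb_sub {U : Finset V} {v : V} {m : ℕ} {cls : Fin 3 → Finset V} (hC : Cl U v m cls)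
    {i j k : Fin 3} (hij : i ≠ j) (hjk : j ≠ k) (hik : i ≠ k) (N : V → V → Prop) {a x : V}
    (ha : a ∈ cls i) (hx : x ∈ cls k) : Lb N (cls j) a x ⊆ powersetCard 3 U := by
  intro F hF
  rw [mem_Lb] at hF
  obtain ⟨y, hy, -, -, rfl⟩ := hF
  rw [mem_powersetCard]
  constructor
  · intro z hz
    simp only [mem_insert, mem_singleton] at hz
    rcases hz with rfl | rfl | rfl
    · exact hC.sub i ha
    · exact hC.sub k hx
    · exact hC.sub j hy
  · apply card_eq_three.2
    refine ⟨_, _, _, ?_, ?_, ?_, rfl⟩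
    · rintro rfl; exact disjoint_left.1 (hC.disj i k hik) ha hx
    · rintro rfl; exact disjoint_left.1 (hC.disj i j hij) ha hy
    · rintro rfl; exact disjoint_left.1 (hC.disj k j hjk.symm) hx hy

theorem half_round {U : Finset V} {v : V} {m : ℕ} {cls : Fin 3 → Finset V} (hC : Cl U v m cls)
    (hm : 0 < m) (N : V → V → Prop) (hsym : ∀ a b, N a b → N b a)
    {i j k : Fin 3} (hij : i ≠ j) (hjk : j ≠ k) (hik : i ≠ k) {A B : Finset V}
    (hA : A ⊆ cls i) (hB : B ⊆ cls j) {p q r β s t : ℝ}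
    (hq0 : 0 < q) (hr0 : 0 ≤ r) (hqr : 2 * q + r ≤ p) (hp1 : p ≤ 1) (hβ : β ≤ 1) (hs : 0 < s)
    (ht : 0 < t)
    (hgood : ∀ a ∈ A, ∀ b ∈ B, ∃ X ⊆ cls k, (m : ℝ) / 2 ≤ X.card ∧
      ∀ x ∈ X, s ≤ (cod N (cls j) a x).card ∧ s ≤ (cod N (cls i) b x).card)
    (h : ∀ N' : V → V → Prop, (∀ a b, N a b → N' a b) → (∀ a b, N' a b → N' b a) →
      wkN N' A B (cls k) (m * (min (q * s) 1) ^ 2 / 16) <
        2 / (m * (min (q * s) 1) ^ 2 / 16) * (m : ℝ) ^ 2 + t → β ≤ Suc U v N' r) :
    β - 2 * (m : ℝ) ^ 3 / t ^ 2 ≤ Suc U v N p := by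
  have hq1 : q ≤ 1 := by linarith
  have hm' : (0 : ℝ) < m := by exact_mod_cast hm
  have hmin : 0 < min (q * s) 1 := lt_min (mul_pos hq0 hs) one_pos
  obtain ⟨s', hs'⟩ : ∃ s', s' = m * (min (q * s) 1) ^ 2 / 16 := ⟨_, rfl⟩
  have hs'pos : 0 < s' := by rw [hs']; positivity
  rw [← hs'] at h
  set μ := bern (powersetCard 3 U) q hq0.le hq1 with hμ
  have hρ : Rows μ A (cls k) (hit (cls k) (Lb N (cls j))) :=
    rows_hit hq0.le hq1 (fun a ha a' ha' x hx x' hx' hne =>
      tri_disj hC.disj hij hjk hik N (hA ha) (hA ha') hx hx' hne)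
  have hσ : Rows μ B (cls k) (hit (cls k) (Lb N (cls i))) :=
    rows_hit hq0.le hq1 (fun a ha a' ha' x hx x' hx' hne =>
      tri_disj hC.disj hij.symm hik hjk N (hB ha) (hB ha') hx hx' hne)
  have hlow : ∀ a ∈ A, ∀ b ∈ B, 2 * s' ≤ ∑ x ∈ cls k,
      μ.P (fun Z => x ∈ hit (cls k) (Lb N (cls j)) a Z) *
      μ.P (fun Z => x ∈ hit (cls k) (Lb N (cls i)) b Z) := by
    intro a ha b hb
    obtain ⟨X, hX, hXc, hXs⟩ := hgood a ha b hb
    have h1 : ∑ x ∈ X, μ.P (fun Z => x ∈ hit (cls k) (Lb N (cls j)) a Z) *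
      μ.P (fun Z => x ∈ hit (cls k) (Lb N (cls i)) b Z) ≤ ∑ x ∈ cls k,
      μ.P (fun Z => x ∈ hit (cls k) (Lb N (cls j)) a Z) *
      μ.P (fun Z => x ∈ hit (cls k) (Lb N (cls i)) b Z) :=
      sum_le_sum_of_subset_of_nonneg hX (fun x _ _ => mul_nonneg (μ.P_nonneg _) (μ.P_nonneg _))
    refine le_trans ?_ h1
    have h2 : ∀ x ∈ X, (min (q * s) 1 / 2) ^ 2 ≤
        μ.P (fun Z => x ∈ hit (cls k) (Lb N (cls j)) a Z) *
        μ.P (fun Z => x ∈ hit (cls k) (Lb N (cls i)) b Z) := by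
      intro x hx
      obtain ⟨c1, c2⟩ := hXs x hx
      have hxk := hX hx
      rw [hit_P hq0.le hq1 hxk (Lb_sub hC hij hjk hik N (hA ha) hxk),
        hit_P hq0.le hq1 hxk (Lb_sub hC hij.symm hik hjk N (hB hb) hxk)]
      rw [card_Lb (fun h => disjoint_left.1 (hC.disj i j hij) (hA ha) h)
        (fun h => disjoint_left.1 (hC.disj k j hjk.symm) hxk h),
        card_Lb (fun h => disjoint_left.1 (hC.disj j i hij.symm) (hB hb) h)
        (fun h => disjoint_left.1 (hC.disj k i hik.symm) hxk h)]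
      have d1 := one_sub_pow_ge hq0.le hq1 (cod N (cls j) a x).card
      have d2 := one_sub_pow_ge hq0.le hq1 (cod N (cls i) b x).card
      have e1 : min (q * s) 1 / 2 ≤ 1 - (1 - q) ^ (cod N (cls j) a x).card := by
        refine le_trans ?_ d1
        have : min (q * s) 1 ≤ min (q * (cod N (cls j) a x).card) 1 :=
          min_le_min_right _ (mul_le_mul_of_nonneg_left c1 hq0.le)
        linarith
      have e2 : min (q * s) 1 / 2 ≤ 1 - (1 - q) ^ (cod N (cls i) b x).card := by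
        refine le_trans ?_ d2
        have : min (q * s) 1 ≤ min (q * (cod N (cls i) b x).card) 1 :=
          min_le_min_right _ (mul_le_mul_of_nonneg_left c2 hq0.le)
        linarith
      rw [sq]
      exact mul_le_mul e1 e2 (by positivity) (le_trans (by positivity) e1)
    refine le_trans ?_ (sum_le_sum h2)
    rw [sum_const, nsmul_eq_mul, hs']
    have : (m : ℝ) / 2 * (min (q * s) 1 / 2) ^ 2 ≤ X.card * (min (q * s) 1 / 2) ^ 2 :=
      mul_le_mul_of_nonneg_right hXc (by positivity)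
    refine le_trans (le_of_eq ?_) this
    ring
  have hcA : (A.card : ℝ) ≤ m := by
    exact_mod_cast (card_le_card hA).trans (le_of_eq (hC.card i))
  have hcB : (B.card : ℝ) ≤ m := by
    exact_mod_cast (card_le_card hB).trans (le_of_eq (hC.card j))
  have hw := weak_count μ μ hρ hσ hs'pos hlow hcA hcB ht
  apply suc_step2 N hq0.le hr0 hqr hp1 hβ
    (fun ω => ¬ (2 / s' * (m : ℝ) ^ 2 + t ≤
      wk A B (hit (cls k) (Lb N (cls j))) (hit (cls k) (Lb N (cls i))) s' ω)) hq1
  · rw [P_not]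
    linarith
  · intro Z _ Z' _ hG
    rw [not_le] at hG
    refine ⟨fun a b => N a b ∨
      ((a ∈ cls i ∧ b ∈ cls k ∧ (Z ∩ Lb N (cls j) a b).Nonempty) ∨
       (b ∈ cls i ∧ a ∈ cls k ∧ (Z ∩ Lb N (cls j) b a).Nonempty)) ∨
      ((a ∈ cls j ∧ b ∈ cls k ∧ (Z' ∩ Lb N (cls i) a b).Nonempty) ∨
       (b ∈ cls j ∧ a ∈ cls k ∧ (Z' ∩ Lb N (cls i) b a).Nonempty)), ?_, ?_⟩
    · have l1 : ∀ b c, Clo v N Z b c → Clo v N (Z ∪ Z') b c :=
        fun b c h => h.mono (fun _ _ h => Clo.base h) subset_union_left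
      have l2 : ∀ b c, Clo v N Z' b c → Clo v N (Z ∪ Z') b c :=
        fun b c h => h.mono (fun _ _ h => Clo.base h) subset_union_right
      rintro b c (h | (⟨-, -, h⟩ | ⟨-, -, h⟩) | (⟨-, -, h⟩ | ⟨-, -, h⟩))
      · exact Clo.base h
      · exact l1 _ _ (Lb_clo h)
      · exact l1 _ _ (Clo.symm (Lb_clo h))
      · exact l2 _ _ (Lb_clo h)
      · exact l2 _ _ (Clo.symm (Lb_clo h))
    · apply h
      · intro a b h; exact Or.inl h
      · rintro a b (h | (h | h) | (h | h))
        · exact Or.inl (hsym _ _ h)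
        · exact Or.inr (Or.inl (Or.inr h))
        · exact Or.inr (Or.inl (Or.inl h))
        · exact Or.inr (Or.inr (Or.inr h))
        · exact Or.inr (Or.inr (Or.inl h))
      · refine lt_of_le_of_lt ?_ hG
        unfold wkN wk
        apply sum_le_sum
        intro ab hab
        rw [mem_product] at hab
        apply ind_mono
        intro h1
        refine lt_of_le_of_lt ?_ h1
        have : hit (cls k) (Lb N (cls j)) ab.1 Z ∩ hit (cls k) (Lb N (cls i)) ab.2 Z' ⊆
          cod (fun a b => N a b ∨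
      ((a ∈ cls i ∧ b ∈ cls k ∧ (Z ∩ Lb N (cls j) a b).Nonempty) ∨
       (b ∈ cls i ∧ a ∈ cls k ∧ (Z ∩ Lb N (cls j) b a).Nonempty)) ∨
      ((a ∈ cls j ∧ b ∈ cls k ∧ (Z' ∩ Lb N (cls i) a b).Nonempty) ∨
       (b ∈ cls j ∧ a ∈ cls k ∧ (Z' ∩ Lb N (cls i) b a).Nonempty))) (cls k) ab.1 ab.2 := by
          intro x hx
          rw [mem_inter] at hx
          unfold hit at hx
          rw [mem_filter, mem_filter] at hx
          rw [mem_cod]
          exact ⟨hx.1.1, Or.inr (Or.inl (Or.inl ⟨hA hab.1, hx.1.1, hx.1.2⟩)),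
            Or.inr (Or.inr (Or.inl ⟨hB hab.2, hx.1.1, hx.2.2⟩))⟩
        exact_mod_cast card_le_card this

/-- state of the process -/
structure St (cls : Fin 3 → Finset V) (m : ℕ) (N : V → V → Prop) (s η θ : ℝ)
    (A : Fin 3 → Finset V) : Prop where
  sub : ∀ i, A i ⊆ cls i
  big : ∀ i, (m : ℝ) * (1 - θ) ≤ (A i).card
  wkb : ∀ i j k, i ≠ j → j ≠ k → i ≠ k → wkN N (A i) (A j) (cls k) s ≤ η * (m : ℝ) ^ 2

/-- number of weak partners -/
noncomputable def row (N : V → V → Prop) (B R : Finset V) (s : ℝ) (a : V) : ℝ :=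
  ∑ b ∈ B, ind (fun b => ((cod N R a b).card : ℝ) < s) b

omit [DecidableEq V] in
theorem row_nonneg (N : V → V → Prop) (B R : Finset V) (s : ℝ) (a : V) : 0 ≤ row N B R s a :=
  sum_nonneg (fun _ _ => ind_nonneg _ _)

omit [DecidableEq V] in
theorem wkN_eq_row (N : V → V → Prop) (A B R : Finset V) (s : ℝ) :
    wkN N A B R s = ∑ a ∈ A, row N B R s a := by
  unfold wkN row
  rw [sum_product]
  apply sum_congr rfl
  intro a _
  apply sum_congr rfl
  intro b _
  exact ind_congr Iff.rfl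

/-- complement of the weak partners -/
theorem row_compl (N : V → V → Prop) (B R : Finset V) (s : ℝ) (a : V) :
    ∃ X ⊆ B, (X.card : ℝ) = B.card - row N B R s a ∧
      (∀ x ∈ X, s ≤ (cod N R a x).card) ∧ (B \ X).card = row N B R s a := by
  classical
  refine ⟨B.filter (fun x => ¬ ((cod N R a x).card : ℝ) < s), filter_subset _ _, ?_, ?_, ?_⟩
  · have h1 : row N B R s a = (B.filter (fun x => ((cod N R a x).card : ℝ) < s)).card := by
      unfold row
      rw [card_filter]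
      push_cast
      apply sum_congr rfl
      intro x _
      by_cases h : ((cod N R a x).card : ℝ) < s
      · rw [ind_pos (A := fun b => ((cod N R a b).card : ℝ) < s) h, if_pos h]
      · rw [ind_neg (A := fun b => ((cod N R a b).card : ℝ) < s) h, if_neg h]
    rw [h1]
    have h2 := card_filter_add_card_filter_not (s := B) (fun x => ((cod N R a x).card : ℝ) < s)
    have h3 : ((B.filter (fun x => ((cod N R a x).card : ℝ) < s)).card : ℝ) +
      (B.filter (fun x => ¬ ((cod N R a x).card : ℝ) < s)).card = B.card := by exact_mod_cast h2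
    linarith
  · intro x hx
    rw [mem_filter, not_lt] at hx
    exact hx.2
  · have h1 : row N B R s a = (B.filter (fun x => ((cod N R a x).card : ℝ) < s)).card := by
      unfold row
      rw [card_filter]
      push_cast
      apply sum_congr rfl
      intro x _
      by_cases h : ((cod N R a x).card : ℝ) < s
      · rw [ind_pos (A := fun b => ((cod N R a b).card : ℝ) < s) h, if_pos h]
      · rw [ind_neg (A := fun b => ((cod N R a b).card : ℝ) < s) h, if_neg h]
    rw [h1]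
    congr 2
    ext x
    rw [mem_sdiff, mem_filter, mem_filter]
    tauto

/-- few vertices have many weak partners -/
theorem few_bad {N : V → V → Prop} {A B R : Finset V} {s η : ℝ} {m : ℕ} (hη : 0 < η)
    (hm : 0 < m) (h : wkN N A B R s ≤ η * (m : ℝ) ^ 2) :
    ∃ A' ⊆ A, (A.card : ℝ) - Real.sqrt η * m ≤ A'.card ∧
      ∀ a ∈ A', row N B R s a ≤ Real.sqrt η * m := by
  classical
  refine ⟨A.filter (fun a => ¬ (Real.sqrt η * m < row N B R s a)), filter_subset _ _, ?_, ?_⟩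
  · have h2 := card_filter_add_card_filter_not (s := A)
      (fun a => Real.sqrt η * m < row N B R s a)
    have h3 : ((A.filter (fun a => Real.sqrt η * m < row N B R s a)).card : ℝ) +
      (A.filter (fun a => ¬ (Real.sqrt η * m < row N B R s a))).card = A.card := by
      exact_mod_cast h2
    have hsq : 0 < Real.sqrt η := Real.sqrt_pos.2 hη
    have hm' : (0 : ℝ) < m := by exact_mod_cast hm
    have h4 : ((A.filter (fun a => Real.sqrt η * m < row N B R s a)).card : ℝ) *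
        (Real.sqrt η * m) ≤ η * (m : ℝ) ^ 2 := by
      refine le_trans ?_ h
      rw [wkN_eq_row]
      have h5 : ∑ a ∈ A.filter (fun a => Real.sqrt η * m < row N B R s a), Real.sqrt η * m ≤
          ∑ a ∈ A.filter (fun a => Real.sqrt η * m < row N B R s a), row N B R s a := by
        apply sum_le_sum
        intro a ha
        rw [mem_filter] at ha
        exact ha.2.le
      rw [sum_const, nsmul_eq_mul] at h5
      refine h5.trans ?_
      exact sum_le_sum_of_subset_of_nonneg (filter_subset _ _) (fun a _ _ => row_nonneg _ _ _ _ _)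
    have h6 : ((A.filter (fun a => Real.sqrt η * m < row N B R s a)).card : ℝ) ≤
        Real.sqrt η * m := by
      have h7 : η * (m : ℝ) ^ 2 = (Real.sqrt η * m) * (Real.sqrt η * m) := by
        have := Real.mul_self_sqrt hη.le
        calc η * (m : ℝ) ^ 2 = (Real.sqrt η * Real.sqrt η) * (m : ℝ) ^ 2 := by rw [this]
          _ = _ := by ring
      rw [h7] at h4
      exact le_of_mul_le_mul_right h4 (by positivity)
    linarith
  · intro a ha
    rw [mem_filter, not_lt] at ha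
    exact ha.2

theorem third (i j : Fin 3) (h : i ≠ j) : ∃ k, j ≠ k ∧ i ≠ k ∧ ∀ l, l ≠ i → l ≠ j → l = k := by
  revert i j; decide

omit [DecidableEq V] in
theorem row_anti {N : V → V → Prop} {B B' R : Finset V} {s : ℝ} {a : V} (h : B' ⊆ B) :
    row N B' R s a ≤ row N B R s a :=
  sum_le_sum_of_subset_of_nonneg h (fun _ _ _ => ind_nonneg _ _)

/-- pruning -/
theorem prune {cls : Fin 3 → Finset V} {m : ℕ} {N : V → V → Prop} {s η θ : ℝ}
    {A : Fin 3 → Finset V} (h : St cls m N s η θ A) (hη : 0 < η) (hm : 0 < m) :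
    ∃ A' : Fin 3 → Finset V, (∀ i, A' i ⊆ A i) ∧
      (∀ i, (m : ℝ) * (1 - (θ + 2 * Real.sqrt η)) ≤ (A' i).card) ∧
      ∀ i j k, i ≠ j → j ≠ k → i ≠ k → ∀ a ∈ A' i, row N (A j) (cls k) s a ≤ Real.sqrt η * m := by
  have main : ∀ i : Fin 3, ∃ A' ⊆ A i, (m : ℝ) * (1 - (θ + 2 * Real.sqrt η)) ≤ A'.card ∧
      ∀ j k, i ≠ j → j ≠ k → i ≠ k → ∀ a ∈ A', row N (A j) (cls k) s a ≤ Real.sqrt η * m := by
    intro i
    obtain ⟨j, hij⟩ : ∃ j : Fin 3, i ≠ j := ⟨i + 1, by revert i; decide⟩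
    obtain ⟨k, hjk, hik, huniq⟩ := third i j hij
    obtain ⟨A1, hA1, c1, r1⟩ := few_bad hη hm (h.wkb i j k hij hjk hik)
    obtain ⟨A2, hA2, c2, r2⟩ := few_bad hη hm (h.wkb i k j hik hjk.symm hij)
    refine ⟨A1 ∩ A2, inter_subset_left.trans hA1, ?_, ?_⟩
    · have h1 := card_union_add_card_inter A1 A2
      have h2 : (A1 ∪ A2).card ≤ (A i).card := card_le_card (union_subset hA1 hA2)
      have h3 : (A1.card : ℝ) + A2.card ≤ (A i).card + (A1 ∩ A2).card := by
        have : A1.card + A2.card ≤ (A i).card + (A1 ∩ A2).card := by omega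
        exact_mod_cast this
      have h4 := h.big i
      linarith
    · intro j' k' hij' hjk' hik' a ha
      rw [mem_inter] at ha
      by_cases hj : j' = j
      · subst hj
        have : k' = k := huniq k' hik'.symm hjk'.symm
        rw [this]; exact r1 a ha.1
      · have e1 : j' = k := huniq j' hij'.symm hj
        subst e1
        have e2 : k' = j := by
          by_contra hne
          exact hjk' (huniq k' hik'.symm hne).symm
        rw [e2]; exact r2 a ha.2
  choose A' h1 h2 h3 using main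
  exact ⟨A', h1, h2, fun i j k hij hjk hik a ha => h3 i j k hij hjk hik a ha⟩

/-- doubly strong third vertices -/
theorem strong_third {cls : Fin 3 → Finset V} {m : ℕ} {N : V → V → Prop} {s η θ : ℝ}
    {A A' : Fin 3 → Finset V} (h : St cls m N s η θ A)
    (hθ : θ + 2 * Real.sqrt η ≤ 1 / 2)
    (hrow : ∀ i j k, i ≠ j → j ≠ k → i ≠ k → ∀ a ∈ A' i,
      row N (A j) (cls k) s a ≤ Real.sqrt η * m)
    {i j k : Fin 3} (hij : i ≠ j) (hjk : j ≠ k) (hik : i ≠ k) {a b : V} (ha : a ∈ A' i)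
    (hb : b ∈ A' j) : ∃ X ⊆ cls k, (m : ℝ) / 2 ≤ X.card ∧
      ∀ x ∈ X, s ≤ (cod N (cls j) a x).card ∧ s ≤ (cod N (cls i) b x).card := by
  obtain ⟨X1, hX1, c1, s1, d1⟩ := row_compl N (A k) (cls j) s a
  obtain ⟨X2, hX2, c2, s2, d2⟩ := row_compl N (A k) (cls i) s b
  have r1 := hrow i k j hik hjk.symm hij a ha
  have r2 := hrow j k i hjk hik.symm hij.symm b hb
  refine ⟨X1 ∩ X2, (inter_subset_left.trans hX1).trans (h.sub k), ?_, ?_⟩
  · have h1 := card_union_add_card_inter X1 X2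
    have h2 : (X1 ∪ X2).card ≤ (A k).card := card_le_card (union_subset hX1 hX2)
    have h3 : (X1.card : ℝ) + X2.card ≤ (A k).card + (X1 ∩ X2).card := by
      have : X1.card + X2.card ≤ (A k).card + (X1 ∩ X2).card := by omega
      exact_mod_cast this
    have h4 := h.big k
    have h5 : (m : ℝ) * (θ + 2 * Real.sqrt η) ≤ m * (1 / 2) :=
      mul_le_mul_of_nonneg_left hθ (Nat.cast_nonneg m)
    nlinarith
  · intro x hx
    rw [mem_inter] at hx
    exact ⟨s1 x hx.1, s2 x hx.2⟩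

theorem round {U : Finset V} {v : V} {m : ℕ} {cls : Fin 3 → Finset V} (hC : Cl U v m cls)
    (hm : 0 < m) (N : V → V → Prop) (hsym : ∀ a b, N a b → N b a)
    {p q r β s η θ τ : ℝ} {A : Fin 3 → Finset V} (hSt : St cls m N s η θ A) (hη : 0 < η)
    (hθ : θ + 2 * Real.sqrt η ≤ 1 / 2)
    (hq0 : 0 < q) (hr0 : 0 ≤ r) (hqr : 6 * q + r ≤ p) (hp1 : p ≤ 1) (hβ : β ≤ 1) (hs : 0 < s)
    (hτ : 0 < τ)
    (h : ∀ (N' : V → V → Prop) (A' : Fin 3 → Finset V), (∀ a b, N' a b → N' b a) →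
      St cls m N' (m * (min (q * s) 1) ^ 2 / 16)
        (2 / (m * (min (q * s) 1) ^ 2 / 16) + τ) (θ + 2 * Real.sqrt η) A' →
      β ≤ Suc U v N' r) :
    β - 6 / (τ ^ 2 * m) ≤ Suc U v N p := by
  have hm' : (0 : ℝ) < m := by exact_mod_cast hm
  obtain ⟨A', hA', hbig, hrow⟩ := prune hSt hη hm
  obtain ⟨s', hs'⟩ : ∃ s', s' = m * (min (q * s) 1) ^ 2 / 16 := ⟨_, rfl⟩
  rw [← hs'] at h
  have hδ : 2 * (m : ℝ) ^ 3 / (τ * (m : ℝ) ^ 2) ^ 2 = 2 / (τ ^ 2 * m) := by
    field_simp
  have h6 : 6 / (τ ^ 2 * (m : ℝ)) = 2 / (τ ^ 2 * m) + (2 / (τ ^ 2 * m) + 2 / (τ ^ 2 * m)) := by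
    ring
  have hd0 : 0 ≤ 2 / (τ ^ 2 * (m : ℝ)) := by positivity
  have hgood : ∀ (N' : V → V → Prop), (∀ a b, N a b → N' a b) → ∀ i j k : Fin 3, i ≠ j → j ≠ k →
      i ≠ k → ∀ a ∈ A' i, ∀ b ∈ A' j, ∃ X ⊆ cls k, (m : ℝ) / 2 ≤ X.card ∧
      ∀ x ∈ X, s ≤ (cod N' (cls j) a x).card ∧ s ≤ (cod N' (cls i) b x).card := by
    intro N' hN' i j k hij hjk hik a ha b hb
    obtain ⟨X, hX, hXc, hXs⟩ := strong_third hSt hθ hrow hij hjk hik ha hb
    refine ⟨X, hX, hXc, fun x hx => ?_⟩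
    obtain ⟨u1, u2⟩ := hXs x hx
    refine ⟨u1.trans ?_, u2.trans ?_⟩
    · exact_mod_cast card_le_card (cod_mono hN' _ _ _)
    · exact_mod_cast card_le_card (cod_mono hN' _ _ _)
  -- three half rounds
  have key : β - 2 / (τ ^ 2 * m) - 2 / (τ ^ 2 * m) - 2 / (τ ^ 2 * m) ≤ Suc U v N p := by
    rw [← hδ]
    apply half_round hC hm N hsym (i := 0) (j := 1) (k := 2) (by decide) (by decide) (by decide)
      ((hA' 0).trans (hSt.sub 0)) ((hA' 1).trans (hSt.sub 1)) hq0
      (show (0 : ℝ) ≤ 4 * q + r by linarith)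
      (by linarith) hp1 (by linarith) hs (show 0 < τ * (m : ℝ) ^ 2 by positivity)
      (hgood N (fun _ _ h => h) 0 1 2 (by decide) (by decide) (by decide))
    intro N1 hN1 hs1 w1
    rw [← hs'] at w1
    apply half_round hC hm N1 hs1 (i := 0) (j := 2) (k := 1) (by decide) (by decide) (by decide)
      ((hA' 0).trans (hSt.sub 0)) ((hA' 2).trans (hSt.sub 2)) hq0
      (show (0 : ℝ) ≤ 2 * q + r by linarith)
      (by linarith) (by linarith) (by linarith) hs (show 0 < τ * (m : ℝ) ^ 2 by positivity)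
      (hgood N1 hN1 0 2 1 (by decide) (by decide) (by decide))
    intro N2 hN2 hs2 w2
    rw [← hs'] at w2
    apply half_round hC hm N2 hs2 (i := 1) (j := 2) (k := 0) (by decide) (by decide) (by decide)
      ((hA' 1).trans (hSt.sub 1)) ((hA' 2).trans (hSt.sub 2)) hq0 hr0
      (by linarith) (by linarith) hβ hs (show 0 < τ * (m : ℝ) ^ 2 by positivity)
      (hgood N2 (fun a b h => hN2 _ _ (hN1 _ _ h)) 1 2 0 (by decide) (by decide) (by decide))
    intro N3 hN3 hs3 w3
    rw [← hs'] at w3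
    apply h N3 A' hs3
    have W1 : wkN N3 (A' 0) (A' 1) (cls 2) s' ≤ (2 / s' + τ) * (m : ℝ) ^ 2 := by
      refine (wkN_mono (fun a b h => hN3 _ _ (hN2 _ _ h))).trans (w1.le.trans (le_of_eq ?_))
      ring
    have W2 : wkN N3 (A' 0) (A' 2) (cls 1) s' ≤ (2 / s' + τ) * (m : ℝ) ^ 2 := by
      refine (wkN_mono hN3).trans (w2.le.trans (le_of_eq ?_))
      ring
    have W3 : wkN N3 (A' 1) (A' 2) (cls 0) s' ≤ (2 / s' + τ) * (m : ℝ) ^ 2 := by
      refine w3.le.trans (le_of_eq ?_)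
      ring
    refine ⟨fun i => (hA' i).trans (hSt.sub i), hbig, ?_⟩
    intro i j k hij hjk hik
    fin_cases i <;> fin_cases j <;> fin_cases k <;>
      first
      | exact absurd rfl hij
      | exact absurd rfl hjk
      | exact absurd rfl hik
      | exact W1
      | exact W2
      | exact W3
      | (rw [wkN_swap]; exact W1)
      | (rw [wkN_swap]; exact W2)
      | (rw [wkN_swap]; exact W3)
  linarith

end Pool.Agent.H38.SC
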