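import Pool.Agent.H38.SC.Geom
import Pool.Agent.H38.SC.Fill

/-!
# Fills and edge paths
-/

set_option autoImplicit false

namespace Pool.Agent.H38.SC

variable {S : Set (Finset ℕ)} (hK : ∀ a b : Vt S, ({a.1, b.1} : Finset ℕ) ∈ S)

/-- class of a polygonal path -/
noncomputable def pq : (p : Vt S) → List (Vt S) → (q : Vt S) →
    Path.Homotopic.Quotient (vp p) (vp q)
  | p, [], q => ed hK p q
  | p, x :: M, q => (ed hK p x).trans (pq x M q)

theorem pq_append (p : Vt S) (M1 : List (Vt S)) (y : Vt S) (M2 : List (Vt S)) (q : Vt S) :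
    pq hK p (M1 ++ y :: M2) q = (pq hK p M1 y).trans (pq hK y M2 q) := by
  induction M1 generalizing p with
  | nil => rfl
  | cons x M1 ih =>
    rw [List.cons_append]
    change (ed hK p x).trans (pq hK x (M1 ++ y :: M2) q) =
      ((ed hK p x).trans (pq hK x M1 y)).trans (pq hK y M2 q)
    rw [ih, Path.Homotopic.Quotient.trans_assoc]

theorem Fill.sound {f : ℕ} {p : ℕ} {M : List ℕ} {q : ℕ} {W : Finset ℕ} {D : Finset (Finset ℕ)}
    (h : Fill f p M q W D) (e : ℕ → Vt S)
    (hD : ∀ F ∈ D, F.image (fun i => (e i).1) ∈ S) :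
    pq hK (e p) (M.map e) (e q) = ed hK (e p) (e q) := by
  induction h with
  | edge p q h => rfl
  | @new f p M q x W D hM h ih =>
    have h1 := ih (fun F hF => hD F (Finset.mem_insert_of_mem hF))
    have h2 := hD _ (Finset.mem_insert_self _ _)
    rw [Finset.image_insert, Finset.image_insert, Finset.image_singleton] at h2
    rw [List.map_cons] at h1
    change (ed hK (e x) (e p)).trans (pq hK (e p) (M.map e) (e q)) = ed hK (e x) (e q) at h1
    have h3 := congrArg (fun r => (ed hK (e p) (e x)).trans r) h1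
    rw [← Path.Homotopic.Quotient.trans_assoc, ed_back, Path.Homotopic.Quotient.refl_trans,
      ed_tri hK h2] at h3
    exact h3
  | @split f p M1 y M2 q W1 W2 D1 D2 hf h1 h2 hW ih1 ih2 =>
    have g1 := ih1 (fun F hF => hD F (Finset.mem_insert_of_mem (Finset.mem_union_left _ hF)))
    have g2 := ih2 (fun F hF => hD F (Finset.mem_insert_of_mem (Finset.mem_union_right _ hF)))
    have g3 := hD _ (Finset.mem_insert_self _ _)
    rw [Finset.image_insert, Finset.image_insert, Finset.image_singleton] at g3
    rw [List.map_append, List.map_cons, pq_append, g1, g2, ed_tri hK g3]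

end Pool.Agent.H38.SC
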