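import Pool.Agent.H38.SC.Fill

/-!
# Hereditary sparsity of triangulated disks
-/

set_option autoImplicit false

namespace Pool.Agent.H38.SC

variable {V : Type*} [DecidableEq V]

omit [DecidableEq V] in
theorem ld1 {l1 l2 A B C : List V} {y u w : V} (hn : (l1 ++ y :: l2).Nodup)
    (h : l1 ++ y :: l2 = A ++ u :: (B ++ w :: C)) (hw : w ∈ l1 ++ [y]) :
    ∃ C', l1 ++ [y] = A ++ u :: (B ++ w :: C') ∧ ∀ z ∈ C', z ∈ C := by
  have h' : (l1 ++ [y]) ++ l2 = (A ++ u :: (B ++ [w])) ++ C := by simpa using h
  rcases List.append_eq_append_iff.1 h' with ⟨a, ha1, ha2⟩ | ⟨a, ha1, ha2⟩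
  · -- A ++ u :: B ++ [w] = (l1 ++ [y]) ++ a, l2 = a ++ C
    rcases List.eq_nil_or_concat a with rfl | ⟨a', b, rfl⟩
    · refine ⟨[], ?_, by simp⟩
      simpa using ha1.symm
    · exfalso
      have e : (A ++ u :: B) ++ [w] = ((l1 ++ [y]) ++ a') ++ [b] := by simpa using ha1
      have e2 := List.append_inj_right' e (by simp)
      have hwb : w = b := by simpa using e2
      have hwl2 : w ∈ l2 := by rw [ha2, hwb]; simp
      have hn' : ((l1 ++ [y]) ++ l2).Nodup := by simpa using hn
      rw [List.nodup_append] at hn'
      exact hn'.2.2 w hw w hwl2 rfl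
  · -- l1 ++ [y] = (A ++ ..) ++ a, C = a ++ l2
    refine ⟨a, ?_, ?_⟩
    · simpa using ha1
    · intro z hz; rw [ha2]; simp [hz]

omit [DecidableEq V] in
theorem ld2 {l1 l2 A B C : List V} {y u w : V} (hn : (l1 ++ y :: l2).Nodup)
    (h : l1 ++ y :: l2 = A ++ u :: (B ++ w :: C)) (hu : u ∈ y :: l2) :
    ∃ A', y :: l2 = A' ++ u :: (B ++ w :: C) ∧ ∀ z ∈ A', z ∈ A := by
  rcases List.append_eq_append_iff.1 h with ⟨a, ha1, ha2⟩ | ⟨a, ha1, ha2⟩
  · -- A = l1 ++ a, y :: l2 = a ++ ...
    exact ⟨a, ha2, fun z hz => by rw [ha1]; simp [hz]⟩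
  · -- l1 = A ++ a
    cases a with
    | nil => exact ⟨[], by simpa using ha2.symm, by simp⟩
    | cons b a' =>
      exfalso
      rw [List.cons_append, List.cons.injEq] at ha2
      have : u ∈ l1 := by rw [ha1, ha2.1]; simp
      rw [List.nodup_append] at hn
      exact hn.2.2 u this u hu rfl

omit [DecidableEq V] in
theorem ld3 {l1 l2 A B C : List V} {y u w : V}
    (h : l1 ++ y :: l2 = A ++ u :: (B ++ w :: C)) (hy : y ∉ B) :
    w ∈ l1 ++ [y] ∨ u ∈ y :: l2 := by
  rcases List.append_eq_append_iff.1 h with ⟨a, ha1, ha2⟩ | ⟨a, ha1, ha2⟩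
  · -- A = l1 ++ a, y :: l2 = a ++ u :: ...
    right; rw [ha2]; simp
  · -- l1 = A ++ a, u :: (B ++ w :: C) = a ++ y :: l2
    cases a with
    | nil =>
      right
      rw [List.nil_append, List.cons.injEq] at ha2
      rw [ha2.1]; simp
    | cons b a' =>
      left
      rw [List.cons_append, List.cons.injEq] at ha2
      rcases List.append_eq_append_iff.1 ha2.2 with ⟨c, hc1, hc2⟩ | ⟨c, hc1, hc2⟩
      · -- a' = B ++ c , w :: C = c ++ y :: l2
        cases c with
        | nil =>
          rw [List.nil_append, List.cons.injEq] at hc2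
          rw [hc2.1]; simp
        | cons d c' =>
          rw [List.cons_append, List.cons.injEq] at hc2
          rw [ha1, hc1, hc2.1]; simp
      · -- B = a' ++ c, y :: l2 = c ++ w :: C
        cases c with
        | nil =>
          rw [List.nil_append, List.cons.injEq] at hc2
          rw [hc2.1]; simp
        | cons d c' =>
          rw [List.cons_append, List.cons.injEq] at hc2
          exfalso; apply hy; rw [hc1, hc2.1]; simp

theorem card_tri_union {a b c : V} (hab : a ≠ b) (hac : a ≠ c) (hbc : b ≠ c) (U : Finset V) :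
    (({a, b, c} : Finset V) ∪ U).card = U.card + (if a ∈ U then 0 else 1)
      + (if b ∈ U then 0 else 1) + (if c ∈ U then 0 else 1) := by
  have e : ({a, b, c} : Finset V) ∪ U = insert a (insert b (insert c U)) := by
    ext z; simp only [Finset.mem_union, Finset.mem_insert, Finset.mem_singleton]; tauto
  rw [e, Finset.card_insert_eq_ite, Finset.card_insert_eq_ite, Finset.card_insert_eq_ite]
  simp only [Finset.mem_insert, hab, hac, hbc, false_or]
  split_ifs <;> omega

theorem card_tri_inter {a b c : V} (hab : a ≠ b) (hac : a ≠ c) (hbc : b ≠ c) (U L : Finset V)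
    (ha : a ∈ L) (hb : b ∈ L) (hc : c ∈ L) :
    ((({a, b, c} : Finset V) ∪ U) ∩ L).card = (U ∩ L).card + (if a ∈ U then 0 else 1)
      + (if b ∈ U then 0 else 1) + (if c ∈ U then 0 else 1) := by
  have e : (({a, b, c} : Finset V) ∪ U) ∩ L = {a, b, c} ∪ (U ∩ L) := by
    ext z; simp only [Finset.mem_union, Finset.mem_inter, Finset.mem_insert,
      Finset.mem_singleton]
    constructor
    · rintro ⟨h | h, h2⟩
      · exact Or.inl h
      · exact Or.inr ⟨h, h2⟩
    · rintro (h | h)
      · exact ⟨Or.inl h, by rcases h with rfl | rfl | rfl <;> assumption⟩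
      · exact ⟨Or.inr h.1, h.2⟩
  rw [e, card_tri_union hab hac hbc]
  simp [ha, hb, hc]

theorem card_tri_inter2 {a b c : V} (hac : a ≠ c) (U L : Finset V)
    (ha : a ∈ L) (hb : b ∉ L) (hc : c ∈ L) :
    ((({a, b, c} : Finset V) ∪ U) ∩ L).card = (U ∩ L).card + (if a ∈ U then 0 else 1)
      + (if c ∈ U then 0 else 1) := by
  have e : (({a, b, c} : Finset V) ∪ U) ∩ L = insert a (insert c (U ∩ L)) := by
    ext z; simp only [Finset.mem_union, Finset.mem_inter, Finset.mem_insert,
      Finset.mem_singleton]
    constructor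
    · rintro ⟨(rfl | rfl | rfl) | h, h2⟩
      · exact Or.inl rfl
      · exact absurd h2 hb
      · exact Or.inr (Or.inl rfl)
      · exact Or.inr (Or.inr ⟨h, h2⟩)
    · rintro (rfl | rfl | h)
      · exact ⟨Or.inl (Or.inl rfl), ha⟩
      · exact ⟨Or.inl (Or.inr (Or.inr rfl)), hc⟩
      · exact ⟨Or.inr h.1, h.2⟩
  rw [e, Finset.card_insert_eq_ite, Finset.card_insert_eq_ite]
  simp only [Finset.mem_insert, Finset.mem_inter, hac, ha, hc, false_or, and_true]
  split_ifs <;> omega

/-- the sparsity properties -/
structure Spars (D : Finset (Finset V)) (L : List V) : Prop where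
  h5 : ∀ S ⊆ D, S.Nonempty → S.card + 5 ≤ 2 * (vs S).card
  h2 : ∀ S ⊆ D, S.Nonempty → S.card + 2 + (vs S ∩ L.toFinset).card ≤ 2 * (vs S).card
  h3 : ∀ S ⊆ D, S.Nonempty → ∀ (A : List V) (u : V) (B : List V) (w : V) (C : List V),
    L = A ++ u :: (B ++ w :: C) → u ∈ vs S → w ∈ vs S → (∀ F ∈ S, ¬ (u ∈ F ∧ w ∈ F)) →
    (∀ y ∈ B, y ∉ vs S) → S.card + 3 + (vs S ∩ L.toFinset).card ≤ 2 * (vs S).card
  h3' : ∀ S ⊆ D, S.Nonempty → ∀ (A : List V) (u : V) (B : List V) (w : V) (C : List V),
    L = A ++ u :: (B ++ w :: C) → u ∈ vs S → w ∈ vs S → (∀ F ∈ S, ¬ (u ∈ F ∧ w ∈ F)) →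
    (∀ y ∈ A, y ∉ vs S) → (∀ y ∈ C, y ∉ vs S) →
    S.card + 3 + (vs S ∩ L.toFinset).card ≤ 2 * (vs S).card
  h4 : ∀ S ⊆ D, S ≠ D → L.toFinset ⊆ vs S → S.card + 3 + L.length ≤ 2 * (vs S).card

theorem Spars.empty (L : List V) : Spars (∅ : Finset (Finset V)) L := by
  constructor
  · intro S hS hne; rw [Finset.subset_empty.1 hS] at hne; simp at hne
  · intro S hS hne; rw [Finset.subset_empty.1 hS] at hne; simp at hne
  · intro S hS hne; rw [Finset.subset_empty.1 hS] at hne; simp at hne
  · intro S hS hne; rw [Finset.subset_empty.1 hS] at hne; simp at hne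
  · intro S hS hne; exact absurd (Finset.subset_empty.1 hS) hne

omit [DecidableEq V] in
/-- outer decomposition: if `p` and `q` are not avoided then `A = C = []` -/
theorem outer_eq {p q u w : V} {M A B C : List V} {U : Finset V}
    (h : pg p M q = A ++ u :: (B ++ w :: C)) (hp : p ∈ U) (hq : q ∈ U)
    (hA : ∀ y ∈ A, y ∉ U) (hC : ∀ y ∈ C, y ∉ U) : u = p ∧ w = q := by
  constructor
  · cases A with
    | nil => simp only [pg, List.nil_append, List.cons.injEq] at h; exact h.1.symm
    | cons a A =>
      simp only [pg, List.cons_append, List.cons.injEq] at h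
      exact absurd hp (h.1 ▸ hA a (by simp))
  · rcases List.eq_nil_or_concat C with rfl | ⟨C', c, rfl⟩
    · have e : (p :: M) ++ [q] = (A ++ u :: B) ++ [w] := by simpa [pg] using h
      have e2 := List.append_inj_right' e (by simp)
      simpa using e2.symm
    · have e : (p :: M) ++ [q] = (A ++ u :: (B ++ w :: C')) ++ [c] := by simpa [pg] using h
      have e2 := List.append_inj_right' e (by simp)
      have : q = c := by simpa using e2
      exact absurd hq (this ▸ hC c (by simp))

theorem Spars.new {f : ℕ} {p : V} {M : List V} {q x : V} {W : Finset V} {D : Finset (Finset V)}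
    (hM : M ≠ []) (h : Fill (f + 1) x (p :: M) q W D) (ih : Spars D (pg x (p :: M) q)) :
    Spars (insert {p, x, q} D) (pg p M q) := by
  have hn : (pg x (p :: M) q).Nodup := h.nodup
  have hn0 : (pg p M q).Nodup := (List.nodup_cons.1 hn).2
  have hxL : x ∉ (pg p M q).toFinset := by
    rw [List.mem_toFinset]; exact (List.nodup_cons.1 hn).1
  have hpL : p ∈ (pg p M q).toFinset := by simp
  have hqL : q ∈ (pg p M q).toFinset := by simp
  have hL' : (pg x (p :: M) q).toFinset = insert x (pg p M q).toFinset := by
    simp [pg]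
  have hpx : p ≠ x := fun e => hxL (e ▸ hpL)
  have hxq : x ≠ q := fun e => hxL (e ▸ hqL)
  have hpq : p ≠ q := by rintro rfl; simp [pg] at hn0
  have hcard : (pg p M q).toFinset.card = M.length + 2 := by
    rw [List.toFinset_card_of_nodup hn0, length_pg]
  have hxp : x ≠ p := hpx.symm
  have hroot := h.root_new
  set F : Finset V := {p, x, q} with hF
  have hFD : F ∉ D := fun hFD => hroot F hFD (by simp [hF])
  have hdec : pg x (p :: M) q = [x] ++ p :: (M ++ q :: []) := by simp [pg]
  set L := (pg p M q).toFinset with hLdef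
  -- intersection number with the larger polygon
  have num1 : ∀ U : Finset V, (U ∩ (pg x (p :: M) q).toFinset).card
      = (U ∩ L).card + (if x ∈ U then 1 else 0) := by
    intro U
    rw [hL']
    by_cases hx : x ∈ U
    · rw [Finset.inter_insert_of_mem hx, Finset.card_insert_of_notMem, if_pos hx]
      intro hx2; exact hxL (Finset.mem_inter.1 hx2).2
    · rw [Finset.inter_insert_of_notMem hx, if_neg hx, add_zero]
  have num2 : ∀ U : Finset V, (F ∪ U).card = U.card + (if p ∈ U then 0 else 1)
      + (if x ∈ U then 0 else 1) + (if q ∈ U then 0 else 1) :=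
    fun U => card_tri_union hpx hpq hxq U
  have num3 : ∀ U : Finset V, ((F ∪ U) ∩ L).card = (U ∩ L).card + (if p ∈ U then 0 else 1)
      + (if q ∈ U then 0 else 1) :=
    fun U => card_tri_inter2 hpq U L hpL hxL hqL
  have pF : p ∈ F := by simp [hF]
  have qF : q ∈ F := by simp [hF]
  have xF : x ∈ F := by simp [hF]
  -- case split
  have key : ∀ S ⊆ insert F D, (F ∉ S ∧ S ⊆ D) ∨
      ∃ S' ⊆ D, S = insert F S' ∧ F ∉ S' ∧ S.card = S'.card + 1 ∧ vs S = F ∪ vs S' := by
    intro S hS
    by_cases hFS : F ∈ S
    · right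
      refine ⟨S.erase F, ?_, (Finset.insert_erase hFS).symm, Finset.notMem_erase F S, ?_, ?_⟩
      · intro G hG
        rw [Finset.mem_erase] at hG
        exact (Finset.mem_insert.1 (hS hG.2)).resolve_left hG.1
      · rw [Finset.card_erase_of_mem hFS]
        have := Finset.card_pos.2 ⟨F, hFS⟩
        omega
      · conv_lhs => rw [← Finset.insert_erase hFS]
        rw [vs_insert]
    · left
      refine ⟨hFS, fun G hG => (Finset.mem_insert.1 (hS hG)).resolve_left ?_⟩
      rintro rfl; exact hFS hG
  -- the strengthened bound when `F ∈ S` and something is new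
  have strong : ∀ S' ⊆ D, S'.Nonempty → ¬ (p ∈ vs S' ∧ x ∈ vs S' ∧ q ∈ vs S') →
      S'.card + 1 + 3 + ((F ∪ vs S') ∩ L).card ≤ 2 * (F ∪ vs S').card := by
    intro S' hS' hne ht
    have a := ih.h2 S' hS' hne
    rw [num1] at a
    rw [num2, num3]
    by_cases h1 : p ∈ vs S' <;> by_cases h2 : x ∈ vs S' <;> by_cases h3 : q ∈ vs S' <;>
      simp only [h1, h2, h3, if_true, if_false] at a ⊢ <;> first | omega | (exfalso; tauto)
  constructor
  · -- h5
    intro S hS hne
    rcases key S hS with ⟨-, hSD⟩ | ⟨S', hS', rfl, hFS', hc, hv⟩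
    · exact ih.h5 S hSD hne
    · rw [hc, hv]
      by_cases hne' : S'.Nonempty
      · by_cases ht : p ∈ vs S' ∧ x ∈ vs S' ∧ q ∈ vs S'
        · have a := ih.h2 S' hS' hne'
          rw [num1] at a
          have hsub : {p, q} ⊆ vs S' ∩ L := by
            intro z hz
            simp only [Finset.mem_insert, Finset.mem_singleton] at hz
            rcases hz with rfl | rfl
            · exact Finset.mem_inter.2 ⟨ht.1, hpL⟩
            · exact Finset.mem_inter.2 ⟨ht.2.2, hqL⟩
          have hc2 := Finset.card_le_card hsub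
          rw [Finset.card_pair hpq] at hc2
          rw [num2]
          simp only [ht.1, ht.2.1, ht.2.2, if_true] at a ⊢
          by_cases h3 : 3 ≤ (vs S' ∩ L).card
          · omega
          · have heq : {p, q} = vs S' ∩ L :=
              Finset.eq_of_subset_of_card_le hsub (by rw [Finset.card_pair hpq]; omega)
            have b := ih.h3 S' hS' hne' [x] p M q [] hdec ht.1 ht.2.2
              (fun G hG => hroot G (hS' hG)) (by
                intro y hy hy2
                have hyL : y ∈ vs S' ∩ L := Finset.mem_inter.2 ⟨hy2, by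
                  rw [hLdef, List.mem_toFinset]; simp [hy]⟩
                rw [← heq] at hyL
                simp only [Finset.mem_insert, Finset.mem_singleton] at hyL
                rcases hyL with rfl | rfl
                · simp [pg, hy] at hn0
                · rw [pg, List.nodup_cons, List.nodup_append] at hn0
                  exact hn0.2.2.2 y hy y (by simp) rfl)
            rw [num1] at b
            simp only [ht.2.1, if_true] at b
            omega
        · have a := ih.h5 S' hS' hne'
          rw [num2]
          by_cases h1 : p ∈ vs S' <;> by_cases h2 : x ∈ vs S' <;> by_cases h3 : q ∈ vs S' <;>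
            simp only [h1, h2, h3, if_true, if_false] <;> first | omega | (exfalso; tauto)
      · rw [Finset.not_nonempty_iff_eq_empty] at hne'
        subst hne'
        rw [num2]; simp
  · -- h2
    intro S hS hne
    rw [← hLdef]
    rcases key S hS with ⟨-, hSD⟩ | ⟨S', hS', rfl, hFS', hc, hv⟩
    · have a := ih.h2 S hSD hne
      rw [num1] at a
      omega
    · rw [hc, hv]
      by_cases hne' : S'.Nonempty
      · have a := ih.h2 S' hS' hne'
        rw [num1] at a
        rw [num2, num3]
        by_cases h1 : p ∈ vs S' <;> by_cases h2 : x ∈ vs S' <;> by_cases h3 : q ∈ vs S' <;>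
          simp only [h1, h2, h3, if_true, if_false] at a ⊢ <;> omega
      · rw [Finset.not_nonempty_iff_eq_empty] at hne'
        subst hne'
        rw [num2, num3]; simp
  · -- h3
    intro S hS hne A u B w C hL hu hw hnf hB
    rw [← hLdef]
    rcases key S hS with ⟨-, hSD⟩ | ⟨S', hS', rfl, hFS', hc, hv⟩
    · by_cases hx : x ∈ vs S
      · have a := ih.h2 S hSD hne
        rw [num1, if_pos hx] at a
        omega
      · have a := ih.h3 S hSD hne (x :: A) u B w C (by
          rw [List.cons_append, ← hL]; rfl) hu hw hnf hB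
        rw [num1, if_neg hx] at a
        omega
    · by_cases hne' : S'.Nonempty
      · by_cases ht : p ∈ vs S' ∧ x ∈ vs S' ∧ q ∈ vs S'
        · have hvS : vs S' = vs (insert F S') := by
            rw [hv]
            symm
            apply Finset.union_eq_right.2
            intro z hz
            simp only [hF, Finset.mem_insert, Finset.mem_singleton] at hz
            rcases hz with rfl | rfl | rfl
            · exact ht.1
            · exact ht.2.1
            · exact ht.2.2
          have a := ih.h3 S' hS' hne' (x :: A) u B w C (by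
            rw [List.cons_append, ← hL]; rfl) (hvS ▸ hu) (hvS ▸ hw)
            (fun G hG => hnf G (Finset.mem_insert_of_mem hG)) (fun y hy => hvS ▸ hB y hy)
          rw [num1, if_pos ht.2.1] at a
          rw [hc, ← hvS]
          omega
        · rw [hc, hv]
          exact strong S' hS' hne' ht
      · rw [Finset.not_nonempty_iff_eq_empty] at hne'
        subst hne'
        exfalso
        rw [hv, vs_empty, Finset.union_empty] at hu hw
        exact hnf F (by simp) ⟨hu, hw⟩
  · -- h3'
    intro S hS hne A u B w C hL hu hw hnf hA hC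
    rw [← hLdef]
    rcases key S hS with ⟨-, hSD⟩ | ⟨S', hS', rfl, hFS', hc, hv⟩
    · by_cases hx : x ∈ vs S
      · have a := ih.h2 S hSD hne
        rw [num1, if_pos hx] at a
        omega
      · have a := ih.h3' S hSD hne (x :: A) u B w C (by
          rw [List.cons_append, ← hL]; rfl) hu hw hnf (by
            intro y hy
            rcases List.mem_cons.1 hy with rfl | hy
            · exact hx
            · exact hA y hy) hC
        rw [num1, if_neg hx] at a
        omega
    · exfalso
      have hp' : p ∈ vs (insert F S') := by rw [hv]; exact Finset.mem_union_left _ pF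
      have hq' : q ∈ vs (insert F S') := by rw [hv]; exact Finset.mem_union_left _ qF
      obtain ⟨rfl, rfl⟩ := outer_eq hL hp' hq' hA hC
      exact hnf F (by simp) ⟨pF, qF⟩
  · -- h4
    intro S hS hne hsub
    rw [← hLdef] at hsub
    rw [length_pg, ← hcard]
    rcases key S hS with ⟨hFS, hSD⟩ | ⟨S', hS', rfl, hFS', hc, hv⟩
    · have hne0 : S.Nonempty := by
        rw [Finset.nonempty_iff_ne_empty]
        rintro rfl
        have := hsub hpL
        simp at this
      have hint : (vs S ∩ L).card = L.card := by
        rw [Finset.inter_eq_right.2 hsub]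
      by_cases hx : x ∈ vs S
      · have a := ih.h2 S hSD hne0
        rw [num1, if_pos hx, hint] at a
        omega
      · have a := ih.h3' S hSD hne0 [x] p M q [] hdec (hsub hpL) (hsub hqL)
          (fun G hG => hroot G (hSD hG)) (by simpa using hx) (by simp)
        rw [num1, if_neg hx, hint] at a
        omega
    · have hS'D : S' ≠ D := by
        rintro rfl; exact hne rfl
      by_cases hne' : S'.Nonempty
      · rw [hc]
        rw [hv] at hsub ⊢
        have hint : ((F ∪ vs S') ∩ L).card = L.card := by
          rw [Finset.inter_eq_right.2 hsub]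
        by_cases ht : p ∈ vs S' ∧ x ∈ vs S' ∧ q ∈ vs S'
        · have hvS : F ∪ vs S' = vs S' := by
            apply Finset.union_eq_right.2
            intro z hz
            simp only [hF, Finset.mem_insert, Finset.mem_singleton] at hz
            rcases hz with rfl | rfl | rfl
            · exact ht.1
            · exact ht.2.1
            · exact ht.2.2
          rw [hvS] at hsub ⊢
          have a := ih.h4 S' hS' hS'D (by
            rw [hL']
            intro z hz
            rcases Finset.mem_insert.1 hz with rfl | hz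
            · exact ht.2.1
            · exact hsub hz)
          rw [length_pg, List.length_cons] at a
          omega
        · have a := strong S' hS' hne' ht
          rw [hint] at a
          exact a
      · rw [Finset.not_nonempty_iff_eq_empty] at hne'
        subst hne'
        exfalso
        rw [hv, vs_empty, Finset.union_empty] at hsub
        obtain ⟨m, hm⟩ := List.exists_mem_of_ne_nil M hM
        have hm2 : m ∈ F := hsub (by rw [hLdef, List.mem_toFinset]; simp [hm])
        simp only [hF, Finset.mem_insert, Finset.mem_singleton] at hm2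
        rcases hm2 with rfl | rfl | rfl
        · simp [pg, hm] at hn0
        · apply hxL; rw [hLdef, List.mem_toFinset]; simp [hm]
        · rw [pg, List.nodup_cons, List.nodup_append] at hn0
          exact hn0.2.2.2 m hm m (by simp) rfl

theorem Spars.split {f : ℕ} {p : V} {M1 : List V} {y : V} {M2 : List V} {q : V}
    {W1 W2 : Finset V} {D1 D2 : Finset (Finset V)} (hf : f ≤ M1.length)
    (h1 : Fill 0 p M1 y W1 D1) (h2 : Fill 0 y M2 q W2 D2) (hW : W1 ∩ W2 = {y})
    (ih1 : Spars D1 (pg p M1 y)) (ih2 : Spars D2 (pg y M2 q)) :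
    Spars (insert {p, y, q} (D1 ∪ D2)) (pg p (M1 ++ y :: M2) q) := by
  have hn0 : (pg p (M1 ++ y :: M2) q).Nodup := (Fill.split hf h1 h2 hW).nodup
  have n1 := h1.nodup
  have n2 := h2.nodup
  have s1 := h1.subset
  have s2 := h2.subset
  have hpy : p ≠ y := by rintro rfl; simp [pg] at n1
  have hyq : y ≠ q := by rintro rfl; simp [pg] at n2
  have hpW1 : p ∈ W1 := s1 p (by simp)
  have hyW1 : y ∈ W1 := s1 y (by simp)
  have hyW2 : y ∈ W2 := s2 y (by simp)
  have hqW2 : q ∈ W2 := s2 q (by simp)
  have hW' : ∀ z, z ∈ W1 → z ∈ W2 → z = y := fun z a b => (mem_inter_iff_of hW).1 ⟨a, b⟩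
  have hpW2 : p ∉ W2 := fun h => hpy (hW' p hpW1 h)
  have hqW1 : q ∉ W1 := fun h => hyq (hW' q h hqW2).symm
  have hpq : p ≠ q := by rintro rfl; exact hpW2 hqW2
  have hroot := Fill.root_split h1 h2 hW
  obtain ⟨F, hF⟩ : ∃ F : Finset V, F = {p, y, q} := ⟨_, rfl⟩
  obtain ⟨L, hLdef⟩ : ∃ L : Finset V, L = (pg p (M1 ++ y :: M2) q).toFinset := ⟨_, rfl⟩
  obtain ⟨L1, hL1def⟩ : ∃ L1 : Finset V, L1 = (pg p M1 y).toFinset := ⟨_, rfl⟩
  obtain ⟨L2, hL2def⟩ : ∃ L2 : Finset V, L2 = (pg y M2 q).toFinset := ⟨_, rfl⟩
  rw [← hF]
  have hL1W : L1 ⊆ W1 := by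
    intro z hz; rw [hL1def, List.mem_toFinset] at hz; exact s1 z hz
  have hL2W : L2 ⊆ W2 := by
    intro z hz; rw [hL2def, List.mem_toFinset] at hz; exact s2 z hz
  have hLu : L = L1 ∪ L2 := by
    rw [hLdef, hL1def, hL2def]
    ext z
    simp only [List.mem_toFinset, mem_pg, Finset.mem_union, List.mem_append, List.mem_cons]
    tauto
  have hpL1 : p ∈ L1 := by rw [hL1def]; simp
  have hyL1 : y ∈ L1 := by rw [hL1def]; simp
  have hyL2 : y ∈ L2 := by rw [hL2def]; simp
  have hqL2 : q ∈ L2 := by rw [hL2def]; simp
  have hpL : p ∈ L := by rw [hLu]; exact Finset.mem_union_left _ hpL1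
  have hyL : y ∈ L := by rw [hLu]; exact Finset.mem_union_left _ hyL1
  have hqL : q ∈ L := by rw [hLu]; exact Finset.mem_union_right _ hqL2
  have hcL : L.card = M1.length + M2.length + 3 := by
    rw [hLdef, List.toFinset_card_of_nodup hn0, length_pg, List.length_append, List.length_cons]
    omega
  have hcL1 : L1.card = M1.length + 2 := by
    rw [hL1def, List.toFinset_card_of_nodup n1, length_pg]
  have hcL2 : L2.card = M2.length + 2 := by
    rw [hL2def, List.toFinset_card_of_nodup n2, length_pg]
  have pF : p ∈ F := by simp [hF]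
  have qF : q ∈ F := by simp [hF]
  have yF : y ∈ F := by simp [hF]
  have hlist : pg p (M1 ++ y :: M2) q = (p :: M1) ++ y :: (M2 ++ [q]) := pg_split _ _ _ _ _
  have hlist1 : pg p M1 y = (p :: M1) ++ [y] := by simp [pg]
  have hlist2 : pg y M2 q = y :: (M2 ++ [q]) := by simp [pg]
  have hdisj : Disjoint D1 D2 := disj_of_inter hW h1.face h2.face
  -- numbers
  have vsW1 : ∀ S1 ⊆ D1, vs S1 ⊆ W1 := fun S1 h => (vs_mono h).trans h1.vs_sub
  have vsW2 : ∀ S2 ⊆ D2, vs S2 ⊆ W2 := fun S2 h => (vs_mono h).trans h2.vs_sub
  have numv : ∀ U1 ⊆ W1, ∀ U2 ⊆ W2, (U1 ∪ U2).card + (if y ∈ U1 ∧ y ∈ U2 then 1 else 0)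
      = U1.card + U2.card := by
    intro U1 hU1 U2 hU2
    rw [← Finset.card_union_add_card_inter U1 U2]
    congr 1
    by_cases hy : y ∈ U1 ∧ y ∈ U2
    · rw [if_pos hy]
      have : U1 ∩ U2 = {y} := by
        ext z
        rw [Finset.mem_inter, Finset.mem_singleton]
        exact ⟨fun h => hW' z (hU1 h.1) (hU2 h.2), fun h => h ▸ hy⟩
      rw [this, Finset.card_singleton]
    · rw [if_neg hy]
      have : U1 ∩ U2 = ∅ := by
        ext z
        rw [Finset.mem_inter]
        constructor
        · intro h
          have := hW' z (hU1 h.1) (hU2 h.2)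
          subst this
          exact absurd h hy
        · intro h; simp at h
      rw [this, Finset.card_empty]
  have int1 : ∀ U1 ⊆ W1, U1 ∩ L = U1 ∩ L1 := by
    intro U1 hU1
    ext z
    rw [Finset.mem_inter, Finset.mem_inter, hLu, Finset.mem_union]
    constructor
    · rintro ⟨a, b | b⟩
      · exact ⟨a, b⟩
      · have := hW' z (hU1 a) (hL2W b)
        subst this
        exact ⟨a, hyL1⟩
    · rintro ⟨a, b⟩
      exact ⟨a, Or.inl b⟩
  have int2 : ∀ U2 ⊆ W2, U2 ∩ L = U2 ∩ L2 := by
    intro U2 hU2
    ext z
    rw [Finset.mem_inter, Finset.mem_inter, hLu, Finset.mem_union]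
    constructor
    · rintro ⟨a, b | b⟩
      · have := hW' z (hL1W b) (hU2 a)
        subst this
        exact ⟨a, hyL2⟩
      · exact ⟨a, b⟩
    · rintro ⟨a, b⟩
      exact ⟨a, Or.inr b⟩
  have numk : ∀ U1 ⊆ W1, ∀ U2 ⊆ W2, ((U1 ∪ U2) ∩ L).card + (if y ∈ U1 ∧ y ∈ U2 then 1 else 0)
      = (U1 ∩ L1).card + (U2 ∩ L2).card := by
    intro U1 hU1 U2 hU2
    rw [Finset.union_inter_distrib_right, int1 U1 hU1, int2 U2 hU2]
    have := numv (U1 ∩ L1) (Finset.inter_subset_left.trans hU1) (U2 ∩ L2)
      (Finset.inter_subset_left.trans hU2)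
    simp only [Finset.mem_inter, hyL1, hyL2, and_true] at this
    exact this
  have num2 : ∀ U : Finset V, (F ∪ U).card = U.card + (if p ∈ U then 0 else 1)
      + (if y ∈ U then 0 else 1) + (if q ∈ U then 0 else 1) :=
    fun U => hF ▸ card_tri_union hpy hpq hyq U
  have num3 : ∀ U : Finset V, ((F ∪ U) ∩ L).card = (U ∩ L).card + (if p ∈ U then 0 else 1)
      + (if y ∈ U then 0 else 1) + (if q ∈ U then 0 else 1) :=
    fun U => hF ▸ card_tri_inter hpy hpq hyq U L hpL hyL hqL
  -- decomposition of `S`
  have key : ∀ S ⊆ insert F (D1 ∪ D2), ∃ S1 ⊆ D1, ∃ S2 ⊆ D2,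
      (F ∉ S ∧ S = S1 ∪ S2 ∧ S.card = S1.card + S2.card ∧ vs S = vs S1 ∪ vs S2) ∨
      (F ∈ S ∧ S = insert F (S1 ∪ S2) ∧ S.card = S1.card + S2.card + 1 ∧
        vs S = F ∪ (vs S1 ∪ vs S2)) := by
    intro S hS
    refine ⟨S ∩ D1, Finset.inter_subset_right, S ∩ D2, Finset.inter_subset_right, ?_⟩
    have hd : Disjoint (S ∩ D1) (S ∩ D2) :=
      Finset.disjoint_of_subset_left Finset.inter_subset_right
        (Finset.disjoint_of_subset_right Finset.inter_subset_right hdisj)
    by_cases hFS : F ∈ S
    · right
      have hFn : F ∉ S ∩ D1 ∪ S ∩ D2 := by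
        intro h
        rw [Finset.mem_union, Finset.mem_inter, Finset.mem_inter] at h
        apply hroot F (by rw [Finset.mem_union]; tauto) ⟨pF, qF⟩
      have e : S = insert F (S ∩ D1 ∪ S ∩ D2) := by
        ext G
        rw [Finset.mem_insert, Finset.mem_union, Finset.mem_inter, Finset.mem_inter]
        constructor
        · intro hG
          rcases Finset.mem_insert.1 (hS hG) with h | h
          · exact Or.inl h
          · rcases Finset.mem_union.1 h with h | h
            · exact Or.inr (Or.inl ⟨hG, h⟩)
            · exact Or.inr (Or.inr ⟨hG, h⟩)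
        · rintro (rfl | h | h)
          · exact hFS
          · exact h.1
          · exact h.1
      refine ⟨hFS, e, ?_, ?_⟩
      · conv_lhs => rw [e]
        rw [Finset.card_insert_of_notMem hFn, Finset.card_union_of_disjoint hd]
      · conv_lhs => rw [e]
        rw [vs_insert, vs_union]
    · left
      have e : S = S ∩ D1 ∪ S ∩ D2 := by
        ext G
        rw [Finset.mem_union, Finset.mem_inter, Finset.mem_inter]
        constructor
        · intro hG
          rcases Finset.mem_insert.1 (hS hG) with h | h
          · exact absurd (h ▸ hG) hFS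
          · rcases Finset.mem_union.1 h with h | h
            · exact Or.inl ⟨hG, h⟩
            · exact Or.inr ⟨hG, h⟩
        · rintro (h | h)
          · exact h.1
          · exact h.1
      refine ⟨hFS, e, ?_, ?_⟩
      · conv_lhs => rw [e]
        rw [Finset.card_union_of_disjoint hd]
      · conv_lhs => rw [e]
        rw [vs_union]
  -- numeric bounds for the pieces
  have b1 : ∀ S1 ⊆ D1, (S1 = ∅ ∧ vs S1 = ∅) ∨ (S1.Nonempty ∧ S1.card + 5 ≤ 2 * (vs S1).card ∧
      S1.card + 2 + (vs S1 ∩ L1).card ≤ 2 * (vs S1).card) := by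
    intro S1 hS1
    rcases S1.eq_empty_or_nonempty with rfl | hne
    · exact Or.inl ⟨rfl, rfl⟩
    · exact Or.inr ⟨hne, ih1.h5 S1 hS1 hne, hL1def ▸ ih1.h2 S1 hS1 hne⟩
  have b2 : ∀ S2 ⊆ D2, (S2 = ∅ ∧ vs S2 = ∅) ∨ (S2.Nonempty ∧ S2.card + 5 ≤ 2 * (vs S2).card ∧
      S2.card + 2 + (vs S2 ∩ L2).card ≤ 2 * (vs S2).card) := by
    intro S2 hS2
    rcases S2.eq_empty_or_nonempty with rfl | hne
    · exact Or.inl ⟨rfl, rfl⟩
    · exact Or.inr ⟨hne, ih2.h5 S2 hS2 hne, hL2def ▸ ih2.h2 S2 hS2 hne⟩
  have pU : ∀ S1 ⊆ D1, ∀ S2 ⊆ D2, (p ∈ vs S1 ∪ vs S2 ↔ p ∈ vs S1) := by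
    intro S1 hS1 S2 hS2
    rw [Finset.mem_union]
    exact ⟨fun h => h.resolve_right (fun h => hpW2 (vsW2 S2 hS2 h)), Or.inl⟩
  have qU : ∀ S1 ⊆ D1, ∀ S2 ⊆ D2, (q ∈ vs S1 ∪ vs S2 ↔ q ∈ vs S2) := by
    intro S1 hS1 S2 hS2
    rw [Finset.mem_union]
    exact ⟨fun h => h.resolve_left (fun h => hqW1 (vsW1 S1 hS1 h)), Or.inr⟩
  constructor
  · -- h5
    intro S hS hne
    obtain ⟨S1, hS1, S2, hS2, ⟨hFS, rfl, hc, hv⟩ | ⟨hFS, rfl, hc, hv⟩⟩ := key S hS
    · have nv := numv _ (vsW1 S1 hS1) _ (vsW2 S2 hS2)
      rw [hc, hv]
      rcases b1 S1 hS1 with ⟨e1, v1⟩ | ⟨ne1, a1, c1⟩ <;>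
        rcases b2 S2 hS2 with ⟨e2, v2⟩ | ⟨ne2, a2, c2⟩
      · subst e1 e2; simp at hne
      · subst e1; simp only [v1, Finset.empty_union, Finset.card_empty] at *; omega
      · subst e2; simp only [v2, Finset.union_empty, Finset.card_empty] at *; omega
      · split_ifs at nv <;> omega
    · have nv := numv _ (vsW1 S1 hS1) _ (vsW2 S2 hS2)
      rw [hc, hv, num2]
      rcases b1 S1 hS1 with ⟨e1, v1⟩ | ⟨ne1, a1, c1⟩ <;>
        rcases b2 S2 hS2 with ⟨e2, v2⟩ | ⟨ne2, a2, c2⟩
      · subst e1 e2; simp
      · have hp : p ∉ vs S1 ∪ vs S2 := by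
          rw [pU S1 hS1 S2 hS2, v1]; simp
        rw [if_neg hp]
        subst e1; simp only [v1, Finset.empty_union, Finset.card_empty] at *; omega
      · have hq : q ∉ vs S1 ∪ vs S2 := by
          rw [qU S1 hS1 S2 hS2, v2]; simp
        rw [if_neg hq]
        subst e2; simp only [v2, Finset.union_empty, Finset.card_empty] at *; omega
      · split_ifs at nv <;> omega
  · -- h2
    intro S hS hne
    rw [← hLdef]
    obtain ⟨S1, hS1, S2, hS2, ⟨hFS, rfl, hc, hv⟩ | ⟨hFS, rfl, hc, hv⟩⟩ := key S hS
    · have nv := numv _ (vsW1 S1 hS1) _ (vsW2 S2 hS2)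
      have nk := numk _ (vsW1 S1 hS1) _ (vsW2 S2 hS2)
      rw [hc, hv]
      rcases b1 S1 hS1 with ⟨e1, v1⟩ | ⟨ne1, a1, c1⟩ <;>
        rcases b2 S2 hS2 with ⟨e2, v2⟩ | ⟨ne2, a2, c2⟩
      · subst e1 e2; simp at hne
      · subst e1
        simp only [v1, Finset.empty_union, Finset.card_empty, Finset.empty_inter,
          Finset.notMem_empty, false_and, if_false] at *
        omega
      · subst e2
        simp only [v2, Finset.union_empty, Finset.card_empty, Finset.empty_inter,
          Finset.notMem_empty, and_false, if_false] at *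
        omega
      · split_ifs at nv nk <;> omega
    · have nv := numv _ (vsW1 S1 hS1) _ (vsW2 S2 hS2)
      have nk := numk _ (vsW1 S1 hS1) _ (vsW2 S2 hS2)
      rw [hc, hv, num2, num3]
      rcases b1 S1 hS1 with ⟨e1, v1⟩ | ⟨ne1, a1, c1⟩ <;>
        rcases b2 S2 hS2 with ⟨e2, v2⟩ | ⟨ne2, a2, c2⟩
      · subst e1 e2; simp
      · have hp : p ∉ vs S1 ∪ vs S2 := by
          rw [pU S1 hS1 S2 hS2, v1]; simp
        rw [if_neg hp]
        subst e1
        simp only [v1, Finset.empty_union, Finset.card_empty, Finset.empty_inter,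
          Finset.notMem_empty, false_and, if_false] at *
        split_ifs <;> omega
      · have hq : q ∉ vs S1 ∪ vs S2 := by
          rw [qU S1 hS1 S2 hS2, v2]; simp
        rw [if_neg hq]
        subst e2
        simp only [v2, Finset.union_empty, Finset.card_empty, Finset.empty_inter,
          Finset.notMem_empty, and_false, if_false] at *
        split_ifs <;> omega
      · split_ifs at nv nk ⊢ <;> omega
  · -- h3
    intro S hS hne A u B w C hL hu hw hnf hB
    rw [← hLdef]
    rw [hlist] at hL
    rw [hlist] at hn0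
    obtain ⟨S1, hS1, S2, hS2, ⟨hFS, hSe, hc, hv⟩ | ⟨hFS, hSe, hc, hv⟩⟩ := key S hS
    · have nv := numv _ (vsW1 S1 hS1) _ (vsW2 S2 hS2)
      have nk := numk _ (vsW1 S1 hS1) _ (vsW2 S2 hS2)
      rcases b1 S1 hS1 with ⟨e1, v1⟩ | ⟨ne1, a1, c1⟩ <;>
        rcases b2 S2 hS2 with ⟨e2, v2⟩ | ⟨ne2, a2, c2⟩
      · subst e1 e2; rw [hSe] at hne; simp at hne
      · have hSS2 : S = S2 := by rw [hSe, e1, Finset.empty_union]
        subst hSS2
        have hu2 : u ∈ y :: (M2 ++ [q]) := by
          have h3 : u ∈ vs S ∩ L2 := by
            rw [← int2 _ (vsW2 S hS2), Finset.mem_inter]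
            refine ⟨hu, ?_⟩
            rw [hLdef, hlist, List.mem_toFinset, hL]; simp
          have := (Finset.mem_inter.1 h3).2
          rw [hL2def, List.mem_toFinset, hlist2] at this
          exact this
        obtain ⟨A', hA', -⟩ := ld2 hn0 hL hu2
        have a := ih2.h3 S hS2 ne2 A' u B w C (by rw [hlist2]; exact hA') hu hw hnf hB
        rw [← hL2def, ← int2 _ (vsW2 S hS2)] at a
        exact a
      · have hSS2 : S = S1 := by rw [hSe, e2, Finset.union_empty]
        subst hSS2
        have hw2 : w ∈ (p :: M1) ++ [y] := by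
          have h3 : w ∈ vs S ∩ L1 := by
            rw [← int1 _ (vsW1 S hS1), Finset.mem_inter]
            refine ⟨hw, ?_⟩
            rw [hLdef, hlist, List.mem_toFinset, hL]; simp
          have := (Finset.mem_inter.1 h3).2
          rw [hL1def, List.mem_toFinset, hlist1] at this
          exact this
        obtain ⟨C', hC', -⟩ := ld1 hn0 hL hw2
        have a := ih1.h3 S hS1 ne1 A u B w C' (by rw [hlist1]; exact hC') hu hw hnf hB
        rw [← hL1def, ← int1 _ (vsW1 S hS1)] at a
        exact a
      · rw [hc, hv]; split_ifs at nv nk <;> omega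
    · have nv := numv _ (vsW1 S1 hS1) _ (vsW2 S2 hS2)
      have nk := numk _ (vsW1 S1 hS1) _ (vsW2 S2 hS2)
      have hyS : y ∈ vs S := by rw [hv]; exact Finset.mem_union_left _ yF
      have hyB : y ∉ B := fun h => hB y h hyS
      have hnF : ¬ (u ∈ F ∧ w ∈ F) := hnf F hFS
      rcases b1 S1 hS1 with ⟨e1, v1⟩ | ⟨ne1, a1, c1⟩ <;>
        rcases b2 S2 hS2 with ⟨e2, v2⟩ | ⟨ne2, a2, c2⟩
      · exfalso
        rw [hv, v1, v2, Finset.union_empty, Finset.union_empty] at hu hw
        exact hnF ⟨hu, hw⟩
      · -- S1 empty
        have hp : p ∉ vs S1 ∪ vs S2 := by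
          rw [pU S1 hS1 S2 hS2, v1]; simp
        by_cases ht : y ∈ vs S2 ∧ q ∈ vs S2
        · rcases ld3 hL hyB with hw1 | hu2
          · exfalso
            obtain ⟨C', hC', -⟩ := ld1 hn0 hL hw1
            have hu1 : u ∈ (p :: M1) ++ [y] := by rw [hC']; simp
            have aux : ∀ z ∈ (p :: M1) ++ [y], z ∈ vs S → z ∈ F := by
              intro z hz hzS
              rw [hv, v1, Finset.empty_union, Finset.mem_union] at hzS
              rcases hzS with h | h
              · exact h
              · have := hW' z (s1 z (by rw [hlist1]; exact hz)) (vsW2 S2 hS2 h)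
                rw [this]; exact yF
            exact hnF ⟨aux u hu1 hu, aux w hw1 hw⟩
          · obtain ⟨A', hA', -⟩ := ld2 hn0 hL hu2
            have aux : ∀ z ∈ y :: (M2 ++ [q]), z ∈ vs S → z ∈ vs S2 := by
              intro z hz hzS
              have hzp : z ≠ p := by
                rintro rfl
                exact hpW2 (s2 z (by rw [hlist2]; exact hz))
              rw [hv, v1, Finset.empty_union, Finset.mem_union, hF] at hzS
              simp only [Finset.mem_insert, Finset.mem_singleton] at hzS
              rcases hzS with (h | h | h) | h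
              · exact absurd h hzp
              · rw [h]; exact ht.1
              · rw [h]; exact ht.2
              · exact h
            have hw2 : w ∈ y :: (M2 ++ [q]) := by rw [hA']; simp
            have a := ih2.h3 S2 hS2 ne2 A' u B w C (by rw [hlist2]; exact hA')
              (aux u hu2 hu) (aux w hw2 hw)
              (fun G hG => hnf G (by rw [hSe]; simp [hG]))
              (fun z hz h => hB z hz (by rw [hv]; simp only [Finset.mem_union]; tauto))
            rw [← hL2def] at a
            rw [hc, hv, num2, num3, if_neg hp]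
            subst e1
            simp only [v1, Finset.empty_union, Finset.card_empty, Finset.empty_inter,
              Finset.notMem_empty, false_and, if_false] at *
            rw [if_pos ht.1, if_pos ht.2]
            omega
        · rw [hc, hv, num2, num3, if_neg hp]
          subst e1
          simp only [v1, Finset.empty_union, Finset.card_empty, Finset.empty_inter,
            Finset.notMem_empty, false_and, if_false] at *
          by_cases hy : y ∈ vs S2 <;> by_cases hq : q ∈ vs S2 <;>
            simp only [hy, hq, if_true, if_false] <;> first | omega | (exfalso; tauto)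
      · -- S2 empty
        have hq : q ∉ vs S1 ∪ vs S2 := by
          rw [qU S1 hS1 S2 hS2, v2]; simp
        by_cases ht : p ∈ vs S1 ∧ y ∈ vs S1
        · rcases ld3 hL hyB with hw1 | hu2
          · obtain ⟨C', hC', -⟩ := ld1 hn0 hL hw1
            have hu1 : u ∈ (p :: M1) ++ [y] := by rw [hC']; simp
            have aux : ∀ z ∈ (p :: M1) ++ [y], z ∈ vs S → z ∈ vs S1 := by
              intro z hz hzS
              have hzq : z ≠ q := by
                rintro rfl
                exact hqW1 (s1 z (by rw [hlist1]; exact hz))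
              rw [hv, v2, Finset.union_empty, Finset.mem_union, hF] at hzS
              simp only [Finset.mem_insert, Finset.mem_singleton] at hzS
              rcases hzS with (h | h | h) | h
              · rw [h]; exact ht.1
              · rw [h]; exact ht.2
              · exact absurd h hzq
              · exact h
            have a := ih1.h3 S1 hS1 ne1 A u B w C' (by rw [hlist1]; exact hC')
              (aux u hu1 hu) (aux w hw1 hw)
              (fun G hG => hnf G (by rw [hSe]; simp [hG]))
              (fun z hz h => hB z hz (by rw [hv]; simp only [Finset.mem_union]; tauto))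
            rw [← hL1def] at a
            rw [hc, hv, num2, num3, if_neg hq]
            subst e2
            simp only [v2, Finset.union_empty, Finset.card_empty, Finset.empty_inter,
              Finset.notMem_empty, and_false, if_false] at *
            rw [if_pos ht.1, if_pos ht.2]
            omega
          · exfalso
            obtain ⟨A', hA', -⟩ := ld2 hn0 hL hu2
            have hw2 : w ∈ y :: (M2 ++ [q]) := by rw [hA']; simp
            have aux : ∀ z ∈ y :: (M2 ++ [q]), z ∈ vs S → z ∈ F := by
              intro z hz hzS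
              rw [hv, v2, Finset.union_empty, Finset.mem_union] at hzS
              rcases hzS with h | h
              · exact h
              · have := hW' z (vsW1 S1 hS1 h) (s2 z (by rw [hlist2]; exact hz))
                rw [this]; exact yF
            exact hnF ⟨aux u hu2 hu, aux w hw2 hw⟩
        · rw [hc, hv, num2, num3, if_neg hq]
          subst e2
          simp only [v2, Finset.union_empty, Finset.card_empty, Finset.empty_inter,
            Finset.notMem_empty, and_false, if_false] at *
          by_cases hy : y ∈ vs S1 <;> by_cases hp : p ∈ vs S1 <;>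
            simp only [hy, hp, if_true, if_false] <;> first | omega | (exfalso; tauto)
      · -- both nonempty
        by_cases ht : p ∈ vs S1 ∧ (y ∈ vs S1 ∧ y ∈ vs S2) ∧ q ∈ vs S2
        · obtain ⟨hp1, hy12, hq2⟩ := ht
          have hpm : p ∈ vs S1 ∪ vs S2 := Finset.mem_union_left _ hp1
          have hym : y ∈ vs S1 ∪ vs S2 := Finset.mem_union_left _ hy12.1
          have hqm : q ∈ vs S1 ∪ vs S2 := Finset.mem_union_right _ hq2
          have hvS : vs S = vs S1 ∪ vs S2 := by
            rw [hv]
            apply Finset.union_eq_right.2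
            intro z hz
            rw [hF] at hz
            simp only [Finset.mem_insert, Finset.mem_singleton] at hz
            rcases hz with rfl | rfl | rfl <;> assumption
          rw [if_pos hy12] at nv nk
          rcases ld3 hL hyB with hw1 | hu2
          · obtain ⟨C', hC', -⟩ := ld1 hn0 hL hw1
            have hu1 : u ∈ (p :: M1) ++ [y] := by rw [hC']; simp
            have aux : ∀ z ∈ (p :: M1) ++ [y], z ∈ vs S → z ∈ vs S1 := by
              intro z hz hzS
              rw [hvS, Finset.mem_union] at hzS
              rcases hzS with h | h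
              · exact h
              · have := hW' z (s1 z (by rw [hlist1]; exact hz)) (vsW2 S2 hS2 h)
                rw [this]; exact hy12.1
            have a := ih1.h3 S1 hS1 ne1 A u B w C' (by rw [hlist1]; exact hC')
              (aux u hu1 hu) (aux w hw1 hw)
              (fun G hG => hnf G (by rw [hSe]; simp [hG]))
              (fun z hz h => hB z hz (by rw [hvS]; simp only [Finset.mem_union]; tauto))
            rw [← hL1def] at a
            rw [hc, hvS]
            omega
          · obtain ⟨A', hA', -⟩ := ld2 hn0 hL hu2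
            have hw2 : w ∈ y :: (M2 ++ [q]) := by rw [hA']; simp
            have aux : ∀ z ∈ y :: (M2 ++ [q]), z ∈ vs S → z ∈ vs S2 := by
              intro z hz hzS
              rw [hvS, Finset.mem_union] at hzS
              rcases hzS with h | h
              · have := hW' z (vsW1 S1 hS1 h) (s2 z (by rw [hlist2]; exact hz))
                rw [this]; exact hy12.2
              · exact h
            have a := ih2.h3 S2 hS2 ne2 A' u B w C (by rw [hlist2]; exact hA')
              (aux u hu2 hu) (aux w hw2 hw)
              (fun G hG => hnf G (by rw [hSe]; simp [hG]))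
              (fun z hz h => hB z hz (by rw [hvS]; simp only [Finset.mem_union]; tauto))
            rw [← hL2def] at a
            rw [hc, hvS]
            omega
        · rw [hc, hv, num2, num3]
          have e1 := pU S1 hS1 S2 hS2
          have e2 := qU S1 hS1 S2 hS2
          have e3 : y ∈ vs S1 ∪ vs S2 ↔ y ∈ vs S1 ∨ y ∈ vs S2 := Finset.mem_union
          simp only [e1, e2, e3]
          by_cases hp : p ∈ vs S1 <;> by_cases hy1 : y ∈ vs S1 <;> by_cases hy2 : y ∈ vs S2 <;>
            by_cases hq : q ∈ vs S2 <;>
            simp only [hp, hy1, hy2, hq, if_true, if_false, and_true, or_true, and_self, or_self,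
              and_false, or_false, false_and, false_or, true_or, true_and] at nv nk ⊢ <;>
            first | omega | (exfalso; apply ht; exact ⟨hp, ⟨hy1, hy2⟩, hq⟩)
  · -- h3'
    intro S hS hne A u B w C hL hu hw hnf hA hC
    rw [← hLdef]
    obtain ⟨S1, hS1, S2, hS2, ⟨hFS, hSe, hc, hv⟩ | ⟨hFS, hSe, hc, hv⟩⟩ := key S hS
    · rw [hlist] at hL
      rw [hlist] at hn0
      have nv := numv _ (vsW1 S1 hS1) _ (vsW2 S2 hS2)
      have nk := numk _ (vsW1 S1 hS1) _ (vsW2 S2 hS2)
      rcases b1 S1 hS1 with ⟨e1, v1⟩ | ⟨ne1, a1, c1⟩ <;>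
        rcases b2 S2 hS2 with ⟨e2, v2⟩ | ⟨ne2, a2, c2⟩
      · subst e1 e2; rw [hSe] at hne; simp at hne
      · have hSS2 : S = S2 := by rw [hSe, e1, Finset.empty_union]
        subst hSS2
        have hu2 : u ∈ y :: (M2 ++ [q]) := by
          have h3 : u ∈ vs S ∩ L2 := by
            rw [← int2 _ (vsW2 S hS2), Finset.mem_inter]
            refine ⟨hu, ?_⟩
            rw [hLdef, hlist, List.mem_toFinset, hL]; simp
          have := (Finset.mem_inter.1 h3).2
          rw [hL2def, List.mem_toFinset, hlist2] at this
          exact this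
        obtain ⟨A', hA', hAA⟩ := ld2 hn0 hL hu2
        have a := ih2.h3' S hS2 ne2 A' u B w C (by rw [hlist2]; exact hA') hu hw hnf
          (fun z hz => hA z (hAA z hz)) hC
        rw [← hL2def, ← int2 _ (vsW2 S hS2)] at a
        exact a
      · have hSS2 : S = S1 := by rw [hSe, e2, Finset.union_empty]
        subst hSS2
        have hw2 : w ∈ (p :: M1) ++ [y] := by
          have h3 : w ∈ vs S ∩ L1 := by
            rw [← int1 _ (vsW1 S hS1), Finset.mem_inter]
            refine ⟨hw, ?_⟩
            rw [hLdef, hlist, List.mem_toFinset, hL]; simp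
          have := (Finset.mem_inter.1 h3).2
          rw [hL1def, List.mem_toFinset, hlist1] at this
          exact this
        obtain ⟨C', hC', hCC⟩ := ld1 hn0 hL hw2
        have a := ih1.h3' S hS1 ne1 A u B w C' (by rw [hlist1]; exact hC') hu hw hnf
          hA (fun z hz => hC z (hCC z hz))
        rw [← hL1def, ← int1 _ (vsW1 S hS1)] at a
        exact a
      · rw [hc, hv]; split_ifs at nv nk <;> omega
    · exfalso
      have hp' : p ∈ vs S := by rw [hv]; exact Finset.mem_union_left _ pF
      have hq' : q ∈ vs S := by rw [hv]; exact Finset.mem_union_left _ qF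
      obtain ⟨rfl, rfl⟩ := outer_eq hL hp' hq' hA hC
      exact hnf F hFS ⟨pF, qF⟩
  · -- h4
    intro S hS hne hsub
    rw [← hLdef] at hsub
    have hlen : (pg p (M1 ++ y :: M2) q).length = L.card := by
      rw [length_pg, hcL, List.length_append, List.length_cons]; omega
    rw [hlen]
    have hk : (vs S ∩ L).card = L.card := by rw [Finset.inter_eq_right.2 hsub]
    obtain ⟨S1, hS1, S2, hS2, ⟨hFS, hSe, hc, hv⟩ | ⟨hFS, hSe, hc, hv⟩⟩ := key S hS
    · have nv := numv _ (vsW1 S1 hS1) _ (vsW2 S2 hS2)
      have nk := numk _ (vsW1 S1 hS1) _ (vsW2 S2 hS2)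
      rw [hv] at hk
      have hpS := hsub hpL
      have hqS := hsub hqL
      rw [hv] at hpS hqS
      rw [pU S1 hS1 S2 hS2] at hpS
      rw [qU S1 hS1 S2 hS2] at hqS
      rcases b1 S1 hS1 with ⟨e1, v1⟩ | ⟨ne1, a1, c1⟩
      · rw [v1] at hpS; simp at hpS
      · rcases b2 S2 hS2 with ⟨e2, v2⟩ | ⟨ne2, a2, c2⟩
        · rw [v2] at hqS; simp at hqS
        · rw [hc, hv]; split_ifs at nv nk <;> omega
    · have nv := numv _ (vsW1 S1 hS1) _ (vsW2 S2 hS2)
      have nk := numk _ (vsW1 S1 hS1) _ (vsW2 S2 hS2)
      rw [hv, num3] at hk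
      -- polygon vertices other than `p, y, q` are in `vs S1` or `vs S2`
      have hM1 : ∀ z ∈ M1, z ∈ vs S1 := by
        intro z hz
        have hzL : z ∈ L := by rw [hLdef, List.mem_toFinset]; simp [hz]
        have hzW1 : z ∈ W1 := s1 z (by simp [hz])
        have hzp : z ≠ p := by rintro rfl; simp [pg, hz] at n1
        have hzy : z ≠ y := by
          rintro rfl
          rw [pg, List.nodup_cons, List.nodup_append] at n1
          exact n1.2.2.2 z hz z (by simp) rfl
        have hzq : z ≠ q := by rintro rfl; exact hqW1 hzW1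
        have := hsub hzL
        rw [hv, hF] at this
        simp only [Finset.mem_union, Finset.mem_insert, Finset.mem_singleton] at this
        rcases this with (h | h | h) | (h | h)
        · exact absurd h hzp
        · exact absurd h hzy
        · exact absurd h hzq
        · exact h
        · exact absurd (hW' z hzW1 (vsW2 S2 hS2 h)) hzy
      have hM2 : ∀ z ∈ M2, z ∈ vs S2 := by
        intro z hz
        have hzL : z ∈ L := by rw [hLdef, List.mem_toFinset]; simp [hz]
        have hzW2 : z ∈ W2 := s2 z (by simp [hz])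
        have hzp : z ≠ p := by rintro rfl; exact hpW2 hzW2
        have hzy : z ≠ y := by rintro rfl; simp [pg, hz] at n2
        have hzq : z ≠ q := by
          rintro rfl
          rw [pg, List.nodup_cons, List.nodup_append] at n2
          exact n2.2.2.2 z hz z (by simp) rfl
        have := hsub hzL
        rw [hv, hF] at this
        simp only [Finset.mem_union, Finset.mem_insert, Finset.mem_singleton] at this
        rcases this with (h | h | h) | (h | h)
        · exact absurd h hzp
        · exact absurd h hzy
        · exact absurd h hzq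
        · exact absurd (hW' z (vsW1 S1 hS1 h) hzW2) hzy
        · exact h
      have hne12 : S1 ≠ D1 ∨ S2 ≠ D2 := by
        by_contra hcon
        push_neg at hcon
        apply hne
        rw [hSe, hcon.1, hcon.2]
      have sub1 : p ∈ vs S1 → y ∈ vs S1 → (pg p M1 y).toFinset ⊆ vs S1 := by
        intro hp hy z hz
        rw [List.mem_toFinset, mem_pg] at hz
        rcases hz with rfl | h | rfl
        · exact hp
        · exact hM1 z h
        · exact hy
      have sub2 : y ∈ vs S2 → q ∈ vs S2 → (pg y M2 q).toFinset ⊆ vs S2 := by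
        intro hy hq z hz
        rw [List.mem_toFinset, mem_pg] at hz
        rcases hz with rfl | h | rfl
        · exact hy
        · exact hM2 z h
        · exact hq
      have q1 : S1 ≠ D1 → p ∈ vs S1 → y ∈ vs S1 → S1.card + 3 + L1.card ≤ 2 * (vs S1).card := by
        intro hne hp hy
        have := ih1.h4 S1 hS1 hne (sub1 hp hy)
        rw [length_pg] at this
        omega
      have q2 : S2 ≠ D2 → y ∈ vs S2 → q ∈ vs S2 → S2.card + 3 + L2.card ≤ 2 * (vs S2).card := by
        intro hne hp hy
        have := ih2.h4 S2 hS2 hne (sub2 hp hy)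
        rw [length_pg] at this
        omega
      have k1 : (vs S1 ∩ L1).card ≤ L1.card := Finset.card_le_card Finset.inter_subset_right
      have k2 : (vs S2 ∩ L2).card ≤ L2.card := Finset.card_le_card Finset.inter_subset_right
      rcases b1 S1 hS1 with ⟨e1, v1⟩ | ⟨ne1, a1, c1⟩ <;>
        rcases b2 S2 hS2 with ⟨e2, v2⟩ | ⟨ne2, a2, c2⟩
      · exfalso
        have hM1e : M1 = [] := by
          rcases M1 with _ | ⟨z, M1⟩
          · rfl
          · have := hM1 z (by simp); rw [v1] at this; simp at this
        have hM2e : M2 = [] := by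
          rcases M2 with _ | ⟨z, M2⟩
          · rfl
          · have := hM2 z (by simp); rw [v2] at this; simp at this
        have d1 := (h1.nil hM1e).1
        have d2 := (h2.nil hM2e).1
        rcases hne12 with h | h
        · exact h (by rw [e1, d1])
        · exact h (by rw [e2, d2])
      · -- S1 empty
        have hM1e : M1 = [] := by
          rcases M1 with _ | ⟨z, M1⟩
          · rfl
          · have := hM1 z (by simp); rw [v1] at this; simp at this
        have d1 := (h1.nil hM1e).1
        have hne2 : S2 ≠ D2 := hne12.resolve_left (fun h => h (by rw [e1, d1]))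
        have hp : p ∉ vs S1 ∪ vs S2 := by
          rw [pU S1 hS1 S2 hS2, v1]; simp
        have r := q2 hne2
        rw [hM1e] at hcL
        simp only [List.length_nil] at hcL
        rw [hc, hv, num2, if_neg hp]
        rw [if_neg hp] at hk
        subst e1
        simp only [v1, Finset.empty_union, Finset.card_empty, Finset.empty_inter,
          Finset.notMem_empty, false_and, if_false] at *
        by_cases hy : y ∈ vs S2 <;> by_cases hq : q ∈ vs S2 <;>
          simp only [hy, hq, if_true, if_false, true_imp_iff, false_imp_iff] at r hk ⊢ <;> omega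
      · -- S2 empty
        have hM2e : M2 = [] := by
          rcases M2 with _ | ⟨z, M2⟩
          · rfl
          · have := hM2 z (by simp); rw [v2] at this; simp at this
        have d2 := (h2.nil hM2e).1
        have hne1 : S1 ≠ D1 := hne12.resolve_right (fun h => h (by rw [e2, d2]))
        have hq : q ∉ vs S1 ∪ vs S2 := by
          rw [qU S1 hS1 S2 hS2, v2]; simp
        have r := q1 hne1
        rw [hM2e] at hcL
        simp only [List.length_nil] at hcL
        rw [hc, hv, num2, if_neg hq]
        rw [if_neg hq] at hk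
        subst e2
        simp only [v2, Finset.union_empty, Finset.card_empty, Finset.empty_inter,
          Finset.notMem_empty, and_false, if_false] at *
        by_cases hy : y ∈ vs S1 <;> by_cases hp : p ∈ vs S1 <;>
          simp only [hy, hp, if_true, if_false, true_imp_iff, false_imp_iff] at r hk ⊢ <;> omega
      · have e1 := pU S1 hS1 S2 hS2
        have e2 := qU S1 hS1 S2 hS2
        have e3 : y ∈ vs S1 ∪ vs S2 ↔ y ∈ vs S1 ∨ y ∈ vs S2 := Finset.mem_union
        rw [hc, hv, num2]
        rcases hne12 with hne1 | hne2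
        · have r := q1 hne1
          simp only [e1, e2, e3] at hk ⊢
          by_cases hp : p ∈ vs S1 <;> by_cases hy1 : y ∈ vs S1 <;> by_cases hy2 : y ∈ vs S2 <;>
            by_cases hq : q ∈ vs S2 <;>
            simp only [hp, hy1, hy2, hq, if_true, if_false, and_true, or_true, and_self, or_self,
              and_false, or_false, false_and, false_or, true_or, true_and, true_imp_iff,
              false_imp_iff] at r hk nv nk ⊢ <;> omega
        · have r := q2 hne2
          simp only [e1, e2, e3] at hk ⊢
          by_cases hp : p ∈ vs S1 <;> by_cases hy1 : y ∈ vs S1 <;> by_cases hy2 : y ∈ vs S2 <;>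
            by_cases hq : q ∈ vs S2 <;>
            simp only [hp, hy1, hy2, hq, if_true, if_false, and_true, or_true, and_self, or_self,
              and_false, or_false, false_and, false_or, true_or, true_and, true_imp_iff,
              false_imp_iff] at r hk nv nk ⊢ <;> omega

theorem Fill.spars {f : ℕ} {p : V} {M : List V} {q : V} {W : Finset V} {D : Finset (Finset V)}
    (h : Fill f p M q W D) : Spars D (pg p M q) := by
  induction h with
  | edge p q h => exact Spars.empty _
  | new hM h ih => exact Spars.new hM h ih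
  | split hf h1 h2 hW ih1 ih2 => exact Spars.split hf h1 h2 hW ih1 ih2

end Pool.Agent.H38.SC
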