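import Pool.Agent.H38.SC.Alg
import Pool.Agent.H38.SC.Sound

/-!
# Soundness of the algorithm
-/

set_option autoImplicit false

namespace Pool.Agent.H38.SC

theorem isT_sound {ts : List (ℕ × ℕ × ℕ)} {a b c : ℕ} (h : isT ts a b c = true) :
    ∃ t ∈ ts, ({a, b, c} : Finset ℕ) = {t.1, t.2.1, t.2.2} := by
  unfold isT at h
  simp only [Bool.or_eq_true, memb_iff] at h
  rcases h with ((h | h) | (h | h)) | (h | h)
  all_goals
    refine ⟨_, h, Finset.ext fun x => ?_⟩
    simp only [Finset.mem_insert, Finset.mem_singleton]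
    try tauto

theorem mem_prs {vs : List ℕ} {q : ℕ × ℕ} : q ∈ prs vs ↔ q.1 ∈ vs ∧ q.2 ∈ vs := by
  unfold prs
  simp only [List.mem_flatMap, List.mem_map]
  constructor
  · rintro ⟨a, ha, b, hb, rfl⟩; exact ⟨ha, hb⟩
  · rintro ⟨h1, h2⟩; exact ⟨q.1, h1, q.2, h2, rfl⟩

theorem mem_tup {k : ℕ} {vs t : List ℕ} : t ∈ tup k vs ↔ t.length = k ∧ ∀ a ∈ t, a ∈ vs := by
  induction k generalizing t with
  | zero =>
    unfold tup
    rw [List.mem_singleton, List.length_eq_zero_iff]
    constructor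
    · rintro rfl; simp
    · exact fun h => h.1
  | succ k ih =>
    unfold tup
    simp only [List.mem_flatMap, List.mem_map]
    constructor
    · rintro ⟨t', ht', a, ha, rfl⟩
      obtain ⟨h1, h2⟩ := ih.1 ht'
      refine ⟨by simp [h1], fun b hb => ?_⟩
      rcases List.mem_cons.1 hb with rfl | hb
      · exact ha
      · exact h2 b hb
    · rintro ⟨h1, h2⟩
      cases t with
      | nil => simp at h1
      | cons a t =>
        refine ⟨t, ih.2 ⟨by simpa using h1, fun b hb => h2 b (List.mem_cons_of_mem _ hb)⟩, a,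
          h2 a List.mem_cons_self, rfl⟩

/-- all listed patterns are triangulated disks with boundary `0, 1, 2` -/
def PatsOK (pats : List (List (ℕ × ℕ × ℕ))) : Prop :=
  ∀ π ∈ pats, ∃ (W : Finset ℕ) (D : Finset (Finset ℕ)), Fill 0 0 [1] 2 W D ∧
    ∀ F ∈ D, ∃ f ∈ π, F = {f.1, f.2.1, f.2.2}

theorem vert_iff {x : Inp} (hx : IsComplex x) {a : ℕ} :
    ({a} : Finset ℕ) ∈ simplices x ↔ a ∈ x.1 := by
  constructor
  · rintro (⟨b, hb, h⟩ | ⟨e, he, h⟩ | ⟨t, ht, h⟩)
    · rw [Finset.singleton_inj] at h; rwa [h]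
    · exfalso
      have h1 := congrArg Finset.card h
      rw [Finset.card_singleton, Finset.card_pair (hx.1 e he)] at h1
      omega
    · exfalso
      obtain ⟨h2, h3, h4⟩ := hx.2.1 t ht
      have h1 := congrArg Finset.card h
      rw [Finset.card_singleton, Finset.card_eq_three.2 ⟨_, _, _, h2, h3, h4, rfl⟩] at h1
      omega
  · intro h
    exact Or.inl ⟨a, h, rfl⟩

/-- the relation certified by the algorithm -/
def Rel {S : Set (Finset ℕ)} (hK : ∀ a b : Vt S, ({a.1, b.1} : Finset ℕ) ∈ S) (v b c : Vt S) :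
    Prop := (ed hK v b).trans (ed hK b c) = ed hK v c

section

variable {S : Set (Finset ℕ)} {hK : ∀ a b : Vt S, ({a.1, b.1} : Finset ℕ) ∈ S}

theorem Rel.symm {v b c : Vt S} (h : Rel hK v b c) : Rel hK v c b := by
  unfold Rel at h ⊢
  rw [← h, Path.Homotopic.Quotient.trans_assoc, ed_back, Path.Homotopic.Quotient.trans_refl]

theorem Rel.tri {v b x c : Vt S} (h1 : Rel hK v b x) (h2 : Rel hK v x c)
    (h : ({b.1, x.1, c.1} : Finset ℕ) ∈ S) : Rel hK v b c := by
  unfold Rel at h1 h2 ⊢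
  rw [← ed_tri hK h, ← Path.Homotopic.Quotient.trans_assoc, h1, h2]

theorem Rel.star {v b c : Vt S} (h : ({v.1, b.1, c.1} : Finset ℕ) ∈ S) : Rel hK v b c :=
  ed_tri hK h

end

theorem alg_sound {pats : List (List (ℕ × ℕ × ℕ))} (hp : PatsOK pats) {K : ℕ} {x : Inp}
    (hx : IsComplex x) (h : alg pats K x = true) :
    SimplyConnectedSpace (realization (simplices x)) := by
  unfold alg at h
  rw [Bool.and_eq_true, List.all_eq_true, List.any_eq_true] at h
  obtain ⟨h1, v, hv, h2⟩ := h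
  have hK : ∀ a b : Vt (simplices x), ({a.1, b.1} : Finset ℕ) ∈ simplices x := by
    intro a b
    have ha := (vert_iff hx).1 a.2
    have hb := (vert_iff hx).1 b.2
    have h3 := h1 (a.1, b.1) (mem_prs.2 ⟨ha, hb⟩)
    simp only [Bool.or_eq_true, memb_iff, decide_eq_true_eq] at h3
    rcases h3 with (h3 | h3) | h3
    · rw [← h3, Finset.pair_eq_singleton]; exact a.2
    · exact Or.inr (Or.inl ⟨_, h3, rfl⟩)
    · exact Or.inr (Or.inl ⟨_, h3, Finset.pair_comm _ _⟩)
  have hmk : ∀ a ∈ x.1, ({a} : Finset ℕ) ∈ simplices x := fun a ha => (vert_iff hx).2 ha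
  have hT : ∀ {a b c : ℕ}, isT x.2.2 a b c = true → ({a, b, c} : Finset ℕ) ∈ simplices x := by
    intro a b c h
    obtain ⟨t, ht, he⟩ := isT_sound h
    exact Or.inr (Or.inr ⟨t, ht, he⟩)
  -- certified pairs
  obtain ⟨Good, hGood⟩ : ∃ Good : List (ℕ × ℕ) → Prop, Good = fun L => ∀ q ∈ L,
      ∃ (hb : ({q.1} : Finset ℕ) ∈ simplices x) (hc : ({q.2} : Finset ℕ) ∈ simplices x),
        Rel hK ⟨v, hmk v hv⟩ ⟨q.1, hb⟩ ⟨q.2, hc⟩ := ⟨_, rfl⟩
  have hinit : Good (initL pats K x.1 x.2.2 v) := by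
    rw [hGood]
    intro q hq
    unfold initL at hq
    rw [List.mem_filter, mem_prs, Bool.or_eq_true] at hq
    obtain ⟨⟨hb, hc⟩, hq⟩ := hq
    refine ⟨hmk _ hb, hmk _ hc, ?_⟩
    rcases hq with hq | hq
    · exact Rel.star (hT hq)
    · unfold seedB at hq
      simp only [List.any_eq_true, List.all_eq_true] at hq
      obtain ⟨t, ht, π, hπ, hf⟩ := hq
      obtain ⟨h3, h4⟩ := mem_tup.1 ht
      obtain ⟨W, D, hD, hDf⟩ := hp π hπ
      have hl : ∀ a ∈ v :: q.1 :: q.2 :: t, a ∈ x.1 := by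
        intro a ha
        simp only [List.mem_cons] at ha
        rcases ha with rfl | rfl | rfl | ha
        · exact hv
        · exact hb
        · exact hc
        · exact h4 a ha
      have hl2 : ∀ i, (v :: q.1 :: q.2 :: t).getD i v ∈ x.1 := by
        intro i
        rcases lt_or_ge i (v :: q.1 :: q.2 :: t).length with h | h
        · rw [List.getD_eq_getElem _ _ h]
          exact hl _ (List.getElem_mem h)
        · rw [List.getD_eq_default _ _ h]
          exact hv
      have key := hD.sound hK (fun i => ⟨(v :: q.1 :: q.2 :: t).getD i v, hmk _ (hl2 i)⟩)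
        (fun F hF => by
          obtain ⟨f, hf1, rfl⟩ := hDf F hF
          rw [Finset.image_insert, Finset.image_insert, Finset.image_singleton]
          exact hT (hf f hf1))
      exact key
  have hstep : ∀ L, Good L → Good (stepL x.1 x.2.2 L) := by
    rw [hGood]
    intro L hL q hq
    unfold stepL at hq
    rw [List.mem_filter, mem_prs] at hq
    obtain ⟨⟨hb, hc⟩, hq⟩ := hq
    simp only [Bool.or_eq_true, memb_iff, List.any_eq_true, Bool.and_eq_true] at hq
    refine ⟨hmk _ hb, hmk _ hc, ?_⟩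
    rcases hq with (hq | hq) | ⟨y, hy, ⟨hq1, hq2⟩, hq3⟩
    · obtain ⟨_, _, h⟩ := hL q hq
      exact h
    · obtain ⟨_, _, h⟩ := hL (q.2, q.1) hq
      exact h.symm
    · obtain ⟨_, hc1, g1⟩ := hL (q.1, y) hq1
      obtain ⟨_, _, g2⟩ := hL (y, q.2) hq2
      exact Rel.tri g1 g2 (hT hq3)
  have hclo : Good (cloL pats K x.1 x.2.2 v) := by
    unfold cloL
    generalize prs x.1 = P
    generalize initL pats K x.1 x.2.2 v = L0 at hinit
    induction P generalizing L0 with
    | nil => exact hinit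
    | cons p P ih => exact ih _ (hstep _ hinit)
  rw [hGood] at hclo
  unfold okV at h2
  rw [List.all_eq_true] at h2
  refine simplyConnected_of_loops hK hx.2.2 ⟨v, hmk v hv⟩ ?_
  intro b c
  have hb := (vert_iff hx).1 b.2
  have hc := (vert_iff hx).1 c.2
  have h3 := h2 (b.1, c.1) (mem_prs.2 ⟨hb, hc⟩)
  simp only [Bool.or_eq_true, memb_iff, decide_eq_true_eq] at h3
  rcases h3 with ((h3 | h3) | h3) | h3
  · have : b = c := Subtype.ext h3
    subst this
    rw [ed_self, Path.Homotopic.Quotient.trans_refl]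
  · have : b = ⟨v, hmk v hv⟩ := Subtype.ext h3
    rw [this, ed_self, Path.Homotopic.Quotient.refl_trans]
  · have : c = ⟨v, hmk v hv⟩ := Subtype.ext h3
    rw [this, ed_back, ed_self]
  · obtain ⟨_, _, h⟩ := hclo _ h3
    exact h

end Pool.Agent.H38.SC
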