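import Pool.Agent.H38.SC.Limit
import Pool.Agent.H38.SC.Growth

/-!
# The seeds: second moment computation for disks with `K` interior vertices
-/

set_option autoImplicit false

namespace Pool.Agent.H38.SC

open Finset EF

variable {V : Type*} [DecidableEq V]

/-- overlap of two disks on triangles -/
theorem overlap {K : ℕ} {v a x x' : V} {W W' : Finset V} {D D' : Finset (Finset V)}
    (h : Fill 0 v [a] x W D) (h' : Fill 0 v [a] x' W' D') (hW : W.card = K + 3)
    (hW' : W'.card = K + 3) (hne : (D ∩ D').Nonempty) :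
    2 * (W ∪ W').card ≤ (D ∪ D').card + 5 := by
  have h1 := h.card
  have h2 := h'.card
  simp only [List.length_cons, List.length_nil] at h1 h2
  have h3 := h.spars.h5 (D ∩ D') inter_subset_left hne
  have h4 : vs (D ∩ D') ⊆ W ∩ W' :=
    subset_inter ((vs_mono inter_subset_left).trans h.vs_sub)
      ((vs_mono inter_subset_right).trans h'.vs_sub)
  have h5 := card_le_card h4
  have h6 := card_union_add_card_inter D D'
  have h7 := card_union_add_card_inter W W'
  omega

/-- overlap of two different disks on the same triangle -/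
theorem overlap_same {K : ℕ} {v a x : V} {W W' : Finset V} {D D' : Finset (Finset V)}
    (h : Fill 0 v [a] x W D) (h' : Fill 0 v [a] x W' D') (hW : W.card = K + 3)
    (hW' : W'.card = K + 3) (hne : D ≠ D') :
    2 * (W ∪ W').card ≤ (D ∪ D').card + 4 := by
  have h1 := h.card
  have h2 := h'.card
  simp only [List.length_cons, List.length_nil] at h1 h2
  have h6 := card_union_add_card_inter D D'
  have h7 := card_union_add_card_inter W W'
  have hS : D ∩ D' ≠ D := by
    intro e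
    have hsub : D ⊆ D' := inter_eq_left.1 e
    exact hne (eq_of_subset_of_card_le hsub (by omega))
  have hnd := h.nodup
  have hT : (pg v [a] x).toFinset.card = 3 := by
    rw [List.toFinset_card_of_nodup hnd, length_pg]; simp
  have hTW : (pg v [a] x).toFinset ⊆ W ∩ W' := by
    intro z hz
    rw [List.mem_toFinset] at hz
    exact mem_inter.2 ⟨h.subset z hz, h'.subset z hz⟩
  have h4 : vs (D ∩ D') ⊆ W ∩ W' :=
    subset_inter ((vs_mono inter_subset_left).trans h.vs_sub)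
      ((vs_mono inter_subset_right).trans h'.vs_sub)
  -- key: `|D ∩ D'| + 6 ≤ 2 |V(D ∩ D') ∪ T|`
  have key : (D ∩ D').card + 6 ≤ 2 * (vs (D ∩ D') ∪ (pg v [a] x).toFinset).card := by
    by_cases hsub : (pg v [a] x).toFinset ⊆ vs (D ∩ D')
    · have := h.spars.h4 (D ∩ D') inter_subset_left hS hsub
      rw [length_pg] at this
      rw [union_eq_left.2 hsub]
      simpa using this
    · rcases (D ∩ D').eq_empty_or_nonempty with he | hne'
      · rw [he]; simp only [card_empty, vs_empty, empty_union]; omega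
      · have h8 := h.spars.h5 (D ∩ D') inter_subset_left hne'
        have h9 := card_union_add_card_inter (vs (D ∩ D')) (pg v [a] x).toFinset
        have h10 : (vs (D ∩ D') ∩ (pg v [a] x).toFinset).card < 3 := by
          rw [← hT]
          apply card_lt_card
          refine ⟨inter_subset_right, fun h => hsub (h.trans inter_subset_left)⟩
        omega
  have h5 := card_le_card (union_subset h4 hTW)
  omega

/-- disks with `K` interior vertices in `U` on the triangle `v, a, x` -/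
noncomputable def JJ (U : Finset V) (v a : V) (K : ℕ) (x : V) : Finset (Finset (Finset V)) :=
  (powersetCard K (U \ (pg v [a] x).toFinset)).biUnion (fun I => FS 0 v [a] x I)

theorem JJ_spec {U : Finset V} {v a x : V} {K : ℕ} {D : Finset (Finset V)} (hv : v ∈ U)
    (ha : a ∈ U) (hx : x ∈ U) (h : D ∈ JJ U v a K x) :
    Fill 0 v [a] x (vs D) D ∧ (vs D).card = K + 3 ∧ vs D ⊆ U ∧ v ∈ vs D ∧ a ∈ vs D ∧ x ∈ vs D := by
  unfold JJ at h
  rw [mem_biUnion] at h
  obtain ⟨I, hI, hD⟩ := h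
  rw [mem_powersetCard] at hI
  rw [mem_FS] at hD
  have e := hD.vs_eq (by simp)
  have hnd := hD.nodup
  have hT : (pg v [a] x).toFinset.card = 3 := by
    rw [List.toFinset_card_of_nodup hnd, length_pg]; simp
  have hdis : Disjoint (pg v [a] x).toFinset I := by
    rw [disjoint_left]
    intro z hz hz2
    exact (mem_sdiff.1 (hI.1 hz2)).2 hz
  refine ⟨by rw [e]; exact hD, ?_, ?_, ?_, ?_, ?_⟩
  · rw [e, card_union_of_disjoint hdis, hT, hI.2]; omega
  · rw [e]
    intro z hz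
    rcases mem_union.1 hz with h | h
    · rw [List.mem_toFinset] at h
      simp only [mem_pg, List.mem_cons, List.not_mem_nil, or_false] at h
      rcases h with rfl | rfl | rfl
      · exact hv
      · exact ha
      · exact hx
    · exact (mem_sdiff.1 (hI.1 h)).1
  · rw [e]; exact hD.subset v (by simp)
  · rw [e]; exact hD.subset a (by simp)
  · rw [e]; exact hD.subset x (by simp)

theorem JJ_card {U : Finset V} {v a x : V} {K : ℕ} (hv : v ∈ U)
    (ha : a ∈ U) (hx : x ∈ U) (hva : v ≠ a) (hvx : v ≠ x) (hax : a ≠ x) :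
    (U.card - 3).choose K * (K.factorial * bb 1 0 K) ≤ (JJ U v a K x).card := by
  have hnd : (pg v [a] x).Nodup := by simp [pg, hva, hvx, hax]
  have hT : (pg v [a] x).toFinset.card = 3 := by
    rw [List.toFinset_card_of_nodup hnd, length_pg]; simp
  have hTU : (pg v [a] x).toFinset ⊆ U := by
    intro z h
    rw [List.mem_toFinset] at h
    simp only [mem_pg, List.mem_cons, List.not_mem_nil, or_false] at h
    rcases h with rfl | rfl | rfl
    · exact hv
    · exact ha
    · exact hx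
  have hc : (U \ (pg v [a] x).toFinset).card = U.card - 3 := by
    rw [card_sdiff_of_subset hTU, hT]
  have hdis : ∀ I ∈ powersetCard K (U \ (pg v [a] x).toFinset),
      Disjoint (pg v [a] x).toFinset I := by
    intro I hI
    rw [mem_powersetCard] at hI
    rw [disjoint_left]
    intro z hz hz2
    exact (mem_sdiff.1 (hI.1 hz2)).2 hz
  unfold JJ
  rw [card_biUnion]
  · have h1 : ∀ I ∈ powersetCard K (U \ (pg v [a] x).toFinset),
        K.factorial * bb 1 0 K ≤ (FS 0 v [a] x I).card := by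
      intro I hI
      exact count_le (2 * K + 1) 1 0 K le_rfl v [a] x I hnd rfl (hdis I hI)
        (mem_powersetCard.1 hI).2
    have h2 := sum_le_sum h1
    rw [sum_const, card_powersetCard, hc, smul_eq_mul] at h2
    exact h2
  · intro I hI I' hI' hne
    rw [Function.onFun, disjoint_left]
    intro D hD hD'
    rw [mem_FS] at hD hD'
    have e1 := hD.vs_eq (by simp)
    have e2 := hD'.vs_eq (by simp)
    apply hne
    have d1 := hdis I hI
    have d2 := hdis I' hI'
    rw [e1] at e2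
    calc I = ((pg v [a] x).toFinset ∪ I) \ (pg v [a] x).toFinset := by
          rw [union_sdiff_left, sdiff_eq_self_of_disjoint d1.symm]
      _ = ((pg v [a] x).toFinset ∪ I') \ (pg v [a] x).toFinset := by rw [e2]
      _ = I' := by rw [union_sdiff_left, sdiff_eq_self_of_disjoint d2.symm]

/-- index set of pairs (apex, disk) -/
noncomputable def JS (U : Finset V) (v a : V) (R : Finset V) (K : ℕ) :
    Finset ((_ : V) × Finset (Finset V)) := R.sigma (fun x => JJ U v a K x)

/-- multiplicity constant -/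
def cK (t : ℕ) : ℕ := (t * 2 ^ (2 ^ t)) ^ 2

theorem cK_mono {s t : ℕ} (h : s ≤ t) : cK s ≤ cK t := by
  unfold cK
  apply Nat.pow_le_pow_left
  exact Nat.mul_le_mul h (Nat.pow_le_pow_right (by norm_num) (Nat.pow_le_pow_right (by norm_num) h))

/-- summation over pairs of disks according to the union of the vertex sets -/
theorem pair_sum {U : Finset V} {v a : V} {R : Finset V} {K : ℕ} (hv : v ∈ U) (ha : a ∈ U)
    (hva : v ≠ a) (hR : R ⊆ U) (h : ℕ → ℝ) (hh : ∀ t, 0 ≤ h t)
    (Q : Finset (((_ : V) × Finset (Finset V)) × ((_ : V) × Finset (Finset V))))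
    (hQ : Q ⊆ JS U v a R K ×ˢ JS U v a R K) :
    ∑ q ∈ Q, h (vs q.1.2 ∪ vs q.2.2).card ≤
      ∑ t ∈ range (2 * K + 7), if 3 ≤ t then (cK t : ℝ) * ((U.card : ℝ) ^ (t - 2) * h t) else 0 := by
  classical
  have hspec : ∀ q ∈ Q, (vs q.1.2 ∪ vs q.2.2) ⊆ U ∧ v ∈ vs q.1.2 ∪ vs q.2.2 ∧
      a ∈ vs q.1.2 ∪ vs q.2.2 ∧ q.1.1 ∈ vs q.1.2 ∪ vs q.2.2 ∧ q.2.1 ∈ vs q.1.2 ∪ vs q.2.2 ∧
      (vs q.1.2 ∪ vs q.2.2).card < 2 * K + 7 ∧ 3 ≤ (vs q.1.2 ∪ vs q.2.2).card ∧
      (∀ F ∈ q.1.2, F ⊆ vs q.1.2 ∪ vs q.2.2) ∧ (∀ F ∈ q.2.2, F ⊆ vs q.1.2 ∪ vs q.2.2) := by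
    intro q hq
    have h1 := hQ hq
    rw [mem_product] at h1
    unfold JS at h1
    rw [mem_sigma, mem_sigma] at h1
    obtain ⟨⟨h11, h12⟩, h21, h22⟩ := h1
    obtain ⟨s1, s2, s3, s4, s5, s6⟩ := JJ_spec hv ha (hR h11) h12
    obtain ⟨t1, t2, t3, t4, t5, t6⟩ := JJ_spec hv ha (hR h21) h22
    refine ⟨union_subset s3 t3, mem_union_left _ s4, mem_union_left _ s5, mem_union_left _ s6,
      mem_union_right _ t6, ?_, ?_, ?_, ?_⟩
    · have := card_union_le (vs q.1.2) (vs q.2.2)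
      omega
    · have := card_le_card (subset_union_left (s₁ := vs q.1.2) (s₂ := vs q.2.2))
      omega
    · intro F hF z hz
      exact mem_union_left _ (mem_vs.2 ⟨F, hF, hz⟩)
    · intro F hF z hz
      exact mem_union_right _ (mem_vs.2 ⟨F, hF, hz⟩)
  -- fiber over the union
  set TT : Finset (Finset V) := (U.powerset).filter (fun T => v ∈ T ∧ a ∈ T ∧ T.card < 2 * K + 7 ∧
    3 ≤ T.card) with hTT
  have hmaps : ∀ q ∈ Q, (vs q.1.2 ∪ vs q.2.2) ∈ TT := by
    intro q hq
    obtain ⟨s1, s2, s3, s4, s5, s6, s7, -⟩ := hspec q hq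
    rw [hTT, mem_filter, mem_powerset]
    exact ⟨s1, s2, s3, s6, s7⟩
  rw [← sum_fiberwise_of_maps_to hmaps]
  have hfib : ∀ T ∈ TT, ∑ q ∈ Q with (vs q.1.2 ∪ vs q.2.2) = T, h (vs q.1.2 ∪ vs q.2.2).card ≤
      (cK T.card : ℝ) * h T.card := by
    intro T hT
    have h1 : ∑ q ∈ Q with (vs q.1.2 ∪ vs q.2.2) = T, h (vs q.1.2 ∪ vs q.2.2).card =
        ∑ q ∈ Q with (vs q.1.2 ∪ vs q.2.2) = T, h T.card := by
      apply sum_congr rfl
      intro q hq
      rw [(mem_filter.1 hq).2]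
    rw [h1, sum_const, nsmul_eq_mul]
    apply mul_le_mul_of_nonneg_right _ (hh _)
    have h2 : (Q.filter (fun q => (vs q.1.2 ∪ vs q.2.2) = T)).card ≤
        (((T ×ˢ T.powerset.powerset) ×ˢ (T ×ˢ T.powerset.powerset))).card := by
      apply card_le_card_of_injOn (fun q => ((q.1.1, q.1.2), (q.2.1, q.2.2)))
      · intro q hq
        rw [mem_coe, mem_filter] at hq
        obtain ⟨s1, s2, s3, s4, s5, s6, s7, s8, s9⟩ := hspec q hq.1
        rw [hq.2] at s4 s5 s8 s9
        simp only [mem_coe, mem_product, mem_powerset]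
        refine ⟨⟨s4, fun F hF => mem_powerset.2 (s8 F hF)⟩, s5,
          fun F hF => mem_powerset.2 (s9 F hF)⟩
      · rintro ⟨⟨x1, D1⟩, ⟨x2, D2⟩⟩ _ ⟨⟨x3, D3⟩, ⟨x4, D4⟩⟩ _ he
        simp only [Prod.mk.injEq] at he
        obtain ⟨⟨rfl, rfl⟩, rfl, rfl⟩ := he
        rfl
    have h3 : (((T ×ˢ T.powerset.powerset) ×ˢ (T ×ˢ T.powerset.powerset))).card = cK T.card := by
      rw [card_product, card_product, card_powerset, card_powerset]
      unfold cK
      ring
    rw [h3] at h2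
    exact_mod_cast h2
  refine (sum_le_sum hfib).trans ?_
  -- fiber over the cardinality
  have hmaps2 : ∀ T ∈ TT, T.card ∈ range (2 * K + 7) := by
    intro T hT
    rw [hTT, mem_filter] at hT
    rw [mem_range]; exact hT.2.2.2.1
  rw [← sum_fiberwise_of_maps_to hmaps2]
  apply sum_le_sum
  intro t _
  have h1 : ∑ T ∈ TT with T.card = t, (cK T.card : ℝ) * h T.card =
      ∑ T ∈ TT with T.card = t, (cK t : ℝ) * h t := by
    apply sum_congr rfl
    intro T hT
    rw [(mem_filter.1 hT).2]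
  rw [h1, sum_const, nsmul_eq_mul]
  by_cases ht : 3 ≤ t
  · rw [if_pos ht]
    have h2 : (TT.filter (fun T => T.card = t)).card ≤ U.card ^ (t - 2) := by
      have h3 : (TT.filter (fun T => T.card = t)).card ≤
          (powersetCard (t - 2) (U \ {v, a})).card := by
        apply card_le_card_of_injOn (fun T => T \ {v, a})
        · intro T hT
          rw [mem_coe, mem_filter, hTT, mem_filter, mem_powerset] at hT
          obtain ⟨⟨q1, q2, q3, -⟩, q5⟩ := hT
          rw [mem_coe, mem_powersetCard]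
          refine ⟨sdiff_subset_sdiff q1 le_rfl, ?_⟩
          have hsub : ({v, a} : Finset V) ⊆ T := by
            intro z hz
            simp only [mem_insert, mem_singleton] at hz
            rcases hz with rfl | rfl
            · exact q2
            · exact q3
          rw [card_sdiff_of_subset hsub, q5, card_pair hva]
        · intro T hT T' hT' he
          rw [mem_coe, mem_filter, hTT, mem_filter, mem_powerset] at hT hT'
          obtain ⟨⟨q1, q2, q3, -⟩, q5⟩ := hT
          obtain ⟨⟨r1, r2, r3, -⟩, r5⟩ := hT'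
          simp only at he
          ext z
          by_cases hz : z ∈ ({v, a} : Finset V)
          · simp only [mem_insert, mem_singleton] at hz
            rcases hz with rfl | rfl
            · exact ⟨fun _ => r2, fun _ => q2⟩
            · exact ⟨fun _ => r3, fun _ => q3⟩
          · have e1 : z ∈ T ↔ z ∈ T \ {v, a} := by rw [mem_sdiff]; tauto
            have e2 : z ∈ T' ↔ z ∈ T' \ {v, a} := by rw [mem_sdiff]; tauto
            rw [e1, e2, he]
      refine h3.trans ?_
      rw [card_powersetCard]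
      refine (Nat.choose_le_pow _ _).trans ?_
      exact Nat.pow_le_pow_left (card_le_card sdiff_subset) _
    have h3 : ((TT.filter (fun T => T.card = t)).card : ℝ) ≤ (U.card : ℝ) ^ (t - 2) := by
      exact_mod_cast h2
    have h4 : 0 ≤ (cK t : ℝ) * h t := mul_nonneg (Nat.cast_nonneg _) (hh t)
    calc ((TT.filter (fun T => T.card = t)).card : ℝ) * ((cK t : ℝ) * h t)
        ≤ (U.card : ℝ) ^ (t - 2) * ((cK t : ℝ) * h t) := mul_le_mul_of_nonneg_right h3 h4
      _ = (cK t : ℝ) * ((U.card : ℝ) ^ (t - 2) * h t) := by ring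
  · rw [if_neg ht]
    have : TT.filter (fun T => T.card = t) = ∅ := by
      rw [filter_eq_empty_iff]
      intro T hT he
      rw [hTT, mem_filter] at hT
      omega
    rw [this]; simp

/-- seed relation: the cycle `v a x` bounds a disk in `Z` with `K` interior vertices -/
def Sd (K : ℕ) (v : V) (Z : Finset (Finset V)) (a x : V) : Prop :=
  ∃ (W : Finset V) (D : Finset (Finset V)), D ⊆ Z ∧ W.card = K + 3 ∧ Fill 0 v [a] x W D

/-- symmetrised seed relation -/
def Sd' (K : ℕ) (v : V) (Z : Finset (Finset V)) (a x : V) : Prop :=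
  Sd K v Z a x ∨ Sd K v Z x a

theorem Sd'_symm {K : ℕ} {v : V} {Z : Finset (Finset V)} (a x : V) (h : Sd' K v Z a x) :
    Sd' K v Z x a := h.symm

theorem Sd'_mono {K : ℕ} {v : V} {Z Z' : Finset (Finset V)} (hZ : Z ⊆ Z') (a x : V)
    (h : Sd' K v Z a x) : Sd' K v Z' a x := by
  rcases h with ⟨W, D, h1, h2⟩ | ⟨W, D, h1, h2⟩
  · exact Or.inl ⟨W, D, h1.trans hZ, h2⟩
  · exact Or.inr ⟨W, D, h1.trans hZ, h2⟩

/-- number of disks on the apex `x` -/
noncomputable def kx (U : Finset V) (v a : V) (K : ℕ) (Z : Finset (Finset V)) (x : V) : ℝ :=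
  ∑ D ∈ JJ U v a K x, ind (fun Z => D ⊆ Z) Z

theorem kx_bound (U : Finset V) (v a : V) (K : ℕ) (Z : Finset (Finset V)) (x : V)
    (P : Prop) [Decidable P] (hP : (∃ D ∈ JJ U v a K x, D ⊆ Z) → P) :
    kx U v a K Z x - (kx U v a K Z x ^ 2 - kx U v a K Z x) ≤ if P then 1 else 0 := by
  classical
  have h1 : kx U v a K Z x = ((JJ U v a K x).filter (fun D => D ⊆ Z)).card := by
    unfold kx
    rw [card_filter]
    push_cast
    apply sum_congr rfl
    intro D _
    by_cases h : D ⊆ Z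
    · rw [ind_pos (A := fun Z => D ⊆ Z) h, if_pos h]
    · rw [ind_neg (A := fun Z => D ⊆ Z) h, if_neg h]
  rw [h1]
  rcases Nat.eq_zero_or_pos ((JJ U v a K x).filter (fun D => D ⊆ Z)).card with h | h
  · rw [h]; split_ifs <;> norm_num
  · have hp : P := by
      obtain ⟨D, hD⟩ := card_pos.1 h
      rw [mem_filter] at hD
      exact hP ⟨D, hD⟩
    rw [if_pos hp]
    have : (1 : ℝ) ≤ ((JJ U v a K x).filter (fun D => D ⊆ Z)).card := by exact_mod_cast h
    nlinarith

theorem ind_union (D D' : Finset (Finset V)) (Z : Finset (Finset V)) :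
    ind (fun Z => D ⊆ Z) Z * ind (fun Z => D' ⊆ Z) Z = ind (fun Z => D ∪ D' ⊆ Z) Z := by
  by_cases h : D ⊆ Z
  · by_cases h' : D' ⊆ Z
    · rw [ind_pos (A := fun Z => D ⊆ Z) h, ind_pos (A := fun Z => D' ⊆ Z) h',
        ind_pos (A := fun Z => D ∪ D' ⊆ Z) (union_subset h h'), one_mul]
    · rw [ind_neg (A := fun Z => D' ⊆ Z) h',
        ind_neg (A := fun Z => D ∪ D' ⊆ Z) (fun hh => h' (subset_union_right.trans hh)), mul_zero]
  · rw [ind_neg (A := fun Z => D ⊆ Z) h,
      ind_neg (A := fun Z => D ∪ D' ⊆ Z) (fun hh => h (subset_union_left.trans hh)), zero_mul]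

theorem arith_one {n : ℕ} {c y : ℝ} (hc0 : 0 ≤ c) (hc1 : c ≤ 1) (hy : 0 < y) (hyn : y ^ 2 = n)
    {t : ℕ} (ht : 3 ≤ t) : (n : ℝ) ^ (t - 2) * (c / y) ^ (2 * t - 5) ≤ y := by
  obtain ⟨s, rfl⟩ : ∃ s, t = s + 3 := ⟨t - 3, by omega⟩
  rw [show s + 3 - 2 = s + 1 by omega, show 2 * (s + 3) - 5 = 2 * s + 1 by omega, ← hyn]
  have h1 : (y ^ 2) ^ (s + 1) * (c / y) ^ (2 * s + 1) = y * c ^ (2 * s + 1) := by
    rw [div_pow, ← pow_mul]
    field_simp
    ring
  rw [h1]
  have : c ^ (2 * s + 1) ≤ 1 := pow_le_one₀ hc0 hc1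
  nlinarith

theorem arith_two {n : ℕ} {c y : ℝ} (hc0 : 0 ≤ c) (hc1 : c ≤ 1) (hy : 0 < y) (hyn : y ^ 2 = n)
    {t : ℕ} (ht : 3 ≤ t) : (n : ℝ) ^ (t - 2) * (c / y) ^ (2 * t - 4) ≤ 1 := by
  obtain ⟨s, rfl⟩ : ∃ s, t = s + 3 := ⟨t - 3, by omega⟩
  rw [show s + 3 - 2 = s + 1 by omega, show 2 * (s + 3) - 4 = 2 * (s + 1) by omega, ← hyn]
  have h1 : (y ^ 2) ^ (s + 1) * (c / y) ^ (2 * (s + 1)) = c ^ (2 * (s + 1)) := by
    rw [div_pow, ← pow_mul]
    field_simp
  rw [h1]
  exact pow_le_one₀ hc0 hc1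

/-- the constant in the second moment bounds -/
def CK (K : ℕ) : ℕ := (2 * K + 7) * cK (2 * K + 7)

theorem sum_bound {n K : ℕ} (h : ℕ → ℝ) {B : ℝ} (hB : 0 ≤ B)
    (hb : ∀ t, 3 ≤ t → (n : ℝ) ^ (t - 2) * h t ≤ B) :
    (∑ t ∈ range (2 * K + 7), if 3 ≤ t then (cK t : ℝ) * ((n : ℝ) ^ (t - 2) * h t) else 0) ≤
      CK K * B := by
  have h1 : ∀ t ∈ range (2 * K + 7),
      (if 3 ≤ t then (cK t : ℝ) * ((n : ℝ) ^ (t - 2) * h t) else 0) ≤
      (cK (2 * K + 7) : ℝ) * B := by
    intro t ht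
    rw [mem_range] at ht
    have h2 : (cK t : ℝ) ≤ cK (2 * K + 7) := by exact_mod_cast cK_mono ht.le
    by_cases h3 : 3 ≤ t
    · rw [if_pos h3]
      calc (cK t : ℝ) * ((n : ℝ) ^ (t - 2) * h t) ≤ (cK t : ℝ) * B :=
            mul_le_mul_of_nonneg_left (hb t h3) (Nat.cast_nonneg _)
        _ ≤ (cK (2 * K + 7) : ℝ) * B := mul_le_mul_of_nonneg_right h2 hB
    · rw [if_neg h3]; positivity
  refine (sum_le_sum h1).trans (le_of_eq ?_)
  rw [sum_const, card_range, nsmul_eq_mul]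
  unfold CK
  push_cast
  ring

/-- **second moment bound** for the seed degree of `a` in `R` -/
theorem seed_degree {U : Finset V} {v a : V} {R : Finset V} {K : ℕ} (hv : v ∈ U) (ha : a ∈ U)
    (hva : v ≠ a) (hR : R ⊆ U) {c y : ℝ} (hc0 : 0 < c)
    (hc1 : c ≤ 1) (hy : 0 < y) (hyn : y ^ 2 = (U.card : ℝ)) {P0 : ℝ}
    (hp0 : 0 ≤ c / y) (hp1 : c / y ≤ 1)
    (hP0 : P0 = ((JS U v a R K).card : ℝ) * (c / y) ^ (2 * K + 1)) (hpos : 0 < P0) :
    (bern (powersetCard 3 U) (c / y) hp0 hp1).P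
      (fun Z => ((nb (Sd' K v Z) R a).card : ℝ) < P0 / 4) ≤
      4 * (CK K * y) / P0 ^ 2 + 4 * CK K / P0 := by
  classical
  set p := c / y with hp
  set μ := bern (powersetCard 3 U) p hp0 hp1 with hμ
  have hsp : ∀ j ∈ JS U v a R K, Fill 0 v [a] j.1 (vs j.2) j.2 ∧ (vs j.2).card = K + 3 ∧
      vs j.2 ⊆ U := by
    intro j hj
    unfold JS at hj
    rw [mem_sigma] at hj
    obtain ⟨h1, h2, h3, -⟩ := JJ_spec hv ha (hR hj.1) hj.2
    exact ⟨h1, h2, h3⟩
  have hDcard : ∀ j ∈ JS U v a R K, j.2.card = 2 * K + 1 := by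
    intro j hj
    obtain ⟨h1, h2, -⟩ := hsp j hj
    have := h1.card
    simp only [List.length_cons, List.length_nil] at this
    omega
  have hDsub : ∀ j ∈ JS U v a R K, j.2 ⊆ powersetCard 3 U := by
    intro j hj F hF
    obtain ⟨h1, h2, h3⟩ := hsp j hj
    rw [mem_powersetCard]
    exact ⟨(h1.face F hF).1.trans h3, (h1.face F hF).2⟩
  -- the count
  set X : Finset (Finset V) → ℝ := fun Z => ∑ j ∈ JS U v a R K, ind (fun Z => j.2 ⊆ Z) Z with hX
  have hXk : ∀ Z, X Z = ∑ x ∈ R, kx U v a K Z x := by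
    intro Z
    rw [hX]
    simp only
    unfold JS
    rw [sum_sigma]
    rfl
  have hEX : μ.E X = P0 := by
    rw [hX, E_sum, hP0]
    have : ∀ j ∈ JS U v a R K, μ.E (ind (fun Z => j.2 ⊆ Z)) = p ^ (2 * K + 1) := by
      intro j hj
      rw [hμ, bern_E, Ex_subset p _ (hDsub j hj), hDcard j hj]
    rw [sum_congr rfl this, sum_const, nsmul_eq_mul]
  -- second moment
  have hU2 : ∀ q ∈ JS U v a R K ×ˢ JS U v a R K,
      μ.E (fun Z => ind (fun Z => q.1.2 ⊆ Z) Z * ind (fun Z => q.2.2 ⊆ Z) Z) =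
        p ^ (q.1.2 ∪ q.2.2).card := by
    intro q hq
    rw [mem_product] at hq
    have h1 : ∀ Z, ind (fun Z => q.1.2 ⊆ Z) Z * ind (fun Z => q.2.2 ⊆ Z) Z =
        ind (fun Z => q.1.2 ∪ q.2.2 ⊆ Z) Z := fun Z => ind_union _ _ Z
    rw [E_congr _ (fun Z _ => h1 Z), hμ, bern_E]
    exact Ex_subset p _ (union_subset (hDsub _ hq.1) (hDsub _ hq.2))
  set Q1 := (JS U v a R K ×ˢ JS U v a R K).filter (fun q => (q.1.2 ∩ q.2.2).Nonempty) with hQ1
  set Q2 := (JS U v a R K ×ˢ JS U v a R K).filter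
    (fun q => q.1.1 = q.2.1 ∧ q.1.2 ≠ q.2.2) with hQ2
  have hS1 : ∑ q ∈ Q1, p ^ (q.1.2 ∪ q.2.2).card ≤ CK K * y := by
    have h1 : ∀ q ∈ Q1, p ^ (q.1.2 ∪ q.2.2).card ≤
        (fun t => p ^ (2 * t - 5)) (vs q.1.2 ∪ vs q.2.2).card := by
      intro q hq
      rw [hQ1, mem_filter, mem_product] at hq
      obtain ⟨a1, a2, -⟩ := hsp _ hq.1.1
      obtain ⟨b1, b2, -⟩ := hsp _ hq.1.2
      have := overlap a1 b1 a2 b2 hq.2
      apply pow_le_pow_of_le_one hp0 hp1
      omega
    refine (sum_le_sum h1).trans ?_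
    refine (pair_sum hv ha hva hR (fun t => p ^ (2 * t - 5)) (fun t => pow_nonneg hp0 _) Q1
      (filter_subset _ _)).trans ?_
    exact sum_bound _ hy.le (fun t ht => arith_one hc0.le hc1 hy hyn ht)
  have hS2 : ∑ q ∈ Q2, p ^ (q.1.2 ∪ q.2.2).card ≤ CK K * 1 := by
    have h1 : ∀ q ∈ Q2, p ^ (q.1.2 ∪ q.2.2).card ≤
        (fun t => p ^ (2 * t - 4)) (vs q.1.2 ∪ vs q.2.2).card := by
      intro q hq
      rw [hQ2, mem_filter, mem_product] at hq
      obtain ⟨a1, a2, -⟩ := hsp _ hq.1.1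
      obtain ⟨b1, b2, -⟩ := hsp _ hq.1.2
      rw [← hq.2.1] at b1
      have := overlap_same a1 b1 a2 b2 hq.2.2
      apply pow_le_pow_of_le_one hp0 hp1
      omega
    refine (sum_le_sum h1).trans ?_
    refine (pair_sum hv ha hva hR (fun t => p ^ (2 * t - 4)) (fun t => pow_nonneg hp0 _) Q2
      (filter_subset _ _)).trans ?_
    exact sum_bound _ zero_le_one (fun t ht => arith_two hc0.le hc1 hy hyn ht)
  have hEX2 : μ.E (fun Z => X Z ^ 2) ≤ (μ.E X) ^ 2 + CK K * y := by
    have h1 : ∀ Z, X Z ^ 2 = ∑ q ∈ JS U v a R K ×ˢ JS U v a R K,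
        ind (fun Z => q.1.2 ⊆ Z) Z * ind (fun Z => q.2.2 ⊆ Z) Z := by
      intro Z
      rw [_root_.sq, hX]
      simp only
      rw [sum_mul_sum, sum_product]
    rw [E_congr _ (fun Z _ => h1 Z), E_sum, sum_congr rfl hU2, hEX]
    have h2 : ∀ q ∈ JS U v a R K ×ˢ JS U v a R K, p ^ (q.1.2 ∪ q.2.2).card ≤
        p ^ (2 * K + 1) * p ^ (2 * K + 1) +
        if (q.1.2 ∩ q.2.2).Nonempty then p ^ (q.1.2 ∪ q.2.2).card else 0 := by
      intro q hq
      rw [mem_product] at hq
      by_cases h : (q.1.2 ∩ q.2.2).Nonempty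
      · rw [if_pos h]
        have : 0 ≤ p ^ (2 * K + 1) * p ^ (2 * K + 1) := by positivity
        linarith
      · rw [if_neg h, add_zero]
        have h3 : Disjoint q.1.2 q.2.2 := by
          rw [disjoint_iff_inter_eq_empty]
          exact not_nonempty_iff_eq_empty.1 h
        rw [card_union_of_disjoint h3, hDcard _ hq.1, hDcard _ hq.2, pow_add]
    refine (sum_le_sum h2).trans ?_
    rw [sum_add_distrib, ← sum_filter, sum_const, card_product, nsmul_eq_mul, hP0]
    push_cast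
    have h4 : ((JS U v a R K).card : ℝ) * (JS U v a R K).card * (p ^ (2 * K + 1) * p ^ (2 * K + 1))
        = (((JS U v a R K).card : ℝ) * p ^ (2 * K + 1)) ^ 2 := by ring
    rw [h4]
    linarith
  -- pairs of disks on the same triangle
  set Y : Finset (Finset V) → ℝ := fun Z => ∑ q ∈ Q2,
    ind (fun Z => q.1.2 ⊆ Z) Z * ind (fun Z => q.2.2 ⊆ Z) Z with hY
  have hY0 : ∀ Z, 0 ≤ Y Z := fun Z => sum_nonneg (fun q _ =>
    mul_nonneg (ind_nonneg _ _) (ind_nonneg _ _))
  have hEY : μ.E Y ≤ CK K := by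
    rw [hY, E_sum]
    have : ∀ q ∈ Q2, μ.E (fun Z => ind (fun Z => q.1.2 ⊆ Z) Z * ind (fun Z => q.2.2 ⊆ Z) Z) =
        p ^ (q.1.2 ∪ q.2.2).card := fun q hq => hU2 q (mem_filter.1 hq).1
    rw [sum_congr rfl this]
    linarith
  have hYk : ∀ Z, Y Z = ∑ x ∈ R, (kx U v a K Z x ^ 2 - kx U v a K Z x) := by
    intro Z
    rw [hY]
    simp only
    rw [hQ2, sum_filter, sum_product]
    unfold JS
    rw [sum_sigma]
    apply sum_congr rfl
    intro x hx
    have h1 : ∀ D ∈ JJ U v a K x, (∑ j ∈ R.sigma (fun x => JJ U v a K x),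
        if (⟨x, D⟩ : (_ : V) × Finset (Finset V)).1 = j.1 ∧
          (⟨x, D⟩ : (_ : V) × Finset (Finset V)).2 ≠ j.2 then
          ind (fun Z => D ⊆ Z) Z * ind (fun Z => j.2 ⊆ Z) Z else 0) =
        ind (fun Z => D ⊆ Z) Z * kx U v a K Z x - ind (fun Z => D ⊆ Z) Z := by
      intro D hD
      rw [sum_sigma]
      rw [sum_eq_single x]
      · simp only [true_and]
        unfold kx
        have h2 : ∀ D' ∈ JJ U v a K x, (if D ≠ D' then
            ind (fun Z => D ⊆ Z) Z * ind (fun Z => D' ⊆ Z) Z else 0) =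
            ind (fun Z => D ⊆ Z) Z * ind (fun Z => D' ⊆ Z) Z -
            (if D' = D then ind (fun Z => D ⊆ Z) Z else 0) := by
          intro D' _
          by_cases h : D' = D
          · subst h
            rw [if_neg (by simp), if_pos rfl]
            by_cases h3 : D' ⊆ Z
            · rw [ind_pos (A := fun Z => D' ⊆ Z) h3]; norm_num
            · rw [ind_neg (A := fun Z => D' ⊆ Z) h3]; norm_num
          · rw [if_pos (Ne.symm h), if_neg h, sub_zero]
        rw [sum_congr rfl h2, sum_sub_distrib, ← mul_sum, sum_ite_eq' _ D, if_pos hD]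
      · intro x' _ hne
        apply sum_eq_zero
        intro D' _
        rw [if_neg]
        rintro ⟨h, -⟩
        exact hne h.symm
      · intro h; exact absurd hx h
    rw [sum_congr rfl h1, sum_sub_distrib, ← sum_mul]
    show kx U v a K Z x * kx U v a K Z x - kx U v a K Z x = _
    ring
  -- comparison with the degree
  have hdeg : ∀ Z, X Z - Y Z ≤ ((nb (Sd' K v Z) R a).card : ℝ) := by
    intro Z
    rw [hXk, hYk, ← sum_sub_distrib]
    have h1 : ((nb (Sd' K v Z) R a).card : ℝ) = ∑ x ∈ R, if Sd' K v Z a x then 1 else 0 := by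
      unfold nb
      rw [card_filter]
      push_cast
      apply sum_congr rfl
      intro x _
      congr
    rw [h1]
    apply sum_le_sum
    intro x hx
    apply kx_bound
    rintro ⟨D, hD, hDZ⟩
    obtain ⟨q1, q2, -⟩ := JJ_spec hv ha (hR hx) hD
    exact Or.inl ⟨vs D, D, hDZ, q2, q1⟩
  have c1 := μ.cheb_lower X (V := CK K * y) (t := P0 / 2) (by positivity) hEX2
  have c2 := μ.markov (X := Y) (fun Z _ => hY0 Z) (c := P0 / 4) (by positivity)
  rw [hEX] at c1
  have c3 := μ.P_or_le (fun Z => X Z ≤ P0 - P0 / 2) (fun Z => P0 / 4 ≤ Y Z)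
  have c4 : μ.P (fun Z => ((nb (Sd' K v Z) R a).card : ℝ) < P0 / 4) ≤
      μ.P (fun Z => X Z ≤ P0 - P0 / 2 ∨ P0 / 4 ≤ Y Z) := by
    apply P_mono
    intro Z _ h
    by_contra hcon
    push Not at hcon
    have := hdeg Z
    linarith [hcon.1, hcon.2]
  have c5 : μ.E Y / (P0 / 4) ≤ 4 * CK K / P0 := by
    rw [div_div_eq_mul_div, div_le_div_iff_of_pos_right hpos]
    linarith
  have c6 : CK K * y / (P0 / 2) ^ 2 = 4 * (CK K * y) / P0 ^ 2 := by
    field_simp
    ring
  rw [c6] at c1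
  linarith

end Pool.Agent.H38.SC
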