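import Pool.Agent.H38.SC.Defs

/-!
# Paths in realisations
-/

set_option autoImplicit false

namespace Pool.Agent.H38.SC

open unitInterval

theorem contI : ContractibleSpace I := (convex_Icc (0 : ℝ) 1).contractibleSpace ⟨0, by simp⟩

section general

variable {X : Type*} [TopologicalSpace X]

/-- filling a square -/
theorem square (H : C(I × I, X)) {x y z w : X} (α : Path x z) (γ : Path z w) (δ : Path x y)
    (β : Path y w) (hα : ∀ u, α u = H (0, σ u)) (hγ : ∀ t, γ t = H (t, 0))
    (hδ : ∀ t, δ t = H (t, 1)) (hβ : ∀ u, β u = H (1, σ u)) :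
    (Path.Homotopic.Quotient.mk α).trans (Path.Homotopic.Quotient.mk γ) = (Path.Homotopic.Quotient.mk δ).trans (Path.Homotopic.Quotient.mk β) := by
  have := contI
  obtain rfl : x = H (0, 1) := by rw [← α.source, hα]; simp
  obtain rfl : z = H (0, 0) := by rw [← α.target, hα]; simp
  obtain rfl : y = H (1, 1) := by rw [← β.source, hβ]; simp
  obtain rfl : w = H (1, 0) := by rw [← β.target, hβ]; simp
  let α' : Path ((0, 1) : I × I) (0, 0) :=
    { toFun := fun u => (0, σ u), continuous_toFun := by fun_prop, source' := by simp,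
      target' := by simp }
  let γ' : Path ((0, 0) : I × I) (1, 0) :=
    { toFun := fun u => (u, 0), continuous_toFun := by fun_prop, source' := by simp,
      target' := by simp }
  let δ' : Path ((0, 1) : I × I) (1, 1) :=
    { toFun := fun u => (u, 1), continuous_toFun := by fun_prop, source' := by simp,
      target' := by simp }
  let β' : Path ((1, 1) : I × I) (1, 0) :=
    { toFun := fun u => (1, σ u), continuous_toFun := by fun_prop, source' := by simp,
      target' := by simp }
  have h : (α'.trans γ').Homotopic (δ'.trans β') := SimplyConnectedSpace.paths_homotopic _ _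
  have e1 : α = α'.map H.continuous := by ext u; exact hα u
  have e2 : γ = γ'.map H.continuous := by ext u; exact hγ u
  have e3 : δ = δ'.map H.continuous := by ext u; exact hδ u
  have e4 : β = β'.map H.continuous := by ext u; exact hβ u
  rw [e1, e2, e3, e4, ← Path.Homotopic.Quotient.mk_trans, ← Path.Homotopic.Quotient.mk_trans, ← Path.map_trans,
    ← Path.map_trans]
  exact Path.Homotopic.Quotient.eq.2 (h.map H)

/-- affine path in the interval -/
theorem exists_between_path {s s' : I} (h : s ≤ s') : ∃ r : Path s s', ∀ u, r u ∈ Set.Icc s s' := by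
  refine ⟨{ toFun := fun u => ⟨(1 - (u : ℝ)) * s + u * s', ?_⟩, continuous_toFun := ?_,
            source' := ?_, target' := ?_ }, fun u => ?_⟩
  · have h1 := u.2.1; have h2 := u.2.2; have h3 := s.2.1; have h4 := s'.2.1
    have h5 := s.2.2; have h6 := s'.2.2
    constructor <;> nlinarith
  · fun_prop
  · ext; simp
  · ext; simp
  · have h1 := u.2.1; have h2 := u.2.2
    have h3 : (s : ℝ) ≤ s' := h
    constructor
    · change (s : ℝ) ≤ (1 - (u : ℝ)) * s + u * s'
      nlinarith
    · change (1 - (u : ℝ)) * s + u * s' ≤ (s' : ℝ)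
      nlinarith

theorem transport_aux {v : X} (τ : ∀ z : X, Path.Homotopic.Quotient v z)
    (hloc : ∀ z : X, ∃ U : Set X, IsOpen U ∧ z ∈ U ∧ ∀ (a b : X) (γ : Path a b), (∀ t, γ t ∈ U) →
      (τ a).trans (Path.Homotopic.Quotient.mk γ) = τ b) (g : C(I, X)) (p : Path (0 : I) 1) :
    (τ (g 0)).trans (Path.Homotopic.Quotient.mk (p.map g.continuous)) = τ (g 1) := by
  have := contI
  choose U hU1 hU2 hU3 using hloc
  obtain ⟨t, ht0, hmono, ⟨N, hN⟩, ht⟩ := exists_monotone_Icc_subset_open_cover_unitInterval
    (c := fun z => g ⁻¹' (U z)) (fun z => (hU1 z).preimage g.continuous)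
    (fun s _ => Set.mem_iUnion.2 ⟨g s, hU2 (g s)⟩)
  have key : ∀ n, ∀ p : Path (0 : I) (t n),
      (τ (g 0)).trans (Path.Homotopic.Quotient.mk (p.map g.continuous)) = τ (g (t n)) := by
    intro n
    induction n with
    | zero =>
      rw [ht0]
      intro p
      have h1 : p.Homotopic (Path.refl 0) := SimplyConnectedSpace.paths_homotopic _ _
      have h2 : Path.Homotopic.Quotient.mk (p.map g.continuous) = Path.Homotopic.Quotient.mk (Path.refl (g 0)) :=
        Path.Homotopic.Quotient.eq.2 (h1.map g)
      rw [h2, Path.Homotopic.Quotient.mk_refl, Path.Homotopic.Quotient.trans_refl]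
    | succ n ih =>
      intro p
      obtain ⟨r, hr⟩ := exists_between_path (hmono (Nat.le_succ n))
      obtain ⟨q⟩ : Nonempty (Path (0 : I) (t n)) := ⟨PathConnectedSpace.somePath _ _⟩
      have h1 : p.Homotopic (q.trans r) := SimplyConnectedSpace.paths_homotopic _ _
      have h2 : Path.Homotopic.Quotient.mk (p.map g.continuous) =
          Path.Homotopic.Quotient.mk ((q.trans r).map g.continuous) := Path.Homotopic.Quotient.eq.2 (h1.map g)
      obtain ⟨z, hz⟩ := ht n
      rw [h2, Path.map_trans, Path.Homotopic.Quotient.mk_trans, ← Path.Homotopic.Quotient.trans_assoc, ih q]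
      exact hU3 z _ _ _ (fun u => hz (hr u))
  have h1 := key N
  rw [hN N le_rfl] at h1
  exact h1 p

theorem transport {v : X} (τ : ∀ z : X, Path.Homotopic.Quotient v z)
    (hloc : ∀ z : X, ∃ U : Set X, IsOpen U ∧ z ∈ U ∧ ∀ (a b : X) (γ : Path a b), (∀ t, γ t ∈ U) →
      (τ a).trans (Path.Homotopic.Quotient.mk γ) = τ b) {a b : X} (γ : Path a b) :
    (τ a).trans (Path.Homotopic.Quotient.mk γ) = τ b := by
  obtain ⟨g, rfl, rfl⟩ := γ
  have h := transport_aux τ hloc g
    { toFun := fun u => u, continuous_toFun := continuous_id, source' := rfl, target' := rfl }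
  exact h

theorem simplyConnected_of_transport {v : X} (τ : ∀ z : X, Path.Homotopic.Quotient v z)
    (hloc : ∀ z : X, ∃ U : Set X, IsOpen U ∧ z ∈ U ∧ ∀ (a b : X) (γ : Path a b), (∀ t, γ t ∈ U) →
      (τ a).trans (Path.Homotopic.Quotient.mk γ) = τ b) : SimplyConnectedSpace X := by
  rw [simply_connected_iff_paths_homotopic']
  constructor
  · have hj : ∀ z, Joined v z := fun z => by
      induction τ z with | mk p => exact ⟨p⟩
    exact ⟨⟨v⟩, fun x y => (hj x).symm.trans (hj y)⟩
  · intro x y p q
    apply Path.Homotopic.Quotient.exact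
    have h1 := transport τ hloc p
    have h2 := transport τ hloc q
    have h3 : (τ x).trans (Path.Homotopic.Quotient.mk p) = (τ x).trans (Path.Homotopic.Quotient.mk q) := h1.trans h2.symm
    have h4 := congrArg (fun r => (τ x).symm.trans r) h3
    simpa [← Path.Homotopic.Quotient.trans_assoc] using h4

end general

end Pool.Agent.H38.SC
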