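import Pool.Agent.H38.SC.Prob

/-!
# Concentration of the number of weak pairs
-/

set_option autoImplicit false

namespace Pool.Agent.H38.SC

open Finset EF

section

variable {ι κ V : Type*} [DecidableEq V]

/-- pairwise independence inside each row, independence of different rows -/
structure Rows (μ : EF ι) (P R : Finset V) (ρ : V → ι → Finset V) : Prop where
  sub : ∀ a ∈ P, ∀ i, ρ a i ⊆ R
  pair : ∀ a ∈ P, ∀ x ∈ R, ∀ x' ∈ R, x ≠ x' →
    μ.E (fun i => ind (fun i => x ∈ ρ a i) i * ind (fun i => x' ∈ ρ a i) i) =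
      μ.P (fun i => x ∈ ρ a i) * μ.P (fun i => x' ∈ ρ a i)
  rows : ∀ a ∈ P, ∀ a' ∈ P, a ≠ a' → ∀ f g : Finset V → ℝ,
    μ.E (fun i => f (ρ a i) * g (ρ a' i)) = μ.E (fun i => f (ρ a i)) * μ.E (fun i => g (ρ a' i))

omit [DecidableEq V] in
theorem Rows.mono {μ : EF ι} {P P' R : Finset V} {ρ : V → ι → Finset V} (h : Rows μ P R ρ)
    (hP : P' ⊆ P) : Rows μ P' R ρ :=
  ⟨fun a ha => h.sub a (hP ha), fun a ha => h.pair a (hP ha),
    fun a ha a' ha' => h.rows a (hP ha) a' (hP ha')⟩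

variable (μ : EF ι) (ν : EF κ) {R P Q : Finset V} {ρ : V → ι → Finset V}
  {σ : V → κ → Finset V}

theorem weak_prob (hρ : Rows μ P R ρ) (hσ : Rows ν Q R σ) {a b : V} (ha : a ∈ P) (hb : b ∈ Q)
    {s : ℝ} (hs : 0 < s)
    (hμ : 2 * s ≤ ∑ x ∈ R, μ.P (fun i => x ∈ ρ a i) * ν.P (fun j => x ∈ σ b j)) :
    (μ.prod ν).P (fun ω => ((ρ a ω.1 ∩ σ b ω.2).card : ℝ) < s) ≤ 2 / s := by
  obtain ⟨m, hm⟩ : ∃ m, m = ∑ x ∈ R, μ.P (fun i => x ∈ ρ a i) * ν.P (fun j => x ∈ σ b j) :=
    ⟨_, rfl⟩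
  rw [← hm] at hμ
  set X : ι × κ → ℝ := fun ω => ∑ x ∈ R,
    ind (fun i => x ∈ ρ a i) ω.1 * ind (fun j => x ∈ σ b j) ω.2 with hX
  have hXcard : ∀ ω, X ω = ((ρ a ω.1 ∩ σ b ω.2).card : ℝ) := by
    intro ω
    rw [hX]
    simp only
    have : ∀ x ∈ R, ind (fun i => x ∈ ρ a i) ω.1 * ind (fun j => x ∈ σ b j) ω.2
        = if x ∈ ρ a ω.1 ∩ σ b ω.2 then 1 else 0 := by
      intro x _
      by_cases h1 : x ∈ ρ a ω.1
      · by_cases h2 : x ∈ σ b ω.2
        · rw [ind_pos (A := fun i => x ∈ ρ a i) h1, ind_pos (A := fun j => x ∈ σ b j) h2,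
            if_pos (mem_inter.2 ⟨h1, h2⟩)]; norm_num
        · rw [ind_neg (A := fun j => x ∈ σ b j) h2, if_neg (fun h => h2 (mem_inter.1 h).2),
            mul_zero]
      · rw [ind_neg (A := fun i => x ∈ ρ a i) h1, if_neg (fun h => h1 (mem_inter.1 h).1),
          zero_mul]
    rw [sum_congr rfl this, ← sum_filter, sum_const, nsmul_eq_mul, mul_one]
    congr 2
    ext x
    rw [mem_filter]
    exact ⟨fun h => h.2, fun h => ⟨hρ.sub a ha _ (mem_inter.1 h).1, h⟩⟩
  have hEX : (μ.prod ν).E X = m := by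
    rw [hX, E_sum, hm]
    apply sum_congr rfl
    intro x _
    rw [E_prod]
    simp only
    rw [show (fun i => ν.E (fun j => ind (fun i => x ∈ ρ a i) i * ind (fun j => x ∈ σ b j) j))
      = fun i => ind (fun i => x ∈ ρ a i) i * ν.P (fun j => x ∈ σ b j) from by
        funext i; rw [E_mul_left]; rfl]
    rw [E_mul_right]
    rfl
  have hEX2 : (μ.prod ν).E (fun ω => X ω ^ 2) ≤ ((μ.prod ν).E X) ^ 2 + m := by
    rw [hEX]
    have e1 : ∀ ω, X ω ^ 2 = ∑ x ∈ R, ∑ x' ∈ R,
        (ind (fun i => x ∈ ρ a i) ω.1 * ind (fun i => x' ∈ ρ a i) ω.1) *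
        (ind (fun j => x ∈ σ b j) ω.2 * ind (fun j => x' ∈ σ b j) ω.2) := by
      intro ω
      rw [sq, hX]
      simp only
      rw [sum_mul_sum]
      apply sum_congr rfl
      intro x _
      apply sum_congr rfl
      intro x' _
      ring
    rw [E_congr _ (fun ω _ => e1 ω), E_sum]
    have e2 : ∀ x ∈ R, (μ.prod ν).E (fun ω => ∑ x' ∈ R,
        (ind (fun i => x ∈ ρ a i) ω.1 * ind (fun i => x' ∈ ρ a i) ω.1) *
        (ind (fun j => x ∈ σ b j) ω.2 * ind (fun j => x' ∈ σ b j) ω.2)) ≤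
        (μ.P (fun i => x ∈ ρ a i) * ν.P (fun j => x ∈ σ b j)) +
        ∑ x' ∈ R, (μ.P (fun i => x ∈ ρ a i) * ν.P (fun j => x ∈ σ b j)) *
          (μ.P (fun i => x' ∈ ρ a i) * ν.P (fun j => x' ∈ σ b j)) := by
      intro x hx
      rw [E_sum]
      have e3 : ∀ x' ∈ R, (μ.prod ν).E (fun ω =>
          (ind (fun i => x ∈ ρ a i) ω.1 * ind (fun i => x' ∈ ρ a i) ω.1) *
          (ind (fun j => x ∈ σ b j) ω.2 * ind (fun j => x' ∈ σ b j) ω.2)) ≤
          (if x' = x then μ.P (fun i => x ∈ ρ a i) * ν.P (fun j => x ∈ σ b j) else 0) +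
          (μ.P (fun i => x ∈ ρ a i) * ν.P (fun j => x ∈ σ b j)) *
            (μ.P (fun i => x' ∈ ρ a i) * ν.P (fun j => x' ∈ σ b j)) := by
        intro x' hx'
        have e4 : (μ.prod ν).E (fun ω =>
          (ind (fun i => x ∈ ρ a i) ω.1 * ind (fun i => x' ∈ ρ a i) ω.1) *
          (ind (fun j => x ∈ σ b j) ω.2 * ind (fun j => x' ∈ σ b j) ω.2)) =
          μ.E (fun i => ind (fun i => x ∈ ρ a i) i * ind (fun i => x' ∈ ρ a i) i) *
          ν.E (fun j => ind (fun j => x ∈ σ b j) j * ind (fun j => x' ∈ σ b j) j) := by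
          rw [E_prod]
          simp only
          rw [← E_mul_right]
          congr 1
          funext i
          rw [E_mul_left]
        rw [e4]
        by_cases hxx : x' = x
        · rw [if_pos hxx, hxx]
          have h1 : ∀ i, ind (fun i => x ∈ ρ a i) i * ind (fun i => x ∈ ρ a i) i
              = ind (fun i => x ∈ ρ a i) i := by
            intro i
            by_cases h : x ∈ ρ a i
            · rw [ind_pos (A := fun i => x ∈ ρ a i) h]; norm_num
            · rw [ind_neg (A := fun i => x ∈ ρ a i) h]; norm_num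
          have h2 : ∀ j, ind (fun j => x ∈ σ b j) j * ind (fun j => x ∈ σ b j) j
              = ind (fun j => x ∈ σ b j) j := by
            intro j
            by_cases h : x ∈ σ b j
            · rw [ind_pos (A := fun j => x ∈ σ b j) h]; norm_num
            · rw [ind_neg (A := fun j => x ∈ σ b j) h]; norm_num
          rw [E_congr _ (fun i _ => h1 i), E_congr _ (fun j _ => h2 j)]
          have p1 := μ.P_nonneg (fun i => x ∈ ρ a i)
          have p2 := ν.P_nonneg (fun j => x ∈ σ b j)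
          have : μ.E (ind fun i => x ∈ ρ a i) = μ.P (fun i => x ∈ ρ a i) := rfl
          have e6 : ν.E (ind fun j => x ∈ σ b j) = ν.P (fun j => x ∈ σ b j) := rfl
          simp only [this, e6]
          have := mul_nonneg (mul_nonneg p1 p2) (mul_nonneg p1 p2)
          linarith
        · rw [if_neg hxx, zero_add, hρ.pair a ha x hx x' hx' (Ne.symm hxx),
            hσ.pair b hb x hx x' hx' (Ne.symm hxx)]
          apply le_of_eq
          ring
      refine (sum_le_sum e3).trans (le_of_eq ?_)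
      rw [sum_add_distrib, sum_ite_eq' R x, if_pos hx]
    refine (sum_le_sum e2).trans (le_of_eq ?_)
    rw [sum_add_distrib, ← hm]
    have : ∑ x ∈ R, ∑ x' ∈ R, (μ.P (fun i => x ∈ ρ a i) * ν.P (fun j => x ∈ σ b j)) *
          (μ.P (fun i => x' ∈ ρ a i) * ν.P (fun j => x' ∈ σ b j)) = m ^ 2 := by
      rw [sq, hm, sum_mul_sum]
    rw [this]; ring
  have hmpos : 0 < m := by linarith
  have hc := (μ.prod ν).cheb_lower X (V := m) (t := m / 2) (by positivity) hEX2
  rw [hEX] at hc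
  refine le_trans ?_ (hc.trans ?_)
  · apply P_mono
    intro ω _ h
    rw [hXcard]
    linarith
  · rw [div_le_div_iff₀ (by positivity) hs]
    nlinarith

/-- number of weak pairs -/
noncomputable def wk (P Q : Finset V) (ρ : V → ι → Finset V) (σ : V → κ → Finset V) (s : ℝ)
    (ω : ι × κ) : ℝ :=
  ∑ ab ∈ P ×ˢ Q, ind (fun ω : ι × κ => ((ρ ab.1 ω.1 ∩ σ ab.2 ω.2).card : ℝ) < s) ω

theorem weak_count (hρ : Rows μ P R ρ) (hσ : Rows ν Q R σ) {s : ℝ} (hs : 0 < s)
    (hμ : ∀ a ∈ P, ∀ b ∈ Q,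
      2 * s ≤ ∑ x ∈ R, μ.P (fun i => x ∈ ρ a i) * ν.P (fun j => x ∈ σ b j))
    {m t : ℝ} (hP : (P.card : ℝ) ≤ m) (hQ : (Q.card : ℝ) ≤ m) (ht : 0 < t) :
    (μ.prod ν).P (fun ω => 2 / s * m ^ 2 + t ≤ wk P Q ρ σ s ω) ≤ 2 * m ^ 3 / t ^ 2 := by
  have hm : 0 ≤ m := le_trans (Nat.cast_nonneg _) hP
  set B : V × V → ι × κ → Prop :=
    fun ab ω => ((ρ ab.1 ω.1 ∩ σ ab.2 ω.2).card : ℝ) < s with hB
  have hEW : (μ.prod ν).E (wk P Q ρ σ s) = ∑ ab ∈ P ×ˢ Q, (μ.prod ν).P (B ab) := by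
    unfold wk
    rw [E_sum]
    rfl
  have hEWle : (μ.prod ν).E (wk P Q ρ σ s) ≤ 2 / s * m ^ 2 := by
    rw [hEW]
    have : ∀ ab ∈ P ×ˢ Q, (μ.prod ν).P (B ab) ≤ 2 / s := by
      intro ab hab
      rw [mem_product] at hab
      exact weak_prob μ ν hρ hσ hab.1 hab.2 hs (hμ _ hab.1 _ hab.2)
    refine (sum_le_sum this).trans ?_
    rw [sum_const, card_product, nsmul_eq_mul]
    push_cast
    have h2 : 0 < 2 / s := by positivity
    have h3 : (P.card : ℝ) * Q.card ≤ m ^ 2 := by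
      rw [sq]; exact mul_le_mul hP hQ (Nat.cast_nonneg _) hm
    nlinarith
  -- independence
  have hind : ∀ a ∈ P, ∀ b ∈ Q, ∀ a' ∈ P, ∀ b' ∈ Q, a ≠ a' → b ≠ b' →
      (μ.prod ν).E (fun ω => ind (B (a, b)) ω * ind (B (a', b')) ω) =
        (μ.prod ν).P (B (a, b)) * (μ.prod ν).P (B (a', b')) := by
    intro a ha b hb a' ha' b' hb' hne hne'
    set φ : V → Finset V → Finset V → ℝ :=
      fun _ S T => ind (fun S : Finset V => (((S ∩ T).card : ℕ) : ℝ) < s) S with hφ
    have k1 : ∀ (c d : V) (ω : ι × κ), ind (B (c, d)) ω = φ c (ρ c ω.1) (σ d ω.2) := by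
      intro c d ω
      rw [hφ]
      exact ind_congr Iff.rfl
    have e1 : (μ.prod ν).E (fun ω => ind (B (a, b)) ω * ind (B (a', b')) ω)
        = μ.E (fun i => ν.E (fun j => φ a (ρ a i) (σ b j)) * ν.E (fun j => φ a' (ρ a' i) (σ b' j)))
        := by
      rw [E_prod]
      congr 1
      funext i
      have := hσ.rows b hb b' hb' hne' (fun T => φ a (ρ a i) T) (fun T => φ a' (ρ a' i) T)
      simp only [k1]
      exact this
    have e2 := hρ.rows a ha a' ha' hne (fun S => ν.E (fun j => φ a S (σ b j)))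
      (fun S => ν.E (fun j => φ a' S (σ b' j)))
    rw [e1, e2]
    have e3 : ∀ c d, (μ.prod ν).P (B (c, d)) = μ.E (fun i => ν.E (fun j => φ c (ρ c i) (σ d j))) := by
      intro c d
      show (μ.prod ν).E (ind (B (c, d))) = _
      rw [E_prod]
      congr 1
    rw [e3, e3]
  have hV : (μ.prod ν).E (fun ω => wk P Q ρ σ s ω ^ 2) ≤
      ((μ.prod ν).E (wk P Q ρ σ s)) ^ 2 + 2 * m ^ 3 := by
    have e1 : ∀ ω, wk P Q ρ σ s ω ^ 2 = ∑ ab ∈ P ×ˢ Q, ∑ cd ∈ P ×ˢ Q,
        ind (B ab) ω * ind (B cd) ω := by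
      intro ω
      rw [sq]
      unfold wk
      rw [sum_mul_sum]
    rw [E_congr _ (fun ω _ => e1 ω), E_sum, hEW, sq, sum_mul_sum]
    have e2 : ∀ ab ∈ P ×ˢ Q, (μ.prod ν).E (fun ω => ∑ cd ∈ P ×ˢ Q, ind (B ab) ω * ind (B cd) ω)
        ≤ ∑ cd ∈ P ×ˢ Q, ((μ.prod ν).P (B ab) * (μ.prod ν).P (B cd) +
          ((if cd.1 = ab.1 then 1 else 0) + (if cd.2 = ab.2 then 1 else 0))) := by
      intro ab hab
      rw [E_sum]
      apply sum_le_sum
      intro cd hcd
      rw [mem_product] at hab hcd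
      have p1 := (μ.prod ν).P_nonneg (B ab)
      have p2 := (μ.prod ν).P_nonneg (B cd)
      have p3 := mul_nonneg p1 p2
      have p4 : (μ.prod ν).E (fun ω => ind (B ab) ω * ind (B cd) ω) ≤ 1 := by
        have := (μ.prod ν).E_mono (F := fun ω => ind (B ab) ω * ind (B cd) ω) (G := fun _ => 1)
          (fun ω _ => mul_le_one₀ (ind_le_one _ _) (ind_nonneg _ _) (ind_le_one _ _))
        rwa [E_const] at this
      by_cases h1 : cd.1 = ab.1
      · rw [if_pos h1]
        have : (0 : ℝ) ≤ if cd.2 = ab.2 then 1 else 0 := by split_ifs <;> norm_num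
        linarith
      · by_cases h2 : cd.2 = ab.2
        · rw [if_neg h1, if_pos h2]; linarith
        · rw [if_neg h1, if_neg h2]
          have := hind ab.1 hab.1 ab.2 hab.2 cd.1 hcd.1 cd.2 hcd.2 (Ne.symm h1) (Ne.symm h2)
          rw [Prod.mk.eta, Prod.mk.eta] at this
          rw [this]; linarith
    refine (sum_le_sum e2).trans ?_
    simp only [sum_add_distrib]
    have e3 : ∑ ab ∈ P ×ˢ Q, ∑ cd ∈ P ×ˢ Q, (if cd.1 = ab.1 then (1 : ℝ) else 0) ≤ m ^ 3 := by
      have : ∀ ab ∈ P ×ˢ Q, ∑ cd ∈ P ×ˢ Q, (if cd.1 = ab.1 then (1 : ℝ) else 0) ≤ m := by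
        intro ab hab
        rw [mem_product] at hab
        rw [sum_product]
        have : ∀ c ∈ P, ∑ d ∈ Q, (if (c, d).1 = ab.1 then (1 : ℝ) else 0)
            = if c = ab.1 then (Q.card : ℝ) else 0 := by
          intro c _
          simp only
          split_ifs <;> simp
        rw [sum_congr rfl this, sum_ite_eq' P ab.1, if_pos hab.1]
        exact hQ
      refine (sum_le_sum this).trans ?_
      rw [sum_const, card_product, nsmul_eq_mul]
      push_cast
      have h3 : (P.card : ℝ) * Q.card ≤ m ^ 2 := by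
        rw [sq]; exact mul_le_mul hP hQ (Nat.cast_nonneg _) hm
      calc (P.card : ℝ) * Q.card * m ≤ m ^ 2 * m := mul_le_mul_of_nonneg_right h3 hm
        _ = m ^ 3 := by ring
    have e4 : ∑ ab ∈ P ×ˢ Q, ∑ cd ∈ P ×ˢ Q, (if cd.2 = ab.2 then (1 : ℝ) else 0) ≤ m ^ 3 := by
      have : ∀ ab ∈ P ×ˢ Q, ∑ cd ∈ P ×ˢ Q, (if cd.2 = ab.2 then (1 : ℝ) else 0) ≤ m := by
        intro ab hab
        rw [mem_product] at hab
        rw [sum_product]
        have : ∀ c ∈ P, ∑ d ∈ Q, (if (c, d).2 = ab.2 then (1 : ℝ) else 0) = 1 := by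
          intro c _
          simp only
          rw [sum_ite_eq' Q ab.2, if_pos hab.2]
        rw [sum_congr rfl this, sum_const, nsmul_eq_mul, mul_one]
        exact hP
      refine (sum_le_sum this).trans ?_
      rw [sum_const, card_product, nsmul_eq_mul]
      push_cast
      have h3 : (P.card : ℝ) * Q.card ≤ m ^ 2 := by
        rw [sq]; exact mul_le_mul hP hQ (Nat.cast_nonneg _) hm
      calc (P.card : ℝ) * Q.card * m ≤ m ^ 2 * m := mul_le_mul_of_nonneg_right h3 hm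
        _ = m ^ 3 := by ring
    linarith
  refine le_trans ?_ ((μ.prod ν).cheb_upper _ ht hV)
  apply P_mono
  intro ω _ h
  linarith

end

/-! ### rows from Bernoulli blocks -/

section Blocks

variable {V α : Type*} [DecidableEq V] [DecidableEq α]

/-- the random row of `a`: those `x ∈ R` whose block meets `Z` -/
def hit (R : Finset V) (L : V → V → Finset α) (a : V) (Z : Finset α) : Finset V :=
  R.filter (fun x => (Z ∩ L a x).Nonempty)

omit [DecidableEq V] in
theorem hit_P {Ω : Finset α} {q : ℝ} (h0 : 0 ≤ q) (h1 : q ≤ 1) {R : Finset V}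
    {L : V → V → Finset α} {a x : V} (hx : x ∈ R) (hL : L a x ⊆ Ω) :
    (bern Ω q h0 h1).P (fun Z => x ∈ hit R L a Z) = 1 - (1 - q) ^ (L a x).card := by
  have : (bern Ω q h0 h1).P (fun Z => x ∈ hit R L a Z)
      = (bern Ω q h0 h1).P (fun Z => ¬ (Z ∩ L a x = ∅)) := by
    unfold P
    apply E_congr
    intro Z _
    apply ind_congr
    unfold hit
    rw [mem_filter, nonempty_iff_ne_empty]
    tauto
  rw [this, P_not]
  congr 1
  exact Ex_avoid q _ hL

omit [DecidableEq V] in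
theorem rows_hit {Ω : Finset α} {q : ℝ} (h0 : 0 ≤ q) (h1 : q ≤ 1) {P R : Finset V}
    {L : V → V → Finset α}
    (hd : ∀ a ∈ P, ∀ a' ∈ P, ∀ x ∈ R, ∀ x' ∈ R, (a ≠ a' ∨ x ≠ x') →
      Disjoint (L a x) (L a' x')) :
    Rows (bern Ω q h0 h1) P R (hit R L) := by
  refine ⟨fun a _ Z => filter_subset _ _, ?_, ?_⟩
  · intro a ha x hx x' hx' hne
    rw [bern_E]
    have := Ex_indep Ω (L a x) (L a x') q (hd a ha a ha x hx x' hx' (Or.inr hne))
      (fun Z => ind (fun Z => x ∈ hit R L a Z) Z) (fun Z => ind (fun Z => x' ∈ hit R L a Z) Z)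
      (by
        intro Z
        apply ind_congr
        unfold hit
        rw [mem_filter, mem_filter, inter_assoc, inter_self])
      (by
        intro Z
        apply ind_congr
        unfold hit
        rw [mem_filter, mem_filter, inter_assoc, inter_self])
    exact this
  · intro a ha a' ha' hne f g
    rw [bern_E]
    have hcut : ∀ c Z, hit R L c Z = hit R L c (Z ∩ R.biUnion (L c)) := by
      intro c Z
      unfold hit
      apply filter_congr
      intro x hx
      have : Z ∩ R.biUnion (L c) ∩ L c x = Z ∩ L c x := by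
        rw [inter_assoc, inter_eq_right.2 (subset_biUnion_of_mem (L c) hx)]
      rw [this]
    have := Ex_indep Ω (R.biUnion (L a)) (R.biUnion (L a')) q (by
        rw [disjoint_biUnion_left]
        intro x hx
        rw [disjoint_biUnion_right]
        intro x' hx'
        exact hd a ha a' ha' x hx x' hx' (Or.inl hne))
      (fun Z => f (hit R L a Z)) (fun Z => g (hit R L a' Z))
      (fun Z => by rw [hcut a Z]) (fun Z => by rw [hcut a' Z])
    exact this

end Blocks

end Pool.Agent.H38.SC
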